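import Pool.Agent.SeaU.Cur
import Pool.Agent.NUGC.CurEx

/-!
# Bounds uniform in the sea: `NUGC/CurEx`, the curve of TARGET-C

`lip_curCU`, `bil_curCU` (no numbers of the sea), `exists_curCU`, `curOKCU`: the constants depend on the
numbers `SU` of the family only.
-/

set_option autoImplicit false
set_option linter.unusedSectionVars false

open MeasureTheory Set Filter Topology

namespace NUGC

open NUO NUCR
open NUSea (SeaBd SeaU)

noncomputable section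

variable {e1 J : ℝ} {m : ℕ}

/-- Lipschitz bound -/
theorem lip_curCU (he : 0 < e1) : ∃ C : ℝ, 0 ≤ C ∧ ∀ [NUSea.Sea], ∀ J : ℝ, 0 ≤ J → ∀ m : ℕ, e1 ≤ 1 / 100 →
    20 ≤ Tb (Real.log m) → ∀ s : ℝ, 0 < s → ∀ t t', |s * NUSea.P t * etaC e1 J m s t -
      s * NUSea.P t' * etaC e1 J m s t'| ≤ (aC + C * J / Tb (Real.log m)) * |t - t'| := by
  obtain ⟨C, hC0, H⟩ := hC_lip he
  refine ⟨C, hC0, fun J hJ m he1 hT s hs t t' => ?_⟩
  rw [mul_etaC hs, mul_etaC hs]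
  exact H J hJ m he1 hT t t'

/-- **the energy of the displacement** -/
theorem bil_curCU (he : 0 < e1) : ∃ C : ℝ, 0 ≤ C ∧ ∀ [NUSea.Sea], ∀ J : ℝ, 0 ≤ J → ∀ m : ℕ, e1 ≤ 1 / 100 →
    20 ≤ Tb (Real.log m) → ∀ s : ℝ, 0 < s →
      NUCR.bil (NUSea.hd s (etaC e1 J m s) (etaC' e1 J m s))
        (NUSea.hd s (etaC e1 J m s) (etaC' e1 J m s)) ≤
        9 * Real.pi ^ 2 / 32 * (∫ t, deriv (hC e1 J m) t ^ 2) ∧
      NUCR.bil (NUSea.hd s (etaC e1 J m s) (etaC' e1 J m s))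
        (NUSea.hd s (etaC e1 J m s) (etaC' e1 J m s)) - 12 * (Real.pi / 8) * hC e1 J m 0 ≤
        -((1 - e1) * Tb (Real.log m)) + C * (1 + J) ^ 2 := by
  obtain ⟨C, hC0, H⟩ := energyC he
  obtain ⟨C1, hC1, H1⟩ := hC_slope he
  refine ⟨C, hC0, fun J hJ m he1 hT s hs => ?_⟩
  rw [hd_curC hs]
  have hb : BI (aC + C1 * J / Tb (Real.log m)) (deriv (hC e1 J m)) :=
    ⟨(((hC_contDiff e1 J m 1).continuous_deriv le_rfl)).integrable_of_hasCompactSupport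
      (hC_cs he he1 hT).deriv, H1 J hJ m he1 hT⟩
  have h1 := bil_self_le hb
  unfold kap0 at h1
  exact ⟨h1, by linarith [H J hJ m he1 hT]⟩

/-- powers of the logarithm against powers of `m` -/
theorem log_pow_smallU (K a x : ℝ) (k : ℕ) (ha : 0 < a) (hx : 0 < x) : ∃ m0 : ℕ, ∀ m ≥ m0,
    K * (1 + Real.log m) ^ k * (m : ℝ) ^ (-a) ≤ x := by
  have h1 : Tendsto (fun m : ℕ => (m : ℝ)) atTop atTop := tendsto_natCast_atTop_atTop
  have h2 : (fun y : ℝ => (2 * Real.log y) ^ k) =o[atTop] fun y : ℝ => y ^ a := by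
    have := isLittleO_log_rpow_rpow_atTop (k : ℝ) ha
    have h3 := this.const_mul_left ((2 : ℝ) ^ k)
    refine h3.congr' ?_ EventuallyEq.rfl
    filter_upwards [eventually_ge_atTop (1 : ℝ)] with y hy
    rw [Real.rpow_natCast, mul_pow]
  have h3 : Tendsto (fun m : ℕ => (2 * Real.log (m : ℝ)) ^ k / (m : ℝ) ^ a) atTop (𝓝 0) :=
    h2.tendsto_div_nhds_zero.comp h1
  have h4 := h3.const_mul |K|
  rw [mul_zero] at h4
  have h5 := h4.eventually_le_const hx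
  have h6 := (Real.tendsto_log_atTop.comp h1).eventually_ge_atTop 1
  obtain ⟨m0, hm0⟩ := eventually_atTop.1 (h5.and (h6.and (eventually_ge_atTop 1)))
  refine ⟨m0, fun m hm => ?_⟩
  obtain ⟨b1, b2, b3⟩ := hm0 m hm
  have b2' : 1 ≤ Real.log (m : ℝ) := b2
  have hmp : (0 : ℝ) < m := by exact_mod_cast b3
  rw [Real.rpow_neg hmp.le, ← div_eq_mul_inv]
  have hma : 0 < (m : ℝ) ^ a := Real.rpow_pos_of_pos hmp _
  refine le_trans ?_ b1
  rw [mul_div_assoc']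
  refine div_le_div_of_nonneg_right ?_ hma.le
  have h7 : (1 + Real.log (m : ℝ)) ^ k ≤ (2 * Real.log (m : ℝ)) ^ k :=
    pow_le_pow_left₀ (by linarith) (by linarith) k
  calc K * (1 + Real.log (m : ℝ)) ^ k ≤ |K| * (1 + Real.log (m : ℝ)) ^ k :=
        mul_le_mul_of_nonneg_right (le_abs_self K) (by positivity)
    _ ≤ |K| * (2 * Real.log (m : ℝ)) ^ k := mul_le_mul_of_nonneg_left h7 (abs_nonneg _)

/-- **the displacement of TARGET-C is an admissible current** -/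
theorem exists_curCU (SU : SeaBd) (he : 0 < e1) (he1 : e1 ≤ 1 / 100) (hJ : 0 ≤ J) {x : ℝ} (hx : 0 < x) :
    ∃ C : ℝ, 1 ≤ C ∧ ∃ m0 : ℕ, 1 ≤ m0 ∧ ∀ m ≥ m0, 20 ≤ Tb (Real.log m) ∧
      ∀ [NUSea.Sea] [SeaU SU], ∀ s : ℝ, (m : ℝ) / 2 ≤ s → ∃ (ε : ℝ) (e : ℝ → ℝ),
        NUSea.Cur s ε (C * Real.log m) ((1 - e1) * Tb (Real.log m)) e (etaC e1 J m s) ∧
          0 ≤ ε ∧ ε ≤ (m : ℝ) ^ (-(e1 / 2)) ∧ ε ≤ x := by
  obtain ⟨C0, hC0, H0⟩ := NUSea.exists_curU SU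
  obtain ⟨C1, hC1, H1⟩ := hC_iter he
  obtain ⟨c, hc, hP⟩ := NUSea.le_PU SU
  obtain ⟨Q, hQ⟩ : ∃ Q, Q = C0 * (C1 * (1 + J)) := ⟨_, rfl⟩
  have hQ1 : 1 ≤ Q := by
    rw [hQ]
    have h1 : 1 ≤ C1 * (1 + J) := by nlinarith
    nlinarith
  obtain ⟨m1, hm1⟩ := log_pow_smallU (Q * (2 / c)) (e1 / 2) (min 1 x) 1 (by linarith)
    (lt_min one_pos hx)
  have h3 := (Real.tendsto_log_atTop.comp tendsto_natCast_atTop_atTop).eventually_ge_atTop
    (160 / 3 : ℝ)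
  obtain ⟨m2, hm2⟩ := eventually_atTop.1 h3
  refine ⟨Q, hQ1, max (max m1 m2) 1, le_max_right _ _, fun m hm => ?_⟩
  have a1 := hm1 m ((le_max_left _ _).trans ((le_max_left _ _).trans hm))
  have a2 : (160 / 3 : ℝ) ≤ Real.log m := hm2 m ((le_max_right _ _).trans ((le_max_left _ _).trans hm))
  have hm1 : 1 ≤ m := (le_max_right _ _).trans hm
  have hmp : (0 : ℝ) < m := by exact_mod_cast hm1
  have hT : 20 ≤ Tb (Real.log m) := by
    unfold Tb
    linarith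
  refine ⟨hT, fun s hs => ?_⟩
  have hs0 : 0 < s := by
    have : 0 < (m : ℝ) / 2 := by positivity
    linarith
  have hb0 : 0 ≤ (1 - e1) * Tb (Real.log m) := by nlinarith
  obtain ⟨e, he'⟩ := H0 s (C1 * (1 + J) * Real.log m) ((1 - e1) * Tb (Real.log m)) hs0 hb0
    (hC e1 J m) (hC_contDiff e1 J m 4) (H1 J hJ m he1 hT).1
    (fun t ht => hC_zero he he1 hT ht)
  have e2 : C0 * (C1 * (1 + J) * Real.log m) = Q * Real.log m := by
    rw [hQ]
    ring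
  rw [e2] at he'
  have hPb := NUSea.P_pos ((1 - e1) * Tb (Real.log m))
  have hL : 0 ≤ Real.log m := by linarith
  -- the size of the displacement
  have h6 : 0 < (m : ℝ) ^ (-(e1 / 2)) := Real.rpow_pos_of_pos hmp _
  have key : Q * Real.log m / (s * NUSea.P ((1 - e1) * Tb (Real.log m))) ≤
      min 1 x * (m : ℝ) ^ (-(e1 / 2)) := by
    have h1 := hP ((1 - e1) * Tb (Real.log m))
    rw [abs_of_nonneg hb0] at h1
    have e1' : Real.exp (-(8 / 3) * ((1 - e1) * Tb (Real.log m))) = (m : ℝ)⁻¹ * (m : ℝ) ^ e1 := by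
      have e2 : (m : ℝ)⁻¹ = Real.exp (-Real.log m) := by rw [Real.exp_neg, Real.exp_log hmp]
      rw [Real.rpow_def_of_pos hmp, e2, ← Real.exp_add]
      congr 1
      unfold Tb
      ring
    rw [e1'] at h1
    have hme : 0 < (m : ℝ) ^ e1 := Real.rpow_pos_of_pos hmp _
    have h2 : c / 2 * (m : ℝ) ^ e1 ≤ s * NUSea.P ((1 - e1) * Tb (Real.log m)) := by
      calc c / 2 * (m : ℝ) ^ e1 = (m : ℝ) / 2 * (c * ((m : ℝ)⁻¹ * (m : ℝ) ^ e1)) := by
            field_simp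
        _ ≤ _ := mul_le_mul hs h1 (by positivity) hs0.le
    have e3 : (m : ℝ) ^ (-(e1 / 2)) * (m : ℝ) ^ (-(e1 / 2)) * (m : ℝ) ^ e1 = 1 := by
      rw [← Real.rpow_add hmp, ← Real.rpow_add hmp,
        show -(e1 / 2) + -(e1 / 2) + e1 = 0 by ring, Real.rpow_zero]
    rw [div_le_iff₀ (by positivity)]
    have h7 : Q * (2 / c) * Real.log m * (m : ℝ) ^ (-(e1 / 2)) ≤ min 1 x := by
      refine le_trans ?_ a1
      rw [pow_one]
      have : 0 ≤ Q * (2 / c) := by positivity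
      refine mul_le_mul_of_nonneg_right ?_ h6.le
      exact mul_le_mul_of_nonneg_left (by linarith) this
    calc Q * Real.log m = (Q * (2 / c) * Real.log m * (m : ℝ) ^ (-(e1 / 2))) *
          (m : ℝ) ^ (-(e1 / 2)) * (c / 2 * (m : ℝ) ^ e1) := by
          have : Q * (2 / c) * Real.log m * (m : ℝ) ^ (-(e1 / 2)) * (m : ℝ) ^ (-(e1 / 2)) *
              (c / 2 * (m : ℝ) ^ e1) = Q * Real.log m * ((2 / c) * (c / 2)) *
              ((m : ℝ) ^ (-(e1 / 2)) * (m : ℝ) ^ (-(e1 / 2)) * (m : ℝ) ^ e1) := by ring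
          rw [this, e3]
          field_simp
      _ ≤ min 1 x * (m : ℝ) ^ (-(e1 / 2)) * (s * NUSea.P ((1 - e1) * Tb (Real.log m))) := by
          have : 0 ≤ min 1 x := (lt_min one_pos hx).le
          gcongr
  have hm1' : (m : ℝ) ^ (-(e1 / 2)) ≤ 1 :=
    Real.rpow_le_one_of_one_le_of_nonpos (by exact_mod_cast hm1) (by linarith)
  refine ⟨_, e, he', by positivity, key.trans ?_, key.trans ?_⟩
  · calc min 1 x * (m : ℝ) ^ (-(e1 / 2)) ≤ 1 * (m : ℝ) ^ (-(e1 / 2)) :=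
        mul_le_mul_of_nonneg_right (min_le_left _ _) h6.le
      _ = _ := one_mul _
  · calc min 1 x * (m : ℝ) ^ (-(e1 / 2)) ≤ x * 1 :=
        mul_le_mul (min_le_right _ _) hm1' h6.le hx.le
      _ = x := mul_one x

/-- **the curve of TARGET-C is admissible for the representation corollary** -/
theorem curOKCU (SU : SeaBd) (he : 0 < e1) (he1 : e1 ≤ 1 / 100) (hJ : 0 ≤ J) {ep : ℝ} (hep : 0 < ep) :
    ∃ m0 : ℕ, 1 ≤ m0 ∧ ∀ m ≥ m0, ∀ [NUSea.Sea] [SeaU SU], ∀ s : ℝ, (m : ℝ) / 2 ≤ s →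
      CurB ep (etaC e1 J m s) (etaC' e1 J m s) := by
  have hl := NUP1.l_pos
  obtain ⟨C, -, m0, hm0, H⟩ := exists_curCU SU he he1 hJ (x := ep * NUP1.l / 4) (by positivity)
  refine ⟨m0, hm0, fun m hm => ?_⟩
  intro _ _ s hs
  obtain ⟨ε, e, h1, -, -, h2⟩ := (H m hm).2 s hs
  exact curB_of_curS h1 h2 (etaC_hasDeriv e1 J m s)

end

end NUGC
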