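import Pool.Agent.NUSea.OCw
import Pool.Agent.NUSea.Clo

/-!
# Bounds uniform in the sea (helper79)

`SeaBd`: numbers; `SeaU B`: the sea satisfies the bounds of `class Sea` with these numbers.  Every existential
bound `foo` of the chain of a general sea gets a version `fooU B` with constants which depend on `B` only.
Here: the density (`NUSea/Sea`, `Clo`, `Disp`, `OCw`).
-/

set_option autoImplicit false
set_option linter.unusedSectionVars false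

open MeasureTheory Set Filter Topology Complex

namespace NUSea

open NUMF (l l_pos)
open NUAct

noncomputable section

/-- numbers of a family of seas -/
structure SeaBd where
  /-- derivatives of the density -/
  Cb : ℕ → ℝ → ℝ
  /-- lower bound of the density -/
  c0 : ℝ
  /-- growth of the fields -/
  K : ℝ
  Cb0 : ∀ n b, 0 ≤ Cb n b
  c0p : 0 < c0
  K0 : 0 ≤ K

/-- the sea satisfies the bounds -/
class SeaU (SU : SeaBd) [S : Sea] : Prop where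
  bd : ∀ (n : ℕ) (b : ℝ), 0 ≤ b → b < l / 2 → ∀ z : ℂ, |z.im| ≤ b →
    ‖iteratedDeriv n S.densc z‖ ≤ SU.Cb n b * Real.exp (-(8 / 3) * |z.re|)
  low : ∀ t : ℝ, SU.c0 * Real.exp (-(8 / 3) * |t|) ≤ S.dens t
  fs_gr : ∀ z : ℂ, |z.im| ≤ l / 4 → ‖S.fs z‖ ≤ SU.K * (1 + |z.re|)
  fx_gr : ∀ z : ℂ, |z.im| ≤ l / 4 → ‖S.fx z‖ ≤ SU.K * (1 + |z.re|)

theorem Pc_deriv_expU (SU : SeaBd) {b : ℝ} (hb0 : 0 ≤ b) (hb : b < l / 2) (n : ℕ) : ∃ C : ℝ, 0 ≤ C ∧
    ∀ [Sea] [SeaU SU], ∀ z : ℂ, |z.im| ≤ b → ‖iteratedDeriv n Pc z‖ ≤ C * Real.exp (-(8 / 3) * |z.re|) :=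
  ⟨SU.Cb n b, SU.Cb0 n b, @fun _ hS => hS.bd n b hb0 hb⟩

theorem le_PU (SU : SeaBd) : ∃ c : ℝ, 0 < c ∧ ∀ [Sea] [SeaU SU], ∀ t : ℝ,
    c * Real.exp (-(8 / 3) * |t|) ≤ P t := ⟨SU.c0, SU.c0p, @fun _ hS => hS.low⟩

theorem vs_grU (SU : SeaBd) : ∃ K : ℝ, 0 ≤ K ∧ ∀ [Sea] [SeaU SU], ∀ z : ℂ, |z.im| ≤ l / 4 →
    ‖vs z‖ ≤ K * (1 + |z.re|) := ⟨SU.K, SU.K0, @fun _ hS => hS.fs_gr⟩

theorem vx_grU (SU : SeaBd) : ∃ K : ℝ, 0 ≤ K ∧ ∀ [Sea] [SeaU SU], ∀ z : ℂ, |z.im| ≤ l / 4 →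
    ‖vx z‖ ≤ K * (1 + |z.re|) := ⟨SU.K, SU.K0, @fun _ hS => hS.fx_gr⟩

theorem P_leU (SU : SeaBd) : ∃ C : ℝ, 0 < C ∧ ∀ [Sea] [SeaU SU], ∀ t : ℝ, P t ≤ C * Real.exp (-(8 / 3) * |t|) := by
  obtain ⟨C, hC, h⟩ := Pc_deriv_expU SU (b := 0) le_rfl (by have := l_pos; linarith) 0
  refine ⟨C + 1, by positivity, fun t => ?_⟩
  have h1 := h t (by simp)
  rw [iteratedDeriv_zero, Pc_ofReal, Complex.norm_real, Real.norm_eq_abs, abs_of_pos (P_pos t),
    Complex.ofReal_re] at h1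
  have := Real.exp_pos (-(8 / 3) * |t|)
  nlinarith

/-- all derivatives of `Pc` are dominated by `P (Re z)` -/
theorem Pc_deriv_PU (SU : SeaBd) {b : ℝ} (hb0 : 0 ≤ b) (hb : b < l / 2) (n : ℕ) : ∃ C : ℝ, 0 ≤ C ∧
    ∀ [Sea] [SeaU SU], ∀ z : ℂ, |z.im| ≤ b → ‖iteratedDeriv n Pc z‖ ≤ C * P z.re := by
  obtain ⟨C, hC, h⟩ := Pc_deriv_expU SU hb0 hb n
  obtain ⟨c, hc, h'⟩ := le_PU SU
  refine ⟨C / c, by positivity, fun z hz => ?_⟩
  calc ‖iteratedDeriv n Pc z‖ ≤ C * Real.exp (-(8 / 3) * |z.re|) := h z hz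
    _ = C / c * (c * Real.exp (-(8 / 3) * |z.re|)) := by field_simp
    _ ≤ _ := by gcongr; exact h' _

/-- exponential weights -/
theorem P_comp_expU (SU : SeaBd) : ∃ c : ℝ, 0 < c ∧ ∀ [Sea] [SeaU SU], ∀ t u : ℝ, c * (Real.exp (-(8 / 3) * |t - u|) * P u) ≤ P t := by
  obtain ⟨C, hC, h1⟩ := P_leU SU
  obtain ⟨c, hc, h2⟩ := le_PU SU
  refine ⟨c / C, by positivity, fun t u => ?_⟩
  have h3 : |t| ≤ |t - u| + |u| := by
    have := abs_add_le (t - u) u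
    rwa [sub_add_cancel] at this
  have h4 : Real.exp (-(8 / 3) * |t - u|) * Real.exp (-(8 / 3) * |u|) ≤
      Real.exp (-(8 / 3) * |t|) := by
    rw [← Real.exp_add]
    exact Real.exp_le_exp.2 (by linarith)
  calc c / C * (Real.exp (-(8 / 3) * |t - u|) * P u) ≤
        c / C * (Real.exp (-(8 / 3) * |t - u|) * (C * Real.exp (-(8 / 3) * |u|))) := by
        gcongr
        exact h1 u
    _ = c * (Real.exp (-(8 / 3) * |t - u|) * Real.exp (-(8 / 3) * |u|)) := by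
        field_simp
    _ ≤ c * Real.exp (-(8 / 3) * |t|) := by gcongr
    _ ≤ _ := h2 t

/-- the density is comparable with that of the rows at `0` -/
theorem P_le_NUMFU (SU : SeaBd) : ∃ C : ℝ, 0 < C ∧ ∀ [Sea] [SeaU SU], ∀ t : ℝ, P t ≤ C * NUMF.P t := by
  obtain ⟨C, hC, h⟩ := P_leU SU
  obtain ⟨c, hcd⟩ : ∃ c : ℝ, c = 4 / (√3 * Real.pi) := ⟨_, rfl⟩
  have hc : 0 < c := by
    rw [hcd]
    have := Real.pi_pos
    positivity
  have h' : ∀ t : ℝ, c * Real.exp (-(8 / 3) * |t|) ≤ NUMF.P t := fun t => by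
    rw [hcd]
    exact NUMF.le_P t
  refine ⟨C / c, by positivity, fun t => (h t).trans ?_⟩
  calc C * Real.exp (-(8 / 3) * |t|) = C / c * (c * Real.exp (-(8 / 3) * |t|)) := by field_simp
    _ ≤ _ := mul_le_mul_of_nonneg_left (h' t) (by positivity)

theorem P_nearU (SU : SeaBd) : ∃ C : ℝ, 0 < C ∧ ∀ [Sea] [SeaU SU], ∀ t x : ℝ, |x - t| ≤ 1 → P x ≤ C * P t := by
  obtain ⟨c, hc, h⟩ := P_comp_expU SU
  refine ⟨Real.exp (8 / 3) / c, by positivity, fun t x hx => ?_⟩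
  have h1 := h t x
  have h2 : Real.exp (-(8 / 3)) ≤ Real.exp (-(8 / 3) * |t - x|) := by
    refine Real.exp_le_exp.2 ?_
    rw [abs_sub_comm] at hx
    linarith
  have h3 : c * (Real.exp (-(8 / 3)) * P x) ≤ P t := by
    refine le_trans ?_ h1
    have := (P_pos x).le
    gcongr
  have h4 : Real.exp (8 / 3) * Real.exp (-(8 / 3)) = 1 := by
    rw [← Real.exp_add]; simp
  calc P x = Real.exp (8 / 3) * Real.exp (-(8 / 3)) * P x := by rw [h4, one_mul]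
    _ = Real.exp (8 / 3) / c * (c * (Real.exp (-(8 / 3)) * P x)) := by
        field_simp
    _ ≤ _ := by gcongr

/-- all derivatives up to the third are `O(P t)` near `t` -/
theorem Pn_bdU (SU : SeaBd) (n : ℕ) : ∃ C : ℝ, 0 < C ∧ ∀ [Sea] [SeaU SU], ∀ (t : ℝ) (z : ℂ), ‖z‖ ≤ 1 / 20 →
    ‖iteratedDeriv n Pc (t + z)‖ ≤ C * P t := by
  have hl := l_pos
  obtain ⟨C, hC0, hC⟩ := Pc_deriv_PU SU (b := l / 7) (by linarith) (by linarith) n
  obtain ⟨C', hC'0, hC'⟩ := P_nearU SU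
  refine ⟨(C + 1) * C', by positivity, fun t z hz => ?_⟩
  have h1 := Complex.abs_im_le_norm z
  have h2 := Complex.abs_re_le_norm z
  have h3 := l7
  have h4 := hC (t + z) (by
    have e : ((t : ℂ) + z).im = z.im := by simp
    rw [e]; linarith)
  have h5 := hC' t ((t : ℂ) + z).re (by
    have e : ((t : ℂ) + z).re - t = z.re := by simp
    rw [e]; linarith)
  have hp := (P_pos ((t : ℂ) + z).re).le
  have hp' := (P_pos t).le
  calc _ ≤ C * P ((t : ℂ) + z).re := h4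
    _ ≤ (C + 1) * (C' * P t) := by
        refine mul_le_mul (by linarith) h5 hp (by linarith)
    _ = _ := by ring

/-- first order -/
theorem tay1U (SU : SeaBd) (n : ℕ) : ∃ C : ℝ, 0 < C ∧ ∀ [Sea] [SeaU SU], ∀ (t : ℝ) (z : ℂ), ‖z‖ ≤ 1 / 20 →
    ‖iteratedDeriv n Pc (t + z) - iteratedDeriv n Pc t‖ ≤ C * P t * ‖z‖ := by
  obtain ⟨C, hC0, hC⟩ := Pn_bdU SU (n + 1)
  refine ⟨C, hC0, fun t z hz => ?_⟩
  have h1 := Convex.norm_image_sub_le_of_norm_hasDerivWithin_le (f := iteratedDeriv n Pc)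
    (f' := iteratedDeriv (n + 1) Pc) (C := C * P t) (s := Metric.closedBall (t : ℂ) (1 / 20))
    (x := (t : ℂ)) (y := t + z)
    (fun w hw => (hasDerivAt_iter n (ball_strip (by simpa [dist_eq_norm] using hw))).hasDerivWithinAt)
    (fun w hw => by
      have := hC t (w - t) (by simpa [dist_eq_norm] using hw)
      rwa [add_sub_cancel] at this)
    (convex_closedBall _ _) (by simp) (by simpa using hz)
  rwa [add_sub_cancel_left] at h1

/-- second order -/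
theorem tay2U (SU : SeaBd) (n : ℕ) : ∃ C : ℝ, 0 < C ∧ ∀ [Sea] [SeaU SU], ∀ (t : ℝ) (z : ℂ), ‖z‖ ≤ 1 / 20 →
    ‖iteratedDeriv n Pc (t + z) - iteratedDeriv n Pc t - iteratedDeriv (n + 1) Pc t * z‖ ≤
      C * P t * ‖z‖ ^ 2 := by
  obtain ⟨C, hC0, hC⟩ := tay1U SU (n + 1)
  refine ⟨C, hC0, fun t z hz => ?_⟩
  have hp := (P_pos t).le
  have h1 := Convex.norm_image_sub_le_of_norm_hasDerivWithin_le
    (f := fun w => iteratedDeriv n Pc w - iteratedDeriv (n + 1) Pc t * w)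
    (f' := fun w => iteratedDeriv (n + 1) Pc w - iteratedDeriv (n + 1) Pc t)
    (C := C * P t * ‖z‖) (s := Metric.closedBall (t : ℂ) ‖z‖)
    (x := (t : ℂ)) (y := t + z)
    (fun w hw => by
      have hw' : ‖w - t‖ ≤ ‖z‖ := by simpa [dist_eq_norm] using hw
      have h2 := (hasDerivAt_iter n (ball_strip (hw'.trans hz)))
      have h3 := (hasDerivAt_id w).const_mul (iteratedDeriv (n + 1) Pc t)
      rw [mul_one] at h3
      exact (h2.sub h3).hasDerivWithinAt)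
    (fun w hw => by
      have hw' : ‖w - t‖ ≤ ‖z‖ := by simpa [dist_eq_norm] using hw
      have := hC t (w - t) (hw'.trans hz)
      rw [add_sub_cancel] at this
      exact this.trans (mul_le_mul_of_nonneg_left hw' (by positivity)))
    (convex_closedBall _ _) (by simp) (by simp)
  have e : iteratedDeriv n Pc (t + z) - iteratedDeriv (n + 1) Pc t * (t + z) -
      (iteratedDeriv n Pc t - iteratedDeriv (n + 1) Pc t * t) =
      iteratedDeriv n Pc (t + z) - iteratedDeriv n Pc t - iteratedDeriv (n + 1) Pc t * z := by ring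
  rw [e, add_sub_cancel_left] at h1
  calc _ ≤ C * P t * ‖z‖ * ‖z‖ := h1
    _ = _ := by ring

/-- **sizes** -/
theorem dens_bdU (SU : SeaBd) : ∃ C : ℝ, 0 < C ∧ ∀ [Sea] [SeaU SU], ∀ (s ε M R : ℝ) (δ δ1 δ2 : ℝ → ℂ), 0 ≤ s → 0 ≤ M →
    Disp s ε M R δ δ1 δ2 → ε ≤ 1 / 20 → ∀ t,
    ‖af s δ δ1 t‖ ≤ C * M ∧ ‖af1 s δ δ1 δ2 t‖ ≤ C * M ∧
    ‖Bf s δ δ1 t - af s δ δ1 t‖ ≤ C * M * ε ∧
    ‖Bf1 s δ δ1 δ2 t - af1 s δ δ1 δ2 t‖ ≤ C * M * ε ∧
    (R ≤ |t| → af s δ δ1 t = 0 ∧ af1 s δ δ1 δ2 t = 0 ∧ Bf s δ δ1 t = 0 ∧ Bf1 s δ δ1 δ2 t = 0) := by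
  obtain ⟨C0, h0, H0⟩ := Pn_bdU SU 0
  obtain ⟨C1, h1, H1⟩ := Pn_bdU SU 1
  obtain ⟨C2, h2, H2⟩ := Pn_bdU SU 2
  obtain ⟨D0, k0, T0⟩ := tay1U SU 0
  obtain ⟨D1, k1, T1⟩ := tay1U SU 1
  obtain ⟨E0, q0, S0⟩ := tay2U SU 0
  obtain ⟨E1, q1, S1⟩ := tay2U SU 1
  simp only [iteratedDeriv_zero, zero_add] at H0 T0 S0
  refine ⟨1 + 3 * (C0 + C1 + C2) + 4 * (D0 + D1 + E0 + E1), by positivity,
    fun s ε M R δ δ1 δ2 hs hM D hε t => ?_⟩
  have hp := (P_pos t).le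
  have hsp : 0 ≤ s * P t := mul_nonneg hs hp
  have hε0 := D.ε0
  have e0 := D.e0 t
  have e1 := D.e1 t
  have e2 := D.e2 t
  have m0 := D.m0 t
  have m1 := D.m1 t
  have m2 := D.m2 t
  have n0 := norm_nonneg (δ t)
  have n1 := norm_nonneg (δ1 t)
  have n2 := norm_nonneg (δ2 t)
  have z0 : ‖(0:ℂ)‖ ≤ 1 / 20 := by simp
  have b0 := H0 t 0 z0
  have b1 := H1 t 0 z0
  have b2 := H2 t 0 z0
  rw [add_zero] at b0 b1 b2
  have hns : ‖(s : ℂ)‖ = s := by rw [Complex.norm_real, Real.norm_eq_abs, abs_of_nonneg hs]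
  -- products
  have pm0 : s * (C0 * P t * ‖δ t‖) ≤ C0 * M := by
    calc s * (C0 * P t * ‖δ t‖) = C0 * (s * P t * ‖δ t‖) := by ring
      _ ≤ _ := by gcongr
  have g0 : ∀ C : ℝ, 0 < C → s * (C * P t * ‖δ t‖) ≤ C * M := fun C hC => by
    calc s * (C * P t * ‖δ t‖) = C * (s * P t * ‖δ t‖) := by ring
      _ ≤ _ := by gcongr
  have g1 : ∀ C : ℝ, 0 < C → s * (C * P t * ‖δ1 t‖) ≤ C * M := fun C hC => by
    calc s * (C * P t * ‖δ1 t‖) = C * (s * P t * ‖δ1 t‖) := by ring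
      _ ≤ _ := by gcongr
  have g2 : ∀ C : ℝ, 0 < C → s * (C * P t * ‖δ2 t‖) ≤ C * M := fun C hC => by
    calc s * (C * P t * ‖δ2 t‖) = C * (s * P t * ‖δ2 t‖) := by ring
      _ ≤ _ := by gcongr
  -- products of two displacements
  have w : ∀ C x y : ℝ, 0 < C → 0 ≤ x → 0 ≤ y → s * P t * x ≤ M → y ≤ ε →
      s * (C * P t * x * y) ≤ C * M * ε := fun C x y hC hx hy hxM hyε => by
    calc s * (C * P t * x * y) = C * ((s * P t * x) * y) := by ring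
      _ ≤ C * (M * ε) := by
          refine mul_le_mul_of_nonneg_left ?_ hC.le
          exact mul_le_mul hxM hyε hy hM
      _ = _ := by ring
  refine ⟨?_, ?_, ?_, ?_, ?_⟩
  · -- `af`
    unfold af
    rw [norm_mul, hns]
    have a1 : ‖iteratedDeriv 1 Pc t * δ t + Pc t * δ1 t‖ ≤ C1 * P t * ‖δ t‖ + C0 * P t * ‖δ1 t‖ := by
      refine (norm_add_le _ _).trans ?_
      rw [norm_mul, norm_mul]
      gcongr
    calc s * ‖iteratedDeriv 1 Pc t * δ t + Pc t * δ1 t‖ ≤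
          s * (C1 * P t * ‖δ t‖ + C0 * P t * ‖δ1 t‖) := by gcongr
      _ = s * (C1 * P t * ‖δ t‖) + s * (C0 * P t * ‖δ1 t‖) := by ring
      _ ≤ C1 * M + C0 * M := add_le_add (g0 C1 h1) (g1 C0 h0)
      _ ≤ _ := by nlinarith
  · unfold af1
    rw [norm_mul, hns]
    have a1 : ‖(iteratedDeriv 2 Pc t * δ t + iteratedDeriv 1 Pc t * δ1 t) +
        (iteratedDeriv 1 Pc t * δ1 t + Pc t * δ2 t)‖ ≤
        (C2 * P t * ‖δ t‖ + C1 * P t * ‖δ1 t‖) + (C1 * P t * ‖δ1 t‖ + C0 * P t * ‖δ2 t‖) := by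
      refine (norm_add_le _ _).trans (add_le_add ?_ ?_)
      · refine (norm_add_le _ _).trans ?_
        rw [norm_mul, norm_mul]
        gcongr
      · refine (norm_add_le _ _).trans ?_
        rw [norm_mul, norm_mul]
        gcongr
    calc _ ≤ s * ((C2 * P t * ‖δ t‖ + C1 * P t * ‖δ1 t‖) +
          (C1 * P t * ‖δ1 t‖ + C0 * P t * ‖δ2 t‖)) := by gcongr
      _ = s * (C2 * P t * ‖δ t‖) + s * (C1 * P t * ‖δ1 t‖) + s * (C1 * P t * ‖δ1 t‖) +
          s * (C0 * P t * ‖δ2 t‖) := by ring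
      _ ≤ C2 * M + C1 * M + C1 * M + C0 * M := by
          have := g0 C2 h2
          have := g1 C1 h1
          have := g2 C0 h0
          linarith
      _ ≤ _ := by nlinarith
  · -- `Bf - af`
    have a1 := S0 t (δ t) (e0.trans hε)
    have a2 := T0 t (δ t) (e0.trans hε)
    have e : Bf s δ δ1 t - af s δ δ1 t = (s : ℂ) * ((Pc (t + δ t) - Pc t - iteratedDeriv 1 Pc t * δ t) +
        (Pc (t + δ t) - Pc t) * δ1 t) := by
      unfold Bf af zt zd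
      rw [Complex.ofReal_mul, ← Pc_ofReal]
      ring
    rw [e, norm_mul, hns]
    have a3 : ‖(Pc (t + δ t) - Pc t - iteratedDeriv 1 Pc t * δ t) + (Pc (t + δ t) - Pc t) * δ1 t‖ ≤
        E0 * P t * ‖δ t‖ ^ 2 + D0 * P t * ‖δ t‖ * ‖δ1 t‖ := by
      refine (norm_add_le _ _).trans (add_le_add a1 ?_)
      rw [norm_mul]
      gcongr
    calc _ ≤ s * (E0 * P t * ‖δ t‖ ^ 2 + D0 * P t * ‖δ t‖ * ‖δ1 t‖) := by gcongr
      _ = s * (E0 * P t * ‖δ t‖ * ‖δ t‖) + s * (D0 * P t * ‖δ t‖ * ‖δ1 t‖) := by ring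
      _ ≤ E0 * M * ε + D0 * M * ε :=
          add_le_add (w E0 _ _ q0 n0 n0 m0 e0) (w D0 _ _ k0 n0 n1 m0 e1)
      _ ≤ _ := by
          have : 0 ≤ M * ε := mul_nonneg hM hε0
          nlinarith
  · have a1 := S1 t (δ t) (e0.trans hε)
    have a2 := T1 t (δ t) (e0.trans hε)
    have a3 := H1 t (δ t) (e0.trans hε)
    have a4 := T0 t (δ t) (e0.trans hε)
    have e : Bf1 s δ δ1 δ2 t - af1 s δ δ1 δ2 t = (s : ℂ) *
        ((((iteratedDeriv 1 Pc (t + δ t) - iteratedDeriv 1 Pc t - iteratedDeriv 2 Pc t * δ t) +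
        2 * ((iteratedDeriv 1 Pc (t + δ t) - iteratedDeriv 1 Pc t) * δ1 t)) +
        iteratedDeriv 1 Pc (t + δ t) * (δ1 t * δ1 t)) + (Pc (t + δ t) - Pc t) * δ2 t) := by
      unfold Bf1 af1 zt zd
      ring
    rw [e, norm_mul, hns]
    have a5 : ‖((((iteratedDeriv 1 Pc (t + δ t) - iteratedDeriv 1 Pc t - iteratedDeriv 2 Pc t * δ t) +
        2 * ((iteratedDeriv 1 Pc (t + δ t) - iteratedDeriv 1 Pc t) * δ1 t)) +
        iteratedDeriv 1 Pc (t + δ t) * (δ1 t * δ1 t)) + (Pc (t + δ t) - Pc t) * δ2 t)‖ ≤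
        E1 * P t * ‖δ t‖ ^ 2 + 2 * (D1 * P t * ‖δ t‖ * ‖δ1 t‖) + C1 * P t * (‖δ1 t‖ * ‖δ1 t‖) +
          D0 * P t * ‖δ t‖ * ‖δ2 t‖ := by
      refine (norm_add_le _ _).trans (add_le_add ((norm_add_le _ _).trans (add_le_add
        ((norm_add_le _ _).trans (add_le_add a1 ?_)) ?_)) ?_)
      · rw [norm_mul, Complex.norm_ofNat, norm_mul]
        gcongr
      · rw [norm_mul, norm_mul]
        gcongr
      · rw [norm_mul]
        gcongr
    calc _ ≤ s * (E1 * P t * ‖δ t‖ ^ 2 + 2 * (D1 * P t * ‖δ t‖ * ‖δ1 t‖) +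
          C1 * P t * (‖δ1 t‖ * ‖δ1 t‖) + D0 * P t * ‖δ t‖ * ‖δ2 t‖) := by gcongr
      _ = s * (E1 * P t * ‖δ t‖ * ‖δ t‖) + 2 * (s * (D1 * P t * ‖δ t‖ * ‖δ1 t‖)) +
          s * (C1 * P t * ‖δ1 t‖ * ‖δ1 t‖) + s * (D0 * P t * ‖δ t‖ * ‖δ2 t‖) := by ring
      _ ≤ E1 * M * ε + 2 * (D1 * M * ε) + C1 * M * ε + D0 * M * ε := by
          have := w E1 _ _ q1 n0 n0 m0 e0
          have := w D1 _ _ k1 n0 n1 m0 e1
          have := w C1 _ _ h1 n1 n1 m1 e1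
          have := w D0 _ _ k0 n0 n2 m0 e2
          linarith
      _ ≤ _ := by
          have : 0 ≤ M * ε := mul_nonneg hM hε0
          nlinarith
  · intro hR
    obtain ⟨f0, f1, f2⟩ := D.supp t hR
    unfold af af1 Bf Bf1 zt zd
    rw [f0, f1, f2]
    simp only [add_zero]
    refine ⟨by ring, by ring, ?_, by ring⟩
    rw [Pc_ofReal]
    push_cast
    ring

theorem Pr_OCU (SU : SeaBd) (j : ℕ) : ∀ k : ℕ, ∃ C : ℝ, 0 < C ∧
    ∀ [Sea] [SeaU SU], OC j (fun t => C * P t) fun t => iteratedDeriv k Pc (t : ℂ) := by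
  induction j with
  | zero =>
    intro k
    obtain ⟨C, hC, h⟩ := Pn_bdU SU k
    refine ⟨C, hC, ⟨continuous_iff_continuousAt.2 fun x => (hasDerivAt_real k x).continuousAt,
      fun t => ?_⟩⟩
    have := h t 0 (by simp)
    rwa [add_zero] at this
  | succ j ih =>
    intro k
    obtain ⟨C, hC, h⟩ := Pn_bdU SU k
    obtain ⟨C', hC', h'⟩ := ih (k + 1)
    refine ⟨C + C', by positivity, ⟨fun t => ?_, fun t => iteratedDeriv (k + 1) Pc (t : ℂ),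
      hasDerivAt_real k, h'.mono fun t => ?_⟩⟩
    · have := h t 0 (by simp)
      rw [add_zero] at this
      have := P_pos t
      nlinarith
    · have := P_pos t
      nlinarith

theorem Tn_OCU (SU : SeaBd) (j : ℕ) : ∀ k : ℕ, ∃ C : ℝ, 0 < C ∧ ∀ [Sea] [SeaU SU], ∀ {e : ℝ → ℝ} {δ : ℝ → ℂ}, OC j e δ →
    (∀ t, e t ≤ 1 / 20) → OC j (fun t => C * (P t * e t)) (Tn k δ) := by
  induction j with
  | zero =>
    intro k
    obtain ⟨C, hC, h⟩ := tay1U SU k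
    refine ⟨C, hC, fun [_] [_] {e δ} hδ he => ⟨?_, fun t => ?_⟩⟩
    · exact (cont_PcD k hδ.cont fun t => (hδ.le t).trans (he t)).sub (Pr_OC 0 k).choose_spec.2.cont
    · refine (h t (δ t) ((hδ.le t).trans (he t))).trans ?_
      have := P_pos t
      have := hδ.le t
      calc C * P t * ‖δ t‖ ≤ C * P t * e t := by gcongr
        _ = _ := by ring
  | succ j ih =>
    intro k
    obtain ⟨C, hC, h⟩ := tay1U SU k
    obtain ⟨C', hC', h'⟩ := ih (k + 1)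
    obtain ⟨C2, hC2, h2⟩ := Pr_OCU SU j (k + 1)
    refine ⟨C + (2 ^ j * (C' * 2) + 2 ^ j * C2), by positivity, fun [_] [_] {e δ} hδ he => ?_⟩
    have hδl := hδ.lower
    have hsm : ∀ t, ‖δ t‖ ≤ 1 / 20 := fun t => (hδ.le t).trans (he t)
    have he0 := hδ.nonneg
    obtain ⟨d0, δ1, d1, d2⟩ := hδ
    refine ⟨fun t => ?_, fun t => Tn (k + 1) δ t * (1 + δ1 t) + δ1 t * iteratedDeriv (k + 1) Pc t,
      fun t => ?_, ?_⟩
    · refine (h t (δ t) (hsm t)).trans ?_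
      have hp := P_pos t
      have h0 : 0 ≤ P t * e t := mul_nonneg hp.le (he0 t)
      calc C * P t * ‖δ t‖ ≤ C * P t * e t := by
            have := d0 t
            gcongr
        _ = C * (P t * e t) := by ring
        _ ≤ _ := by
            refine mul_le_mul_of_nonneg_right ?_ h0
            have : 0 ≤ 2 ^ j * (C' * 2) + 2 ^ j * C2 := by positivity
            linarith
    · have h3 := (hasDerivAt_PcD k d1 hsm t).sub (hasDerivAt_real k t)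
      refine h3.congr_deriv ?_
      unfold Tn
      ring
    · have e1 : OC j (fun _ => (2:ℝ)) fun t => 1 + δ1 t := by
        have := (OC.const j (e := fun _ => (1:ℝ)) (c := 1) (by simp)).add d2
        refine this.mono fun t => ?_
        have := he t
        linarith
      have e2 := ((h' hδl he).mul e1).add (d2.mul h2)
      refine e2.mono fun t => ?_
      have hp := P_pos t
      have h0 : 0 ≤ P t * e t := mul_nonneg hp.le (he0 t)
      have h1 : 0 ≤ C * (P t * e t) := by positivity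
      calc 2 ^ j * (C' * (P t * e t) * 2) + 2 ^ j * (e t * (C2 * P t)) =
            (2 ^ j * (C' * 2) + 2 ^ j * C2) * (P t * e t) := by ring
        _ ≤ _ := by rw [add_mul C]; linarith

theorem Sn_OCU (SU : SeaBd) (j : ℕ) : ∀ k : ℕ, ∃ C : ℝ, 0 < C ∧ ∀ [Sea] [SeaU SU], ∀ {e : ℝ → ℝ} {δ : ℝ → ℂ}, OC j e δ →
    (∀ t, e t ≤ 1 / 20) → OC j (fun t => C * (P t * e t ^ 2)) (Sn k δ) := by
  induction j with
  | zero =>
    intro k
    obtain ⟨C, hC, h⟩ := tay2U SU k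
    refine ⟨C, hC, fun [_] [_] {e δ} hδ he => ⟨?_, fun t => ?_⟩⟩
    · exact ((cont_PcD k hδ.cont fun t => (hδ.le t).trans (he t)).sub
        (Pr_OC 0 k).choose_spec.2.cont).sub ((Pr_OC 0 (k + 1)).choose_spec.2.cont.mul hδ.cont)
    · refine (h t (δ t) ((hδ.le t).trans (he t))).trans ?_
      have := P_pos t
      have := hδ.le t
      calc C * P t * ‖δ t‖ ^ 2 ≤ C * P t * e t ^ 2 := by gcongr
        _ = _ := by ring
  | succ j ih =>
    intro k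
    obtain ⟨C, hC, h⟩ := tay2U SU k
    obtain ⟨C', hC', h'⟩ := ih (k + 1)
    obtain ⟨C2, hC2, h2⟩ := Tn_OCU SU j (k + 1)
    refine ⟨C + (C' + 2 ^ j * C2), by positivity, fun [_] [_] {e δ} hδ he => ?_⟩
    have hδl := hδ.lower
    have hsm : ∀ t, ‖δ t‖ ≤ 1 / 20 := fun t => (hδ.le t).trans (he t)
    have he0 := hδ.nonneg
    obtain ⟨d0, δ1, d1, d2⟩ := hδ
    refine ⟨fun t => ?_, fun t => Sn (k + 1) δ t + δ1 t * Tn (k + 1) δ t, fun t => ?_, ?_⟩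
    · refine (h t (δ t) (hsm t)).trans ?_
      have hp := P_pos t
      have h0 : 0 ≤ P t * e t ^ 2 := by positivity
      calc C * P t * ‖δ t‖ ^ 2 ≤ C * P t * e t ^ 2 := by
            have := d0 t
            gcongr
        _ = C * (P t * e t ^ 2) := by ring
        _ ≤ _ := by
            refine mul_le_mul_of_nonneg_right ?_ h0
            have : 0 ≤ C' + 2 ^ j * C2 := by positivity
            linarith
    · have h3 := ((hasDerivAt_PcD k d1 hsm t).sub (hasDerivAt_real k t)).sub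
        ((hasDerivAt_real (k + 1) t).mul (d1 t))
      refine h3.congr_deriv ?_
      unfold Sn Tn
      ring
    · have e2 := (h' hδl he).add (d2.mul (h2 hδl he))
      refine e2.mono fun t => ?_
      have hp := P_pos t
      have h0 : 0 ≤ P t * e t ^ 2 := by positivity
      have h1 : 0 ≤ C * (P t * e t ^ 2) := by positivity
      calc C' * (P t * e t ^ 2) + 2 ^ j * (e t * (C2 * (P t * e t))) =
            (C' + 2 ^ j * C2) * (P t * e t ^ 2) := by ring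
        _ ≤ _ := by rw [add_mul C]; linarith

theorem Br_OCU (SU : SeaBd) (j : ℕ) : ∃ C : ℝ, 0 < C ∧ ∀ [Sea] [SeaU SU], ∀ {s : ℝ} {e : ℝ → ℝ} {δ δ1 : ℝ → ℂ}, 0 ≤ s →
    (∀ t, HasDerivAt δ (δ1 t) t) → OC j e δ → OC j e δ1 →
    (∀ t, e t ≤ 1 / 20) → OC j (fun t => C * (s * P t * e t ^ 2)) (Br s δ δ1) := by
  obtain ⟨C1, h1, H1⟩ := Sn_OCU SU j 0
  obtain ⟨C2, h2, H2⟩ := Tn_OCU SU j 0
  refine ⟨C1 + 2 ^ j * C2, by positivity, fun [_] [_] {s e δ δ1} hs _ h h' he => ?_⟩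
  have := (((H1 h he).add (h'.mul (H2 h he))).smul (s : ℂ))
  refine this.mono fun t => le_of_eq ?_
  rw [Complex.norm_real, Real.norm_eq_abs, abs_of_nonneg hs]
  ring

theorem af_OCU (SU : SeaBd) (j : ℕ) : ∃ C : ℝ, 0 < C ∧ ∀ [Sea] [SeaU SU], ∀ {s : ℝ} {e : ℝ → ℝ} {δ δ1 : ℝ → ℂ}, 0 ≤ s →
    OC j e δ → OC j e δ1 → OC j (fun t => C * (s * P t * e t)) (af s δ δ1) := by
  obtain ⟨C1, h1, H1⟩ := Pr_OCU SU j 1
  obtain ⟨C0, h0, H0⟩ := Pr_OCU SU j 0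
  simp only [iteratedDeriv_zero] at H0
  refine ⟨2 ^ j * (C1 + C0), by positivity, fun [_] [_] {s e δ δ1} hs h h' => ?_⟩
  have := (((H1.mul h).add (H0.mul h')).smul (s : ℂ))
  refine this.mono fun t => le_of_eq ?_
  rw [Complex.norm_real, Real.norm_eq_abs, abs_of_nonneg hs]
  ring


end

end NUSea
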