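import Pool.Agent.NUSea.Bfin
import Pool.Agent.SeaU.Base

/-!
# Bounds uniform in the sea: `NUSea/Bfin`

Copies of the existential bounds of `NUSea/Bfin` with constants which depend on `SU : SeaBd` only.
-/

set_option autoImplicit false
set_option linter.unusedSectionVars false
set_option linter.unusedVariables false

open MeasureTheory Set Filter Topology Complex

namespace NUSea

open NUMF (l l_pos)
open NUAct NUKer

noncomputable section

variable {s ε M b : ℝ} {e η η1 : ℝ → ℝ}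

/-- **the transported density** -/
theorem exists_BBU (SU : SeaBd) : ∃ C : ℝ, 1 ≤ C ∧ ∀ [Sea] [SeaU SU], ∀ {s ε M b : ℝ} {e η η1 : ℝ → ℝ}, 0 ≤ s → ε ≤ 1 / 20 →
    Cur s ε M b e η → (∀ t, HasDerivAt η (η1 t) t) → BB s (C * (M * ε)) (C * M) b η η1 := by
  obtain ⟨C1, h1, H1⟩ := Br_OCU SU 3
  obtain ⟨C2, h2, H2⟩ := af_OCU SU 3
  refine ⟨1 + C1 + C2, by linarith, fun [_] [_] {s ε M b e η η1} hs hε hc hη => ?_⟩
  have o0 := hc.oc.lower
  have o1 := hc.oc1 hη
  have hse : ∀ t, e t ≤ 1 / 20 := fun t => (hc.le t).trans hε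
  have i0 : ∀ t, HasDerivAt (iD η) (iD η1 t) t := fun t => (hη t).ofReal_comp.mul_const I
  have b1 := H1 hs i0 o0 o1 hse
  have b2 := H2 hs o0 o1
  have hM := hc.M0 hs
  have hε0 := hc.ε0
  have m1 : ∀ t, C1 * (s * P t * e t ^ 2) ≤ C1 * (M * ε) := fun t => by
    have q1 := hc.mass t
    have q2 := hc.le t
    have q3 := hc.nonneg t
    calc C1 * (s * P t * e t ^ 2) = C1 * ((s * P t * e t) * e t) := by ring
      _ ≤ C1 * (M * ε) := by gcongr
  have m2 : ∀ t, C2 * (s * P t * e t) ≤ C2 * M := fun t => by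
    have q1 := hc.mass t
    gcongr
  have z1 : ∀ t, b < |t| → C1 * (s * P t * e t ^ 2) = 0 := fun t ht => by
    rw [hc.supp t ht]; ring
  have z2 : ∀ t, b < |t| → C2 * (s * P t * e t) = 0 := fun t ht => by
    rw [hc.supp t ht]; ring
  have hMε : M * ε ≤ M := by nlinarith
  have rle : ∀ t, ‖Br s (iD η) (iD η1) t‖ ≤ C1 * (M * ε) := fun t => (b1.le t).trans (m1 t)
  have ale : ∀ t, ‖af s (iD η) (iD η1) t‖ ≤ C2 * M := fun t => (b2.le t).trans (m2 t)
  have rz : ∀ t, b < |t| → Br s (iD η) (iD η1) t = 0 := fun t ht => by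
    have := b1.le t
    rw [z1 t ht] at this
    exact norm_le_zero_iff.1 this
  have az : ∀ t, b < |t| → af s (iD η) (iD η1) t = 0 := fun t ht => by
    have := b2.le t
    rw [z2 t ht] at this
    exact norm_le_zero_iff.1 this
  have eB : Bf s (iD η) (iD η1) = fun t => af s (iD η) (iD η1) t + Br s (iD η) (iD η1) t := by
    funext t
    exact Bf_eq _ _ _ _
  have hMε0 : 0 ≤ M * ε := mul_nonneg hM hε0
  have t1 : C1 * (M * ε) ≤ (1 + C1 + C2) * (M * ε) :=
    mul_le_mul_of_nonneg_right (by linarith) hMε0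
  have t2 : C2 * M ≤ (1 + C1 + C2) * M := mul_le_mul_of_nonneg_right (by linarith) hM
  have t3 : C2 * M + C1 * (M * ε) ≤ (1 + C1 + C2) * M := by nlinarith
  refine ⟨?_, fun t => ?_, fun t ht => ?_, ?_, ?_, fun t => ?_, fun t ht => ?_, b1.cont,
    fun t => (rle t).trans t1, rz⟩
  · rw [eB]
    exact b2.cont.add b1.cont
  · rw [Bf_eq]
    exact (norm_add_le _ _).trans ((add_le_add (ale t) (rle t)).trans t3)
  · rw [Bf_eq, rz t ht, az t ht, add_zero]
  · refine (b1.re (a := (1 + C1 + C2) * (M * ε)) fun t => (m1 t).trans t1).congr fun t => ?_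
    exact (B_re s η η1 t).symm
  · exact Complex.continuous_im.comp b2.cont
  · exact (Complex.abs_im_le_norm _).trans ((ale t).trans t2)
  · unfold hd
    rw [az t ht]
    simp

end

end NUSea
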