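import Pool.Agent.SeaU.SEval
import Pool.Agent.NUSea.H0.CfgS

/-!
# The constant of the action of a configuration, uniform in the sea (`NUSea/H0/CfgS`)
-/

set_option autoImplicit false
set_option linter.unusedSectionVars false
set_option linter.unusedVariables false

open MeasureTheory Set Filter Topology Complex

namespace NUSea.H0

noncomputable section

open NUO (Kind Xo kd ht Par PG Off offO fq fg FO fO wnu wK cons potN lpL)
open NUMF (lq lqg)
open NUAct (Ext)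
open NUSea (Sea SeaBd SeaU)

variable {δ : ℝ} {Q : Par} {r : ℕ}

/-- **The constant of the action of a configuration.** -/
theorem S_cfgU (SU : SeaBd) (hδ : 0 < δ) (hδ1 : δ ≤ 2 / 7) : ∃ C : ℝ, 1 ≤ C ∧
    ∀ [Sea] [SeaU SU], ∀ (s ε M b K : ℝ) (e η η1 : ℝ → ℝ) (Q : Par) (r : ℕ) (O' : Fin r → Xo) (A : Bool → ℂ → ℂ),
      PG δ Q → 0 ≤ s →
      Cur s ε M b e η → (∀ t, HasDerivAt η (η1 t) t) → 0 ≤ b → C * (b + 1) ^ 7 * ε ≤ 1 → 0 ≤ K →
      (∀ t t', |s * P t * η t - s * P t' * η t'| ≤ K * |t - t'|) →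
      (∀ a, Ext (δ * NUMF.l / 2) (A a)) →
      |(NUSea.Ev.gs s η η1 (fun a z => FO Q O' a z + A a z)).S -
        ((∑ i, (s * (∫ t, P t * lpL (cons Q O' i) (NUP1.vl NUP1.l t)) -
          2 * Real.pi * (wK (kd (O' i)) * (s * P (ht (O' i)) * η (ht (O' i)))))) +
        (∫ t : ℝ, s * P t * (A true t + A false t).re) +
        NUCR.bil (NUSea.hd s η η1) (NUSea.hd s η η1) -
        (∫ t, Bf s (NUKer.iD η) (NUKer.iD η1) t * (A true (NUAct.zt (NUKer.iD η) t) +
          A false (NUAct.zt (NUKer.iD η) t))).re)| ≤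
        C * r * (M * ε + K) + C * (b + 1) ^ 9 * M ^ 2 * ε := by
  obtain ⟨C, hC, H⟩ := NUSea.Ev.mainU SU hδ hδ1
  refine ⟨16 * C, by linarith, ?_⟩
  intro _ _ s ε M b K e η η1 Q r O' A hQ hs hcur h1 hb hsm hK hKL hA
  have hl := NUMF.l_pos
  have hε0 := hcur.ε0
  have hM0 := hcur.M0 hs
  have hsm' : C * (b + 1) ^ 7 * ε ≤ 1 := by
    refine le_trans ?_ hsm
    have : 0 ≤ C * (b + 1) ^ 7 * ε := by positivity
    nlinarith
  have hdl : 0 < δ * NUMF.l := mul_pos hδ hl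
  have hExt : ∀ a, Ext (δ * NUMF.l / 2) (fun z => FO Q O' a z + A a z) := by
    intro a
    have h1 : Ext (δ * NUMF.l / 2) (FO Q O' a) :=
      NUO.ext_FO O' (b := 3 / 4 * (δ * NUMF.l)) (by positivity) (by linarith) hQ a (by linarith)
    obtain ⟨A1, hA1⟩ := h1.bd
    obtain ⟨A2, hA2⟩ := (hA a).bd
    refine ⟨fun z hz => (h1.diff z hz).add ((hA a).diff z hz), A1 + A2, fun z hz => ?_⟩
    rw [add_mul]
    exact (norm_add_le _ _).trans (add_le_add (hA1 z hz) (hA2 z hz))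
  have h2 := H s ε M b K 1 e η η1 (fun a z => FO Q O' a z + A a z) (fun z => A true z + A false z)
    (Σ i : Fin r, Fin (offO Q O' i).length)
    (fun c => ((offO Q O' c.1)[c.2.1]).1) (fun c => ((offO Q O' c.1)[c.2.1]).2) (fun c => ht (O' c.1))
    hs hcur h1 hb hsm' hK hKL hExt (fun c => (NUO.offO_off hQ O' c.1 _ (List.getElem_mem c.2.2)).1)
    (fun c => (NUO.offO_off hQ O' c.1 _ (List.getElem_mem c.2.2)).2) (fun z _ => by
      have e1 : FO Q O' true z + FO Q O' false z = ∑ c : (Σ i : Fin r, Fin (offO Q O' i).length),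
          (fq ((offO Q O' c.1)[c.2.1]).1 (z - ((offO Q O' c.1)[c.2.1]).2) +
            fg ((offO Q O' c.1)[c.2.1]).1 (z - ((offO Q O' c.1)[c.2.1]).2)) := by
        unfold FO
        rw [← Finset.sum_add_distrib, Fintype.sum_sigma]
        refine Finset.sum_congr rfl fun i _ => ?_
        rw [NUO.fO_sum]
        exact (Fin.sum_univ_fun_getElem (offO Q O' i)
          (fun p => fq p.1 (z - p.2) + fg p.1 (z - p.2))).symm
      rw [← e1]
      ring)
  have s1 : ∑ c : (Σ i : Fin r, Fin (offO Q O' i).length),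
      O.clo ((offO Q O' c.1)[c.2.1]).1 ((offO Q O' c.1)[c.2.1]).2 =
        ∑ i, ∫ t, P t * lpL (cons Q O' i) (NUP1.vl NUP1.l t) := by
    rw [NUC43.sum_idx O' (fun p => O.clo p.1 p.2)]
    exact Finset.sum_congr rfl fun i _ => (mfo_eq hQ O' i).symm
  have s2 : ∑ c : (Σ i : Fin r, Fin (offO Q O' i).length),
      wnu ((offO Q O' c.1)[c.2.1]).1 * (s * P (ht (O' c.1)) * η (ht (O' c.1))) =
      ∑ i, wK (kd (O' i)) * (s * P (ht (O' i)) * η (ht (O' i))) := by
    rw [Fintype.sum_sigma]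
    refine Finset.sum_congr rfl fun i _ => ?_
    simp only
    rw [← Finset.sum_mul, Fin.sum_univ_fun_getElem (offO Q O' i) (fun p => wnu p.1),
      (NUC43.wnu_sum hQ O' i).1]
  have s3 : ∑ c : (Σ i : Fin r, Fin (offO Q O' i).length), (1 + |wnu ((offO Q O' c.1)[c.2.1]).1|) ≤
      8 * r := by
    rw [NUC43.sum_idx O' (fun p => 1 + |wnu p.1|)]
    refine (Finset.sum_le_sum fun i _ => (NUC43.wnu_sum hQ O' i).2).trans (le_of_eq ?_)
    rw [Finset.sum_const, Finset.card_univ, Fintype.card_fin, nsmul_eq_mul]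
    ring
  rw [s1, s2] at h2
  have hG : 0 ≤ M * ε + K * (1 + 1) := by positivity
  rw [Finset.sum_sub_distrib, ← Finset.mul_sum, ← Finset.mul_sum]
  have e3 : ∀ X a c d f g : ℝ, X - (a - c + d + f - g) = X - (a + d - c + f - g) := fun _ _ _ _ _ _ => by
    ring
  rw [e3]
  refine h2.trans ?_
  have t1 : C * (∑ c : (Σ i : Fin r, Fin (offO Q O' i).length), (1 + |wnu ((offO Q O' c.1)[c.2.1]).1|)) *
      (M * ε + K * (1 + 1)) ≤ C * (8 * r) * (M * ε + K * (1 + 1)) := by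
    gcongr
  have t2 : C * (8 * r) * (M * ε + K * (1 + 1)) ≤ 16 * C * r * (M * ε + K) := by
    have hr : (0:ℝ) ≤ r := Nat.cast_nonneg r
    have : 0 ≤ C * r * (M * ε) := by positivity
    nlinarith
  have t3 : C * (b + 1) ^ 9 * M ^ 2 * ε ≤ 16 * C * (b + 1) ^ 9 * M ^ 2 * ε := by
    have : 0 ≤ C * (b + 1) ^ 9 * M ^ 2 * ε := by positivity
    nlinarith
  linarith

end

end NUSea.H0
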