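import Pool.Agent.SeaU.DefC
import Pool.Agent.PotH.S4H

/-!
# Bounds uniform in the sea: the statements of `PotH/{InH, S4H}`

`DatGHU SU`, `CrudeHU SU`: `DatGH`, `CrudeH` with constants which depend on `SU` only.
-/

set_option autoImplicit false
set_option linter.unusedSectionVars false

noncomputable section

open MeasureTheory Finset Filter Topology
open scoped ENNReal

namespace PotH

open NUGC
open NUO (Xo kd ht Par Tb TW excS chgO PG slkK cons exc)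
open NUSea (Sea SeaBd SeaU)
open NUSea.H0 (Inp Gd TG BF BF1 cstF aR datO DatC SpI hfar cfP)
open NUStabP (enC)
open NUDispW (win)
open PBZ (Z1S)

/-- **the data of every configuration, with a potential, uniform in the sea** -/
def DatGHU (SU : SeaBd) : Prop :=
  ∀ G : ℕ, ∃ W : ℝ, 0 ≤ W ∧ ∀ ep : ℝ, 0 < ep → ep ≤ 1 / 100 → ∀ e1 : ℝ, 0 < e1 → e1 ≤ 1 / 100 →
    ∀ Cc C0 : ℝ, 1 ≤ Cc → 1 ≤ C0 → ∀ B0 N0 : ℝ, 0 ≤ B0 → 0 ≤ N0 →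
    ∃ (k : ℕ) (κ CB w C : ℝ), 0 < κ ∧ 0 ≤ CB ∧ 0 < w ∧ w ≤ 1 / 10 ∧ 0 ≤ C ∧
    ∀ ϑ : ℝ, 0 < ϑ → ∃ d : ℝ, 0 < d ∧ ∃ m0 : ℕ, ∀ m : ℕ, m0 ≤ m → ∀ [Sea] [SeaU SU],
    ∀ η η1 : ℝ → ℝ, CrvP e1 Cc m η η1 →
    ∀ cr Bc Bc' : ℝ → ℝ, CutR ep C0 ((1 - e1) * Tb (Real.log m)) m cr Bc Bc' →
    ∀ b' : ℝ, |b'| ≤ d → ∀ (T1 x : ℝ) (g : Fin G → Gd), TW ep e1 m ≤ T1 → FamOk T1 x g →
    ∃ B1 : ℝ → ℝ, ContDiff ℝ 1 B1 ∧ (∀ t, 0 ≤ B1 t) ∧ (∀ t, B1 t ≤ W) ∧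
      Integrable (fun t => (m : ℝ) * NUSea.P t * B1 t) ∧ (∫ t, (m : ℝ) * NUSea.P t * B1 t) ≤ C ∧
    ∀ H H' : Bool → ℝ → ℝ, HOk B0 N0 d ((1 - e1) * Tb (Real.log m)) (Real.log m ^ 3) H H' →
    ∀ nX nY : ℕ, nX ≤ 8 * m → nY ≤ 8 * m → (nX : ℝ) - nY = -chG g →
    ∀ r : ℕ, r ≤ 8 * m → ∀ O : Fin r → Xo, chgO O true ≤ nX → chgO O false ≤ nY →
      TW ep e1 m + excS (TW ep e1 m) O ≤ T1 →
    ∃ D : ℝ, DatC ep e1 κ CB ϑ k m (inH η η1 m T1 b' g B1 H) (NUSea.O.par0 m) O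
        (fun i => (gP T1 g i).τ) (nX - chgO O true) (nY - chgO O false)
        (aCH η η1 m T1 b' g B1 H O true) (aCH η η1 m T1 b' g B1 H O false)
        (cfH cr G T1 x) B1 T1 D (49 / 20) (SC G x) ∧
      D * Real.exp (-(49 / 20 * TW ep e1 m)) ≤ SC G x ∧
      ((∀ i, |(g i).τ| ≤ Real.log m ^ 2) → (r : ℝ) + G ≤ Real.log m →
        (∀ i, |ht (O i)| ≤ Real.log m ^ 2) →
        NUS4C.GD m k κ e1 w m (2 * Real.log m ^ 2) ((1 - e1) * Tb (Real.log m)) η η1 η η1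
          (fun t => aCH η η1 m T1 b' g B1 H O true t * cfH cr G T1 x t)
          (fun t => aCH η η1 m T1 b' g B1 H O false t * cfH cr G T1 x t))

/-- **the crude bound, uniform in the sea**: every number of objects, every height, every tilt -/
def CrudeHU (SU : SeaBd) : Prop :=
  ∀ B0 N0 : ℝ, 0 ≤ B0 → 0 ≤ N0 → ∃ K Ca : ℝ, 0 ≤ K ∧ 0 ≤ Ca ∧ ∀ kap : ℝ, 0 < kap →
    ∀ ep : ℝ, 0 < ep → ep ≤ 1 / 100 → ∀ e1 : ℝ, 0 < e1 → e1 ≤ 1 / 100 →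
    ∀ Cc C0 : ℝ, 1 ≤ Cc → 1 ≤ C0 → ∀ δ : ℝ, 0 < δ →
    ∃ d Cst : ℝ, 0 < d ∧ 0 ≤ Cst ∧ ∃ m0 : ℕ, ∀ m : ℕ, m0 ≤ m → ∀ [Sea] [SeaU SU],
    ∀ (n : ℕ) (η η1 cr Bc Bc' : ℝ → ℝ) (H H' : Bool → ℝ → ℝ) (B : OB) (g : Fin n → Gd),
    EnvH ep e1 Cc C0 B0 N0 d m η η1 cr Bc Bc' H H' B g →
    ∀ (aX aY : ℕ) (ν : ℝ) (N : ℕ) (b' : ℝ) (r : ℕ) (O : Fin r → Xo) (E x : ℝ), |b'| ≤ d →
      RgH ep e1 m g aX aY ν N O E x →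
      lhsH B m η η1 aX aY ν N b' O (fun _ => 1) ≤
        ENNReal.ofReal (prefH m g E x Cst * (m : ℝ) ^ (7 / 8 + Ca * (ep + e1) + δ) *
          Real.exp (confEH m η (TW ep e1 m) K kap O - 1 / 10 * excS (TW ep e1 m) O +
            linH η η1 m g (T1H ep e1 m O E) H +
            enH m g O (T1H ep e1 m O E) (N + aX - chgO O true) (N + aY - chgO O false)))

end PotH

end
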