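import Pool.Agent.SeaU.CfgS
import Pool.Agent.NUSea.H0.DatEC

/-!
# The exponent of the data of a configuration, uniform in the sea (`NUSea/H0/DatEC`)
-/

set_option autoImplicit false
set_option linter.unusedSectionVars false
set_option linter.unusedVariables false

open MeasureTheory Set Filter Topology Complex

namespace NUSea.H0

noncomputable section

open NUO (Kind Xo kd ht Par PG wK cons lpL slkK)
open NUC43 (slk tauC muC sgX sgY sgT Adm)
open NUH0 (slO slO_bc)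
open NUGC (Sr ES muS tauS obSr)
open Pool.Agent.NUM3 (ER)
open NUSea (Sea SeaBd SeaU)

variable {r : ℕ}

/-- **The exponent of a configuration with spectators.** -/
theorem En_cfgCU (SU : SeaBd) {δ : ℝ} (hδ : 0 < δ) (hδ1 : δ ≤ 2 / 7) : ∃ C : ℝ, 1 ≤ C ∧
    ∀ [Sea] [SeaU SU], ∀ (ε M b K : ℝ) (e : ℝ → ℝ) (I : Inp) (Q : Par) (r : ℕ) (O' : Fin r → Xo) (κ : Type) [Fintype κ]
      (T : κ → Sr), PG δ Q → Adm Q.jL Q.e → 0 ≤ I.s → Cur I.s ε M b e I.η →
      (∀ t, HasDerivAt I.η (I.η1 t) t) → 0 ≤ b → C * (b + 1) ^ 7 * ε ≤ 1 → 0 ≤ K →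
      (∀ t t', |I.s * P t * I.η t - I.s * P t' * I.η t'| ≤ K * |t - t'|) →
      (∀ a, NUAct.Ext (δ * NUMF.l / 2) (I.A a)) → (∀ a, Integrable fun t => P t * I.B a t) →
      (∀ d, (T d).Ok) → (∀ i d, NUGC.Sym (obSr Q.jL Q.e (O' i)) (T d)) →
      (∀ a, I.ν a = muS T a) → I.τD = tauS T →
      |(datO I Q O').En - ((∑ i, (I.s * (∫ t, P t * lpL (cons Q O' i) (NUP1.vl NUP1.l t)) +
          I.s * slkK (fun t => ∫ u, P u * slk (u - t)) (kd (O' i)) (ht (O' i)) -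
          2 * Real.pi * (wK (kd (O' i)) * (I.s * P (ht (O' i)) * I.η (ht (O' i)))))) +
        1 / 2 * (∑ i, ∑ k, ER (sgX Q.jL Q.e) (sgY Q.jL Q.e) (sgT Q.jL Q.e)
          (NUO.sp (O' i) == NUO.sp (O' k)) (kd (O' i)) (kd (O' k)) (ht (O' i)) (ht (O' k))) +
        (∑ i, ∑ d, ES (obSr Q.jL Q.e (O' i)) (T d)) + 1 / 2 * (∑ d, ∑ d', ES (T d) (T d')) +
        (∫ t : ℝ, I.s * P t * (I.A true t + I.A false t).re) -
        (∫ t, Bf I.s (NUKer.iD I.η) (NUKer.iD I.η1) t * (I.A true (NUAct.zt (NUKer.iD I.η) t) +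
          I.A false (NUAct.zt (NUKer.iD I.η) t))).re +
        (∑ a, ∫ t, I.s * P t * I.B a t) +
        (∑ a, ∫ t, (datO I Q O').μ a t * (datO I Q O').φ a t) +
        NUCR.bil (NUSea.hd I.s I.η I.η1) (NUSea.hd I.s I.η I.η1))| ≤
        C * r * (M * ε + K) + C * (b + 1) ^ 9 * M ^ 2 * ε := by
  obtain ⟨C, hC, H⟩ := S_cfgU SU hδ hδ1
  refine ⟨C, hC, ?_⟩
  intro _ _ ε M b K e I Q r O' κ _ T hQ hA hs hcur h1 hb hsm hK hKL hAe hB hT hsy hν hτ
  have h2 := H I.s ε M b K e I.η I.η1 Q r O' I.A hQ hs hcur h1 hb hsm hK hKL hAe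
  have hS : (datO I Q O').gas.S =
      (NUSea.Ev.gs I.s I.η I.η1 (fun a z => NUO.FO Q O' a z + I.A a z)).S := rfl
  have hE := NUGC.cfgM_energy hA O' hT hsy
  have e1 : (∫ t, (datO I Q O').τ t * (datO I Q O').Gt t) =
      ∫ t, NUGC.tauM Q.jL Q.e O' T t * NUC43.lgp (NUGC.tauM Q.jL Q.e O' T) t := by
    have : (datO I Q O').τ = NUGC.tauM Q.jL Q.e O' T := by
      funext t
      show tauC Q.jL Q.e O' t + I.τD t = _
      rw [hτ]
      rfl
    unfold Dat.Gt NUC43.lgp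
    rw [this]
  have e2 : ∀ a, (∫ t, (datO I Q O').μ a t * (datO I Q O').Vm a t) =
      ∫ t, NUGC.muM Q.jL Q.e O' T a t * ∫ u, NUGC.muM Q.jL Q.e O' T a u * NUMF.V (t - u) := by
    intro a
    have : (datO I Q O').μ a = NUGC.muM Q.jL Q.e O' T a := by
      funext t
      show muC Q.jL Q.e O' a t + I.ν a t = _
      rw [hν]
      rfl
    unfold Dat.Vm
    rw [this]
  have e3 : ∀ a, (∫ t, (datO I Q O').ρ t * (datO I Q O').E a t) =
      I.s * (∫ t, P t * slO O' a t) + ∫ t, I.s * P t * I.B a t := by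
    intro a
    have i1 := (slO_int O' a).1.const_mul I.s
    have i2 : Integrable fun t => I.s * P t * I.B a t :=
      ((hB a).const_mul I.s).congr (Eventually.of_forall fun t => by simp only []; ring)
    rw [← integral_const_mul, ← integral_add i1 i2]
    congr 1
    funext t
    show I.s * P t * (slO O' a t + I.B a t) = _
    ring
  have e4 := slO_sum O'
  have hEn : (datO I Q O').En =
      (NUSea.Ev.gs I.s I.η I.η1 (fun a z => NUO.FO Q O' a z + I.A a z)).S +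
      (1 / 2 * (∑ i, ∑ k, ER (sgX Q.jL Q.e) (sgY Q.jL Q.e)
      (sgT Q.jL Q.e) (NUO.sp (O' i) == NUO.sp (O' k)) (kd (O' i)) (kd (O' k)) (ht (O' i)) (ht (O' k))) +
      (∑ i, ∑ d, ES (obSr Q.jL Q.e (O' i)) (T d)) + 1 / 2 * (∑ d, ∑ d', ES (T d) (T d'))) +
      I.s * (∑ i, slkK (fun t => ∫ u, P u * slk (u - t)) (kd (O' i)) (ht (O' i))) +
      (∑ a, ∫ t, I.s * P t * I.B a t) + ∑ a, ∫ t, (datO I Q O').μ a t * (datO I Q O').φ a t := by
    unfold Dat.En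
    rw [hS, e1]
    simp_rw [e2, e3]
    rw [← hE, ← e4, Fintype.sum_bool, Fintype.sum_bool, Fintype.sum_bool, Fintype.sum_bool, Fintype.sum_bool]
    ring
  have e5 : (∑ i, (I.s * (∫ t, P t * lpL (cons Q O' i) (NUP1.vl NUP1.l t)) +
      I.s * slkK (fun t => ∫ u, P u * slk (u - t)) (kd (O' i)) (ht (O' i)) -
      2 * Real.pi * (wK (kd (O' i)) * (I.s * P (ht (O' i)) * I.η (ht (O' i)))))) =
      (∑ i, (I.s * (∫ t, P t * lpL (cons Q O' i) (NUP1.vl NUP1.l t)) -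
        2 * Real.pi * (wK (kd (O' i)) * (I.s * P (ht (O' i)) * I.η (ht (O' i)))))) +
      I.s * (∑ i, slkK (fun t => ∫ u, P u * slk (u - t)) (kd (O' i)) (ht (O' i))) := by
    rw [Finset.mul_sum, ← Finset.sum_add_distrib]
    exact Finset.sum_congr rfl fun i _ => by ring
  rw [e5, hEn]
  refine le_trans (le_of_eq ?_) h2
  congr 1
  ring

end

end NUSea.H0
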