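import Pool.Agent.NUSea.Cur
import Pool.Agent.SeaU.Base

/-!
# Bounds uniform in the sea: `NUSea/Cur`

Copies of the existential bounds of `NUSea/Cur` with constants which depend on `SU : SeaBd` only.
-/

set_option autoImplicit false
set_option linter.unusedSectionVars false
set_option linter.unusedVariables false

open MeasureTheory Set Filter Topology Complex

namespace NUSea

open NUMF (l l_pos)
open NUAct NUKer

noncomputable section


/-- the inverse density -/
theorem inv_OCU (SU : SeaBd) (j : ℕ) : ∃ C : ℝ, 0 < C ∧ ∀ [Sea] [SeaU SU], OC j (fun t => C / P t) fun t => (((P t)⁻¹ : ℝ) : ℂ) := by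
  induction j with
  | zero =>
    refine ⟨1, one_pos, Complex.continuous_ofReal.comp (P_cont.inv₀ fun t => (P_pos t).ne'),
      fun t => ?_⟩
    rw [Complex.norm_real, Real.norm_eq_abs, abs_of_pos (inv_pos.2 (P_pos t))]
    exact (one_div (P t)).symm.le
  | succ j ih =>
    obtain ⟨C', hC', h'⟩ := ih
    obtain ⟨C1, hC1, h1⟩ := Pr_OCU SU j 1
    refine ⟨1 + 2 ^ j * (2 ^ j * (C1 * C') * C'), by positivity, fun t => ?_,
      fun t => -(iteratedDeriv 1 Pc (t : ℂ) * (((P t)⁻¹ : ℝ) : ℂ) * (((P t)⁻¹ : ℝ) : ℂ)),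
      fun t => ?_, ?_⟩
    · rw [Complex.norm_real, Real.norm_eq_abs, abs_of_pos (inv_pos.2 (P_pos t)), ← one_div]
      have hp := P_pos t
      have : 0 ≤ 2 ^ j * (2 ^ j * (C1 * C') * C') := by positivity
      exact div_le_div_of_nonneg_right (by linarith) hp.le
    · have hp : (P t : ℂ) ≠ 0 := by exact_mod_cast (P_pos t).ne'
      have h2 := (hasDerivAt_Pt t).inv hp
      refine (h2.congr_deriv ?_).congr_of_eventuallyEq (Eventually.of_forall fun x => ?_)
      · push_cast
        field_simp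
      · push_cast
        rfl
    · refine ((h1.mul h').mul h').neg.mono fun t => ?_
      have hp := (P_pos t).ne'
      have hp' := P_pos t
      have e : 2 ^ j * (2 ^ j * (C1 * P t * (C' / P t)) * (C' / P t)) =
          (2 ^ j * (2 ^ j * (C1 * C') * C')) / P t := by
        field_simp
      rw [e]
      gcongr
      linarith

theorem P_compU (SU : SeaBd) : ∃ c : ℝ, 0 < c ∧ ∀ [Sea] [SeaU SU], ∀ b t : ℝ, 0 ≤ b → |t| ≤ b + 1 → c * P b ≤ P t := by
  obtain ⟨C, hC, h1⟩ := P_leU SU
  obtain ⟨c, hc, h2⟩ := le_PU SU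
  refine ⟨c / C * Real.exp (-(8 / 3)), by positivity, fun b t hb ht => ?_⟩
  have h3 := h1 b
  rw [abs_of_nonneg hb] at h3
  have h4 : Real.exp (-(8 / 3)) * Real.exp (-(8 / 3) * b) ≤ Real.exp (-(8 / 3) * |t|) := by
    rw [← Real.exp_add]
    exact Real.exp_le_exp.2 (by linarith)
  calc c / C * Real.exp (-(8 / 3)) * P b ≤
        c / C * Real.exp (-(8 / 3)) * (C * Real.exp (-(8 / 3) * b)) := by gcongr
    _ = c * (Real.exp (-(8 / 3)) * Real.exp (-(8 / 3) * b)) := by field_simp
    _ ≤ c * Real.exp (-(8 / 3) * |t|) := by gcongr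
    _ ≤ _ := h2 t

/-- **currents give admissible displacements** -/
theorem exists_curU (SU : SeaBd) : ∃ C : ℝ, 1 ≤ C ∧ ∀ [Sea] [SeaU SU], ∀ s M b : ℝ, 0 < s → 0 ≤ b → ∀ h : ℝ → ℝ,
    ContDiff ℝ 4 h → (∀ k ≤ 4, ∀ t, |iteratedDeriv k h t| ≤ M) → (∀ t, b ≤ |t| → h t = 0) →
    ∃ e : ℝ → ℝ, Cur s (C * M / (s * P b)) (C * M) b e fun t => h t / (s * P t) := by
  obtain ⟨C1, hC1, a1⟩ := inv_OCU SU 4
  obtain ⟨c1, hc1, Hc⟩ := P_compU SU
  obtain ⟨C2, hC2d⟩ : ∃ C2 : ℝ, C2 = 16 * C1 := ⟨_, rfl⟩
  have hC2 : 0 < C2 := by rw [hC2d]; positivity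
  refine ⟨1 + C2 + C2 / c1, by
    have : 0 < C2 / c1 := by positivity
    linarith, fun s M b hs hb h hh hM hsupp => ?_⟩
  have hM0 : 0 ≤ M := (abs_nonneg _).trans (hM 0 (by norm_num) 0)
  -- the current
  have a2 : OC 4 (fun t => if |t| ≤ b then M else 0) fun t => (h t : ℂ) := by
    refine OC_of_iter hh fun k hk t => ?_
    split_ifs with ht
    · exact hM k hk t
    · rw [NUCUR.iter_zero_out hsupp k t (not_le.1 ht), abs_zero]
  have a3 := (a2.mul a1).smul (I * ((s⁻¹ : ℝ) : ℂ))
  refine ⟨fun t => if |t| ≤ b then C2 * M / (s * P t) else 0, ⟨?_, ?_, ?_, ?_⟩⟩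
  · refine (a3.mono fun t => le_of_eq ?_).congr fun t => ?_
    · rw [norm_mul, Complex.norm_I, one_mul, Complex.norm_real, Real.norm_eq_abs,
        abs_of_pos (inv_pos.2 hs), hC2d]
      have hp := (P_pos t).ne'
      split_ifs
      · field_simp
        ring
      · simp
    · unfold iD
      push_cast
      rw [div_eq_mul_inv, mul_inv]
      ring
  · intro t
    have hpb := P_pos b
    have hp := P_pos t
    split_ifs with ht
    · have h1 := Hc b t hb (ht.trans (by linarith : b ≤ b + 1))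
      have h2 : 0 ≤ C2 * M := by positivity
      rw [div_le_div_iff₀ (by positivity) (by positivity)]
      have h3 : P b ≤ P t / c1 := by
        rw [le_div_iff₀ hc1]
        linarith
      calc C2 * M * (s * P b) ≤ C2 * M * (s * (P t / c1)) := by gcongr
        _ = C2 / c1 * (M * (s * P t)) := by ring
        _ ≤ (1 + C2 + C2 / c1) * (M * (s * P t)) := by
            refine mul_le_mul_of_nonneg_right ?_ (by positivity)
            linarith
        _ = _ := by ring
    · positivity
  · intro t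
    have hp := P_pos t
    have h2 : C2 * M ≤ (1 + C2 + C2 / c1) * M := by
      refine mul_le_mul_of_nonneg_right ?_ hM0
      have : 0 < C2 / c1 := by positivity
      linarith
    split_ifs with ht
    · rw [mul_div_cancel₀ _ (by positivity : s * P t ≠ 0)]
      exact h2
    · rw [mul_zero]
      exact le_trans (by positivity) h2
  · intro t ht
    rw [if_neg (not_le.2 ht)]

end

end NUSea
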