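import Pool.Agent.NUSea.PhiQ
import Pool.Agent.SeaU.Base

/-!
# Bounds uniform in the sea: `NUSea/PhiQ`

Copies of the existential bounds of `NUSea/PhiQ` with constants which depend on `SU : SeaBd` only.
-/

set_option autoImplicit false
set_option linter.unusedSectionVars false
set_option linter.unusedVariables false

open MeasureTheory Set Filter Topology Complex

namespace NUSea

open NUMF (l l_pos w g V)
open NUAct NUKer

noncomputable section

variable {s ε M R : ℝ} {δ δ1 δ2 : ℝ → ℂ}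

/-- kernels of the path against the real one -/
theorem exists_kerU (SU : SeaBd) : ∃ K : ℝ, 1 ≤ K ∧ ∀ [Sea] [SeaU SU], ∀ {s ε M R : ℝ} {δ δ1 δ2 : ℝ → ℂ}, Disp s ε M R δ δ1 δ2 →
    ε ≤ 1 / 20 → ∀ t y, t ≠ y →
    ‖Up Uc (zt δ) t y - (V (t - y) : ℂ)‖ ≤ K * ε * Real.exp (-|t - y|) ∧
    ‖Q1 δ δ1 t y‖ ≤ K * ε * Real.exp (-|t - y|) := by
  obtain ⟨K, hK, H⟩ := Uc_incr
  refine ⟨1 + 3 * K, by linarith, fun [_] [_] {s ε M R δ δ1 δ2} D hε t y hne => ?_⟩
  have hε0 := D.ε0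
  have key : ∀ t y, y < t →
      ‖Uc (zt δ t - zt δ y) - (V (t - y) : ℂ)‖ ≤ 3 * K * ε * Real.exp (-(t - y)) ∧
      ‖Ud (zt δ t - zt δ y) * (δ1 t - δ1 y)‖ ≤ 3 * K * ε * Real.exp (-(t - y)) := by
    intro t y hty
    have hx : 0 < t - y := by linarith
    obtain ⟨x, hxd⟩ : ∃ x, x = t - y := ⟨_, rfl⟩
    have d0 := D.diff t y
    have d1 := D.diff1 t y
    have d2 := D.bd2 t y
    rw [abs_of_pos hx] at d0 d1
    have e : zt δ t - zt δ y = ((t - y : ℝ) : ℂ) + (δ t - δ y) := by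
      unfold zt
      push_cast
      ring
    rw [e]
    rw [← hxd] at hx d0 d1 ⊢
    have h1 := H x (δ t - δ y) hx (by nlinarith) (by linarith [d2.1])
    rw [Uc_ofReal hx] at h1
    have hE := Real.exp_pos (-x)
    have c0 : (1 + 1 / x) * ‖δ t - δ y‖ ≤ 3 * ε := by
      have : 1 / x * ‖δ t - δ y‖ ≤ ε := by
        rw [one_div, inv_mul_le_iff₀ hx]
        linarith
      linarith [d2.1]
    have c1 : (1 + 1 / x) * ‖δ1 t - δ1 y‖ ≤ 3 * ε := by
      have : 1 / x * ‖δ1 t - δ1 y‖ ≤ ε := by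
        rw [one_div, inv_mul_le_iff₀ hx]
        linarith
      linarith [d2.2]
    constructor
    · calc _ ≤ K * (1 + 1 / x) * Real.exp (-x) * ‖δ t - δ y‖ := h1.1
        _ = K * Real.exp (-x) * ((1 + 1 / x) * ‖δ t - δ y‖) := by ring
        _ ≤ K * Real.exp (-x) * (3 * ε) := by gcongr
        _ = _ := by ring
    · rw [norm_mul]
      calc _ ≤ K * (1 + 1 / x) * Real.exp (-x) * ‖δ1 t - δ1 y‖ := by
            gcongr
            exact h1.2
        _ = K * Real.exp (-x) * ((1 + 1 / x) * ‖δ1 t - δ1 y‖) := by ring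
        _ ≤ K * Real.exp (-x) * (3 * ε) := by gcongr
        _ = _ := by ring
  have hmono : ∀ x : ℝ, 3 * K * ε * Real.exp (-x) ≤ (1 + 3 * K) * ε * Real.exp (-x) := by
    intro x
    have := Real.exp_pos (-x)
    gcongr
    linarith
  rcases lt_or_gt_of_ne hne with h | h
  · have h1 := key y t h
    rw [Up_of_le h.le, abs_of_neg (by linarith : t - y < 0), neg_sub]
    have e1 : Q1 δ δ1 t y = Ud (zt δ y - zt δ t) * (δ1 y - δ1 t) := if_neg (not_lt.2 h.le)
    have e2 : V (t - y) = V (y - t) := by rw [← V_even, neg_sub]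
    rw [e1, e2]
    exact ⟨h1.1.trans (hmono _), h1.2.trans (hmono _)⟩
  · have h1 := key t y h
    rw [Up_of_lt h, abs_of_pos (by linarith : 0 < t - y)]
    have e1 : Q1 δ δ1 t y = Ud (zt δ t - zt δ y) * (δ1 t - δ1 y) := if_pos h
    rw [e1]
    exact ⟨h1.1.trans (hmono _), h1.2.trans (hmono _)⟩

end

end NUSea
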