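import Pool.Agent.NUSea.PhiQ2
import Pool.Agent.SeaU.Base
import Pool.Agent.SeaU.PhiQ
import Pool.Agent.SeaU.Bfin
import Pool.Agent.SeaU.Cur

/-!
# Bounds uniform in the sea: `NUSea/PhiQ2`

Copies of the existential bounds of `NUSea/PhiQ2` with constants which depend on `SU : SeaBd` only.
-/

set_option autoImplicit false
set_option linter.unusedSectionVars false
set_option linter.unusedVariables false

open MeasureTheory Set Filter Topology Complex

namespace NUSea

open NUMF (l l_pos w g V)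
open NUAct NUKer

noncomputable section

variable {s ε M b : ℝ} {e η η1 : ℝ → ℝ}

/-- **the quadratic part of the one body potential on the whole line** -/
theorem exists_phiQU (SU : SeaBd) : ∃ K : ℝ, 1 ≤ K ∧ ∀ [Sea] [SeaU SU], ∀ {s ε M b : ℝ} {e η η1 : ℝ → ℝ}, 0 ≤ s → 0 ≤ b →
    ε ≤ 1 / 20 → Cur s ε M b e η → (∀ t, HasDerivAt η (η1 t) t) →
    ∀ (Fe : Bool → ℂ → ℂ), (∀ a, Ext (l / 7) (Fe a)) →
    ∃ Q' : ℝ → ℝ, (∀ a t, HasDerivAt (fun t =>
      (∑ d, (gas s (fun _ => η) (fun _ => η1) Fe).KB a d t).re) (Q' t) t) ∧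
    (∀ a t, |(∑ d, (gas s (fun _ => η) (fun _ => η1) Fe).KB a d t).re| ≤
      K * (M * ε) * Wb b t) ∧ (∀ t, |Q' t| ≤ K * (M * ε) * Wb b t) := by
  obtain ⟨C, hC, HB⟩ := exists_BBU SU
  obtain ⟨K, hK, HK⟩ := exists_kerU SU
  obtain ⟨C2, hC2, HD⟩ := dens_bdU SU
  refine ⟨C + K * C + 2 * (K * C2), by
    have h1 : 0 < K * C2 := by positivity
    have h2 : 0 < K * C := by positivity
    linarith, ?_⟩
  intro _ _ s ε M b e η η1 hs hb hε hc hη Fe hF
  have BB := HB hs hε hc hη
  obtain ⟨η2, D, o2⟩ := hc.disp' hs hη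
  have hM := hc.M0 hs
  have hε0 := hc.ε0
  have hMε : 0 ≤ M * ε := mul_nonneg hM hε0
  have hKC : 0 < K * C := by positivity
  have hKC2 : 0 < K * C2 := by positivity
  have hok := gas_ok (Fe := Fe) hs hε (fun _ : Bool => hc) (fun _ t => hη t) hF
  have hok' : (gas s (fun _ => η) (fun _ => η1) Fe).Ok := hok
  have hB := hasDerivAt_Bf D hε
  -- the real part of the derivative of `B`
  have r1 : ∀ t, |(Bf1 s (iD η) (iD η1) (iD η2) t).re| ≤ C * (M * ε) := by
    intro t
    obtain ⟨_, f', h1, h2⟩ := BB.re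
    have h3 : HasDerivAt (fun t => (Bf s (iD η) (iD η1) t).re)
        (Bf1 s (iD η) (iD η1) (iD η2) t).re t :=
      Complex.reCLM.hasFDerivAt.comp_hasDerivAt t (hB t)
    rw [← (h1 t).unique h3]
    exact h2.le t
  have n1 : ∀ t, ‖Bf1 s (iD η) (iD η1) (iD η2) t‖ ≤ 2 * (C2 * M) := by
    intro t
    obtain ⟨d1, d2, d3, d4, _⟩ := HD s ε M (b + 1) (iD η) (iD η1) (iD η2) hs hM D hε t
    have e1 : Bf1 s (iD η) (iD η1) (iD η2) t = af1 s (iD η) (iD η1) (iD η2) t +
        (Bf1 s (iD η) (iD η1) (iD η2) t - af1 s (iD η) (iD η1) (iD η2) t) := by ring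
    rw [e1]
    refine (norm_add_le _ _).trans ?_
    have h1 : C2 * M * ε ≤ C2 * M := by
      have : 0 ≤ C2 * M := by positivity
      nlinarith
    linarith
  have z1 : ∀ y, b < |y| → Bf1 s (iD η) (iD η1) (iD η2) y = 0 := by
    intro y hy
    have h1 : Bf s (iD η) (iD η1) =ᶠ[𝓝 y] fun _ => 0 := by
      filter_upwards [(continuous_abs.tendsto y).eventually (lt_mem_nhds hy)] with x hx
      exact BB.supp x hx
    exact (hB y).unique ((hasDerivAt_const y (0:ℂ)).congr_of_eventuallyEq h1)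
  -- one product
  have key : ∀ (t y : ℝ) (β : ℂ) (A1 A2 : ℝ), y ≠ t → |β.re| ≤ A1 * (M * ε) → ‖β‖ ≤ A2 * M →
      0 ≤ A1 → 0 ≤ A2 → |(Up Uc (zt (iD η)) t y * β).re| ≤
        (A1 * (M * ε)) * |V (t - y)| + (K * A2) * (M * ε) * Real.exp (-|t - y|) := by
    intro t y β A1 A2 hne h1 h2 hA1 hA2
    have h3 := (HK D hε t y (Ne.symm hne)).1
    have e1 : (Up Uc (zt (iD η)) t y * β).re = V (t - y) * β.re +
        ((Up Uc (zt (iD η)) t y - (V (t - y) : ℂ)) * β).re := by
      rw [sub_mul, Complex.sub_re, Complex.re_ofReal_mul]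
      ring
    rw [e1]
    refine (abs_add_le _ _).trans (add_le_add ?_ ?_)
    · rw [abs_mul, mul_comm]
      exact mul_le_mul_of_nonneg_right h1 (abs_nonneg _)
    · refine (Complex.abs_re_le_norm _).trans ?_
      rw [norm_mul]
      calc _ ≤ (K * ε * Real.exp (-|t - y|)) * (A2 * M) :=
            mul_le_mul h3 h2 (norm_nonneg _) (by positivity)
        _ = _ := by ring
  refine ⟨fun t => (∫ y, (Q1 (iD η) (iD η1) t y * Bf s (iD η) (iD η1) y +
    Up Uc (zt (iD η)) t y * Bf1 s (iD η) (iD η1) (iD η2) y)).re, fun a t => ?_, fun a t => ?_,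
    fun t => ?_⟩
  · have e1 : (fun t => (∑ d, (gas s (fun _ => η) (fun _ => η1) Fe).KB a d t).re) =
        fun t => (∫ y, Up Uc (zt (iD η)) t y * Bf s (iD η) (iD η1) y).re := by
      funext t
      rw [sum_KB_same s η η1 Fe a t hok']
    rw [e1]
    exact Complex.reCLM.hasFDerivAt.comp_hasDerivAt t (hasDerivAt_KB D hε t)
  · rw [sum_KB_same s η η1 Fe a t hok']
    refine wt_re (by positivity) (fun y hy => by rw [BB.supp y hy, mul_zero]) fun y hy => ?_
    have h1 := key t y (Bf s (iD η) (iD η1) y) C C hy (BB.re.le y) (BB.le y) (by linarith)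
      (by linarith)
    refine h1.trans ?_
    have hV := abs_nonneg (V (t - y))
    have hE := Real.exp_pos (-|t - y|)
    have p1 : 0 ≤ (K * C + 2 * (K * C2)) * (M * ε) * |V (t - y)| := by positivity
    have p2 : 0 ≤ (C + 2 * (K * C2)) * (M * ε) * Real.exp (-|t - y|) := by positivity
    unfold Wt
    nlinarith
  · refine wt_re (by positivity) (fun y hy => by rw [BB.supp y hy, z1 y hy]; simp)
      fun y hy => ?_
    have h1 := key t y (Bf1 s (iD η) (iD η1) (iD η2) y) C (2 * C2) hy (r1 y)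
      ((n1 y).trans (le_of_eq (by ring))) (by linarith) (by positivity)
    have h2 : |(Q1 (iD η) (iD η1) t y * Bf s (iD η) (iD η1) y).re| ≤
        (K * C) * (M * ε) * Real.exp (-|t - y|) := by
      refine (Complex.abs_re_le_norm _).trans ?_
      rw [norm_mul]
      calc _ ≤ (K * ε * Real.exp (-|t - y|)) * (C * M) :=
            mul_le_mul (HK D hε t y (Ne.symm hy)).2 (BB.le y) (norm_nonneg _) (by positivity)
        _ = _ := by ring
    rw [Complex.add_re]
    refine (abs_add_le _ _).trans ((add_le_add h2 h1).trans ?_)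
    have hV := abs_nonneg (V (t - y))
    have hE := Real.exp_pos (-|t - y|)
    have p1 : 0 ≤ (K * C + 2 * (K * C2)) * (M * ε) * |V (t - y)| := by positivity
    have p2 : 0 ≤ C * (M * ε) * Real.exp (-|t - y|) := by positivity
    unfold Wt
    nlinarith

end

end NUSea
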