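import Pool.Agent.NUSea.Wd
import Pool.Agent.SeaU.PhiQ2

/-!
# Bounds uniform in the sea: `NUSea/Wd`

Copies of the existential bounds of `NUSea/Wd` with constants which depend on `SU : SeaBd` only.
-/

set_option autoImplicit false
set_option linter.unusedSectionVars false
set_option linter.unusedVariables false

open MeasureTheory Set Filter Topology Complex

namespace NUSea

open NUMF (l l_pos w g V)
open NUAct NUKer

noncomputable section


/-- **the quadratic part of the one body potential on the whole line**, arbitrary potentials -/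
theorem exists_phiQ'U (SU : SeaBd) : ∃ K : ℝ, 1 ≤ K ∧ ∀ [Sea] [SeaU SU], ∀ {s ε M b : ℝ} {e η η1 : ℝ → ℝ}, 0 ≤ s → 0 ≤ b →
    ε ≤ 1 / 20 → Cur s ε M b e η → (∀ t, HasDerivAt η (η1 t) t) →
    ∀ (Fe : Bool → ℂ → ℂ),
    ∃ Q' : ℝ → ℝ, (∀ a t, HasDerivAt (fun t =>
      (∑ d, (gas s (fun _ => η) (fun _ => η1) Fe).KB a d t).re) (Q' t) t) ∧
    (∀ a t, |(∑ d, (gas s (fun _ => η) (fun _ => η1) Fe).KB a d t).re| ≤
      K * (M * ε) * Wb b t) ∧ (∀ t, |Q' t| ≤ K * (M * ε) * Wb b t) := by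
  obtain ⟨K, hK, H⟩ := exists_phiQU SU
  exact ⟨K, hK, fun hs hb hε hc hη Fe => H hs hb hε hc hη (fun _ _ => 0) fun _ => ext_zero _⟩

end

end NUSea
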