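import Pool.Agent.NUSea.PhiQ3
import Pool.Agent.SeaU.Wd

/-!
# Bounds uniform in the sea: `NUSea/PhiQ3`

Copies of the existential bounds of `NUSea/PhiQ3` with constants which depend on `SU : SeaBd` only.
-/

set_option autoImplicit false
set_option linter.unusedSectionVars false
set_option linter.unusedVariables false

open MeasureTheory Set Filter Topology Complex

namespace NUSea

open NUMF (l l_pos w g V)
open NUAct NUKer

noncomputable section

variable {s ε M R : ℝ} {δ δ1 δ2 : ℝ → ℂ}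

/-- **the quadratic part of the one body potential on the whole line**, arbitrary potentials, with
a continuous derivative -/
theorem exists_phiQ''U (SU : SeaBd) : ∃ K : ℝ, 1 ≤ K ∧ ∀ [Sea] [SeaU SU], ∀ {s ε M b : ℝ} {e η η1 : ℝ → ℝ}, 0 ≤ s → 0 ≤ b →
    ε ≤ 1 / 20 → Cur s ε M b e η → (∀ t, HasDerivAt η (η1 t) t) →
    ∀ (Fe : Bool → ℂ → ℂ),
    ∃ Q' : ℝ → ℝ, Continuous Q' ∧ (∀ a t, HasDerivAt (fun t =>
      (∑ d, (gas s (fun _ => η) (fun _ => η1) Fe).KB a d t).re) (Q' t) t) ∧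
    (∀ a t, |(∑ d, (gas s (fun _ => η) (fun _ => η1) Fe).KB a d t).re| ≤
      K * (M * ε) * Wb b t) ∧ (∀ t, |Q' t| ≤ K * (M * ε) * Wb b t) := by
  obtain ⟨K, hK, H⟩ := exists_phiQ'U SU
  refine ⟨K, hK, fun [_] [_] {s ε M b e η η1} hs hb hε hc hη Fe => ?_⟩
  obtain ⟨Q', h1, h2, h3⟩ := H hs hb hε hc hη Fe
  refine ⟨Q', ?_, h1, h2, h3⟩
  obtain ⟨η2, D, _⟩ := hc.disp' hs hη
  have hok : (gas s (fun _ => η) (fun _ => η1) (fun _ _ => 0)).Ok :=
    gas_ok hs hε (fun _ : Bool => hc) (fun _ t => hη t) fun _ => ext_zero _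
  have e1 : (fun t => (∑ d, (gas s (fun _ => η) (fun _ => η1) Fe).KB false d t).re) =
      fun t => (∫ y, Up Uc (zt (iD η)) t y * Bf s (iD η) (iD η1) y).re := by
    funext t
    exact congrArg Complex.re (sum_KB_same s η η1 (fun _ _ => 0) false t hok)
  have e2 : Q' = fun t => (∫ y, (Q1 (iD η) (iD η1) t y * Bf s (iD η) (iD η1) y +
      Up Uc (zt (iD η)) t y * Bf1 s (iD η) (iD η1) (iD η2) y)).re := by
    funext t
    have a1 := h1 false t
    rw [e1] at a1
    exact a1.unique (Complex.reCLM.hasFDerivAt.comp_hasDerivAt t (hasDerivAt_KB D hε t))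
  rw [e2]
  exact Complex.continuous_re.comp (continuous_KB1 D hε)

end

end NUSea
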