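import Pool.Agent.NUGC.ExpC
import Pool.Agent.NUSea.Inst
import Pool.Agent.SeaU.DatEC
import Pool.Agent.SeaU.DatNC
import Pool.Agent.SeaU.LinC

/-!
# Bounds uniform in the sea: `NUGC/ExpC`

Copies of the existential bounds of `NUGC/ExpC` with constants which depend on `SU : SeaBd` only.
-/

set_option autoImplicit false
set_option linter.unusedSectionVars false
set_option linter.unusedVariables false

open MeasureTheory Finset Filter Topology

namespace NUGC

open NUO (Kind Xo kd ht sp Par PG wK cons slkK rr Tb)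
open NUStabP (enC)
open NUDispW (win)
open NUMF (l l_pos)
open NUSea (Cur P hd)
open NUSea.H0 (Inp IOk datO wO)
open NUSea (Sea SeaBd SeaU)

noncomputable section


/-- **the exponent of a configuration with spectators**, the linear term and the energy of the current
kept -/
theorem exists_enGU (SU : SeaBd) {W : ℝ} (hW : 0 ≤ W) : ∃ K0 : ℝ, 0 ≤ K0 ∧ ∀ kap : ℝ, 0 < kap → ∀ κ CB : ℝ, 0 < κ →
    0 ≤ CB → ∀ k : ℕ, ∃ (Cc : ℝ) (m0 : ℕ), ∀ m ≥ m0, ∀ [Sea] [SeaU SU], ∀ e1 : ℝ, 0 < e1 → e1 ≤ 1 / 100 →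
    ∀ (I : Inp) (Q : Par) (r : ℕ) (O : Fin r → Xo) (ι : Type) [Fintype ι] (T : ι → Sr),
    EnOk e1 κ W CB k m I Q O T → (∀ t t', |curI I t - curI I t'| ≤ |t - t'|) →
    ∀ (δ : Type) [Fintype δ] (kp a φ τ : δ → ℝ) (Ψ : δ → ℂ → ℂ), GrOk CB I kp a φ τ Ψ →
      (datO I Q O).En ≤ (∑ i, oneH I Q O (curI I) i) + enC O +
        (∑ i, ∑ d, ES (obSr Q.jL Q.e (O i)) (T d)) + 1 / 2 * (∑ d, ∑ d', ES (T d) (T d')) +
        (∫ t : ℝ, I.s * P t * (I.A true t + I.A false t).re) + (∑ a, ∫ t, I.s * P t * I.B a t) -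
        2 * (∑ d, φ d * curI I (τ d)) + NUCR.bil (hd I.s I.η I.η1) (hd I.s I.η I.η1) +
        K0 * r + kap * win univ (fun i => ht (O i)) + Cc := by
  obtain ⟨C, hC, H⟩ := NUSea.H0.En_cfgCU SU (δ := 1 / 8) (by norm_num) (by norm_num)
  obtain ⟨K2, hK2, H2⟩ := NUSea.H0.exists_muphi_totU SU NUC43.adm0
  obtain ⟨C3, hC3, H3⟩ := NUSea.H0.exists_lin_sumU SU
  refine ⟨2 * C + 2 * K2 * (2 + W) + 2, by positivity, ?_⟩
  intro kap hkap κ CB hκ hCB k
  obtain ⟨m0, hm0⟩ := (letI := NUSea.seaP; exists_numC C (6 * K2 + 6 * CB * K2) hkap k hκ)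
  refine ⟨1 + CB + C3 * CB + 2 * K2 + 2 * CB * (3 * K2 + W), m0, ?_⟩
  intro m hm _ _ e1 he1 he1' I Q r O ι _ T hE hL δ _ kp a φ τ Ψ hG
  obtain ⟨n1, n2, n3, n4, n5, n6, n7, n8⟩ := hm0 m hm
  obtain ⟨mk, hmk⟩ : ∃ mk, mk = (m : ℝ) ^ (-κ) := ⟨_, rfl⟩
  obtain ⟨L, hLd⟩ : ∃ L, L = Real.log m := ⟨_, rfl⟩
  obtain ⟨dl, ε, M, e, hok, hε, hM, hdl⟩ := hE.ok
  rw [← hmk] at n2 n3 n4 n5 n6 n7 n8 hε hdl
  rw [← hLd] at n1 n3 n4 n5 n6 hM
  have hmk0 : 0 ≤ mk := by rw [hmk]; positivity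
  have hC0 : 0 < C := by linarith
  have hK20 : 0 < K2 := by linarith
  have hr0 : (0 : ℝ) ≤ r := Nat.cast_nonneg r
  have hε0 : 0 ≤ ε := hok.cur.ε0
  have hM0 : 0 ≤ M := hok.cur.M0 hok.s0
  have hTL : Tb (Real.log m) = 3 / 8 * L := by rw [hLd]; rfl
  obtain ⟨b, hb⟩ : ∃ b, b = (1 - e1) * Tb (Real.log m) := ⟨_, rfl⟩
  have hb0 : 0 ≤ b := hb ▸ hok.b0
  have hbL : b + 1 ≤ 2 * L := by
    rw [hb, hTL]
    nlinarith
  have hbL1 : b ≤ L := by
    rw [hb, hTL]
    nlinarith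
  have hMε : M * ε ≤ L ^ k * mk := mul_le_mul hM hε hε0 (by positivity)
  have hMε0 : 0 ≤ M * ε := mul_nonneg hM0 hε0
  have hMε1 : M * ε ≤ 1 := hMε.trans n4
  have t7 : C * (b + 1) ^ 7 * ε ≤ 1 := by
    calc C * (b + 1) ^ 7 * ε ≤ C * (2 * L) ^ 7 * mk := by gcongr
      _ ≤ 1 := n3
  have t9 : C * (b + 1) ^ 9 * M ^ 2 * ε ≤ 1 := by
    calc C * (b + 1) ^ 9 * M ^ 2 * ε ≤ C * (2 * L) ^ 9 * (L ^ k) ^ 2 * mk := by gcongr
      _ = C * (2 * L) ^ 9 * L ^ (2 * k) * mk := by rw [← pow_mul, mul_comm k 2]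
      _ ≤ 1 := n6
  have tb : b * (M * ε) ≤ 1 := by
    calc b * (M * ε) ≤ L * (L ^ k * mk) := by gcongr
      _ = L ^ (k + 1) * mk := by ring
      _ ≤ 1 := n5
  have hl := l_pos
  -- the exponent of the data
  have hPB : ∀ a, Integrable fun t => P t * I.B a t := fun a => by
    obtain ⟨c, hc⟩ := hok.Bb a
    exact NUSea.H0.P_B_int (hok.Bc a) hc
  have hL' : ∀ t t', |I.s * P t * I.η t - I.s * P t' * I.η t'| ≤ 1 * |t - t'| := fun t t' => by
    rw [one_mul]
    exact hL t t'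
  have hAd : NUC43.Adm Q.jL Q.e := by
    rw [hE.jL, hE.e]
    exact NUC43.adm0
  have h1 := H ε M b 1 e I Q r O ι T hok.pg hAd hok.s0 (hb ▸ hok.cur) hok.der hb0 t7 zero_le_one
    hL' (fun a => ext_mono (by linarith) (hok.Ae a)) hPB hE.Tok hE.sy hE.nu hE.tau
  have h1' := (abs_le.1 h1).2
  -- one body
  have s1 : (∑ i, (I.s * (∫ t, P t * NUO.lpL (cons Q O i) (NUP1.vl NUP1.l t)) +
      I.s * slkK (fun t => ∫ u, P u * NUC43.slk (u - t)) (kd (O i)) (ht (O i)) -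
      2 * Real.pi * (wK (kd (O i)) * (I.s * P (ht (O i)) * I.η (ht (O i)))))) =
      ∑ i, oneH I Q O (curI I) i := by
    refine sum_congr rfl fun i _ => ?_
    unfold oneH curI NUSea.O.mfo
    ring
  have s2 : 1 / 2 * (∑ i, ∑ k, Pool.Agent.NUM3.ER (NUC43.sgX Q.jL Q.e) (NUC43.sgY Q.jL Q.e)
      (NUC43.sgT Q.jL Q.e) (sp (O i) == sp (O k)) (kd (O i)) (kd (O k)) (ht (O i)) (ht (O k))) =
      enC O := by
    rw [hE.jL, hE.e]
    exact (NUC43.cfg_energy NUC43.adm0 O).symm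
  -- the linear term
  have hη : ε < l / 10 := hok.εl
  have s3 := H3 (A := 1) hok.s0 (hok.ε1.trans (by norm_num)) (hb ▸ hok.cur) hok.der hb0 hη hG.asy
    hG.diff (hd_le hok.der hL)
  have hηle : ∀ t, |(NUAct.zt (NUKer.iD I.η) t).im| < l / 10 := fun t => by
    have h2 : (NUAct.zt (NUKer.iD I.η) t).im = I.η t := by simp [NUAct.zt, NUKer.iD]
    rw [h2]
    exact (hok.eta t).trans_lt hη
  have e3 : (∫ t, NUSea.Bf I.s (NUKer.iD I.η) (NUKer.iD I.η1) t *
      ∑ d, Ψ d (NUAct.zt (NUKer.iD I.η) t)) =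
      ∫ t, NUSea.Bf I.s (NUKer.iD I.η) (NUKer.iD I.η1) t *
        (I.A true (NUAct.zt (NUKer.iD I.η) t) + I.A false (NUAct.zt (NUKer.iD I.η) t)) := by
    congr 1
    funext t
    rw [hG.sum _ (hηle t)]
  rw [e3] at s3
  have s3' := (abs_le.1 s3).2
  have hsz : ∑ d, kp d ≤ CB := by
    refine (sum_le_sum fun d _ => ?_).trans hG.size
    have := abs_nonneg (a d)
    have := abs_nonneg (φ d)
    linarith
  have s3'' : (∑ d, kp d) * 1 + C3 * (∑ d, (|a d| + |φ d| + kp d)) * b * (M * ε) ≤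
      CB + C3 * CB := by
    have h2 : C3 * (∑ d, (|a d| + |φ d| + kp d)) * b * (M * ε) ≤ C3 * CB * 1 := by
      rw [mul_assoc (C3 * _)]
      exact mul_le_mul (mul_le_mul_of_nonneg_left hG.size (by linarith)) tb (by positivity)
        (by positivity)
    linarith
  -- the remainder
  have hwin0 : 0 ≤ win univ (fun i => ht (O i)) := NUDispW.win_nonneg _ _
  have hwin1 : win univ (fun i => ht (O i)) ≤ (r : ℝ) ^ 2 := by
    have := NUDispW.win_le_card_sq univ (fun i => ht (O i))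
    rwa [card_univ, Fintype.card_fin] at this
  have hrr := hE.rr1
  have hrr0 : 0 ≤ ∑ i, rr Q O i := sum_nonneg fun i _ => (hok.rr1 i).1
  have hdl0 := hok.dl0
  have s4 : (∑ a, ∫ t, (datO I Q O).μ a t * (datO I Q O).φ a t) ≤
      (2 * K2 * (2 + W) + 1) * r + 2 * K2 + 2 * CB * (3 * K2 + W) +
        kap * win univ (fun i => ht (O i)) := by
    have h0 : ∀ a, (∫ t, (datO I Q O).μ a t * (datO I Q O).φ a t) ≤
        (K2 * (2 + W) + 1 / 2) * r + K2 + CB * (3 * K2 + W) +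
          kap / 2 * win univ (fun i => ht (O i)) := by
      intro a
      refine (le_abs_self _).trans (((H2 (O := O) hE.jL hE.e hok a W (hE.w0 a)).2).trans ?_)
      have q1 : dl * win univ (fun i => ht (O i)) ≤ 1 + 3 * mk * win univ (fun i => ht (O i)) := by
        have h1 : 1 / (6000 * ((r : ℝ) + 1) ^ 2) * win univ (fun i => ht (O i)) ≤ 1 := by
          rw [one_div_mul_eq_div, div_le_one (by positivity)]
          nlinarith
        nlinarith [mul_le_mul_of_nonneg_right hdl hwin0]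
      have q2 : dl * r ≤ 1 + 3 * mk * r := by
        have h1 : 1 / (6000 * ((r : ℝ) + 1) ^ 2) * r ≤ 1 := by
          rw [one_div_mul_eq_div, div_le_one (by positivity)]
          nlinarith
        nlinarith [mul_le_mul_of_nonneg_right hdl hr0]
      have q3 : (∫ t, |I.ν a t|) * (K2 * (M * ε + dl * r + ∑ i, rr Q O i) + W) ≤
          CB * (K2 * (1 + (1 + 3 * mk * r) + 1) + W) := by
        refine mul_le_mul (hE.mass a) ?_ (by positivity) hCB
        have : K2 * (M * ε + dl * r + ∑ i, rr Q O i) ≤ K2 * (1 + (1 + 3 * mk * r) + 1) :=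
          mul_le_mul_of_nonneg_left (by linarith) hK20.le
        linarith
      have q4 : K2 * (r * (M * ε + (∑ i, rr Q O i) + W) + dl * win univ (fun i => ht (O i))) ≤
          K2 * (r * (2 + W) + (1 + 3 * mk * win univ (fun i => ht (O i)))) := by
        refine mul_le_mul_of_nonneg_left ?_ hK20.le
        have : (r : ℝ) * (M * ε + (∑ i, rr Q O i) + W) ≤ r * (2 + W) :=
          mul_le_mul_of_nonneg_left (by linarith) hr0
        linarith
      have q5 : K2 * (3 * mk * win univ (fun i => ht (O i))) ≤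
          kap / 2 * win univ (fun i => ht (O i)) := by
        have h5 : 6 * K2 * mk ≤ kap := by
          have : 0 ≤ 6 * CB * K2 * mk := by positivity
          linarith
        have h6 : K2 * (3 * mk) ≤ kap / 2 := by linarith
        calc K2 * (3 * mk * win univ (fun i => ht (O i))) =
            K2 * (3 * mk) * win univ (fun i => ht (O i)) := by ring
          _ ≤ _ := mul_le_mul_of_nonneg_right h6 hwin0
      have q6 : CB * (K2 * (3 * mk * r)) ≤ 1 / 2 * r := by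
        have h5 : 6 * CB * K2 * mk ≤ 1 := by
          have : 0 ≤ 6 * K2 * mk := by positivity
          linarith
        have h6 : CB * (K2 * (3 * mk)) ≤ 1 / 2 := by linarith
        calc CB * (K2 * (3 * mk * r)) = CB * (K2 * (3 * mk)) * r := by ring
          _ ≤ _ := mul_le_mul_of_nonneg_right h6 hr0
      linarith
    rw [Fintype.sum_bool]
    have g1 := h0 true
    have g2 := h0 false
    linarith
  have s5 : C * r * (M * ε + 1) ≤ 2 * C * r := by
    have : C * r * (M * ε + 1) ≤ C * r * (1 + 1) := mul_le_mul_of_nonneg_left (by linarith)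
      (by positivity)
    linarith
  have e4 : (∑ d, φ d * (I.s * P (τ d) * I.η (τ d))) = ∑ d, φ d * curI I (τ d) := rfl
  rw [s1, s2] at h1'
  rw [e4] at s3'
  linarith

end

end NUGC
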