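import Pool.Agent.NUGC.LinT
import Pool.Agent.NUSea.Inst
import Pool.Agent.SeaU.Base

/-!
# Bounds uniform in the sea: `NUGC/LinT`

Copies of the existential bounds of `NUGC/LinT` with constants which depend on `SU : SeaBd` only.
-/

set_option autoImplicit false
set_option linter.unusedSectionVars false
set_option linter.unusedVariables false

open MeasureTheory Set Filter Topology

namespace NUSea.H0

open NUMF NUO
open NUSp (Cl Grp grp gp gp1 gq gn pinw remG remG1 kr kk Asy)
open NUSea (Sea SeaBd SeaU)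

noncomputable section

variable {T b : ℝ} {η : ℝ → ℝ}

/-- **the linear term of a group** -/
theorem exists_dfGU (SU : SeaBd) : ∃ K : ℝ, 0 ≤ K ∧ ∀ [Sea] [SeaU SU], ∀ (g : Gd) (T b s Hm : ℝ) (η : ℝ → ℝ), 0 ≤ T → b ≤ T → 0 ≤ s →
    0 ≤ Hm → (∀ t, |η t| < NUMF.l / 5) → (∀ t, b < |t| → η t = 0) → (∀ t, s * P t * |η t| ≤ Hm) →
    ∀ t, |s * P t * dfG T g η t| ≤ K * Hm * Real.exp (-(T - b)) * Real.exp (-(1 * |t - NUSp.pin T g.τ|)) +
      K * s * Real.exp (-(8 / 3 * T)) * (Real.exp (-(1 * |t - T|)) + Real.exp (-(1 * |t - -T|))) := by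
  obtain ⟨C, hC, hP⟩ := NUSea.P_leU SU
  have k0 := @kk4_nonneg NUSea.seaP
  have k1 : 0 ≤ kr (1 / 4) (NUMF.l / 5) := NUSp.rc_nonneg (NUSp.kk_nonneg _ _)
  obtain ⟨A, hA⟩ : ∃ A, A = 4 * kk (1 / 4) (NUMF.l / 5) + 2 * kr (1 / 4) (NUMF.l / 5) := ⟨_, rfl⟩
  have hA0 : 0 ≤ A := by rw [hA]; positivity
  refine ⟨A * (1 + C), by positivity, ?_⟩
  intro _ _ g T b s Hm η hT hb hs hHm hη hz hH t
  have hPt := (NUSea.P_pos t).le
  have q1 : 0 ≤ A * (1 + C) * Hm * Real.exp (-(T - b)) * Real.exp (-(1 * |t - NUSp.pin T g.τ|)) := by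
    positivity
  have q2 : 0 ≤ A * (1 + C) * s * Real.exp (-(8 / 3 * T)) *
      (Real.exp (-(1 * |t - T|)) + Real.exp (-(1 * |t - -T|))) := by positivity
  rcases le_total |g.τ| T with h0 | h0
  · rw [dfG_zero h0, mul_zero, abs_zero]
    positivity
  rcases le_or_gt |t| T with ht | ht
  · -- inside
    refine le_trans ?_ (le_add_of_nonneg_right q2)
    rcases lt_or_ge b |t| with hbt | hbt
    · have h1 := dfG_in g hT h0 ht (hη t)
      rw [hz t hbt, abs_zero, mul_zero, zero_mul] at h1
      rw [abs_mul, abs_of_nonneg (by positivity : 0 ≤ s * P t), le_antisymm h1 (abs_nonneg _), mul_zero]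
      exact q1
    · have h1 := dfG_in g hT h0 ht (hη t)
      rw [abs_mul, abs_of_nonneg (by positivity : 0 ≤ s * P t)]
      have h2 : T - b ≤ |t - NUSp.pin T g.τ| := by
        have h3 := pin_absT hT h0
        have h4 := abs_sub_abs_le_abs_sub (NUSp.pin T g.τ) t
        rw [abs_sub_comm] at h4
        linarith
      have h3 : Real.exp (-2 * |t - NUSp.pin T g.τ|) ≤
          Real.exp (-(T - b)) * Real.exp (-(1 * |t - NUSp.pin T g.τ|)) := by
        rw [← Real.exp_add]
        exact Real.exp_le_exp.2 (by linarith)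
      calc s * P t * |dfG T g η t| ≤ s * P t * (4 * kk (1 / 4) (NUMF.l / 5) * |η t| *
            Real.exp (-2 * |t - NUSp.pin T g.τ|)) := mul_le_mul_of_nonneg_left h1 (by positivity)
        _ = 4 * kk (1 / 4) (NUMF.l / 5) * (s * P t * |η t|) *
            Real.exp (-2 * |t - NUSp.pin T g.τ|) := by ring
        _ ≤ 4 * kk (1 / 4) (NUMF.l / 5) * Hm *
            (Real.exp (-(T - b)) * Real.exp (-(1 * |t - NUSp.pin T g.τ|))) := by
            have := hH t
            gcongr
        _ ≤ A * (1 + C) * Hm *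
            (Real.exp (-(T - b)) * Real.exp (-(1 * |t - NUSp.pin T g.τ|))) := by
            have h5 : 4 * kk (1 / 4) (NUMF.l / 5) ≤ A * (1 + C) := by
              have : 4 * kk (1 / 4) (NUMF.l / 5) ≤ A := by rw [hA]; linarith
              nlinarith
            gcongr
        _ = _ := by ring
  · -- outside
    refine le_trans ?_ (le_add_of_nonneg_left q1)
    have h1 := dfG_all g hT (hη t) (t := t)
    rw [← hA] at h1
    rw [abs_mul, abs_of_nonneg (by positivity : 0 ≤ s * P t)]
    have h2 : Real.exp (-(8 / 3) * |t|) ≤ Real.exp (-(8 / 3 * T)) *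
        (Real.exp (-(1 * |t - T|)) + Real.exp (-(1 * |t - -T|))) := by
      rcases le_total 0 t with h3 | h3
      · rw [abs_of_nonneg h3] at ht ⊢
        have h4 : Real.exp (-(8 / 3) * t) ≤ Real.exp (-(8 / 3 * T)) * Real.exp (-(1 * |t - T|)) := by
          rw [← Real.exp_add, abs_of_nonneg (by linarith)]
          exact Real.exp_le_exp.2 (by linarith)
        have h5 : 0 ≤ Real.exp (-(8 / 3 * T)) * Real.exp (-(1 * |t - -T|)) := by positivity
        linarith
      · rw [abs_of_nonpos h3] at ht ⊢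
        have h4 : Real.exp (-(8 / 3) * -t) ≤ Real.exp (-(8 / 3 * T)) * Real.exp (-(1 * |t - -T|)) := by
          rw [← Real.exp_add, abs_of_nonpos (by linarith)]
          exact Real.exp_le_exp.2 (by linarith)
        have h5 : 0 ≤ Real.exp (-(8 / 3 * T)) * Real.exp (-(1 * |t - T|)) := by positivity
        linarith
    calc s * P t * |dfG T g η t| ≤ s * (C * Real.exp (-(8 / 3) * |t|)) * A := by
          have := hP t
          gcongr
      _ ≤ s * (C * (Real.exp (-(8 / 3 * T)) *
          (Real.exp (-(1 * |t - T|)) + Real.exp (-(1 * |t - -T|))))) * A := by gcongr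
      _ = A * C * (s * (Real.exp (-(8 / 3 * T)) *
          (Real.exp (-(1 * |t - T|)) + Real.exp (-(1 * |t - -T|))))) := by ring
      _ ≤ A * (1 + C) * (s * (Real.exp (-(8 / 3 * T)) *
          (Real.exp (-(1 * |t - T|)) + Real.exp (-(1 * |t - -T|))))) := by
          have : A * C ≤ A * (1 + C) := by nlinarith
          exact mul_le_mul_of_nonneg_right this (by positivity)
      _ = _ := by ring

/-- **the linear term at the true heights** -/
theorem exists_linTU (SU : SeaBd) : ∃ K : ℝ, 0 ≤ K ∧ ∀ [Sea] [SeaU SU], ∀ (n : ℕ) (g : Fin n → Gd) (T b s Hm : ℝ) (η η1 : ℝ → ℝ),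
    0 ≤ T → b ≤ T → 0 ≤ s → 0 ≤ Hm → (∀ t, |η t| < NUMF.l / 5) →
    (∀ t, HasDerivAt η (η1 t) t) → (∀ t, b < |t| → η t = 0) → (∀ t, s * P t * |η t| ≤ Hm) →
    |(∫ t, s * P t * ∑ i, gS ((g i).pin T).G t) + (∑ a, ∫ t, s * P t * BF T g η a t) -
      ∫ t, s * P t * ∑ i, gS (g i).G t| ≤
      K * n * (Hm * Real.exp (-(T - b)) + s * Real.exp (-(8 / 3 * T))) := by
  obtain ⟨K, hK, H⟩ := exists_dfGU SU
  refine ⟨4 * K, by positivity, ?_⟩
  intro _ _ n g T b s Hm η η1 hT hb hs hHm hη hd hz hH
  have k0 := @kk4_nonneg NUSea.seaP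
  have hPc := NUSea.P_cont
  -- integrability
  have iS : ∀ G : Gd, Integrable fun t => s * P t * gS G.G t := by
    intro G
    have h1 : Integrable fun t => s * P t := NUSea.P_int.const_mul s
    refine h1.mul_bdd (c := 2 * kk (1 / 4) (NUMF.l / 5)) (gS_cont G).aestronglyMeasurable
      (ae_of_all _ fun t => ?_)
    refine (gS_le G t).trans ?_
    have h2 : Real.exp (-2 * |t - G.τ|) ≤ 1 :=
      Real.exp_le_one_iff.2 (by have := abs_nonneg (t - G.τ); linarith)
    have := mul_le_mul_of_nonneg_left h2 (by positivity : 0 ≤ 2 * kk (1 / 4) (NUMF.l / 5))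
    linarith
  have iR : ∀ (i : Fin n) (a : Bool), Integrable fun t =>
      s * P t * remG T (g i).c a (g i).σ (g i).w η t := by
    intro i a
    have h1 : Integrable fun t => s * P t := NUSea.P_int.const_mul s
    have hc : Continuous fun t => remG T (g i).c a (g i).σ (g i).w η t :=
      continuous_iff_continuousAt.2 fun t => (NUSp.hasDerivAt_remG l5pos l5
        (g i).away T (g i).c a (g i).σ (hη t) (hd t)).continuousAt
    refine h1.mul_bdd (c := kr (1 / 4) (NUMF.l / 5)) hc.aestronglyMeasurable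
      (ae_of_all _ fun t => ?_)
    have h2 := NUSp.remG_le (w := (g i).w) (t := t) (η := η) l5pos l5 (by norm_num) (g i).away hT
      (g i).c a (g i).σ (hη t)
    refine h2.trans ?_
    have h3 : Real.exp (-2 * |t - NUSp.pin T (g i).w.im|) ≤ 1 :=
      Real.exp_le_one_iff.2 (by have := abs_nonneg (t - NUSp.pin T (g i).w.im); linarith)
    have h4 : 0 ≤ kr (1 / 4) (NUMF.l / 5) := NUSp.rc_nonneg (NUSp.kk_nonneg _ _)
    have := mul_le_mul_of_nonneg_left h3 h4
    linarith
  have iD : ∀ i, Integrable fun t => s * P t * dfG T (g i) η t := by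
    intro i
    refine ((((iS ((g i).pin T)).add (iR i true)).add (iR i false)).sub (iS (g i))).congr
      (ae_of_all _ fun t => ?_)
    show s * P t * gS ((g i).pin T).G t + s * P t * remG T (g i).c true (g i).σ (g i).w η t +
      s * P t * remG T (g i).c false (g i).σ (g i).w η t - s * P t * gS (g i).G t = _
    unfold dfG
    ring
  -- the sum
  have e1 : (∫ t, s * P t * ∑ i, gS ((g i).pin T).G t) + (∑ a, ∫ t, s * P t * BF T g η a t) -
      ∫ t, s * P t * ∑ i, gS (g i).G t = ∑ i, ∫ t, s * P t * dfG T (g i) η t := by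
    have a1 : (∫ t, s * P t * ∑ i, gS ((g i).pin T).G t) =
        ∑ i, ∫ t, s * P t * gS ((g i).pin T).G t := by
      rw [← integral_finsetSum _ fun i _ => iS ((g i).pin T)]
      refine integral_congr_ae (ae_of_all _ fun t => ?_)
      simp only
      rw [Finset.mul_sum]
    have a2 : (∫ t, s * P t * ∑ i, gS (g i).G t) = ∑ i, ∫ t, s * P t * gS (g i).G t := by
      rw [← integral_finsetSum _ fun i _ => iS (g i)]
      refine integral_congr_ae (ae_of_all _ fun t => ?_)
      simp only
      rw [Finset.mul_sum]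
    have a3 : ∀ a, (∫ t, s * P t * BF T g η a t) =
        ∑ i, ∫ t, s * P t * remG T (g i).c a (g i).σ (g i).w η t := by
      intro a
      rw [← integral_finsetSum _ fun i _ => iR i a]
      refine integral_congr_ae (ae_of_all _ fun t => ?_)
      show s * P t * BF T g η a t = _
      unfold BF
      rw [Finset.mul_sum]
    rw [a1, a2, Fintype.sum_bool, a3, a3, ← Finset.sum_add_distrib, ← Finset.sum_add_distrib,
      ← Finset.sum_sub_distrib]
    refine Finset.sum_congr rfl fun i _ => ?_
    have e : (fun t => s * P t * dfG T (g i) η t) =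
        ((fun t => s * P t * gS ((g i).pin T).G t) +
          ((fun t => s * P t * remG T (g i).c true (g i).σ (g i).w η t) +
            (fun t => s * P t * remG T (g i).c false (g i).σ (g i).w η t))) -
        (fun t => s * P t * gS (g i).G t) := by
      funext t
      simp only [Pi.sub_apply, Pi.add_apply]
      unfold dfG
      ring
    rw [e, integral_sub' ((iS ((g i).pin T)).add ((iR i true).add (iR i false))) (iS (g i)),
      integral_add' (iS ((g i).pin T)) ((iR i true).add (iR i false)),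
      integral_add' (iR i true) (iR i false)]
  rw [e1]
  -- the bound of one group
  have key : ∀ i, |∫ t, s * P t * dfG T (g i) η t| ≤
      4 * K * (Hm * Real.exp (-(T - b)) + s * Real.exp (-(8 / 3 * T))) := by
    intro i
    have hE := fun x : ℝ => NUDispW.int_exp_abs (c := 1) one_pos x
    have hx := hE (NUSp.pin T (g i).τ)
    have h1 := hE T
    have h2 := hE (-T)
    have hE2 : Integrable fun t => Real.exp (-(1 * |t - T|)) + Real.exp (-(1 * |t - -T|)) :=
      h1.1.add h2.1
    have hi : Integrable fun t => K * Hm * Real.exp (-(T - b)) *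
        Real.exp (-(1 * |t - NUSp.pin T (g i).τ|)) + K * s * Real.exp (-(8 / 3 * T)) *
        (Real.exp (-(1 * |t - T|)) + Real.exp (-(1 * |t - -T|))) :=
      (hx.1.const_mul _).add (hE2.const_mul _)
    have hpt : ∀ t, ‖s * P t * dfG T (g i) η t‖ ≤ K * Hm * Real.exp (-(T - b)) *
        Real.exp (-(1 * |t - NUSp.pin T (g i).τ|)) + K * s * Real.exp (-(8 / 3 * T)) *
        (Real.exp (-(1 * |t - T|)) + Real.exp (-(1 * |t - -T|))) := fun t =>
      H (g i) T b s Hm η hT hb hs hHm hη hz hH t
    refine (norm_integral_le_of_norm_le hi (ae_of_all _ hpt)).trans ?_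
    rw [integral_add (hx.1.const_mul _) (hE2.const_mul _), integral_const_mul,
      integral_const_mul]
    have e2 : (∫ t, (Real.exp (-(1 * |t - T|)) + Real.exp (-(1 * |t - -T|)))) = 4 := by
      rw [integral_add h1.1 h2.1, h1.2, h2.2]
      norm_num
    rw [e2, hx.2]
    have q1 : 0 ≤ K * Hm * Real.exp (-(T - b)) := by positivity
    linarith
  refine (Finset.abs_sum_le_sum_abs _ _).trans ?_
  refine (Finset.sum_le_card_nsmul _ _ _ fun i _ => key i).trans (le_of_eq ?_)
  rw [Finset.card_univ, Fintype.card_fin, nsmul_eq_mul]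
  ring

end

end NUSea.H0
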