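import Pool.Agent.SeaU.Base
import Pool.Agent.NUSea.H0.SharpC

/-!
# Bounds uniform in the sea: the statements of `NUSea/H0/{GasC, SharpC}`, and `tC`

`CrudeCU SU`, `InstCU SU`: `CrudeC`, `InstC` with constants which depend on `SU` only.
-/

set_option autoImplicit false
set_option linter.unusedSectionVars false

open MeasureTheory Set Filter Topology
open scoped Real ENNReal

namespace NUSea.H0

open Finset
open NUH0 NUO NUMF NUWC NUEnW NUDispW NUMFC NUKer NUAct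
open NUC43 (slk)

noncomputable section

/-- **the crude bound, uniform** -/
def CrudeCU (SU : SeaBd) : Prop :=
  ∃ K Ca : ℝ, 0 ≤ K ∧ 0 ≤ Ca ∧ ∀ (G : ℕ) (kap : ℝ), 0 < kap →
    ∀ ep : ℝ, 0 < ep → ep ≤ 1 / 100 → ∀ e1 : ℝ, 0 < e1 → e1 ≤ 1 / 100 → ∀ δ : ℝ, 0 < δ →
    ∀ (k : ℕ) (κ CB : ℝ), 0 < κ → 0 ≤ CB →
    ∃ ϑ Cst : ℝ, 0 < ϑ ∧ 0 ≤ Cst ∧ ∃ m0 : ℕ, ∀ m ≥ m0, ∀ [Sea] [SeaU SU],
      ∀ (I : Inp) (P : Par) (r : ℕ) (O : Fin r → Xo) (g : Fin G → ℝ) (p n : ℕ)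
        (aX aY cf B1 : ℝ → ℝ) (T1 D q S : ℝ),
      DatC ep e1 κ CB ϑ k m I P O g p n aX aY cf B1 T1 D q S →
        ∫⁻ x, ENNReal.ofReal (W0 (datO I P O) p n aX aY cf x) ≤
          ENNReal.ofReal ((p.factorial : ℝ) * n.factorial *
            (Cst * (m : ℝ) ^ (7 / 8 + Ca * (ep + e1) + δ) * (1 + S) *
              Real.exp (confC ep e1 m I P p n K kap O T1)))

/-- the instance of a configuration, uniform -/
def InstCU (SU : SeaBd) : Prop :=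
  ∀ (G : ℕ) (ep : ℝ), 0 < ep → ep ≤ 1 / 100 → ∀ e1 : ℝ, 0 < e1 → e1 ≤ 1 / 100 →
    ∀ (k : ℕ) (κ CB : ℝ), 0 < κ → 0 ≤ CB → ∃ A : ℝ, 1 ≤ A ∧ ∀ x : ℝ, 0 < x →
    ∃ ϑ N1 : ℝ, 0 < ϑ ∧ 0 ≤ N1 ∧ ∃ m0 : ℕ, ∀ m ≥ m0, ∀ [Sea] [SeaU SU],
      ∀ (I : Inp) (P : Par) (r : ℕ) (O : Fin r → Xo) (g : Fin G → ℝ) (p n : ℕ)
        (aX aY cf B1 : ℝ → ℝ) (T1 D q S : ℝ),
      DatC ep e1 κ CB ϑ k m I P O g p n aX aY cf B1 T1 D q S →
        Inst (datO I P O) p n 8 A κ m (hts O g) (TW ep e1 m) ((1 - e1) * Tb (Real.log m))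
          (fun _ => I.η) (fun _ => I.η1) ∧
        ∀ T, 0 ≤ T → NT (datO I P O) T ≤ N1 + x * win univ (fun i => ht (O i)) + x * T

/-- uniform constant of the tail of the density (replaces `tC`) -/
def tCU (SU : SeaBd) : ℝ := 2 * (P_leU SU).choose + 2

lemma P_tCU (SU : SeaBd) [Sea] [SeaU SU] (x : ℝ) : P x ≤ tCU SU / 2 * Real.exp (-(8 / 3) * |x|) := by
  have h := (P_leU SU).choose_spec.2 x
  have h1 := Real.exp_pos (-(8 / 3) * |x|)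
  unfold tCU
  nlinarith

lemma tCU_ge (SU : SeaBd) : 2 ≤ tCU SU := by
  have := (P_leU SU).choose_spec.1
  unfold tCU
  linarith

end

end NUSea.H0
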