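import Pool.Agent.NUSea.H0.PinF
import Pool.Agent.SeaU.DefC

/-!
# Bounds uniform in the sea: `NUSea/H0/PinF` (helper35)

Copies of the existential bounds of `NUSea/H0/PinF` with constants which depend on `SU : SeaBd` only.
-/

set_option autoImplicit false
set_option linter.unusedSectionVars false
set_option linter.unusedVariables false

open MeasureTheory Set Filter Topology

namespace NUSea.H0

open NUMF NUO
open NUSp (Cl Grp grp gp gp1 gq gn th DD pinw remG remG1 kfar kr kr1)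
open NUSea (Sea SeaBd SeaU)

noncomputable section

variable {n : ℕ}
variable (g : Fin n → Gd) {T : ℝ} {η η1 : ℝ → ℝ}

/-- **size and energy of the remainders**, `K` absolute -/
theorem exists_BFU (SU : SeaBd) : ∃ K : ℝ, 1 ≤ K ∧ ∀ [Sea] [SeaU SU], ∀ (n : ℕ) (g : Fin n → Gd) (T : ℝ) (η η1 : ℝ → ℝ), 0 ≤ T →
    (∀ t, |η t| ≤ 1 / 40) → (∀ t, |η1 t| ≤ 1) → (∀ t, HasDerivAt η (η1 t) t) → Continuous η1 →
    (∀ (a : Bool) (t : ℝ), HasDerivAt (BF T g η a) (BF1 T g η η1 a t) t) ∧
    (∀ a, Continuous (BF1 T g η η1 a)) ∧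
    (∀ (a : Bool) (t : ℝ), |BF T g η a t| ≤
      K * ∑ i, Real.exp (-2 * |t - NUSp.pin T (g i).τ|)) ∧
    (∀ (a : Bool) (t : ℝ), |BF1 T g η η1 a t| ≤
      K * ∑ i, Real.exp (-2 * |t - NUSp.pin T (g i).τ|)) ∧
    (∀ (a : Bool) (t : ℝ), |BF T g η a t| ≤ K * n) ∧
    ∀ (a : Bool) (y : ℝ), 0 ≤ y →
      ∫ t in (-y)..y, (BF T g η a t ^ 2 + BF1 T g η η1 a t ^ 2) ≤ (K * n) ^ 2 := by
  have hl := NUMF.l_pos
  have hl2 : (1:ℝ) / 40 < NUMF.l / 5 := by
    unfold NUMF.l
    have := Real.pi_gt_d2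
    linarith
  have k1 : 0 ≤ kr (1 / 4) (NUMF.l / 5) := NUSp.rc_nonneg (NUSp.kk_nonneg _ _)
  have k2 : 0 ≤ kr1 (1 / 4) (NUMF.l / 5) 1 := by
    unfold kr1 NUSp.rc1
    have := NUSp.stD_one
    have := NUSp.rc_nonneg (c := 3) (NUSp.kk_nonneg (1 / 4) (NUMF.l / 5))
    positivity
  refine ⟨1 + 2 * kr (1 / 4) (NUMF.l / 5) + 2 * kr1 (1 / 4) (NUMF.l / 5) 1, by linarith, ?_⟩
  intro _ _ n g T η η1 hT hη hη1 hd hc1
  have hc0 : Continuous η := continuous_iff_continuousAt.2 fun t => (hd t).continuousAt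
  have hη' : ∀ t, |η t| < NUMF.l / 5 := fun t => (hη t).trans_lt hl2
  obtain ⟨K, hK⟩ : ∃ K : ℝ, K = 1 + 2 * kr (1 / 4) (NUMF.l / 5) + 2 * kr1 (1 / 4) (NUMF.l / 5) 1 :=
    ⟨_, rfl⟩
  rw [← hK]
  have hK1 : 2 * kr (1 / 4) (NUMF.l / 5) ≤ K := by rw [hK]; linarith
  have hK2 : 2 * kr1 (1 / 4) (NUMF.l / 5) 1 ≤ K := by rw [hK]; linarith
  have hK0 : 0 ≤ K := by linarith
  have b1 : ∀ (i : Fin n) (a : Bool) (t : ℝ), |remG T (g i).c a (g i).σ (g i).w η t| ≤
      K / 2 * Real.exp (-2 * |t - NUSp.pin T (g i).τ|) := by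
    intro i a t
    have h := NUSp.remG_le (w := (g i).w) (t := t) (η := η) (by positivity) l5 (by norm_num)
      (g i).away hT (g i).c a (g i).σ (hη' t)
    rw [Gd.im] at h
    exact h.trans (mul_le_mul_of_nonneg_right (by linarith) (Real.exp_pos _).le)
  have b2 : ∀ (i : Fin n) (a : Bool) (t : ℝ), |remG1 T (g i).c a (g i).σ (g i).w η η1 t| ≤
      K / 2 * Real.exp (-2 * |t - NUSp.pin T (g i).τ|) := by
    intro i a t
    have h := NUSp.remG1_le (w := (g i).w) (t := t) (η := η) (η1 := η1) (by positivity) l5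
      (by norm_num) (g i).away hT (g i).c a (g i).σ (hη' t) (K := 1) (hη1 t)
    rw [Gd.im] at h
    exact h.trans (mul_le_mul_of_nonneg_right (by linarith) (Real.exp_pos _).le)
  have hdr : ∀ (i : Fin n) (a : Bool), Continuous fun t => remG T (g i).c a (g i).σ (g i).w η t :=
    fun i a => continuous_iff_continuousAt.2 fun t => (NUSp.hasDerivAt_remG (by positivity) l5
      (g i).away T (g i).c a (g i).σ (hη' t) (hd t)).continuousAt
  have hcr : ∀ (i : Fin n) (a : Bool), Continuous fun t =>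
      remG1 T (g i).c a (g i).σ (g i).w η η1 t := fun i a =>
    NUSp.continuous_remG1 (by positivity) l5 (g i).away T (g i).c a (g i).σ hη' hc0 hc1
  have s1 : ∀ (a : Bool) (t : ℝ), |BF T g η a t| ≤
      K / 2 * ∑ i, Real.exp (-2 * |t - NUSp.pin T (g i).τ|) := fun a t => by
    rw [Finset.mul_sum]
    exact (Finset.abs_sum_le_sum_abs _ _).trans (Finset.sum_le_sum fun i _ => b1 i a t)
  have s2 : ∀ (a : Bool) (t : ℝ), |BF1 T g η η1 a t| ≤
      K / 2 * ∑ i, Real.exp (-2 * |t - NUSp.pin T (g i).τ|) := fun a t => by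
    rw [Finset.mul_sum]
    exact (Finset.abs_sum_le_sum_abs _ _).trans (Finset.sum_le_sum fun i _ => b2 i a t)
  have hE : ∀ t, 0 ≤ ∑ i, Real.exp (-2 * |t - NUSp.pin T (g i).τ|) := fun t =>
    Finset.sum_nonneg fun _ _ => (Real.exp_pos _).le
  refine ⟨fun a t => hasDerivAt_BF g T a (hη' t) (hd t), fun a => cont_BF1 g T a hη' hc0 hc1,
    fun a t => (s1 a t).trans (mul_le_mul_of_nonneg_right (by linarith) (hE t)),
    fun a t => (s2 a t).trans (mul_le_mul_of_nonneg_right (by linarith) (hE t)),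
    fun a t => (s1 a t).trans ?_, fun a y hy => ?_⟩
  · have h1 : ∑ i, Real.exp (-2 * |t - NUSp.pin T (g i).τ|) ≤ n := by
      refine (Finset.sum_le_card_nsmul _ _ 1 fun i _ => ?_).trans (by simp)
      rw [Real.exp_le_one_iff]
      have := abs_nonneg (t - NUSp.pin T (g i).τ)
      linarith
    have := hE t
    nlinarith
  · have hle : -y ≤ y := by linarith
    have pt : ∀ t, BF T g η a t ^ 2 + BF1 T g η η1 a t ^ 2 ≤
        n * ∑ i, (remG T (g i).c a (g i).σ (g i).w η t ^ 2 +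
          remG1 T (g i).c a (g i).σ (g i).w η η1 t ^ 2) := by
      intro t
      have c1 := sq_sum_le_card_mul_sum_sq (s := (Finset.univ : Finset (Fin n)))
        (f := fun i => remG T (g i).c a (g i).σ (g i).w η t)
      have c2 := sq_sum_le_card_mul_sum_sq (s := (Finset.univ : Finset (Fin n)))
        (f := fun i => remG1 T (g i).c a (g i).σ (g i).w η η1 t)
      rw [Finset.card_univ, Fintype.card_fin] at c1 c2
      rw [Finset.sum_add_distrib, mul_add]
      exact add_le_add c1 c2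
    have j1 : Continuous (BF T g η a) := continuous_finsetSum _ fun i _ => hdr i a
    have j2 : Continuous (BF1 T g η η1 a) := continuous_finsetSum _ fun i _ => hcr i a
    have j3 : ∀ i : Fin n, IntervalIntegrable (fun t => remG T (g i).c a (g i).σ (g i).w η t ^ 2 +
        remG1 T (g i).c a (g i).σ (g i).w η η1 t ^ 2) volume (-y) y := fun i =>
      (((hdr i a).pow 2).add ((hcr i a).pow 2)).intervalIntegrable _ _
    refine (intervalIntegral.integral_mono_on hle
      (((j1.pow 2).add (j2.pow 2)).intervalIntegrable _ _)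
      ((Continuous.intervalIntegrable (by
        exact continuous_const.mul (continuous_finsetSum _ fun i _ =>
          ((hdr i a).pow 2).add ((hcr i a).pow 2))) _ _)) fun t _ => pt t).trans ?_
    rw [intervalIntegral.integral_const_mul, intervalIntegral.integral_finsetSum fun i _ => j3 i]
    have h4 : ∀ i : Fin n, ∫ t in (-y)..y, (remG T (g i).c a (g i).σ (g i).w η t ^ 2 +
        remG1 T (g i).c a (g i).σ (g i).w η η1 t ^ 2) ≤ K ^ 2 := by
      intro i
      have i1 : IntervalIntegrable (fun t => remG T (g i).c a (g i).σ (g i).w η t ^ 2) volume (-y) y :=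
        ((hdr i a).pow 2).intervalIntegrable _ _
      have i2 : IntervalIntegrable (fun t => remG1 T (g i).c a (g i).σ (g i).w η η1 t ^ 2) volume
        (-y) y := ((hcr i a).pow 2).intervalIntegrable _ _
      rw [intervalIntegral.integral_add i1 i2]
      have e1 := en_prof (hdr i a) hy (b1 i a)
      have e2 := en_prof (hcr i a) hy (b2 i a)
      nlinarith [sq_nonneg K]
    have h5 := Finset.sum_le_card_nsmul Finset.univ _ _ fun i _ => h4 i
    rw [Finset.card_univ, Fintype.card_fin, nsmul_eq_mul] at h5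
    have hn : (0:ℝ) ≤ n := Nat.cast_nonneg n
    calc _ ≤ (n:ℝ) * (n * K ^ 2) := mul_le_mul_of_nonneg_left h5 hn
      _ = _ := by ring

end

end NUSea.H0
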