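import Pool.Agent.NUSea.H0.SpG
import Pool.Agent.SeaU.DefC

/-!
# Bounds uniform in the sea: `NUSea/H0/SpG` (helper35)

Copies of the existential bounds of `NUSea/H0/SpG` with constants which depend on `SU : SeaBd` only.
-/

set_option autoImplicit false
set_option linter.unusedSectionVars false
set_option linter.unusedVariables false

open MeasureTheory Set Filter Topology

namespace NUSea.H0

open NUMF NUO NUKer NUAct
open NUGC (Sr Ek muS tauS linS obSr)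
open NUSp (Cl Grp grp gp gp1 gq gn th th1 DD kG psG wG srcG qc)
open NUSea (Sea SeaBd SeaU)

noncomputable section

variable {n : ℕ}
variable (g : Fin n → Gd)
variable {g} {p q : ℂ} {I : Inp} {B' : Bool → ℝ → ℝ}

/-- **families of groups in the data**: everything uniform in the family -/
theorem exists_spGU (SU : SeaBd) : ∃ K : ℝ, 1 ≤ K ∧ ∀ [Sea] [SeaU SU], ∀ (n : ℕ) (g : Fin n → Gd) (p q : ℂ) (I : Inp)
    (B' : Bool → ℝ → ℝ), SpI p q g I B' → ∀ (ε M b : ℝ) (e : ℝ → ℝ), Cur I.s ε M b e I.η →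
      (∀ t, HasDerivAt I.η (I.η1 t) t) → ε ≤ 1 / 40 →
    (∀ a t, |wO I a t| ≤ |I.B a t| + K * (n + 1) * ε) ∧
    (∀ a, ContDiff ℝ 1 (wO I a)) ∧
    (∀ a T, 0 ≤ T → ∫ t in (-(T + 1))..(T + 1), (wO I a t ^ 2 + deriv (wO I a) t ^ 2) ≤
      2 * (∫ t in (-(T + 1))..(T + 1), (I.B a t ^ 2 + B' a t ^ 2)) + (K * (n + 1) * ε) ^ 2) ∧
    (∀ a t, |I.ν a t| ≤ K * ∑ i, Real.exp (-(5 / 2 * |t - (g i).τ|))) ∧
    (∀ a, ∫ t, |I.ν a t| ≤ K * n) ∧
    (∫ x, I.τD x = -∑ i, NUC43.sg (g i).σ * qc (g i).c / 2) ∧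
    (∀ a, Ext (NUMF.l / 10) (I.A a)) ∧
    ∀ (CB dl : ℝ) (P : Par) (r : ℕ), (∀ a t, |I.B a t| ≤ CB) → 0 ≤ I.s → 0 ≤ b → PG (1 / 8) P →
      (∀ t, P.d r + P.rad r t / NUMF.l + ε / NUMF.l ≤ dl) → dl ≤ 1 / 16 → IOk dl ε M b e I P r := by
  obtain ⟨M, hM0, HM⟩ := exists_nuG
  have hl := NUMF.l_pos
  have e5 : NUMF.l / 5 < 1 / 4 * NUMF.l := by linarith
  have k4 : 0 ≤ kb (1 / 4) (NUMF.l / 5) :=
    kb_nonneg (by positivity) e5 (NUSp.wG_away .w true 0)
  have hK : 0 ≤ Kw kG0 15 := by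
    unfold Kw NUSp.kc kG0
    positivity
  refine ⟨1 + M + 2 * Kw kG0 15, by linarith, ?_⟩
  intro _ _ n g p q I B' h ε Mm b e hcur hd hε
  obtain ⟨-, h2, h3⟩ := HM n g
  have S := h.spc
  have hε0 := hcur.ε0
  have hn : (0:ℝ) ≤ n := Nat.cast_nonneg n
  have hcard : ((Fintype.card (Option (Fin n)) : ℕ) : ℝ) = n + 1 := by
    rw [Fintype.card_option, Fintype.card_fin]
    push_cast
    ring
  have hS0 : ∀ t, 0 ≤ ∑ i, Real.exp (-(5 / 2 * |t - (g i).τ|)) := fun t =>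
    Finset.sum_nonneg fun _ _ => (Real.exp_pos _).le
  refine ⟨fun a t => ?_, S.wc hcur hε hd, fun a T hT => ?_, fun a t => ?_, fun a => ?_, ?_, S.Ae, ?_⟩
  · refine (S.wO_le hcur hε hd a t).trans (add_le_add le_rfl ?_)
    rw [hcard]
    have : 0 ≤ (n + 1) * ε := by positivity
    nlinarith
  · refine (S.NW_le hcur hε hd a hT).trans (add_le_add le_rfl ?_)
    rw [hcard]
    have h0 : 0 ≤ (n + 1) * ε := by positivity
    have h4 : 0 ≤ Kw kG0 15 * ε * (n + 1) := by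
      have := mul_nonneg hK h0
      nlinarith
    calc 4 * (Kw kG0 15 * ε * (n + 1)) ^ 2 = (2 * Kw kG0 15 * ((n + 1) * ε)) ^ 2 := by ring
      _ ≤ ((1 + M + 2 * Kw kG0 15) * ((n + 1) * ε)) ^ 2 := by
        refine pow_le_pow_left₀ (by positivity) ?_ 2
        exact mul_le_mul_of_nonneg_right (by linarith) h0
      _ = _ := by ring
  · rw [h.ν]
    refine (h2 a t).trans (mul_le_mul_of_nonneg_right ?_ (hS0 t))
    linarith
  · rw [h.ν]
    refine (h3 a).trans (mul_le_mul_of_nonneg_right ?_ hn)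
    linarith
  · rw [h.τ]
    exact int_tauG g
  · intro CB dl P r hB s0 b0 pg d1 d2
    exact S.iok s0 b0 hcur hd hε pg d1 d2
      (fun a => continuous_iff_continuousAt.2 fun t => (h.dB a t).continuousAt)
      (fun a => ⟨CB, hB a⟩) hB

end

end NUSea.H0
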