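import Pool.Agent.PotH.ExH
import Pool.Agent.SeaU.ExpC
import Pool.Agent.SeaU.LinT
import Pool.Agent.SeaU.PinF
import Pool.Agent.NUSea.Inst
import Pool.Agent.SeaU.SpG

/-!
# Bounds uniform in the sea: `PotH/ExH`

Copies of the existential bounds of `PotH/ExH` with constants which depend on `SU : SeaBd` only.
-/

set_option autoImplicit false
set_option linter.unusedSectionVars false
set_option linter.unusedVariables false

open MeasureTheory Finset Filter Topology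

namespace PotH

open NUGC
open NUO (Kind Xo kd ht sp Par PG wK cons slkK rr Tb TW)
open NUStabP (enC)
open NUDispW (win)
open NUMF (l l_pos)
open NUSea (Cur P hd)
open NUSea.H0 (Inp IOk datO wO Gd TG SpI BF BF1 gS)
open NUSea (Sea SeaBd SeaU)

noncomputable section


/-- **the exponent of a configuration with ends and groups**, exact linear term and energy of the
current -/
theorem exists_enDU (SU : SeaBd) {W : ℝ} (hW : 0 ≤ W) : ∃ K0 : ℝ, 0 ≤ K0 ∧ ∀ kap : ℝ, 0 < kap → ∀ κ CB : ℝ, 0 < κ →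
    0 ≤ CB → ∀ k : ℕ, ∀ δ0 N : ℝ, 1 / 10 < δ0 → δ0 ≤ 1 → 2 ≤ N → ∀ n : ℕ,
    ∃ (Cc : ℝ) (m0 : ℕ), ∀ m ≥ m0, ∀ [Sea] [SeaU SU], ∀ e1 : ℝ, 0 < e1 → e1 ≤ 1 / 100 →
    ∀ (I : Inp) (Q : Par) (r : ℕ) (O : Fin r → Xo) (ι : Type) [Fintype ι] (T : ι → Sr),
    EnOk e1 κ W CB k m I Q O T → (∀ t t', |curI I t - curI I t'| ≤ |t - t'|) →
    ∀ (p q : ℂ) (G : Fin n → NUSp.Grp) (τ : Fin n → ℝ),
      NUO.Away δ0 p → NUO.Away δ0 q → q.im = p.im → |p.re| < l → |q.re| < l →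
      (∀ i, (G i).Ok δ0 (τ i)) → (∀ i, NUSp.gn (G i) ≤ N) →
      (∀ a z, |z.im| < l / 10 → I.A a z = ∑ i, NUSea.H0.fD p q G i a z) →
      (datO I Q O).En ≤ (∑ i, oneH I Q O (curI I) i) + enC O +
        (∑ i, ∑ d, ES (obSr Q.jL Q.e (O i)) (T d)) + 1 / 2 * (∑ d, ∑ d', ES (T d) (T d')) +
        (∫ t : ℝ, I.s * P t * (I.A true t + I.A false t).re) + (∑ a, ∫ t, I.s * P t * I.B a t) -
        2 * (12 * l * curI I p.im + ∑ i, (NUSp.gph true (G i) + NUSp.gph false (G i)) *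
          curI I (τ i)) + NUCR.bil (hd I.s I.η I.η1) (hd I.s I.η I.η1) +
        K0 * r + kap * win univ (fun i => ht (O i)) + Cc := by
  obtain ⟨K0, hK0, H⟩ := exists_enGU SU hW
  refine ⟨K0, hK0, ?_⟩
  intro kap hkap κ CB hκ hCB k δ0 N hδ hδ1 hN n
  have hsz := (letI := NUSea.seaP; szD_nonneg hδ hδ1 (by linarith : 0 ≤ N) n)
  obtain ⟨Cc, m0, H⟩ := H kap hkap κ (max CB (szD δ0 N n)) hκ (hCB.trans (le_max_left _ _)) k
  refine ⟨Cc, m0, ?_⟩
  intro m hm _ _ e1 he1 he1' I Q r O ι _ T hE hL p q G τ hp hq him hpl hql hG hn hA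
  have hE' : EnOk e1 κ W (max CB (szD δ0 N n)) k m I Q O T :=
    { hE with mass := fun a => (hE.mass a).trans (le_max_left _ _) }
  have hgr := grOk_D hδ hδ1 hp hq him hG hN hn hA
  have hgr' : GrOk (max CB (szD δ0 N n)) I (kD δ0 (l / 10) G) (fun _ => 0) (φD p q G)
      (NUSea.H0.hD p τ) (ΨD p q G) :=
    { hgr with size := hgr.size.trans (le_max_right _ _) }
  have h1 := H m hm e1 he1 he1' I Q r O ι T hE' hL _ _ _ _ _ _ hgr'
  have e1' : (∑ d, φD p q G d * curI I (NUSea.H0.hD p τ d)) =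
      12 * l * curI I p.im + ∑ i, (NUSp.gph true (G i) + NUSp.gph false (G i)) * curI I (τ i) := by
    rw [Fintype.sum_option, φD_none hpl hql]
    rfl
  rw [e1'] at h1
  exact h1

/-- **the exponent of a configuration with at most two groups of spectators**, exact linear term -/
theorem exists_enSXU (SU : SeaBd) {WB : ℝ} (hWB : 0 ≤ WB) : ∃ K0 : ℝ, 0 ≤ K0 ∧ ∀ kap : ℝ, 0 < kap →
    ∀ κ : ℝ, 0 < κ → ∀ k : ℕ, ∃ (Cc : ℝ) (m0 : ℕ), ∀ m ≥ m0, ∀ [Sea] [SeaU SU], ∀ e1 : ℝ, 0 < e1 → e1 ≤ 1 / 100 →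
    ∀ n : ℕ, n ≤ 2 → ∀ (g : Fin n → Gd) (p q : ℂ) (I : Inp) (B' : Bool → ℝ → ℝ),
    SpI p q g I B' → (∀ a t, |I.B a t| ≤ WB) → (∀ t t', |curI I t - curI I t'| ≤ |t - t'|) →
    ∀ (Q : Par) (r : ℕ) (O : Fin r → Xo), Q.jL = 9 / 4 → Q.e = 1 / 4 → ∑ i, rr Q O i ≤ 1 →
    (∃ (dl ε M : ℝ) (e : ℝ → ℝ), IOk dl ε M ((1 - e1) * Tb (Real.log m)) e I Q r ∧
      ε ≤ (m : ℝ) ^ (-κ) ∧ M ≤ Real.log m ^ k ∧
      dl ≤ 1 / (6000 * ((r : ℝ) + 1) ^ 2) + 3 * (m : ℝ) ^ (-κ)) →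
      (datO I Q O).En ≤ (∑ i, oneH I Q O (curI I) i) + enC O +
        (∑ i, ∑ d, ES (obSr Q.jL Q.e (O i)) (TG g d)) +
        1 / 2 * (∑ d, ∑ d', ES (TG g d) (TG g d')) +
        (∑ i, seaG I.s (g i)) + (∑ a, ∫ t, I.s * P t * I.B a t) -
        2 * (12 * l * curI I p.im + ∑ i, (NUSp.gph true (g i).G + NUSp.gph false (g i).G) *
          curI I (g i).τ) + NUCR.bil (hd I.s I.η I.η1) (hd I.s I.η I.η1) +
        K0 * r + kap * win univ (fun i => ht (O i)) + Cc := by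
  obtain ⟨K0, hK0, H⟩ := exists_enDU SU (W := WB + 1) (by linarith)
  obtain ⟨K, hK, HS⟩ := NUSea.H0.exists_spGU SU
  refine ⟨K0, hK0, ?_⟩
  intro kap hkap κ hκ k
  have H := fun n => H kap hkap κ (2 * K) hκ (by linarith) k (1 / 4) 15 (by norm_num) (by norm_num)
    (by norm_num) n
  choose Cc m0 H using H
  obtain ⟨m1, hm1⟩ := (letI := NUSea.seaP; polylogC (3 * K) 0 hκ one_pos)
  refine ⟨|Cc 0| + |Cc 1| + |Cc 2|, max m1 (max (m0 0) (max (m0 1) (m0 2))), ?_⟩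
  intro m hm _ _ e1 he1 he1' n hn g p q I B' hS hB hL Q r O hj he hrr hok
  simp only [ge_iff_le, max_le_iff] at hm
  obtain ⟨g1, g2, g3, g4⟩ := hm
  have hmn : m0 n ≤ m := by interval_cases n <;> assumption
  have hCn : Cc n ≤ |Cc 0| + |Cc 1| + |Cc 2| := by
    have a0 := abs_nonneg (Cc 0)
    have a1 := abs_nonneg (Cc 1)
    have a2 := abs_nonneg (Cc 2)
    have b0 := le_abs_self (Cc 0)
    have b1 := le_abs_self (Cc 1)
    have b2 := le_abs_self (Cc 2)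
    interval_cases n <;> linarith
  have hmk := hm1 m g1
  rw [pow_zero, mul_one] at hmk
  obtain ⟨dl, ε, M, e, hI, hε, hM, hdl⟩ := hok
  obtain ⟨w0, -, -, -, w4, -⟩ := HS n g p q I B' hS ε M ((1 - e1) * Tb (Real.log m)) e hI.cur
    hI.der hI.ε1
  have hn2 : (n : ℝ) ≤ 2 := by exact_mod_cast hn
  have hn0 : (0 : ℝ) ≤ n := Nat.cast_nonneg n
  have hε0 : 0 ≤ ε := hI.cur.ε0
  have hwO : ∀ a t, |wO I a t| ≤ WB + 1 := by
    intro a t
    refine (w0 a t).trans (add_le_add (hB a t) ?_)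
    calc K * (n + 1) * ε ≤ K * (2 + 1) * (m : ℝ) ^ (-κ) := by
          have hK0' : 0 ≤ K := by linarith
          gcongr
      _ = 3 * K * (m : ℝ) ^ (-κ) := by ring
      _ ≤ 1 := hmk
  have hAd : NUC43.Adm Q.jL Q.e := by
    rw [hj, he]
    exact NUC43.adm0
  have hE : EnOk e1 κ (WB + 1) (2 * K) k m I Q O (TG g) :=
    { jL := hj
      e := he
      rr1 := hrr
      ok := ⟨dl, ε, M, e, hI, hε, hM, hdl⟩
      Tok := NUSea.H0.TG_ok g
      sy := fun i d => NUSea.H0.TG_sym g hAd O i d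
      nu := fun a => by rw [hS.ν]
      tau := hS.τ
      mass := fun a => (w4 a).trans (by nlinarith)
      w0 := hwO }
  have hl := l_pos
  have h1 := H n m hmn e1 he1 he1' I Q r O _ (TG g) hE hL p q (fun i => (g i).G)
    (fun i => (g i).τ) (NUSea.H0.away_p hS.hp) (NUSea.H0.away_q hS.hq) hS.him
    (by rw [hS.hp, abs_neg, abs_of_pos (by positivity)]; linarith)
    (by rw [hS.hq, abs_of_pos (by positivity)]; linarith)
    (fun i => (g i).ok) (fun i => NUSp.gn_grp _ _ _)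
    (fun a z _ => by rw [hS.A, NUSea.H0.sum_fD])
  rw [sea_fam hS] at h1
  linarith

/-- **pinned heights with the remainders against the true heights**, general curve -/
theorem seaLin_absU (SU : SeaBd) {ep : ℝ} (h0 : 0 < ep) {e1 : ℝ} (he : 0 < e1) (he' : e1 ≤ 1 / 100) {Cc : ℝ}
    (hCc : 0 ≤ Cc) :
    ∃ (C : ℝ) (m0 : ℕ), 0 ≤ C ∧ ∀ m : ℕ, m0 ≤ m → ∀ [Sea] [SeaU SU], ∀ η η1 : ℝ → ℝ, CrvP e1 Cc m η η1 →
      ∀ n : ℕ, n ≤ 2 → ∀ (g : Fin n → Gd) (T1 : ℝ), TW ep e1 m ≤ T1 →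
      |(∑ i, seaG m (gP T1 g i)) + (∑ a, ∫ t, (m : ℝ) * P t * BF T1 g η a t) -
        ∑ i, seaG m (g i)| ≤ C := by
  obtain ⟨K, hK, H⟩ := NUSea.H0.exists_linTU SU
  have hl := l_pos
  refine ⟨K * 2 * (Cc * (1 / e1) + 1), 3, by positivity, fun m hm => ?_⟩
  intro _ _ η η1 hc n hn g T1 hT1
  have hm1 : 1 ≤ m := by omega
  have hmp : (0 : ℝ) < m := by exact_mod_cast hm1
  obtain ⟨ε, e, hcur, hε0, -, hεx⟩ := hc.cur
  obtain ⟨L, hL⟩ : ∃ L, L = Real.log m := ⟨_, rfl⟩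
  have hL1 : 1 ≤ L := by
    rw [hL, Real.le_log_iff_exp_le hmp]
    have h3 : (3 : ℝ) ≤ m := by exact_mod_cast hm
    have := Real.exp_one_lt_d9
    linarith
  obtain ⟨T, hTd⟩ : ∃ T, T = Tb (Real.log m) := ⟨_, rfl⟩
  have hTL : T = 3 / 8 * L := by rw [hTd, hL]; rfl
  have hTW : TW ep e1 m = (1 + 2 * e1 + 2 * ep) * T := by
    rw [hTd]
    rfl
  rw [← hTd, ← hL] at hcur
  rw [hTW] at hT1
  have hT0 : 0 < T := by rw [hTL]; linarith
  have hb : (1 - e1) * T ≤ T1 := by nlinarith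
  have hT10 : 0 ≤ T1 := by nlinarith
  have hgap : 3 * e1 * T ≤ T1 - (1 - e1) * T := by nlinarith
  have hηle : ∀ t, |η t| ≤ e t := fun t => by
    have h1 := hcur.oc.le t
    have h2 : ‖NUKer.iD η t‖ = |η t| := by
      unfold NUKer.iD
      simp
    rwa [h2] at h1
  have hη : ∀ t, |η t| < l / 5 := by
    intro t
    have h5 := (hηle t).trans ((hcur.le t).trans hεx)
    have : (1 : ℝ) / 100 < l / 5 := by
      have := Real.pi_gt_three
      show (1 : ℝ) / 100 < Real.pi / 8 / 5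
      linarith
    linarith
  have hHm0 : 0 ≤ Cc * L := by positivity
  have hH : ∀ t, (m : ℝ) * P t * |η t| ≤ Cc * L := by
    intro t
    have h5 : 0 ≤ (m : ℝ) * P t := mul_nonneg hmp.le (NUSea.P_pos t).le
    exact (mul_le_mul_of_nonneg_left (hηle t) h5).trans (hcur.mass t)
  have hz : ∀ t, (1 - e1) * T < |t| → η t = 0 := by
    intro t ht
    have h5 := hηle t
    rw [hcur.supp t ht] at h5
    exact abs_nonpos_iff.1 h5
  have h := H n g T1 ((1 - e1) * T) m (Cc * L) η η1 hT10 hb hmp.le hHm0 hη hc.d hz hH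
  rw [sum_seaG (m : ℝ) (fun i => (g i).pin T1), sum_seaG (m : ℝ) g] at h
  refine h.trans ?_
  have k1 : Cc * L * Real.exp (-(T1 - (1 - e1) * T)) ≤ Cc * (1 / e1) := by
    have a1 : Real.exp (-(T1 - (1 - e1) * T)) ≤ Real.exp (-(3 * e1 * T)) :=
      Real.exp_le_exp.2 (by linarith)
    have b1 := Real.add_one_le_exp (3 * e1 * T)
    have b2 : Real.exp (-(3 * e1 * T)) * Real.exp (3 * e1 * T) = 1 := by
      rw [← Real.exp_add]
      simp
    have b3 := Real.exp_pos (-(3 * e1 * T))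
    have b4 : 3 * e1 * T * Real.exp (-(3 * e1 * T)) ≤ 1 := by
      have : 3 * e1 * T * Real.exp (-(3 * e1 * T)) ≤
          Real.exp (3 * e1 * T) * Real.exp (-(3 * e1 * T)) :=
        mul_le_mul_of_nonneg_right (by linarith) b3.le
      linarith
    have b5 : L * Real.exp (-(3 * e1 * T)) ≤ 1 / e1 := by
      rw [le_div_iff₀ he]
      have h9 : 3 * e1 * T = 9 / 8 * (e1 * L) := by rw [hTL]; ring
      rw [h9] at b4 ⊢
      nlinarith [Real.exp_pos (-(9 / 8 * (e1 * L))), mul_pos he (by linarith : 0 < L)]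
    calc Cc * L * Real.exp (-(T1 - (1 - e1) * T)) ≤ Cc * L * Real.exp (-(3 * e1 * T)) :=
          mul_le_mul_of_nonneg_left a1 hHm0
      _ = Cc * (L * Real.exp (-(3 * e1 * T))) := by ring
      _ ≤ Cc * (1 / e1) := mul_le_mul_of_nonneg_left b5 hCc
  have k2 : (m : ℝ) * Real.exp (-(8 / 3 * T1)) ≤ 1 := by
    have a1 : Real.log m ≤ 8 / 3 * T1 := by
      have b1 : 8 / 3 * T = Real.log m := by
        rw [hTd]
        unfold NUO.Tb
        ring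
      nlinarith
    have a2 : Real.exp (-(8 / 3 * T1)) ≤ Real.exp (-Real.log m) := Real.exp_le_exp.2 (by linarith)
    rw [Real.exp_neg (Real.log m), Real.exp_log hmp] at a2
    calc (m : ℝ) * Real.exp (-(8 / 3 * T1)) ≤ (m : ℝ) * (m : ℝ)⁻¹ :=
          mul_le_mul_of_nonneg_left a2 hmp.le
      _ = 1 := mul_inv_cancel₀ hmp.ne'
  have hn2 : (n : ℝ) ≤ 2 := by exact_mod_cast hn
  have k3 : 0 ≤ Cc * L * Real.exp (-(T1 - (1 - e1) * T)) +
      (m : ℝ) * Real.exp (-(8 / 3 * T1)) := by positivity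
  calc K * n * (Cc * L * Real.exp (-(T1 - (1 - e1) * T)) +
        (m : ℝ) * Real.exp (-(8 / 3 * T1))) ≤ K * 2 * (Cc * L *
        Real.exp (-(T1 - (1 - e1) * T)) + (m : ℝ) * Real.exp (-(8 / 3 * T1))) :=
        mul_le_mul_of_nonneg_right (mul_le_mul_of_nonneg_left hn2 hK) k3
    _ ≤ K * 2 * (Cc * (1 / e1) + 1) := by
        refine mul_le_mul_of_nonneg_left ?_ (by positivity)
        linarith

/-- **the exponent `En` of the data with groups and a potential**: exact linear term `linH`, full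
current on the objects, sea terms of the groups at their true heights -/
theorem exists_enHU (SU : SeaBd) {W B0 : ℝ} (hW : 0 ≤ W) (hB0 : 0 ≤ B0) : ∃ K0 : ℝ, 0 ≤ K0 ∧
    ∀ kap : ℝ, 0 < kap → ∀ ep : ℝ, 0 < ep → ep ≤ 1 / 100 → ∀ e1 : ℝ, 0 < e1 → e1 ≤ 1 / 100 →
    ∀ Cc : ℝ, 0 ≤ Cc → ∀ (k : ℕ) (κ C : ℝ), 0 < κ → ∃ (C1 : ℝ) (m0 : ℕ), ∀ m ≥ m0,
    ∀ [Sea] [SeaU SU], ∀ η η1 : ℝ → ℝ, CrvP e1 Cc m η η1 → (∀ t t', |crH η m t - crH η m t'| ≤ |t - t'|) →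
    ∀ b' : ℝ, |b'| ≤ 1 → ∀ n : ℕ, n ≤ 2 → ∀ (g : Fin n → Gd) (T1 : ℝ), TW ep e1 m ≤ T1 →
    ∀ B1 : ℝ → ℝ, ContDiff ℝ 1 B1 → (∀ t, 0 ≤ B1 t) → (∀ t, B1 t ≤ W) →
    Integrable (fun t => (m : ℝ) * P t * B1 t) → (∫ t, (m : ℝ) * P t * B1 t) ≤ C →
    ∀ H H' : Bool → ℝ → ℝ, (∀ a t, HasDerivAt (H a) (H' a t) t) → (∀ a, Continuous (H' a)) →
    (∀ a t, |H a t| ≤ B0) →
    ∀ (r : ℕ) (O : Fin r → Xo), ∑ i, NUO.rr (NUSea.O.par0 m) O i ≤ 1 →
    (∃ (dl ε M : ℝ) (e : ℝ → ℝ), NUSea.H0.IOk dl ε M ((1 - e1) * Tb (Real.log m)) e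
      (inH η η1 m T1 b' g B1 H) (NUSea.O.par0 m) r ∧
      ε ≤ (m : ℝ) ^ (-κ) ∧ M ≤ Real.log m ^ k ∧
      dl ≤ 1 / (6000 * ((r : ℝ) + 1) ^ 2) + 3 * (m : ℝ) ^ (-κ)) →
      (datO (inH η η1 m T1 b' g B1 H) (NUSea.O.par0 m) O).En ≤
        (∑ i, oneH (inH η η1 m T1 b' g B1 H) (NUSea.O.par0 m) O (crH η m) i) + enC O +
        (∑ i, ∑ d, ES (obSr (NUSea.O.par0 m).jL (NUSea.O.par0 m).e (O i)) (TG (gP T1 g) d)) +
        1 / 2 * (∑ d, ∑ d', ES (TG (gP T1 g) d) (TG (gP T1 g) d')) +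
        (∑ i, seaG m (g i)) - b' * m + linH η η1 m g T1 H +
        K0 * r + kap * win univ (fun i => ht (O i)) + C1 := by
  obtain ⟨KB, hKB, HBF⟩ := NUSea.H0.exists_BFU SU
  obtain ⟨K0, hK0, H⟩ := exists_enSXU SU (WB := W + KB * 2 + 1 / 2 + B0) (by positivity)
  refine ⟨K0, hK0, ?_⟩
  intro kap hkap ep hep hep1 e1 he he1 Cc hCc k κ C hκ
  obtain ⟨C1, m1, H⟩ := H kap hkap κ hκ k
  obtain ⟨CS, m3, hCS, HS⟩ := seaLin_absU SU hep he he1 hCc
  refine ⟨C1 + CS + 2 * C, max m1 (max m3 3), ?_⟩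
  intro m hm _ _ η η1 hc hL b' hb' n hn g T1 hT1 B1 hB hB0' hB1 hBi hBC Hp Hp' hHd hHc hHb r O hrr hok
  have hm1 : m1 ≤ m := (le_max_left _ _).trans hm
  have hm3 : m3 ≤ m := ((le_max_left _ _).trans (le_max_right _ _)).trans hm
  have hm4 : 3 ≤ m := ((le_max_right _ _).trans (le_max_right _ _)).trans hm
  have hm0 : (0 : ℝ) ≤ m := Nat.cast_nonneg m
  obtain ⟨n1, n2⟩ := hc.small
  have n3 : ∀ t, |η t| < l / 5 := fun t => (n1 t).trans_lt small_l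
  have hlog : 0 ≤ Real.log m := Real.log_nonneg (by exact_mod_cast (by omega : 1 ≤ m))
  have hTW0 : 0 ≤ TW ep e1 m := by
    unfold TW Tb
    have : 0 ≤ 1 + 2 * e1 + 2 * ep := by linarith
    exact mul_nonneg this (by linarith)
  have hT0 : 0 ≤ T1 := hTW0.trans hT1
  obtain ⟨-, -, hBF, -⟩ := HBF n g T1 η η1 hT0 (fun t => (n1 t).trans (by norm_num))
    (fun t => (n2 t).trans (by norm_num)) hc.d hc.c
  have hBF2 : ∀ (a : Bool) (t : ℝ), |BF T1 g η a t| ≤ KB * 2 := by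
    intro a t
    refine (hBF a t).trans (mul_le_mul_of_nonneg_left ?_ (by linarith))
    have h1 : ∑ i, Real.exp (-2 * |t - NUSp.pin T1 (g i).τ|) ≤ ∑ _i : Fin n, (1 : ℝ) :=
      Finset.sum_le_sum fun i _ => Real.exp_le_one_iff.2 (by
        have := abs_nonneg (t - NUSp.pin T1 (g i).τ)
        linarith)
    refine h1.trans ?_
    rw [Finset.sum_const, card_univ, Fintype.card_fin, nsmul_eq_mul, mul_one]
    exact_mod_cast hn
  have hS := spI_inH (m := m) (T1 := T1) (b' := b') g hB n3 hc.d hc.c hHd hHc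
  have hBb : ∀ a t, |(inH η η1 m T1 b' g B1 Hp).B a t| ≤ W + KB * 2 + 1 / 2 + B0 := by
    intro a t
    show |B1 t + BF T1 g η a t + Hp a t - b' / 2| ≤ _
    have h1 := hB0' t
    have h2 := hB1 t
    have h3 := abs_le.1 (hBF2 a t)
    have h4 := abs_le.1 hb'
    have h5 := abs_le.1 (hHb a t)
    rw [abs_le]
    constructor <;> linarith [h3.1, h3.2, h4.1, h4.2, h5.1, h5.2]
  have hcur : curI (inH η η1 m T1 b' g B1 Hp) = crH η m := rfl
  have h1 := H m hm1 e1 he he1 n hn (gP T1 g) pE qE (inH η η1 m T1 b' g B1 Hp) _ hS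
    hBb (by rw [hcur]; exact hL) (NUSea.O.par0 m) r O rfl rfl hrr hok
  have hHc' : ∀ a, Continuous (Hp a) := fun a =>
    continuous_iff_continuousAt.2 fun t => (hHd a t).continuousAt
  rw [int_B_inH g n3 hc.d hBi hBF2 hHc' hHb, hcur] at h1
  have h2 := (abs_le.1 (HS m hm3 η η1 hc n hn g T1 hT1)).2
  have h4 : (∑ i, seaG (inH η η1 m T1 b' g B1 Hp).s (gP T1 g i)) = ∑ i, seaG m (gP T1 g i) := rfl
  have h5 : (pE : ℂ).im = 0 := by simp [pE]
  have h6 : (∑ i, (NUSp.gph true (gP T1 g i).G + NUSp.gph false (gP T1 g i).G) *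
      crH η m (gP T1 g i).τ) = ∑ i, phG (g i) * crH η m (NUSp.pin T1 (g i).τ) :=
    Finset.sum_congr rfl fun i _ => by
      show phG ((g i).pin T1) * _ = _
      rw [phG_pin]
      rfl
  have h7 : hd (inH η η1 m T1 b' g B1 Hp).s (inH η η1 m T1 b' g B1 Hp).η
      (inH η η1 m T1 b' g B1 Hp).η1 = hd m η η1 := rfl
  rw [h4, h5, h6, h7] at h1
  unfold linH
  linarith

end

end PotH
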