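import Pool.Agent.PotH.ConfH
import Pool.Agent.SeaU.DefH
import Pool.Agent.SeaU.ExH

/-!
# Bounds uniform in the sea: `PotH/ConfH` (helper35)

Copies of the existential bounds of `PotH/ConfH` with constants which depend on `SU : SeaBd` only.
-/

set_option autoImplicit false
set_option linter.unusedSectionVars false
set_option linter.unusedVariables false

open MeasureTheory Finset Filter Topology
open scoped ENNReal

namespace PotH

open NUGC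
open NUO (Xo kd ht Par Tb TW excS chgO PG slkK cons exc)
open NUSea.H0 (Inp Gd TG BF BF1 cstF aR datO DatC SpI hfar cfP)
open NUStabP (enC)
open NUDispW (win)
open PBZ (Z1S)
open NUSea (Sea SeaBd SeaU)

noncomputable section


/-- **the data of every configuration and the reduction of its gas** -/
theorem exists_confHU (SU : SeaBd) (hD : DatGHU SU) {B0 N0 : ℝ} (hB0 : 0 ≤ B0) (hN0 : 0 ≤ N0) :
    ∃ KR : ℝ, 0 ≤ KR ∧ ∀ G : ℕ, G ≤ 2 → ∀ kap : ℝ, 0 < kap → ∀ ep : ℝ, 0 < ep → ep ≤ 1 / 100 →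
    ∀ e1 : ℝ, 0 < e1 → e1 ≤ 1 / 100 → ∀ Cc C0 : ℝ, 1 ≤ Cc → 1 ≤ C0 →
    ∃ (k : ℕ) (κ CB w : ℝ), 0 < κ ∧ 0 ≤ CB ∧ 0 < w ∧ w ≤ 1 / 10 ∧
    ∀ ϑ : ℝ, 0 < ϑ → ∃ d CR : ℝ, 0 < d ∧ d ≤ 1 ∧ 0 ≤ CR ∧ ∃ m0 : ℕ, ∀ m : ℕ, m0 ≤ m →
    ∀ [Sea] [SeaU SU], ∀ (η η1 cr Bc Bc' : ℝ → ℝ) (H H' : Bool → ℝ → ℝ) (B : OB) (g : Fin G → Gd),
    EnvH ep e1 Cc C0 B0 N0 d m η η1 cr Bc Bc' H H' B g →
    ∀ (aX aY : ℕ) (ν : ℝ) (N : ℕ) (b' : ℝ) (r : ℕ) (O : Fin r → Xo) (E x : ℝ), |b'| ≤ d →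
      RgH ep e1 m g aX aY ν N O E x →
      ∃ (B1 : ℝ → ℝ) (D : ℝ), ConfOk ep e1 κ CB ϑ w kap KR CR k m η η1 cr B H g aX aY ν N b' O E x
        B1 D := by
  choose W hW hD using hD
  have hW0 := hW 0
  have hW1 := hW 1
  have hW2 := hW 2
  obtain ⟨K0, hK0, hEn⟩ := exists_enHU SU (W := W 0 + W 1 + W 2) (B0 := B0) (by positivity) hB0
  refine ⟨K0 + 2, by positivity, ?_⟩
  intro G hG2 kap hkap ep hep hep1 e1 he he1 Cc C0 hCc hC0
  obtain ⟨k, κ, CB, w, C, hκ, hCB, hw, hw1, hC, hD⟩ := hD G ep hep hep1 e1 he he1 Cc C0 hCc hC0 B0 N0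
    hB0 hN0
  refine ⟨k, κ, CB, w, hκ, hCB, hw, hw1, ?_⟩
  intro ϑ hϑ
  obtain ⟨d, hd, m2, hD⟩ := hD ϑ hϑ
  obtain ⟨C1, m3, hEn⟩ := hEn (kap / 2) (by positivity) ep hep hep1 e1 he he1 Cc (by linarith) k κ C hκ
  have hCF := CcF_one 2
  refine ⟨min d 1, (3 + CcF 2) * Real.exp (C1 + 7), lt_min hd one_pos, min_le_right _ _,
    by positivity, max m2 (max m3 3), ?_⟩
  intro m hm _ _ η η1 cr Bc Bc' H H' B g hEnv aX aY ν N b' r O E x hb' hR
  obtain ⟨hc, hcut, hH, hBn, hDom⟩ := hEnv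
  have hm2 : m2 ≤ m := (le_max_left _ _).trans hm
  have hm3 : m3 ≤ m := ((le_max_left _ _).trans (le_max_right _ _)).trans hm
  have hm4 : 3 ≤ m := ((le_max_right _ _).trans (le_max_right _ _)).trans hm
  obtain ⟨t1, t2, t3⟩ := TW_le ep e1 m O hR.E0
  have hF := famOk_ofH hR
  have hT0 : 0 ≤ T1H ep e1 m O E := (TW_nonneg hep he (by omega)).trans t1
  have hN := hR.hN
  have hax := hR.ax
  have hay := hR.ay
  have hrr := hR.hr
  have hb1 : |b'| ≤ d := hb'.trans (min_le_left _ _)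
  have hb2 : |b'| ≤ 1 := hb'.trans (min_le_right _ _)
  obtain ⟨B1, hB, hB0', hB1, hBi, hBC, hD⟩ := hD m hm2 η η1 hc cr Bc Bc' hcut b' hb1
    (T1H ep e1 m O E) x g t1 hF
  have hH' : HOk B0 N0 d ((1 - e1) * Tb (Real.log m)) (Real.log m ^ 3) H H' :=
    { hH with en := fun a T hT => (hH.en a T hT).trans (by
        have := mul_le_mul_of_nonneg_right (min_le_left d 1) hT
        linarith) }
  obtain ⟨D, hdat, hD0, hGD⟩ := hD H H' hH' (N + aX) (N + aY) (by omega) (by omega)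
    (by
      have h1 := hR.q
      unfold chG
      push_cast
      linarith) r (by omega) O hR.hc1 hR.hc2 t2
  refine ⟨B1, D, hdat, hD0, hGD, ?_⟩
  intro KG Cst α hCst Ψ Y h
  have hsum : ∑ i, NUO.rr (NUSea.O.par0 m) O i ≤ 1 := by
    refine (NUO.sum_rr hdat.par (by omega) O).trans ?_
    have h2 : 0 ≤ Real.log (m : ℝ) := Real.log_nonneg (by exact_mod_cast (by omega : 1 ≤ m))
    rw [div_le_one (by positivity)]
    linarith
  have h2 := hEn m hm3 η η1 hc hc.lip b' hb2 G hG2 g (T1H ep e1 m O E) t1 B1 hB hB0'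
    (fun t => (hB1 t).trans (by interval_cases G <;> linarith)) hBi hBC H H' hH.d hH.c hH.le r O hsum
    hdat.ok
  obtain ⟨dl, ε, Mc, e, hI, -, -, -⟩ := hdat.ok
  have hS : SC G x ≤ (2 + CcF 2) * Real.exp (37 / 20 * x) := by
    unfold SC
    have := CcF_mono hG2
    gcongr
  have hS0 : 0 ≤ SC G x := by
    unfold SC
    have := CcF_one G
    positivity
  have h3 := red_stepH (kap := kap) (by omega : 0 < m) hc hBn hcut.nn hDom hb2 hR hF hT0 hI.pg hCst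
    hS0 hS h2 h
  refine h3.trans (le_of_eq ?_)
  rw [show (Cst + 1) * (3 + CcF 2) * Real.exp (C1 + 7) =
    (Cst + 1) * ((3 + CcF 2) * Real.exp (C1 + 7)) by ring, show KG + K0 + 2 = KG + (K0 + 2) by ring]

end

end PotH
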