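import Pool.Agent.SeaU.CurEx
import Pool.Agent.PotH.CrvI

/-!
# The curve of TARGET-C is an admissible curve, uniformly in the sea

`cuOkCU`, `exists_crvCU`.
-/

set_option autoImplicit false
set_option linter.unusedSectionVars false

open MeasureTheory Set Filter Topology

noncomputable section

namespace NUGC

open NUO NUCR
open NUSea (Sea SeaBd SeaU)

/-- **the current of the curve of TARGET-C**, every sea -/
theorem cuOkCU {e1 J : ℝ} (he : 0 < e1) (he1 : e1 ≤ 1 / 100) (hJ : 0 ≤ J) :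
    ∃ (Cb : ℝ) (m0 : ℕ), ∀ m ≥ m0, ∀ [NUSea.Sea], ∀ s : ℝ, (m : ℝ) / 2 ≤ s →
      CuOk e1 J Cb m (fun t => s * NUSea.P t * etaC e1 J m s t)
        (NUSea.hd s (etaC e1 J m s) (etaC' e1 J m s)) := by
  obtain ⟨m1, H1⟩ := slope_one he J hJ
  obtain ⟨Cb, -, H2⟩ := bil_curCU he
  have h1 := (Real.tendsto_log_atTop.comp tendsto_natCast_atTop_atTop).eventually_ge_atTop
    (160 / 3 : ℝ)
  obtain ⟨m2, hm2⟩ := eventually_atTop.1 h1
  refine ⟨Cb * (1 + J) ^ 2, max (max m1 m2) 1, fun m hm => ?_⟩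
  intro _ s hs
  have a1 : m1 ≤ m := (le_max_left _ _).trans ((le_max_left _ _).trans hm)
  have a2 : (160 / 3 : ℝ) ≤ Real.log m := hm2 m ((le_max_right _ _).trans ((le_max_left _ _).trans hm))
  have a3 : 1 ≤ m := (le_max_right _ _).trans hm
  have hmp : (0 : ℝ) < m := by exact_mod_cast a3
  have hs0 : 0 < s := by
    have : 0 < (m : ℝ) / 2 := by positivity
    linarith
  have hT : 20 ≤ Tb (Real.log m) := by
    unfold Tb
    linarith
  rw [cur_etaC hs0]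
  refine ⟨hC_nonneg he1 hJ hT, hC_le_zero he he1 hJ hT, fun t => ?_, H1 m a1 he1 hT,
    (H2 J hJ m he1 hT s hs0).2⟩
  have := (tent_bd (DC_nonneg he1 hT) aC_pos.le t).1
  unfold hC
  linarith

end NUGC

namespace PotH

open NUO NUGC
open NUSea (Sea SeaBd SeaU)

/-- **the curve of TARGET-C is admissible**, uniformly in the sea -/
theorem exists_crvCU (SU : SeaBd) {e1 J : ℝ} (he : 0 < e1) (he1 : e1 ≤ 1 / 100) (hJ : 0 ≤ J) :
    ∃ Cc : ℝ, 1 ≤ Cc ∧ ∃ m0 : ℕ, 1 ≤ m0 ∧ ∀ m : ℕ, m0 ≤ m → 20 ≤ Tb (Real.log m) ∧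
      ∀ [Sea] [SeaU SU], CrvP e1 Cc m (etaC e1 J m m) (etaC' e1 J m m) := by
  obtain ⟨C, hC, m1, hm1, H⟩ := exists_curCU SU he he1 hJ (x := 1 / 100) (by norm_num)
  obtain ⟨m2, H2⟩ := slope_one he J hJ
  refine ⟨C, hC, max m1 m2, hm1.trans (le_max_left _ _), fun m hm => ?_⟩
  have k1 : m1 ≤ m := (le_max_left _ _).trans hm
  have k2 : m2 ≤ m := (le_max_right _ _).trans hm
  obtain ⟨hT, Hs⟩ := H m k1
  have hmp : (0 : ℝ) < m := by
    have : 0 < m := lt_of_lt_of_le (by omega) (hm1.trans k1)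
    exact_mod_cast this
  refine ⟨hT, ?_⟩
  intro _ _
  obtain ⟨ε, e, h1, h2, h3, h4⟩ := Hs m (by linarith)
  exact
    { cur := ⟨ε, e, h1, h2, h3, h4⟩
      d := etaC_hasDeriv e1 J m m
      c := etaC'_cont e1 J m m
      nn := etaC_nonneg he1 hJ hT hmp.le
      lip := fun t t' => by
        rw [mul_etaC hmp, mul_etaC hmp]
        exact H2 m k2 he1 hT t t' }

/-- **the curve `etaC` is admissible, with its current**, uniformly in the sea -/
theorem crvP_etaCU (SU : SeaBd) {e1 J : ℝ} (he : 0 < e1) (he1 : e1 ≤ 1 / 100) (hJ : 0 ≤ J) :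
    ∃ Cc : ℝ, 1 ≤ Cc ∧ ∃ Cb : ℝ, ∃ m0 : ℕ, ∀ m : ℕ, m0 ≤ m → 1 ≤ m ∧ 20 ≤ Tb (Real.log m) ∧
      ∀ [Sea] [SeaU SU], CrvP e1 Cc m (etaC e1 J m m) (etaC' e1 J m m) ∧
      CuOk e1 J Cb m (fun t => (m : ℝ) * NUSea.P t * etaC e1 J m m t)
        (NUSea.hd m (etaC e1 J m m) (etaC' e1 J m m)) := by
  obtain ⟨C, hC1, m0, hm0, H⟩ := exists_crvCU SU (J := J) he he1 hJ
  obtain ⟨Cb, m1, H1⟩ := cuOkCU he he1 hJ
  refine ⟨C, hC1, Cb, max m0 m1, fun m hm => ?_⟩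
  have a0 : m0 ≤ m := (le_max_left _ _).trans hm
  have hmm : (m : ℝ) / 2 ≤ m := by
    have : (0 : ℝ) ≤ m := Nat.cast_nonneg m
    linarith
  refine ⟨hm0.trans a0, (H m a0).1, ?_⟩
  intro _ _
  exact ⟨(H m a0).2, H1 m ((le_max_right _ _).trans hm) m hmm⟩

end PotH

end
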