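import Pool.Agent.SeaU.DefC
import Pool.Agent.NUSea.H0.DatC

/-!
# Bounds uniform in the sea: `NUSea/H0/DatC` (helper4)
-/

set_option autoImplicit false
set_option linter.unusedSectionVars false
set_option linter.unusedVariables false

noncomputable section

namespace NUSea.H0

open MeasureTheory Set Filter Topology
open NUMF NUO NUKer NUAct NUDispP NUDispV NUDispW
open NU42 (norm_iD Crv iD_cont)
open NUH0 (slO slO_bc linC_base sum_kq)
open NUSea (Sea SeaBd SeaU)

/-- **the geometry of the data** -/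
theorem exists_geoU (SU : SeaBd) : ∃ K : ℝ, 20 ≤ K ∧ ∀ [Sea] [SeaU SU], ∀ {r : ℕ} {I : Inp} {P : Par} {O : Fin r → Xo}
    {dl ε M b : ℝ} {e : ℝ → ℝ}, IOk dl ε M b e I P r → K * ε ≤ 1 → Geo (datO I P O) (K * ε) := by
  obtain ⟨K, hK, H⟩ := NU42.exists_line
  refine ⟨K, hK, fun [_] [_] {r I P O dl ε M b e} h hs => ?_⟩
  obtain ⟨h1, h2, h3, h4, h5, h6⟩ := H ε b I.η I.η1 I.η I.η1 h.crv h.crv hs
  have hl := NUMF.l_pos
  refine ⟨h.s0, ⟨NUMF.l / 10, 1 / 2, 2, by linarith, fun _ => h.path, fun a => h.ext a⟩, ?_, ?_⟩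
  · rw [datO_D, datO_D1, datO_D, datO_D1]
    exact h1
  · intro a d
    have h7 := h3 a d
    unfold Dat.κ
    rw [datO_D, datO_D1, datO_D]
    cases a <;> cases d <;> exact h7

end NUSea.H0

end
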