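import Pool.Agent.SeaU.Base
import Pool.Agent.NUSea.DispT

/-!
# The exact transport, uniform in the sea (helper80)

The existential bounds of `NUSea/DispT` with constants which depend on `SU` only; the constant of
comparison `c1` (chosen for each sea) is replaced by `c1U SU`.
-/

set_option autoImplicit false
set_option linter.unusedSectionVars false

open MeasureTheory Set Filter Topology NUOC NUTr

namespace NUSea

noncomputable section

/-- `O.mul_exp` with a constant which depends on the order and on the bound only -/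
theorem O.mul_expU (j : ℕ) (a1 : ℝ) : ∃ C : ℝ, 1 ≤ C ∧ ∀ {ell ell' : ℝ → ℝ}, (∀ x, HasDerivAt ell (ell' x) x) →
    O j a1 ell' → ∀ {M b E : ℝ} {G : ℝ → ℝ}, O j M G → (∀ x, b < |x| → G x = 0) →
      (∀ x, |x| ≤ b → Real.exp (- ell x) ≤ E) → 0 ≤ E → O j (C * (M * E)) fun x => G x * Real.exp (- ell x) := by
  induction j with
  | zero =>
    refine ⟨1, le_refl _, fun {ell ell'} he ha1 {M b E G} hG hs hE hE0 => ?_⟩
    have hec : Continuous ell := continuous_iff_continuousAt.2 fun x => (he x).continuousAt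
    refine ⟨hG.1.mul (Real.continuous_exp.comp hec.neg), fun x => ?_⟩
    rw [abs_mul, Real.abs_exp, one_mul]
    rcases le_or_gt |x| b with hx | hx
    · exact mul_le_mul (hG.2 x) (hE x hx) (Real.exp_pos _).le hG.nonneg
    · rw [hs x hx, abs_zero, zero_mul]
      exact mul_nonneg hG.nonneg hE0
  | succ j ih =>
    obtain ⟨C, hC1, hC⟩ := ih
    refine ⟨C * (1 + 2 ^ j * |a1|), ?_, fun {ell ell'} he ha1 {M b E G} hG hs hE hE0 => ?_⟩
    · have : (0:ℝ) ≤ 2 ^ j * |a1| := by positivity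
      nlinarith
    · have ha0 := ha1.nonneg
      rw [abs_of_nonneg ha0]
      have hM := hG.nonneg
      have hGl := hG.lower
      obtain ⟨h1, G', h2, h3⟩ := hG
      have hs' : ∀ x, b < |x| → G' x = 0 := by
        intro x hx
        have e : G =ᶠ[𝓝 x] fun _ => 0 := by
          filter_upwards [(continuous_abs.tendsto x).eventually (lt_mem_nhds hx)] with y hy
          exact hs y hy
        exact (h2 x).unique ((hasDerivAt_const x (0:ℝ)).congr_of_eventuallyEq e)
      refine ⟨fun x => ?_, fun x => (G' x - G x * ell' x) * Real.exp (- ell x), fun x => ?_, ?_⟩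
      · rw [abs_mul, Real.abs_exp]
        have e1 : |G x| * Real.exp (- ell x) ≤ M * E := by
          rcases le_or_gt |x| b with hx | hx
          · exact mul_le_mul (h1 x) (hE x hx) (Real.exp_pos _).le hM
          · rw [hs x hx, abs_zero, zero_mul]
            exact mul_nonneg hM hE0
        refine e1.trans ?_
        have e2 : (1:ℝ) ≤ C * (1 + 2 ^ j * a1) := by
          have : (0:ℝ) ≤ 2 ^ j * a1 := by positivity
          nlinarith
        nlinarith [mul_nonneg hM hE0]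
      · have e1 := (h2 x).mul ((he x).neg.exp)
        refine HasDerivAt.congr_deriv e1 ?_
        simp only [Pi.neg_apply]
        ring
      · have e1 : O j (M + 2 ^ j * (M * a1)) fun x => G' x - G x * ell' x := h3.sub (hGl.mul ha1.lower)
        have e2 := hC he ha1.lower e1 (b := b) (E := E) (fun x hx => by rw [hs' x hx, hs x hx]; ring) hE hE0
        refine e2.mono (le_of_eq ?_)
        ring

lemma Pn_leU (SU : SeaBd) (k : ℕ) : ∃ C : ℝ, 0 ≤ C ∧ ∀ [Sea] [SeaU SU], ∀ x : ℝ, |Pn k x| ≤ C * P x := by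
  obtain ⟨C, hC, h⟩ := Pc_deriv_PU SU (b := 0) le_rfl (by have := NUMF.l_pos; linarith) k
  refine ⟨C, hC, fun x => ?_⟩
  have h1 := h x (by simp)
  rw [Complex.ofReal_re] at h1
  exact (Complex.abs_re_le_norm _).trans h1

lemma qk_leU (SU : SeaBd) (k : ℕ) : ∃ C : ℝ, 0 ≤ C ∧ ∀ [Sea] [SeaU SU], ∀ x : ℝ, |qk k x| ≤ C := by
  obtain ⟨C, hC, h⟩ := Pn_leU SU k
  refine ⟨C, hC, fun x => ?_⟩
  unfold qk
  rw [abs_div, abs_of_pos (P_pos x), div_le_iff₀ (P_pos x)]
  exact h x

lemma qk_OU (SU : SeaBd) (j : ℕ) : ∀ k : ℕ, ∃ a : ℝ, ∀ [Sea] [SeaU SU], O j a (qk k) := by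
  induction j with
  | zero =>
    intro k
    obtain ⟨C, hC, h⟩ := qk_leU SU k
    exact ⟨C, ⟨continuous_iff_continuousAt.2 fun x => (qk_deriv k x).continuousAt, h⟩⟩
  | succ j ih =>
    intro k
    obtain ⟨C, hC, h⟩ := qk_leU SU k
    obtain ⟨a, ha⟩ := ih k
    obtain ⟨a', ha'⟩ := ih (k + 1)
    obtain ⟨b, hb⟩ := ih 1
    exact ⟨max C (a' + 2 ^ j * (a * b)), ⟨fun x => (h x).trans (le_max_left _ _), _, qk_deriv k,
      (ha'.sub (ha.mul hb)).mono (le_max_right _ _)⟩⟩

lemma ell'_OU (SU : SeaBd) (j : ℕ) : ∃ a : ℝ, ∀ [Sea] [SeaU SU], O j a ell' := qk_OU SU j 1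

lemma exists_c1U (SU : SeaBd) : ∃ c : ℝ, 0 < c ∧ ∀ [Sea] [SeaU SU], ∀ b y : ℝ, 0 ≤ b → |y| ≤ b + 1 → c * P b ≤ P y := by
  obtain ⟨C, hC, h1⟩ := P_leU SU
  obtain ⟨c, hc, h2⟩ := le_PU SU
  refine ⟨c * Real.exp (-(8 / 3)) / C, by positivity, fun b y hb hy => ?_⟩
  have h3 := h1 b
  rw [abs_of_nonneg hb] at h3
  have h4 : Real.exp (-(8 / 3) * (b + 1)) ≤ Real.exp (-(8 / 3) * |y|) := by
    apply Real.exp_le_exp.2
    nlinarith
  have h5 : Real.exp (-(8 / 3) * (b + 1)) = Real.exp (-(8 / 3)) * Real.exp (-(8 / 3) * b) := by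
    rw [← Real.exp_add]; congr 1; ring
  calc c * Real.exp (-(8 / 3)) / C * P b ≤
        c * Real.exp (-(8 / 3)) / C * (C * Real.exp (-(8 / 3) * b)) := by gcongr
    _ = c * Real.exp (-(8 / 3) * (b + 1)) := by
        rw [h5]
        field_simp
    _ ≤ c * Real.exp (-(8 / 3) * |y|) := by gcongr
    _ ≤ _ := h2 y

/-- the constant of comparison -/
def c1U (SU : SeaBd) : ℝ := (exists_c1U SU).choose

lemma c1U_pos (SU : SeaBd) : 0 < c1U SU := (exists_c1U SU).choose_spec.1

/-- the size of the displacement -/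
def ddU (SU : SeaBd) [Sea] (s M b : ℝ) : ℝ := M / (c1U SU * (s * P b))

section

variable (SU : SeaBd) [Sea] [SeaU SU]

lemma P_compTU {b y : ℝ} (hb : 0 ≤ b) (hy : |y| ≤ b + 1) : c1U SU * P b ≤ P y :=
  (exists_c1U SU).choose_spec.2 b y hb hy

lemma G_gapU {b x d : ℝ} (hb : 0 ≤ b) (hx : |x| ≤ b) (hd : 0 ≤ d) (hd1 : d ≤ 1) :
    c1U SU * P b * d ≤ G (x + d) - G x := by
  have hx' := abs_le.1 hx
  have h1 : ∀ y ∈ Icc x (x + d), c1U SU * P b ≤ P y := by
    intro y hy
    apply P_compTU SU hb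
    rw [abs_le]
    constructor <;> linarith [hy.1, hy.2, hx'.1, hx'.2]
  have := Convex.mul_sub_le_image_sub_of_le_deriv (D := Icc x (x + d)) (f := G) (C := c1U SU * P b)
    (convex_Icc _ _) (fun y _ => (hasDerivAt_G y).continuousAt.continuousWithinAt)
    (fun y _ => (hasDerivAt_G y).differentiableAt.differentiableWithinAt)
    (fun y hy => by
      rw [(hasDerivAt_G y).deriv]
      exact h1 y (interior_subset hy)) x ⟨le_refl _, by linarith⟩ (x + d) ⟨by linarith, le_refl _⟩ (by linarith)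
  rw [add_sub_cancel_left] at this
  exact this

variable {j : ℕ} {c s M b : ℝ} {F F' : ℝ → ℝ}

lemma dd_nonnegU (h : Hy j c s M b F F') : 0 ≤ ddU SU s M b :=
  div_nonneg h.M0 (mul_pos (c1U_pos SU) h.rho).le

lemma dd_leU (h : Hy j c s M b F F') (hc : c ≤ c1U SU) : ddU SU s M b ≤ 1 := by
  unfold ddU
  rw [div_le_one (mul_pos (c1U_pos SU) h.rho)]
  exact h.sm.trans (mul_le_mul_of_nonneg_right hc h.rho.le)

lemma dd_eqU (h : Hy j c s M b F F') : c1U SU * P b * ddU SU s M b = M / s := by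
  have := h.s0
  have := P_pos b
  have := (c1U_pos SU)
  unfold ddU
  field_simp

lemma U_leU (h : Hy j c s M b F F') (hc : c ≤ c1U SU) (x : ℝ) : G x + F x / s ≤ G (x + ddU SU s M b) := by
  have hd := dd_nonnegU SU h
  rcases le_or_gt b |x| with hx | hx
  · rw [h.zero x hx, zero_div, add_zero]
    exact G_strictMono.monotone (by linarith)
  · have h1 := G_gapU SU h.b0 hx.le hd (dd_leU SU h hc)
    rw [dd_eqU SU h] at h1
    have h2 : F x / s ≤ M / s := div_le_div_of_nonneg_right ((le_abs_self _).trans (h.bd x)) h.s0.le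
    linarith

lemma le_UU (h : Hy j c s M b F F') (hc : c ≤ c1U SU) (x : ℝ) : G (x - ddU SU s M b) ≤ G x + F x / s := by
  have h' : Hy j c s M b (fun x => - F (-x)) (fun x => F' (-x)) := by
    refine ⟨h.s0, h.b0, fun x => ?_, fun x => ?_, ?_, fun x hx => ?_, h.sm⟩
    · have := ((h.der (-x)).comp x (hasDerivAt_neg x)).neg
      refine HasDerivAt.congr_deriv this ?_
      ring
    · rw [abs_neg]; exact h.bd _
    · have aux : ∀ (i : ℕ) (a : ℝ) (f : ℝ → ℝ), O i a f → O i a fun x => f (-x) := by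
        intro i
        induction i with
        | zero => intro a f hf; exact ⟨hf.1.comp continuous_neg, fun x => hf.2 _⟩
        | succ i ih =>
          rintro a f ⟨k1, f', k2, k3⟩
          refine ⟨fun x => k1 _, fun x => - f' (-x), fun x => ?_, ?_⟩
          · have := (k2 (-x)).comp x (hasDerivAt_neg x)
            refine HasDerivAt.congr_deriv this ?_
            ring
          · exact (ih a f' k3).neg
      exact aux _ _ _ h.od
    · rw [h.zero (-x) (by rwa [abs_neg]), neg_zero]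
  have h1 := U_leU SU h' hc (-x)
  have e1 : G (-x + ddU SU s M b) = - G (x - ddU SU s M b) := by
    rw [← G_neg]; congr 1; ring
  rw [e1, G_neg] at h1
  simp only [neg_neg] at h1
  rw [neg_div] at h1
  linarith

lemma U_ltU (h : Hy j c s M b F F') (hc : c ≤ c1U SU) (x : ℝ) : G x + F x / s < 1 / 2 :=
  (U_leU SU h hc x).trans_lt (G_lt _)

lemma lt_UU (h : Hy j c s M b F F') (hc : c ≤ c1U SU) (x : ℝ) : -(1 / 2) < G x + F x / s :=
  (lt_G _).trans_le (le_UU SU h hc x)

lemma G_psU (h : Hy j c s M b F F') (hc : c ≤ c1U SU) (x : ℝ) : G (ps s F x) = G x + F x / s :=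
  G_Gi (lt_UU SU h hc x) (U_ltU SU h hc x)

lemma ps_leU (h : Hy j c s M b F F') (hc : c ≤ c1U SU) (x : ℝ) : |ps s F x - x| ≤ ddU SU s M b := by
  have h1 := U_leU SU h hc x
  have h2 := le_UU SU h hc x
  rw [← G_psU SU h hc] at h1 h2
  have h3 := G_strictMono.le_iff_le.1 h1
  have h4 := G_strictMono.le_iff_le.1 h2
  rw [abs_le]
  constructor <;> linarith

lemma ps_derivU (h : Hy j c s M b F F') (hc : c ≤ c1U SU) (x : ℝ) : HasDerivAt (ps s F) (ps' s F F' x) x := by
  have h1 := Gi_deriv (lt_UU SU h hc x) (U_ltU SU h hc x)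
  have h2 := (hasDerivAt_G x).add ((h.der x).div_const s)
  have h3 := HasDerivAt.comp x h1 h2
  refine HasDerivAt.congr_deriv h3 ?_
  unfold ps'
  rw [mul_comm, ← div_eq_mul_inv]
  rfl

lemma ps_contU (h : Hy j c s M b F F') (hc : c ≤ c1U SU) : Continuous (ps s F) :=
  continuous_iff_continuousAt.2 fun x => (ps_derivU SU h hc x).continuousAt

lemma ps'_posU (h : Hy j c s M b F F') (hc : c ≤ c1U SU / 2) (x : ℝ) : 0 < ps' s F F' x := by
  unfold ps'
  apply div_pos _ (P_pos _)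
  have hs := h.s0
  rcases lt_or_ge b |x| with hx | hx
  · rw [h.zero' hx, zero_div, add_zero]
    exact P_pos x
  · have h1 := P_compTU SU h.b0 (hx.trans (by linarith) : |x| ≤ b + 1)
    have h2 : |F' x / s| ≤ c1U SU / 2 * P b := by
      rw [abs_div, abs_of_pos hs, div_le_iff₀ hs]
      refine (h.od.le x).trans (h.sm.trans ?_)
      have := mul_le_mul_of_nonneg_right hc h.rho.le
      linarith
    have h3 := (abs_le.1 h2).1
    have h4 := mul_pos (c1U_pos SU) (P_pos b)
    linarith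

theorem ps_difU (h : Hy j c s M b F F') (hc : c ≤ c1U SU / 2) : Dif (ps s F) (ps' s F F') := by
  have hc1 := (c1U_pos SU)
  have hc' : c ≤ c1U SU := by linarith
  refine ⟨ps_derivU SU h hc', ps'_posU SU h hc, ?_⟩
  apply Continuous.surjective (ps_contU SU h hc')
  · refine tendsto_id.congr' ?_
    filter_upwards [eventually_ge_atTop b] with x hx
    exact (ps_zero h (hx.trans (le_abs_self x))).symm
  · refine tendsto_id.congr' ?_
    filter_upwards [eventually_le_atBot (-b)] with x hx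
    have : b ≤ |x| := by
      rw [le_abs]
      right
      linarith
    exact (ps_zero h this).symm

lemma ps_monoU (h : Hy j c s M b F F') (hc : c ≤ c1U SU / 2) : StrictMono (ps s F) := by
  have hd := ps_difU SU h hc
  apply strictMono_of_deriv_pos
  intro x
  rw [(hd.der x).deriv]
  exact hd.pos x

theorem ps_absU (h : Hy j c s M b F F') (hc : c ≤ c1U SU / 2) {R : ℝ} (hR : b ≤ R) (x : ℝ) :
    |ps s F x| ≤ R ↔ |x| ≤ R := by
  have hb := h.b0
  have hR0 : 0 ≤ R := hb.trans hR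
  have e1 : ps s F R = R := ps_zero h (by rwa [abs_of_nonneg hR0])
  have e2 : ps s F (-R) = -R := ps_zero h (by rwa [abs_neg, abs_of_nonneg hR0])
  have hm := ps_monoU SU h hc
  rw [abs_le, abs_le]
  constructor
  · rintro ⟨h1, h2⟩
    constructor
    · rw [← hm.le_iff_le, e2]; exact h1
    · rw [← hm.le_iff_le, e1]; exact h2
  · rintro ⟨h1, h2⟩
    constructor
    · rw [← e2]; exact hm.monotone h1
    · rw [← e1]; exact hm.monotone h2

/-- the derivative of the displacement -/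
lemma xi_derivU (h : Hy j c s M b F F') (hc : c ≤ c1U SU) (x : ℝ) : HasDerivAt (fun x => ps s F x - x)
    ((Real.exp (-(ell (x + (ps s F x - x)) - ell x)) - 1) + F' x / s * Real.exp (- ell x) *
      (1 + (Real.exp (-(ell (x + (ps s F x - x)) - ell x)) - 1))) x := by
  refine HasDerivAt.congr_deriv ((ps_derivU SU h hc x).sub (hasDerivAt_id x)) ?_
  have hP := P_pos x
  have hP' := P_pos (ps s F x)
  have e1 : x + (ps s F x - x) = ps s F x := by ring
  rw [e1]
  have e2 : Real.exp (-(ell (ps s F x) - ell x)) = P x / P (ps s F x) := by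
    unfold ell
    rw [neg_sub, Real.exp_sub, Real.exp_log hP, Real.exp_log hP']
  have e3 : Real.exp (- ell x) = (P x)⁻¹ := by
    unfold ell
    rw [Real.exp_neg, Real.exp_log hP]
  rw [e2, e3]
  unfold ps'
  have := h.s0
  field_simp
  ring

end

lemma xi_stepU (SU : SeaBd) (j : ℕ) {C c : ℝ} (hC1 : 1 ≤ C) (hc0 : 0 < c) (hc : c ≤ c1U SU / 2)
    (H : ∀ [Sea] [SeaU SU], ∀ {s M b : ℝ} {F F' : ℝ → ℝ}, Hy j c s M b F F' → O j (C * (M / (s * P b))) fun x => ps s F x - x) :
    ∃ C' c' : ℝ, 1 ≤ C' ∧ 0 < c' ∧ c' ≤ c1U SU / 2 ∧ ∀ [Sea] [SeaU SU], ∀ {s M b : ℝ} {F F' : ℝ → ℝ},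
    Hy j c' s M b F F' → O (j + 1) (C' * (M / (s * P b))) fun x => ps s F x - x := by
  obtain ⟨a2, ha2⟩ := ell'_OU SU j
  obtain ⟨a1, ha0, ha1⟩ : ∃ a1 : ℝ, 0 ≤ a1 ∧ ∀ [Sea] [SeaU SU], O j a1 ell' :=
    ⟨max a2 0, le_max_right _ _, ha2.mono (le_max_left _ _)⟩
  obtain ⟨Cd, hCd1, hCd⟩ := O.delta j
  obtain ⟨Ce, hCe1, hCe⟩ := O.exp j
  obtain ⟨Cm, hCm1, hCm⟩ := O.mul_expU j a1
  have hc1 := (c1U_pos SU)
  have hA : 0 < C * (1 + Cd * a1) := by
    have : 0 ≤ Cd * a1 := by positivity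
    positivity
  refine ⟨C + (Ce * (Cd * (a1 * C)) + 2 ^ j * (Cm / c1U SU * (1 + Ce))), min c (1 / (C * (1 + Cd * a1))), ?_,
    lt_min hc0 (by positivity), (min_le_left _ _).trans hc, fun [_] [_] {s M b F F'} h => ?_⟩
  · have : 0 ≤ Ce * (Cd * (a1 * C)) + 2 ^ j * (Cm / c1U SU * (1 + Ce)) := by positivity
    linarith
  have hr := h.rho
  have hM := h.M0
  set mu := M / (s * P b) with hmu
  have hmu0 : 0 ≤ mu := div_nonneg hM hr.le
  have hmu1 : mu ≤ 1 / (C * (1 + Cd * a1)) := by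
    rw [hmu, div_le_iff₀ hr]
    exact h.sm.trans (mul_le_mul_of_nonneg_right (min_le_right _ _) hr.le)
  have hmu2 : mu * (C * (1 + Cd * a1)) ≤ 1 := (le_div_iff₀ hA).1 hmu1
  have hh := h.weak (min_le_left c _)
  have hcc : c ≤ c1U SU := by linarith
  have g1 := H hh
  have hl : C * mu ≤ 1 := by
    have : 0 ≤ mu * C * (Cd * a1) := by positivity
    nlinarith
  have hl' : Cd * (a1 * (C * mu)) ≤ 1 := by
    have : 0 ≤ C * mu := by positivity
    nlinarith
  have g2 := (hCd ell_deriv ha1 g1 hl).neg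
  have g3 := hCe g2 hl'
  have hE0 : 0 ≤ 1 / (c1U SU * P b) := by
    have := P_pos b
    positivity
  have g4 : O j (Cm * (|1 / s| * M * (1 / (c1U SU * P b)))) fun x => (1 / s) * F' x * Real.exp (- ell x) := by
    refine hCm ell_deriv ha1 (h.od.smul (1 / s)) (b := b) (fun x hx => by rw [h.zero' hx, mul_zero]) (fun x hx => ?_) hE0
    unfold ell
    rw [Real.exp_neg, Real.exp_log (P_pos x), ← one_div]
    have := P_pos b
    exact one_div_le_one_div_of_le (by positivity) (P_compTU SU h.b0 (by linarith))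
  have g5 : O j (1 + Ce) fun x => 1 + (Real.exp (-(ell (x + (ps s F x - x)) - ell x)) - 1) := by
    refine ((O.const (a := 1) (c := 1) j (by simp)).add g3).mono ?_
    have : Ce * (Cd * (a1 * (C * mu))) ≤ Ce * 1 := mul_le_mul_of_nonneg_left hl' (by linarith)
    linarith
  have e0 : Cm * (|1 / s| * M * (1 / (c1U SU * P b))) = Cm / c1U SU * mu := by
    have := h.s0
    have := P_pos b
    rw [abs_of_pos (by positivity), hmu]
    field_simp
  rw [e0] at g4
  have g6 := g3.add (g4.mul g5)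
  refine ⟨fun x => (g1.le x).trans ?_, _, xi_derivU SU hh hcc, ?_⟩
  · have : 0 ≤ (Ce * (Cd * (a1 * C)) + 2 ^ j * (Cm / c1U SU * (1 + Ce))) * mu := by positivity
    nlinarith
  · refine (g6.mono ?_).congr fun x => ?_
    · have : 0 ≤ C * mu := by positivity
      nlinarith
    · simp only [one_div]
      ring

lemma xi_baseU (SU : SeaBd) (j : ℕ) : ∃ C c : ℝ, 1 ≤ C ∧ 0 < c ∧ c ≤ c1U SU / 2 ∧ ∀ [Sea] [SeaU SU], ∀ {s M b : ℝ} {F F' : ℝ → ℝ},
    Hy j c s M b F F' → O j (C * (M / (s * P b))) fun x => ps s F x - x := by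
  induction j with
  | zero =>
    have hc1 := (c1U_pos SU)
    refine ⟨max 1 (1 / c1U SU), c1U SU / 2, le_max_left _ _, by positivity, le_refl _, fun [_] [_] {s M b F F'} h => ?_⟩
    have hcc : c1U SU / 2 ≤ c1U SU := by linarith
    refine ⟨(ps_contU SU h hcc).sub continuous_id, fun x => (ps_leU SU h hcc x).trans ?_⟩
    have hr := h.rho
    have hM := h.M0
    have e : ddU SU s M b = 1 / c1U SU * (M / (s * P b)) := by
      unfold ddU
      field_simp
    rw [e]
    exact mul_le_mul_of_nonneg_right (le_max_right _ _) (div_nonneg hM hr.le)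
  | succ j ih =>
    obtain ⟨C, c, h1, h2, h3, h4⟩ := ih
    obtain ⟨C', c', k1, k2, k3, k4⟩ := xi_stepU SU j h1 h2 h3 h4
    exact ⟨C', c', k1, k2, k3, fun [_] [_] {_ _ _ _ _} h => k4 h.low⟩

/-- **the displacement is small with its derivatives** -/
theorem xi_OU (SU : SeaBd) (j : ℕ) : ∃ C c : ℝ, 1 ≤ C ∧ 0 < c ∧ c ≤ c1U SU / 2 ∧ ∀ [Sea] [SeaU SU], ∀ {s M b : ℝ} {F F' : ℝ → ℝ},
    Hy j c s M b F F' → O (j + 1) (C * (M / (s * P b))) fun x => ps s F x - x := by
  obtain ⟨C, c, h1, h2, h3, h4⟩ := xi_baseU SU j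
  exact xi_stepU SU j h1 h2 h3 h4

end

end NUSea
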