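import Pool.Agent.NUSea.TailT
import Pool.Agent.SeaU.Base

/-!
# Bounds uniform in the sea: `NUSea/TailT`

Copies of the existential bounds of `NUSea/TailT` with constants which depend on `SU : SeaBd` only.
-/

set_option autoImplicit false
set_option linter.unusedSectionVars false
set_option linter.unusedVariables false

open MeasureTheory Set Filter Topology Complex

namespace NUSea

open NUMF (l l_pos)
open NUAct NUR2

noncomputable section


theorem exists_tailU (SU : SeaBd) : ∃ C : ℝ, 0 < C ∧ ∀ [Sea] [SeaU SU], ∀ s R : ℝ, 0 ≤ s → 1 ≤ R → ∀ z : ℂ, |z.re| ≤ R - 1 → |z.im| ≤ 1 / 10 →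
    IntegrableOn (fun u : ℝ => ((s * P u : ℝ) : ℂ) * (Uc (u - z) + Uc (u + z))) (Ioi R) ∧
    DifferentiableAt ℂ (Tl s R) z ∧ ‖Tl s R z‖ ≤ C * s * Real.exp (-2 * R) := by
  obtain ⟨K, hK, hU⟩ := Uc_bound
  obtain ⟨K', hK', hU'⟩ := Ud_bound
  have hl := l_pos
  have hl4 : 1 / 5 ≤ l := by
    unfold NUMF.l
    have := Real.pi_gt_three
    linarith
  have hl5 : (3:ℝ) / 20 ≤ l / 2 := by
    unfold NUMF.l
    have := Real.pi_gt_three
    linarith
  obtain ⟨Cp, hCp0, hPle⟩ := P_leU SU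
  -- pointwise
  have key : ∀ R : ℝ, 1 ≤ R → ∀ w : ℂ, |w.re| ≤ R - 19 / 20 → |w.im| ≤ 3 / 20 → ∀ u : ℝ, R < u →
      (1 / 2 ≤ ((u : ℂ) - w).re ∧ |((u : ℂ) - w).im| ≤ l / 2 ∧ ((u : ℂ) - w).re ≤ 2 * u) ∧
      (1 / 2 ≤ ((u : ℂ) + w).re ∧ |((u : ℂ) + w).im| ≤ l / 2 ∧ ((u : ℂ) + w).re ≤ 2 * u) := by
    intro R hR w h1 h2 u hu
    have e1 := abs_le.1 h1
    simp only [Complex.sub_re, Complex.ofReal_re, Complex.sub_im, Complex.ofReal_im, Complex.add_re,
      Complex.add_im, zero_sub, zero_add, abs_neg]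
    refine ⟨⟨by linarith, by linarith, by linarith⟩, by linarith, by linarith, by linarith⟩
  refine ⟨8 * K * Cp, by positivity, ?_⟩
  intro _ _
  have hP : ∀ u : ℝ, 0 < u → P u * (2 + 4 * u) ≤ Cp * 8 * Real.exp (-2 * u) := by
    intro u hu
    have h1 := hPle u
    rw [abs_of_pos hu] at h1
    have h2 := Real.add_one_le_exp (2 / 3 * u)
    have h3 : 2 + 4 * u ≤ 8 * Real.exp (2 / 3 * u) := by
      have := Real.exp_pos (2 / 3 * u)
      linarith
    have h4 : Real.exp (-2 * u) = Real.exp (-(8 / 3) * u) * Real.exp (2 / 3 * u) := by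
      rw [← Real.exp_add]; congr 1; ring
    rw [h4]
    have h5 := P_pos u
    calc P u * (2 + 4 * u) ≤ (Cp * Real.exp (-(8 / 3) * u)) * (8 * Real.exp (2 / 3 * u)) :=
          mul_le_mul h1 h3 (by positivity) (by positivity)
      _ = _ := by ring
  have hPd : ∀ u : ℝ, 0 < u → P u ≤ Cp * 8 * Real.exp (-2 * u) := by
    intro u hu
    have := hP u hu
    have h5 := P_pos u
    nlinarith
  have bdF : ∀ s R : ℝ, 0 ≤ s → 1 ≤ R → ∀ w : ℂ, |w.re| ≤ R - 19 / 20 → |w.im| ≤ 3 / 20 → ∀ u : ℝ, R < u →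
      ‖((s * P u : ℝ) : ℂ) * (Uc (u - w) + Uc (u + w))‖ ≤ s * (16 * K * Cp) * Real.exp (-2 * u) := by
    intro s R hs hR w h1 h2 u hu
    obtain ⟨⟨a1, a2, a3⟩, b1, b2, b3⟩ := key R hR w h1 h2 u hu
    have hu0 : 0 < u := by linarith
    have n1 := (hU _ (by linarith) a2).trans (mul_le_mul_of_nonneg_left (gr_le' a1) hK.le)
    have n2 := (hU _ (by linarith) b2).trans (mul_le_mul_of_nonneg_left (gr_le' b1) hK.le)
    have n3 : ‖Uc ((u : ℂ) - w) + Uc ((u : ℂ) + w)‖ ≤ 2 * K * (2 + 4 * u) := by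
      refine (norm_add_le _ _).trans ?_
      nlinarith
    have h5 := P_pos u
    rw [norm_mul, Complex.norm_real, Real.norm_of_nonneg (by positivity)]
    calc s * P u * ‖Uc ((u : ℂ) - w) + Uc ((u : ℂ) + w)‖ ≤ s * P u * (2 * K * (2 + 4 * u)) :=
          mul_le_mul_of_nonneg_left n3 (by positivity)
      _ = s * (2 * K) * (P u * (2 + 4 * u)) := by ring
      _ ≤ s * (2 * K) * (Cp * 8 * Real.exp (-2 * u)) := mul_le_mul_of_nonneg_left (hP u hu0) (by positivity)
      _ = _ := by ring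
  have bdF' : ∀ s R : ℝ, 0 ≤ s → 1 ≤ R → ∀ w : ℂ, |w.re| ≤ R - 19 / 20 → |w.im| ≤ 3 / 20 → ∀ u : ℝ, R < u →
      ‖((s * P u : ℝ) : ℂ) * (-Ud (u - w) + Ud (u + w))‖ ≤ s * (48 * K' * Cp) * Real.exp (-2 * u) := by
    intro s R hs hR w h1 h2 u hu
    obtain ⟨⟨a1, a2, a3⟩, b1, b2, b3⟩ := key R hR w h1 h2 u hu
    have hu0 : 0 < u := by linarith
    have inv2 : ∀ x : ℝ, 1 / 2 ≤ x → 1 + 1 / x ≤ 3 := by
      intro x hx
      have : 1 / x ≤ 2 := by
        rw [div_le_iff₀ (by linarith)]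
        linarith
      linarith
    have n1 := (hU' _ (by linarith) a2).trans (mul_le_mul_of_nonneg_left (inv2 _ a1) hK'.le)
    have n2 := (hU' _ (by linarith) b2).trans (mul_le_mul_of_nonneg_left (inv2 _ b1) hK'.le)
    have n3 : ‖-Ud ((u : ℂ) - w) + Ud ((u : ℂ) + w)‖ ≤ 6 * K' := by
      refine (norm_add_le _ _).trans ?_
      rw [norm_neg]
      linarith
    have h5 := P_pos u
    rw [norm_mul, Complex.norm_real, Real.norm_of_nonneg (by positivity)]
    calc s * P u * ‖-Ud ((u : ℂ) - w) + Ud ((u : ℂ) + w)‖ ≤ s * P u * (6 * K') :=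
          mul_le_mul_of_nonneg_left n3 (by positivity)
      _ = s * (6 * K') * P u := by ring
      _ ≤ s * (6 * K') * (Cp * 8 * Real.exp (-2 * u)) := mul_le_mul_of_nonneg_left (hPd u hu0) (by positivity)
      _ = _ := by ring
  intro s R hs hR z h1 h2
  obtain ⟨hei, hev⟩ := exp_int_Ioi R
  have hmeas : ∀ w : ℂ, Measurable fun u : ℝ => ((s * P u : ℝ) : ℂ) * (Uc (u - w) + Uc (u + w)) := by
    intro w
    have hPm : Measurable fun u : ℝ => ((s * P u : ℝ) : ℂ) :=
      Complex.measurable_ofReal.comp (measurable_const.mul P_cont.measurable)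
    have m1 : Measurable fun u : ℝ => Uc (u - w) := Uc_meas.comp (by fun_prop)
    have m2 : Measurable fun u : ℝ => Uc (u + w) := Uc_meas.comp (by fun_prop)
    exact hPm.mul (m1.add m2)
  have hmeas' : Measurable fun u : ℝ => ((s * P u : ℝ) : ℂ) * (-Ud (u - z) + Ud (u + z)) := by
    have hPm : Measurable fun u : ℝ => ((s * P u : ℝ) : ℂ) :=
      Complex.measurable_ofReal.comp (measurable_const.mul P_cont.measurable)
    have m1 : Measurable fun u : ℝ => Ud (u - z) := NUR2.Ud_meas.comp (by fun_prop)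
    have m2 : Measurable fun u : ℝ => Ud (u + z) := NUR2.Ud_meas.comp (by fun_prop)
    exact hPm.mul (m1.neg.add m2)
  have hint : IntegrableOn (fun u : ℝ => ((s * P u : ℝ) : ℂ) * (Uc (u - z) + Uc (u + z))) (Ioi R) := by
    refine Integrable.mono' (hei.const_mul (s * (16 * K * Cp))) (hmeas z).aestronglyMeasurable ?_
    refine (ae_restrict_mem measurableSet_Ioi).mono fun u hu => ?_
    exact bdF s R hs hR z (by linarith) (by linarith) u hu
  refine ⟨hint, ?_, ?_⟩
  · have hball : ∀ w ∈ Metric.ball z (1 / 20), |w.re| ≤ R - 19 / 20 ∧ |w.im| ≤ 3 / 20 := by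
      intro w hw
      rw [Metric.mem_ball, dist_eq_norm] at hw
      have e1 : |w.re - z.re| ≤ 1 / 20 := by
        rw [← Complex.sub_re]; exact (Complex.abs_re_le_norm _).trans hw.le
      have e2 : |w.im - z.im| ≤ 1 / 20 := by
        rw [← Complex.sub_im]; exact (Complex.abs_im_le_norm _).trans hw.le
      have e3 := abs_add_le (w.re - z.re) z.re
      have e4 := abs_add_le (w.im - z.im) z.im
      rw [sub_add_cancel] at e3 e4
      constructor <;> linarith
    have := hasDerivAt_integral_of_dominated_loc_of_deriv_le (μ := volume.restrict (Ioi R))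
      (F := fun (w : ℂ) (u : ℝ) => ((s * P u : ℝ) : ℂ) * (Uc (u - w) + Uc (u + w)))
      (F' := fun (w : ℂ) (u : ℝ) => ((s * P u : ℝ) : ℂ) * (-Ud (u - w) + Ud (u + w)))
      (x₀ := z) (s := Metric.ball z (1 / 20)) (bound := fun u => s * (48 * K' * Cp) * Real.exp (-2 * u))
      (Metric.ball_mem_nhds z (by norm_num)) (Eventually.of_forall fun w => (hmeas w).aestronglyMeasurable)
      hint hmeas'.aestronglyMeasurable
      ((ae_restrict_mem measurableSet_Ioi).mono fun u hu w hw =>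
        bdF' s R hs hR w (hball w hw).1 (hball w hw).2 u hu)
      (hei.const_mul _)
      ((ae_restrict_mem measurableSet_Ioi).mono fun u hu w hw => by
        obtain ⟨c1, c2⟩ := hball w hw
        obtain ⟨⟨a1, a2, a3⟩, b1, b2, b3⟩ := key R hR w c1 c2 u hu
        have d1 := hasDerivAt_Uc (z := (u : ℂ) - w) (by linarith) (lt_of_le_of_lt a2 (by linarith))
        have d2 := hasDerivAt_Uc (z := (u : ℂ) + w) (by linarith) (lt_of_le_of_lt b2 (by linarith))
        have g1 : HasDerivAt (fun w : ℂ => (u : ℂ) - w) (-1) w := by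
          simpa using (hasDerivAt_id w).const_sub (u : ℂ)
        have g2 : HasDerivAt (fun w : ℂ => (u : ℂ) + w) 1 w := by
          simpa using (hasDerivAt_id w).const_add (u : ℂ)
        have k1 := HasDerivAt.comp w d1 g1
        have k2 := HasDerivAt.comp w d2 g2
        have k3 := (k1.add k2).const_mul ((s * P u : ℝ) : ℂ)
        refine HasDerivAt.congr_deriv k3 ?_
        ring)
    exact this.2.differentiableAt
  · unfold Tl
    refine (norm_integral_le_of_norm_le (hei.const_mul (s * (16 * K * Cp))) ?_).trans ?_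
    · refine (ae_restrict_mem measurableSet_Ioi).mono fun u hu => ?_
      exact bdF s R hs hR z (by linarith) (by linarith) u hu
    · rw [integral_const_mul, hev]
      exact le_of_eq (by ring)

end

end NUSea
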