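import Pool.Agent.NUSea.FE
import Pool.Agent.SeaU.Base

/-!
# Bounds uniform in the sea: `NUSea/FE`

Copies of the existential bounds of `NUSea/FE` with constants which depend on `SU : SeaBd` only.
-/

set_option autoImplicit false
set_option linter.unusedSectionVars false
set_option linter.unusedVariables false

open MeasureTheory Set Filter Topology Complex

namespace NUSea

open NUMF (l l_pos)
open NUAct

noncomputable section

variable {b c B : ℝ} {ζ ζ' : ℝ → ℂ}

theorem Pc_decU (SU : SeaBd) {b : ℝ} (hb0 : 0 ≤ b) (hb : b < l / 2) : ∃ C : ℝ, 0 ≤ C ∧ ∀ [Sea] [SeaU SU], Dec b C (8 / 3) Pc := by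
  obtain ⟨C, hC0, hC⟩ := Pc_deriv_expU SU hb0 hb 0
  exact ⟨C, hC0, fun z hz => Pc_diff (lt_of_le_of_lt hz hb), fun z hz => by simpa using hC z hz⟩

end

end NUSea
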