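import Pool.Agent.SeaU.DefH
import Pool.Agent.SeaU.DatC
import Pool.Agent.NUGC.GdC

/-!
# Bounds uniform in the sea: `NUGC/GdC` (helper4)
-/

set_option autoImplicit false
set_option linter.unusedSectionVars false
set_option linter.unusedVariables false

noncomputable section

namespace NUGC

open MeasureTheory Set Filter Topology
open NUO (Xo ht Par Tb TW excS chgO)
open NUSea.H0
open NUSea (Sea SeaBd SeaU)

/-- the geometry, for large `m` -/
theorem exists_geoCU (SU : SeaBd) {κ : ℝ} (hκ : 0 < κ) : ∃ m0 : ℕ, ∀ m : ℕ, m0 ≤ m → ∀ [Sea] [SeaU SU], ∀ {r : ℕ} {I : Inp}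
    {P : Par} (O : Fin r → Xo) {dl ε Mc b : ℝ} {e : ℝ → ℝ}, IOk dl ε Mc b e I P r →
    ε ≤ (m : ℝ) ^ (-κ) → ∃ Cκ, Geo (datO I P O) Cκ := by
  obtain ⟨K, hK, H⟩ := exists_geoU SU
  have h1 : Filter.Tendsto (fun m : ℕ => (m : ℝ) ^ (-κ)) Filter.atTop (nhds 0) :=
    (tendsto_rpow_neg_atTop hκ).comp tendsto_natCast_atTop_atTop
  have h2 := h1.eventually_le_const (u := 1 / K) (by positivity)
  obtain ⟨m0, hm0⟩ := Filter.eventually_atTop.1 h2
  refine ⟨m0, fun m hm _ _ r I P O dl ε Mc b e hI hε => ⟨K * ε, H hI ?_⟩⟩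
  have h3 := hε.trans (hm0 m hm)
  rw [le_div_iff₀ (by linarith)] at h3
  linarith

end NUGC

end
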