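import Pool.Agent.SeaU.ShH0
import Pool.Agent.NUSea.H0.H0

/-!
# Bounds uniform in the sea: the crude bound H0 (`NUSea/H0/H0`)
-/

set_option autoImplicit false
set_option linter.unusedSectionVars false

open MeasureTheory Set Filter Topology
open scoped Real ENNReal

namespace NUSea.H0

open NUH0
open NUMF NUWC NUKer NUDi NUMFC NUR2
open NUSea (Sea SeaBd SeaU)

noncomputable section

/-- **H0** -/
theorem H0U (SU : SeaBd) {ε' : ℝ} (hε' : 0 < ε') (k : ℝ) : ∃ C : ℝ, 0 ≤ C ∧ ∀ [Sea] [SeaU SU], ∀ {X : Dat} {p n : ℕ}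
    {m T0 R ε c' m2 : ℝ} {bb bb' : ℝ → ℝ}, Hyp0 X p n k m T0 R ε c' m2 bb bb' →
    ∀ {aX aY cf B : ℝ → ℝ} {D q : ℝ}, Shl X aX aY cf B D q → ∀ {E0 g : ℝ}, 0 ≤ g → g < q →
    (∀ T, T0 ≤ T → Ex X p n ε' C T c' R m2 ε ≤ E0 + g * (T - T0)) →
    (∀ {ch : ℝ → ℝ} {K h : ℝ}, Grid ch K h → ∀ (La : Finset ℤ) (a0 : ℝ),
      ∫⁻ x, ENNReal.ofReal (W0 X p n aX aY cf x) * ENNReal.ofReal (Real.exp (1 / 2 *
        ∑ l ∈ La, NU42.Fst ch h a0 X.τ l x.1 x.2 ^ 2)) ≤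
      ENNReal.ofReal ((p.factorial : ℝ) * n.factorial * Real.exp E0 * (1 + shF D q g T0))) ∧
    (∀ {ch : ℝ → ℝ} {K h : ℝ}, Grid ch K h → ∀ (La : Finset ℤ) (a0 R1 : ℝ), T0 ≤ R1 →
      ∫⁻ x in (NU42.Bw p n R1)ᶜ, ENNReal.ofReal (W0 X p n aX aY cf x) *
        ENNReal.ofReal (Real.exp (1 / 2 * ∑ l ∈ La, NU42.Fst ch h a0 X.τ l x.1 x.2 ^ 2)) ≤
      ENNReal.ofReal ((p.factorial : ℝ) * n.factorial * Real.exp E0 *
        (Real.exp (-(q - g) * (R1 - T0)) * shF D q g T0))) ∧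
    (∀ R1, T0 ≤ R1 → (∀ t, |t| ≤ R1 → bb t = 1) → ∀ {τ : ℝ}, ∫ t in {t | R1 < |t|}, |X.ρ t| ≤ τ →
      SqW (p := p) (n := n) (fun x => ENNReal.ofReal (W0 X p n aX aY cf x)) R1 X.ρ
        (ENNReal.ofReal ((p.factorial : ℝ) * n.factorial * Real.exp E0 * (1 + shF D q g T0)))
        (c' / 2) (c' * τ ^ 2)) := by
  obtain ⟨C, hC0, hC⟩ := sh_H0U SU hε' k
  refine ⟨C, hC0, ?_⟩
  intro _ _ X p n m T0 R ε c' m2 bb bb' hH aX aY cf B D q hS E0 g hg0 hg hEx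
  obtain ⟨Cκ, hG⟩ := hH.geo
  obtain ⟨δ, hR⟩ := hH.reg
  obtain ⟨Λ1, hΛ0, hΛ1, hKC⟩ := hH.kc
  have mD := fun a => (hG.D_cont a).measurable
  have mD1 := fun a => (hG.D1_cont a).measurable
  have hA : 0 ≤ (p.factorial : ℝ) * n.factorial * Real.exp E0 := by positivity
  have hT0 := hH.T0p
  have key : ∀ {ch : ℝ → ℝ} {K h : ℝ}, Grid ch K h → ∀ (La : Finset ℤ) (a0 T : ℝ), T0 ≤ T → _ :=
    fun {ch K h} hg La a0 T hT => hC (m := m) (ε := ε) (a0 := a0) hH.m1 hH.pk hH.nk hH.sk hH.mT hT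
      (by linarith) hG hH.fld hR hg La hH.cut hH.ker hKC hH.c0 hΛ1 hΛ0 hH.cq hH.m2
      (aX := fun t => aX t * Real.exp (B t)) (aY := fun t => aY t * Real.exp (B t))
      (fun t => mul_nonneg (hS.X0 t) (Real.exp_pos _).le)
      (fun t => mul_nonneg (hS.Y0 t) (Real.exp_pos _).le) (fun t _ => hS.leX t) (fun t _ => hS.leY t)
  have hexp : ∀ T, T0 ≤ T → (p.factorial : ℝ) * n.factorial *
      Real.exp (Ex X p n ε' C T c' R m2 ε) ≤
      (p.factorial : ℝ) * n.factorial * Real.exp E0 * Real.exp (g * (T - T0)) := by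
    intro T hT
    rw [mul_assoc _ (Real.exp E0), ← Real.exp_add]
    exact mul_le_mul_of_nonneg_left (Real.exp_le_exp.2 (hEx T hT)) (by positivity)
  have hE0 : ∀ {ch : ℝ → ℝ} {h : ℝ} (La : Finset ℤ) (a0 : ℝ), ∀ x : Cfg p n,
      0 ≤ Real.exp (1 / 2 * ∑ l ∈ La, NU42.Fst ch h a0 X.τ l x.1 x.2 ^ 2) :=
    fun La a0 x => (Real.exp_pos _).le
  have hsplit : ∀ {ch : ℝ → ℝ} {h : ℝ} (La : Finset ℤ) (a0 : ℝ) (x : Cfg p n),
      ENNReal.ofReal (W0 X p n aX aY cf x) * ENNReal.ofReal (Real.exp (1 / 2 *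
        ∑ l ∈ La, NU42.Fst ch h a0 X.τ l x.1 x.2 ^ 2)) =
      ENNReal.ofReal (NU42.WO (X.D true) (X.D1 true) (X.D false) (X.D1 false)
        (fun t => aX t * cf t) (fun t => aY t * cf t) x.1 x.2 * Real.exp (1 / 2 *
        ∑ l ∈ La, NU42.Fst ch h a0 X.τ l x.1 x.2 ^ 2)) := by
    intro ch h La a0 x
    rw [ENNReal.ofReal_mul' (Real.exp_pos _).le]
    rfl
  refine ⟨?_, ?_, ?_⟩
  · intro ch K h hgr La a0
    have h1 := NU42.WO_full (p := p) (n := n) (mD true) (mD1 true) (mD false) (mD1 false) hS.mX hS.mY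
      hS.X0 hS.Y0 (expFst_meas hgr La a0 X.τ) (hE0 La a0) hS.mB (T0 := T0) hS.D0 hA hS.q0 hg hS.B0
      hS.c0 hS.cB hS.cD (fun T hT => ((key hgr La a0 T hT).1).trans (ENNReal.ofReal_le_ofReal
        (hexp T hT)))
    simp only [hsplit]
    exact h1
  · intro ch K h hgr La a0 R1 hR1
    have h1 := NU42.WO_tail (p := p) (n := n) (mD true) (mD1 true) (mD false) (mD1 false) hS.mX hS.mY
      hS.X0 hS.Y0 (expFst_meas hgr La a0 X.τ) (hE0 La a0) hS.mB (T0 := T0) hS.D0 hA hS.q0 hg hS.B0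
      hS.c0 hS.cB hS.cD hR1 (fun T hT => ((key hgr La a0 T hT).1).trans (ENNReal.ofReal_le_ofReal
        (hexp T hT)))
    simp only [hsplit]
    refine h1.trans (ENNReal.ofReal_le_ofReal (le_of_eq ?_))
    unfold shF
    ring
  · intro R1 hR1 hb1 τ hτ
    have h1 := sqW_shells (p := p) (n := n) (mD true) (mD1 true) (mD false) (mD1 false) hS.mX hS.mY
      hS.X0 hS.Y0 hS.mB hS.D0 hA hS.q0 hg hg0 hS.B0 hS.c0 hS.cB hS.cD hR1 (hT0.le.trans hR1)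
      hH.cut.cutf.cont hb1 hH.cut.cutf.le (ρ_int X) hτ (K := 0) hH.c0.le (fun T hT _ => by
        have h2 := (key grid0 ∅ 0 T hT).2
        rw [Wt0_empty] at h2
        refine h2.mono ?_
        rw [Real.exp_zero, mul_one]
        exact hexp T hT)
    rw [zero_add] at h1
    exact h1

end

end NUSea.H0
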