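import Pool.Agent.SeaU.H0
import Pool.Agent.NUSea.H0.H0fin

/-!
# Bounds uniform in the sea: the crude bound in the form of `NUS4.fin` (`NUSea/H0/H0fin`)
-/

set_option autoImplicit false
set_option linter.unusedSectionVars false

open MeasureTheory Set Filter Topology
open scoped Real ENNReal

namespace NUSea.H0

open NUH0
open NUMF NUWC NUKer NUDi NUMFC NUR2
open NUSea (Sea SeaBd SeaU)

noncomputable section

/-- **H0 in the form of `fin`** -/
theorem H0finU (SU : NUSea.SeaBd) {ε' : ℝ} (hε' : 0 < ε') (k : ℝ) : ∃ C N C₁ : ℝ, 0 ≤ C ∧ 1 ≤ N ∧ 0 < C₁ ∧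
    ∀ [Sea] [SeaU SU], ∀ {X : Dat} {p n : ℕ} {m T0 Rw ε c1 m2 : ℝ}, Hyp1 X p n k m T0 Rw N ε c1 m2 →
    ∀ {aX aY cf B : ℝ → ℝ} {D q : ℝ}, Shl X aX aY cf B D q → ∀ {E1 g : ℝ}, 0 ≤ g → g < q →
    (∀ T, T0 ≤ T → Ex1 X p n ε' C T ε ≤ E1 + g * (T - T0)) →
    (∀ {ch : ℝ → ℝ} {K h : ℝ}, Grid ch K h → ∀ (La : Finset ℤ) (a0 : ℝ),
      ∫⁻ x, ENNReal.ofReal (W0 X p n aX aY cf x) * ENNReal.ofReal (Real.exp (1 / 2 *
        ∑ l ∈ La, NU42.Fst ch h a0 X.τ l x.1 x.2 ^ 2)) ≤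
      ENNReal.ofReal ((p.factorial : ℝ) * n.factorial *
        Real.exp (E1 + 176 * c1 * (Rw + N) * m2 ^ 2) * (1 + shF D q g T0))) ∧
    (∫⁻ x in (Bx (p := p) (n := n) Rw)ᶜ, ENNReal.ofReal (W0 X p n aX aY cf x) ≤
      ENNReal.ofReal ((p.factorial : ℝ) * n.factorial *
        Real.exp (E1 + 176 * c1 * (Rw + N) * m2 ^ 2) *
        (Real.exp (-(q - g) * (Rw - T0)) * shF D q g T0))) ∧
    SqW (p := p) (n := n) (fun x => ENNReal.ofReal (W0 X p n aX aY cf x)) Rw X.ρ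
        (ENNReal.ofReal ((p.factorial : ℝ) * n.factorial * Real.exp E1 * (1 + shF D q g T0)))
        (1 / (8 * (C₁ * (Rw + 1)))) (m2 ^ 2 + (tCU SU * k) ^ 2) := by
  obtain ⟨C, hC0, hC⟩ := H0U SU hε' k
  obtain ⟨N, hN1, hN⟩ := exists_cut1
  refine ⟨C, N, 44 * N, hC0, hN1, by linarith, ?_⟩
  intro _ _ X p n m T0 Rw ε c1 m2 hH aX aY cf B D q hS E1 g hg0 hg hEx
  have hRw : 0 < Rw := hH.T0p.trans_le hH.T0R
  obtain ⟨hcut, hb0, hb1, hb2⟩ := hN Rw hRw.le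
  have hRN : 0 < Rw + N := by linarith
  have hc1 := hH.c0
  have hcq := hH.cq
  obtain ⟨c2, hc2⟩ : ∃ c2 : ℝ, c2 = 1 / (8 * (22 * (Rw + N))) := ⟨_, rfl⟩
  have hc2q : 8 * c2 * (22 * (Rw + N)) = 1 := by
    rw [hc2]
    field_simp
  have hc12 : c1 ≤ c2 := by
    rw [hc2, le_div_iff₀ (by positivity)]
    linarith
  have hc20 : 0 < c2 := by linarith
  have hc2s : c2 ≤ 1 / 176 := by
    rw [hc2]
    exact one_div_le_one_div_of_le (by norm_num) (by linarith)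
  have hA := hC (hH.to0 hcut hb0 hb1 hb2 le_rfl hcq) hS (E0 := E1 + 176 * c1 * (Rw + N) * m2 ^ 2)
    hg0 hg (fun T hT => by
      have h1 := Ex_le1 (X := X) (p := p) (n := n) (ε' := ε') (C := C) (c' := c1) (R := Rw + N)
        (m2 := m2) (ε := ε) (hH.T0p.le.trans hT)
      have h2 := hEx T hT
      linarith)
  have hB := hC (hH.to0 hcut hb0 hb1 hb2 hc12 hc2q.le) hS (E0 := E1 + m2 ^ 2)
    hg0 hg (fun T hT => by
      have h1 := Ex_le1 (X := X) (p := p) (n := n) (ε' := ε') (C := C) (c' := c2) (R := Rw + N)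
        (m2 := m2) (ε := ε) (hH.T0p.le.trans hT)
      have h2 := hEx T hT
      have h3 : 176 * c2 * (Rw + N) * m2 ^ 2 = m2 ^ 2 := by
        have e : 176 * c2 * (Rw + N) = 8 * c2 * (22 * (Rw + N)) := by ring
        rw [e, hc2q, one_mul]
      linarith)
  refine ⟨hA.1, ?_, ?_⟩
  · have h1 := hA.2.1 grid0 ∅ 0 Rw hH.T0R
    simp only [Finset.sum_empty, mul_zero, Real.exp_zero, ENNReal.ofReal_one, mul_one] at h1
    rw [Bw_eq] at h1
    exact h1
  · have hτ : ∫ t in {t | Rw < |t|}, |X.ρ t| ≤ tCU SU * k := by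
      have h1 := sea_tailU SU (X := X) (T := Rw) (k := k) hH.m1 (by
        obtain ⟨Cκ, hG⟩ := hH.geo
        exact hG.s0) hH.sk (hH.mT.trans hH.T0R)
      refine le_trans (setIntegral_mono_set (ρ_int X).abs.integrableOn
        (ae_of_all _ fun x => abs_nonneg _) ?_) h1
      refine Filter.Eventually.of_forall fun x hx => ?_
      have hx' : Rw < |x| := hx
      exact hx'.le
    have h2 := hB.2.2 Rw hH.T0R hb2 hτ
    have h3 : SqW (p := p) (n := n) (fun x => ENNReal.ofReal (W0 X p n aX aY cf x)) Rw X.ρ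
        (ENNReal.ofReal ((p.factorial : ℝ) * n.factorial * Real.exp E1 * (1 + shF D q g T0) *
          Real.exp (m2 ^ 2))) (c2 / 2) (c2 * (tCU SU * k) ^ 2) := by
      refine h2.mono (fun x _ => le_rfl) (ENNReal.ofReal_le_ofReal (le_of_eq ?_))
      rw [Real.exp_add]
      ring
    have hsh := shF_nonneg (T0 := T0) hS.D0 hg
    refine (h3.shift (by positivity)).monoC ?_ ?_
    · rw [hc2, div_div]
      refine one_div_le_one_div_of_le (by positivity) ?_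
      nlinarith [mul_nonneg (by linarith : (0:ℝ) ≤ N - 1) hRw.le]
    · nlinarith [mul_le_mul_of_nonneg_right hc2s (sq_nonneg (tCU SU * k)), sq_nonneg (tCU SU * k)]


end

end NUSea.H0
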