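import Pool.Agent.NUS4C.H1e
import Pool.Agent.SeaU.Base

/-!
# `NUS4C/H1e`, uniform in the sea
-/

set_option autoImplicit false
set_option linter.unusedSectionVars false

open MeasureTheory Set Filter Topology

namespace NUS4C

open NUS4 (gN gM gp log_pow_small R1f Xf sum_abs_le small_part)
open NUE NUOC NUKer NUR2 NUTr

noncomputable section

/-- the size of the displacement for large `m` -/
theorem sz_leU (SU : NUSea.SeaBd) {e : ℝ} (he1 : e ≤ 1) : ∃ Cz : ℝ, 1 ≤ Cz ∧ ∀ [NUSea.Sea] [NUSea.SeaU SU], ∀ (m : ℕ), 1 ≤ m → ∀ (s A : ℝ),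
    (m : ℝ) / 2 ≤ s → 0 ≤ A → A / (s * NUSea.P (R1f e m + 1)) ≤ Cz * A * (m : ℝ) ^ (-e) := by
  obtain ⟨c, hc, HP⟩ := NUSea.le_PU SU
  have h0 : 0 ≤ 2 / c := by positivity
  refine ⟨2 / c + 1, by linarith, ?_⟩
  intro _ _ m hm s A hs hA
  have hm1 : (1:ℝ) ≤ m := by exact_mod_cast hm
  have hm0 : (0:ℝ) < m := by linarith
  have hL : 0 ≤ Real.log m := Real.log_nonneg hm1
  have hb : R1f e m + 1 = (1 - e) * (3 / 8 * Real.log m) := by unfold R1f; ring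
  have hb0 : 0 ≤ (1 - e) * (3 / 8 * Real.log m) := mul_nonneg (by linarith) (by positivity)
  rw [hb]
  have h1 := HP ((1 - e) * (3 / 8 * Real.log m))
  rw [abs_of_nonneg hb0] at h1
  have h2 : Real.exp (-(8 / 3) * ((1 - e) * (3 / 8 * Real.log m))) = (m : ℝ) ^ (e - 1) := by
    rw [Real.rpow_def_of_pos hm0]
    congr 1
    ring
  rw [h2] at h1
  have h3 : 0 < (m : ℝ) ^ (e - 1) := Real.rpow_pos_of_pos hm0 _
  have hs0 : 0 ≤ s := by linarith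
  have h4 : (m : ℝ) / 2 * (c * (m : ℝ) ^ (e - 1)) ≤
      s * NUSea.P ((1 - e) * (3 / 8 * Real.log m)) := by gcongr
  have h5 : (m : ℝ) / 2 * (c * (m : ℝ) ^ (e - 1)) = c / 2 * (m : ℝ) ^ e := by
    have : (m : ℝ) * (m : ℝ) ^ (e - 1) = (m : ℝ) ^ e := by
      rw [Real.rpow_sub_one hm0.ne']
      field_simp
    rw [← this]
    ring
  rw [h5] at h4
  have h6 : 0 < c / 2 * (m : ℝ) ^ e := by positivity
  calc A / (s * NUSea.P ((1 - e) * (3 / 8 * Real.log m))) ≤ A / (c / 2 * (m : ℝ) ^ e) := by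
        gcongr
    _ = 2 / c * A * (m : ℝ) ^ (-e) := by
        rw [Real.rpow_neg hm0.le]
        field_simp
    _ ≤ _ := by
        have h7 : 0 ≤ A * (m : ℝ) ^ (-e) := by positivity
        nlinarith


/-- **the numbers** -/
theorem er_numU (SU : NUSea.SeaBd) (k : ℕ) {κ e h η C cs : ℝ} (hκ : 0 < κ) (he : 0 < e) (he1 : e ≤ 1 / 4) (hh : 0 < h)
    (hη : 0 < η) (hC : 1 ≤ C) (hcs : 0 < cs) : ∃ (m0 : ℕ) (e' : ℝ), 1 ≤ m0 ∧ 0 ≤ e' ∧
    ∀ m : ℕ, m0 ≤ m → ∀ [NUSea.Sea] [NUSea.SeaU SU], ∀ (R s lam l1 S : ℝ), (m : ℝ) / 2 ≤ s → 0 ≤ R → R ≤ Real.log m ^ k → 0 ≤ lam →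
    lam ≤ (m : ℝ) ^ (-κ) → 0 ≤ l1 → l1 ≤ (m : ℝ) ^ (-κ) → 0 ≤ S → S ≤ Real.log m ^ k →
    ∀ x : Fin (gN h (Xf e m)) → ℝ, ∑ i, x i ^ 2 ≤ (2 * ((gN h (Xf e m) : ℕ) : ℝ) + 4) / η →
    0 ≤ Xf e m ∧ Xf e m < R1f e m ∧ sz s (R1f e m) x ≤ cs ∧ C * R ^ 7 * (lam + sz s (R1f e m) x) ≤ 1 ∧
    er C R (Xf e m) (R1f e m) lam l1 S s 2 x ≤ e' := by
  obtain ⟨CA, hCA, HA⟩ := sum_abs_le hh hη
  obtain ⟨Cz, hCz, HZ⟩ := sz_leU SU (e := e) (by linarith)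
  obtain ⟨κ', hκ'⟩ : ∃ κ', κ' = min κ e := ⟨_, rfl⟩
  have hκ0 : 0 < κ' := by rw [hκ']; exact lt_min hκ he
  obtain ⟨B, hB⟩ : ∃ B, B = C + CA + Cz * CA + 1 := ⟨_, rfl⟩
  have hB1 : 1 ≤ B := by rw [hB]; nlinarith
  -- thresholds
  obtain ⟨m1, hm1⟩ := log_pow_small (15 * (k + 1)) hκ0 (60 * B ^ 15 * (1 + 1 / cs))
  obtain ⟨m2, hm2⟩ := (Real.tendsto_log_atTop.comp tendsto_natCast_atTop_atTop).eventually
    (eventually_ge_atTop (16 / (3 * e) + 1)) |>.exists_forall_of_atTop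
  refine ⟨max 1 (max m1 m2), C * ((2 / e) ^ 6 * (32 / 9) ^ 2 * CA) ^ 2 + 1, le_max_left _ _,
    by positivity, ?_⟩
  intro m hm _ _ R s lam l1 S hs hR0 hR hlam0 hlam hl0 hl hS0 hS x hx
  have hmm1 := hm1 m (le_trans (le_trans (le_max_left _ _) (le_max_right _ _)) hm)
  have hmm2 := hm2 m (le_trans (le_trans (le_max_right _ _) (le_max_right _ _)) hm)
  have hm0 : 1 ≤ m := le_trans (le_max_left _ _) hm
  have hmr : (1:ℝ) ≤ m := by exact_mod_cast hm0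
  have hmp : (0:ℝ) < m := by linarith
  simp only [Function.comp] at hmm2
  obtain ⟨L, hL⟩ : ∃ L, L = Real.log m := ⟨_, rfl⟩
  rw [← hL] at hmm1 hmm2 hR hS
  have hLe : 16 / (3 * e) ≤ L := by linarith
  have hLe' : 2 ≤ e * (3 / 8 * L) := by
    rw [div_le_iff₀ (by positivity)] at hLe
    linarith
  have hL1 : 1 ≤ L := by
    have : 0 ≤ 16 / (3 * e) := by positivity
    linarith
  have hX : Xf e m = (1 - 2 * e) * (3 / 8 * L) := by rw [hL]; rfl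
  have hR1 : R1f e m = (1 - e) * (3 / 8 * L) - 1 := by rw [hL]; rfl
  have hX0 : 0 ≤ Xf e m := by rw [hX]; exact mul_nonneg (by linarith) (by positivity)
  have hXL : Xf e m ≤ L := by rw [hX]; nlinarith
  have hA := HA (Xf e m) L hX0 hXL hL1 x hx
  obtain ⟨A, hAd⟩ : ∃ A, A = ∑ i, |x i| := ⟨_, rfl⟩
  rw [← hAd] at hA
  have hA0 : 0 ≤ A := by rw [hAd]; exact Finset.sum_nonneg fun i _ => abs_nonneg _
  have hz := HZ m hm0 s A hs hA0
  obtain ⟨v, hv⟩ : ∃ v, v = (m : ℝ) ^ (-κ') := ⟨_, rfl⟩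
  have hv0 : 0 < v := by rw [hv]; exact Real.rpow_pos_of_pos hmp _
  have hvκ : (m : ℝ) ^ (-κ) ≤ v := by
    rw [hv]
    exact Real.rpow_le_rpow_of_exponent_le hmr (by rw [hκ']; linarith [min_le_left κ e])
  have hve : (m : ℝ) ^ (-e) ≤ v := by
    rw [hv]
    exact Real.rpow_le_rpow_of_exponent_le hmr (by rw [hκ']; linarith [min_le_right κ e])
  rw [← hv] at hmm1
  obtain ⟨z, hzd⟩ : ∃ z, z = sz s (R1f e m) x := ⟨_, rfl⟩
  have hzA : z = A / (s * NUSea.P (R1f e m + 1)) := by rw [hzd, hAd]; rfl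
  have hs0 : 0 < s := by linarith
  have hz0 : 0 ≤ z := by
    rw [hzA]
    have := NUSea.P_pos (R1f e m + 1)
    positivity
  rw [← hzA] at hz
  obtain ⟨Q, hQ⟩ : ∃ Q, Q = B * L ^ (k + 1) := ⟨_, rfl⟩
  have hLk : 1 ≤ L ^ k := one_le_pow₀ hL1
  have hLk1 : 1 ≤ L ^ (k + 1) := one_le_pow₀ hL1
  have hLkk : L ^ k ≤ L ^ (k + 1) := pow_le_pow_right₀ hL1 (by omega)
  have hLL : L ≤ L ^ (k + 1) := by
    calc L = L ^ 1 := (pow_one L).symm
      _ ≤ _ := pow_le_pow_right₀ hL1 (by omega)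
  have hQ1 : 1 ≤ Q := by rw [hQ]; exact one_le_mul_of_one_le_of_one_le hB1 hLk1
  have hBQ : B ≤ Q := by rw [hQ]; nlinarith
  have hCQ : C ≤ Q := by
    refine le_trans ?_ hBQ
    rw [hB]
    nlinarith
  have hLQ : L ^ (k + 1) ≤ Q := by rw [hQ]; nlinarith
  have hAQ : A ≤ Q := by
    refine hA.trans ?_
    rw [hQ]
    have : CA ≤ B := by rw [hB]; nlinarith
    calc CA * L ≤ B * L ^ (k + 1) := by gcongr
      _ = _ := rfl
  have hzQ : z ≤ Q * v := by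
    refine hz.trans ?_
    have h1 : Cz * CA ≤ B := by rw [hB]; nlinarith
    calc Cz * A * (m : ℝ) ^ (-e) ≤ Cz * (CA * L) * v := by gcongr
      _ = Cz * CA * L * v := by ring
      _ ≤ B * L ^ (k + 1) * v := by gcongr
      _ = Q * v := by rw [hQ]
  have hlamQ : lam ≤ Q * v := by
    refine hlam.trans (hvκ.trans ?_)
    nlinarith
  have hlQ : l1 ≤ Q * v := by
    refine hl.trans (hvκ.trans ?_)
    nlinarith
  obtain ⟨p1, p2⟩ := small_part hQ1 hv0.le (by linarith) hCQ hR0 (hR.trans (hLkk.trans hLQ)) hA0 hAQ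
    hlam0 hlamQ hz0 hzQ hl0 hlQ hS0 (hS.trans (hLkk.trans hLQ))
  have hQ15 : 60 * Q ^ 15 * v * (1 + 1 / cs) ≤ 1 := by
    refine le_trans (le_of_eq ?_) hmm1
    rw [hQ, mul_pow, ← pow_mul]
    ring
  have hQp : 0 ≤ 60 * Q ^ 15 * v := by positivity
  have hcs' : 0 < 1 / cs := by positivity
  have hQle : 60 * Q ^ 15 * v ≤ 1 := by nlinarith
  have hQcs : 60 * Q ^ 15 * v ≤ cs := by
    have h1 : 60 * Q ^ 15 * v * (1 / cs) ≤ 1 := by nlinarith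
    rw [mul_one_div, div_le_one hcs] at h1
    exact h1
  rw [← hzd]
  refine ⟨hX0, ?_, ?_, p1.trans hQle, ?_⟩
  · rw [hX, hR1]
    nlinarith
  · refine hzQ.trans (le_trans ?_ hQcs)
    have h1 : Q ≤ Q ^ 15 := by
      calc Q = Q ^ 1 := (pow_one Q).symm
        _ ≤ _ := pow_le_pow_right₀ hQ1 (by norm_num)
    have h2 : 0 ≤ Q ^ 15 * v := by positivity
    nlinarith
  · have h1 : C * ((R1f e m / (R1f e m - Xf e m)) ^ (2 + 4) * ((1 + R1f e m) ^ 2)⁻¹ * ∑ j, |x j|) ^ 2 ≤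
        C * ((2 / e) ^ 6 * (32 / 9) ^ 2 * CA) ^ 2 := by
      rw [← hAd]
      have r1 : 0 ≤ R1f e m := by rw [hR1]; nlinarith
      have r2 : e * (3 / 16 * L) ≤ R1f e m - Xf e m := by rw [hR1, hX]; nlinarith
      have r3 : R1f e m / (R1f e m - Xf e m) ≤ 2 / e := by
        have h3 : 0 < R1f e m - Xf e m := lt_of_lt_of_le (by positivity) r2
        rw [div_le_div_iff₀ h3 he]
        have h4 : R1f e m ≤ 3 / 8 * L := by rw [hR1]; nlinarith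
        nlinarith
      have r4 : 9 / 32 * L ≤ 1 + R1f e m := by rw [hR1]; nlinarith
      have r5 : ((1 + R1f e m) ^ 2)⁻¹ ≤ (32 / 9) ^ 2 * (L ^ 2)⁻¹ := by
        have h5 : (9 / 32 * L) ^ 2 ≤ (1 + R1f e m) ^ 2 := by gcongr
        calc ((1 + R1f e m) ^ 2)⁻¹ ≤ ((9 / 32 * L) ^ 2)⁻¹ := by gcongr
          _ = _ := by
            rw [mul_pow, mul_inv]
            norm_num
      have r6 : 0 ≤ R1f e m / (R1f e m - Xf e m) := by
        have h3 : 0 < R1f e m - Xf e m := lt_of_lt_of_le (by positivity) r2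
        positivity
      have r7 : (R1f e m / (R1f e m - Xf e m)) ^ (2 + 4) * ((1 + R1f e m) ^ 2)⁻¹ * A ≤
          (2 / e) ^ 6 * (32 / 9) ^ 2 * CA := by
        calc (R1f e m / (R1f e m - Xf e m)) ^ (2 + 4) * ((1 + R1f e m) ^ 2)⁻¹ * A ≤
            (2 / e) ^ 6 * ((32 / 9) ^ 2 * (L ^ 2)⁻¹) * (CA * L) := by gcongr
          _ = (2 / e) ^ 6 * (32 / 9) ^ 2 * CA * L⁻¹ := by
            field_simp
          _ ≤ (2 / e) ^ 6 * (32 / 9) ^ 2 * CA * 1 := by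
            gcongr
            exact inv_le_one_of_one_le₀ hL1
          _ = _ := mul_one _
      gcongr
    unfold er
    rw [← hzd, ← hAd] at *
    linarith


end

end NUS4C
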