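import Pool.Agent.SeaU.KerN
import Pool.Agent.SeaU.H0
import Pool.Agent.NUSea.H0.Inst

/-!
# Bounds uniform in the sea: the instance of a configuration (`NUSea/H0/{CrNum, Inst}`)
-/

set_option autoImplicit false
set_option linter.unusedSectionVars false

open MeasureTheory Set Filter Topology
open scoped Real ENNReal

namespace NUSea.H0

open NUH0
open NUMF NUWC NUKer NUDi NUO NUEnW NUDispW NUMFC
open NUSea (Sea SeaBd SeaU)

noncomputable section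

/-- **tail of the sea and of the objects** -/
theorem rm_tailU (SU : SeaBd) [Sea] [SeaU SU] {T' Y q ε₂ : ℝ} {r : ℕ} {h : Fin r → ℝ} {M k m s L : ℝ} {μ : ℝ → ℝ} (hM : 0 ≤ M)
    (hμ : ∀ t, |μ t| ≤ M * bmaj Finset.univ h (5 / 2) t) (hm : 1 ≤ m) (hL : L = Real.log m)
    (hs0 : 0 ≤ s) (hs : s ≤ k * m) (hT : 3 / 8 * L ≤ T') (hh : ∀ i, |h i| ≤ T' + Y) (hY : 0 ≤ Y)
    (hε : 0 ≤ ε₂) (hq1 : 1 ≤ q) (hqr : (r : ℝ) ≤ q) (hqk : tCU SU * k ≤ q) (hqM : 2 * M ≤ q) {t : ℝ}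
    (ht : T0c T' Y q ε₂ ≤ |t|) :
    |s * P t + μ t| ≤ δc Y q ε₂ * Real.exp (-(|t| - T0c T' Y q ε₂)) := by
  have htC := tCU_ge SU
  have hq0 : 0 < q := by linarith
  have hlq := Real.log_nonneg hq1
  have hm0 : 0 < m := by linarith
  set T0 := T0c T' Y q ε₂ with hT0
  have hi0 : 0 < q⁻¹ := inv_pos.2 hq0
  have hi1 : q⁻¹ ≤ 1 := inv_le_one_of_one_le₀ hq1
  have hqi : q⁻¹ * q = 1 := inv_mul_cancel₀ hq0.ne'
  have hexp : ∀ n : ℕ, Real.exp (-(n * Real.log q)) = q⁻¹ ^ n := by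
    intro n
    rw [← mul_neg, Real.exp_nat_mul, Real.exp_neg, Real.exp_log hq0]
  have hk : 0 ≤ k := by
    by_contra hc
    push Not at hc
    nlinarith
  -- the sea
  have h1 : |s * P t| ≤ 1 / 2 * (δc Y q ε₂ * Real.exp (-(|t| - T0))) := by
    have h2 := sP_tailU SU (s := s) ht
    rw [abs_of_nonneg hs0] at h2
    refine h2.trans ?_
    have h3 : Real.exp (-(8 / 3) * T0) ≤ m⁻¹ * (q⁻¹ ^ 3 * Real.exp (-(ε₂ * Y))) := by
      have e : m⁻¹ * (q⁻¹ ^ 3 * Real.exp (-(ε₂ * Y))) =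
          Real.exp (-L + (-(((3 : ℕ) : ℝ) * Real.log q) + -(ε₂ * Y))) := by
        have e0 : Real.exp (-L) = m⁻¹ := by rw [hL, Real.exp_neg, Real.exp_log hm0]
        rw [Real.exp_add, Real.exp_add, hexp 3, e0]
      rw [e]
      apply Real.exp_le_exp.2
      have h4 := mul_nonneg hε hY
      rw [hT0]
      unfold T0c
      push_cast
      nlinarith
    have h5 : tCU SU / 2 * s * (m⁻¹ * (q⁻¹ ^ 3 * Real.exp (-(ε₂ * Y)))) ≤ 1 / 2 * δc Y q ε₂ := by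
      have h6 : s * m⁻¹ ≤ k := by
        rw [← div_eq_mul_inv, div_le_iff₀ hm0]
        exact hs
      unfold δc
      have h7 : tCU SU * k * q⁻¹ ≤ 1 := by
        rw [← div_eq_mul_inv, div_le_iff₀ hq0]
        linarith
      have he := (Real.exp_pos (-(ε₂ * Y))).le
      calc tCU SU / 2 * s * (m⁻¹ * (q⁻¹ ^ 3 * Real.exp (-(ε₂ * Y)))) =
          tCU SU / 2 * (s * m⁻¹) * q⁻¹ * (q⁻¹ ^ 2 * Real.exp (-(ε₂ * Y))) := by ring
        _ ≤ tCU SU / 2 * k * q⁻¹ * (q⁻¹ ^ 2 * Real.exp (-(ε₂ * Y))) := by gcongr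
        _ = 1 / 2 * (tCU SU * k * q⁻¹) * (q⁻¹ ^ 2 * Real.exp (-(ε₂ * Y))) := by ring
        _ ≤ 1 / 2 * 1 * (q⁻¹ ^ 2 * Real.exp (-(ε₂ * Y))) := by gcongr
        _ = _ := by ring
    calc tCU SU / 2 * s * Real.exp (-(8 / 3) * T0) * Real.exp (-(|t| - T0)) ≤
        tCU SU / 2 * s * (m⁻¹ * (q⁻¹ ^ 3 * Real.exp (-(ε₂ * Y)))) * Real.exp (-(|t| - T0)) := by gcongr
      _ ≤ (1 / 2 * δc Y q ε₂) * Real.exp (-(|t| - T0)) := by gcongr
      _ = _ := by ring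
  -- the objects
  have h2 : |μ t| ≤ 1 / 2 * (δc Y q ε₂ * Real.exp (-(|t| - T0))) := by
    refine (hμ t).trans ?_
    have h3 : bmaj Finset.univ h (5 / 2) t ≤ q * (q⁻¹ ^ 5 * Real.exp (-(ε₂ * Y)) *
        Real.exp (-(|t| - T0))) := by
      unfold bmaj
      calc ∑ i, Real.exp (-(5 / 2 * |t - h i|)) ≤ ∑ _i : Fin r, (q⁻¹ ^ 5 * Real.exp (-(ε₂ * Y)) *
          Real.exp (-(|t| - T0))) := by
            refine Finset.sum_le_sum fun i _ => ?_
            rw [← hexp 5, ← Real.exp_add, ← Real.exp_add]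
            apply Real.exp_le_exp.2
            have h4 := abs_sub_abs_le_abs_sub t (h i)
            have h5 := hh i
            have h6 := mul_nonneg hε hY
            have h7 : |t| - T0 + ε₂ * Y + 2 * Real.log q ≤ |t - h i| := by
              rw [hT0]
              unfold T0c
              linarith
            have h8 : 0 ≤ |t| - T0 := by linarith
            push_cast
            linarith
        _ = r * (q⁻¹ ^ 5 * Real.exp (-(ε₂ * Y)) * Real.exp (-(|t| - T0))) := by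
            rw [Finset.sum_const, Finset.card_univ, Fintype.card_fin, nsmul_eq_mul]
        _ ≤ _ := by gcongr
    have h4 : M * q⁻¹ ≤ 1 / 2 := by
      rw [← div_eq_mul_inv, div_le_iff₀ hq0]
      linarith
    unfold δc
    have he := (Real.exp_pos (-(ε₂ * Y))).le
    have h5 : q * q⁻¹ ^ 5 = q⁻¹ * q⁻¹ ^ 3 := by
      calc q * q⁻¹ ^ 5 = (q⁻¹ * q) * q⁻¹ ^ 4 := by ring
        _ = q⁻¹ * q⁻¹ ^ 3 := by rw [hqi]; ring
    have h6 : q⁻¹ ^ 3 ≤ q⁻¹ ^ 2 := pow_le_pow_of_le_one hi0.le hi1 (by norm_num)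
    calc M * bmaj Finset.univ h (5 / 2) t ≤ M * (q * (q⁻¹ ^ 5 * Real.exp (-(ε₂ * Y)) *
        Real.exp (-(|t| - T0)))) := by gcongr
      _ = (M * (q * q⁻¹ ^ 5)) * (Real.exp (-(ε₂ * Y)) * Real.exp (-(|t| - T0))) := by ring
      _ = ((M * q⁻¹) * q⁻¹ ^ 3) * (Real.exp (-(ε₂ * Y)) * Real.exp (-(|t| - T0))) := by rw [h5]; ring
      _ ≤ (1 / 2 * q⁻¹ ^ 2) * (Real.exp (-(ε₂ * Y)) * Real.exp (-(|t| - T0))) := by gcongr
      _ = _ := by ring
  refine (abs_add_le _ _).trans ?_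
  linarith

/-- tails of the sea, of the objects and of the plateau -/
theorem rm_tail3U (SU : SeaBd) [Sea] [SeaU SU] {r : ℕ} {h : Fin r → ℝ} {T' Y q ε₂ : ℝ} {k M m s L : ℝ} {μ : ℝ → ℝ} (hM : 0 ≤ M) (hk : 0 ≤ k)
    (hμ : ∀ t, |μ t| ≤ M * (bmaj Finset.univ h (5 / 2) t + plt T' t)) (hm : 1 ≤ m)
    (hL : L = Real.log m) (hs0 : 0 ≤ s) (hs : s ≤ k * m) (hT : 3 / 8 * L ≤ T')
    (hh : ∀ i, |h i| ≤ T' + Y) (hY : 0 ≤ Y) (hε : 0 ≤ ε₂) (hq1 : 1 ≤ q) (hqr : (r : ℝ) ≤ q)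
    (hqk : 3 * (tCU SU * k) ≤ q) (hqM : 6 * M ≤ q) {t : ℝ} (ht : T0c T' Y q ε₂ ≤ |t|) :
    |s * P t + μ t| ≤ δc Y q ε₂ * Real.exp (-(|t| - T0c T' Y q ε₂)) := by
  have hq0 : 0 < q := by linarith
  obtain ⟨e, he⟩ : ∃ e, e = δc Y q ε₂ * Real.exp (-(|t| - T0c T' Y q ε₂)) := ⟨_, rfl⟩
  have a1 : |3 * s * P t + (0 : ℝ)| ≤ e := by
    rw [he]
    refine rm_tailU SU (h := h) (M := 0) (k := 3 * k) (m := m) (L := L) (μ := fun _ => 0) le_rfl
      (fun t => ?_) hm hL (by linarith) (by nlinarith) hT hh hY hε hq1 hqr (by linarith)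
      (by linarith) ht
    simp
  have a2 : |(0 : ℝ) * P t + 3 * M * bmaj Finset.univ h (5 / 2) t| ≤ e := by
    rw [he]
    refine rm_tailU SU (h := h) (M := 3 * M) (k := k) (m := m) (L := L)
      (μ := fun t => 3 * M * bmaj Finset.univ h (5 / 2) t) (by linarith)
      (fun t => ?_) hm hL le_rfl (by positivity) hT hh hY hε hq1 hqr (by linarith)
      (by linarith) ht
    rw [abs_of_nonneg]
    have : 0 ≤ bmaj Finset.univ h (5 / 2) t := by unfold bmaj; positivity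
    positivity
  have a3 : 3 * M * plt T' t ≤ e := by
    have hlq := Real.log_nonneg hq1
    have h1 : plt T' t ≤ q⁻¹ ^ 5 * Real.exp (-(ε₂ * Y)) * Real.exp (-(|t| - T0c T' Y q ε₂)) := by
      have e1 : q⁻¹ ^ 5 = Real.exp (-(((5 : ℕ) : ℝ) * Real.log q)) := by
        rw [← mul_neg, Real.exp_nat_mul, Real.exp_neg, Real.exp_log hq0]
      rw [e1, ← Real.exp_add, ← Real.exp_add]
      unfold plt
      apply Real.exp_le_exp.2
      have h2 := le_max_left (|t| - T') 0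
      have h3 : (1 + ε₂) * Y + 2 * Real.log q = T0c T' Y q ε₂ - T' := by
        unfold T0c
        ring
      have h4 := mul_nonneg hε hY
      push_cast
      nlinarith
    have hi0 : 0 < q⁻¹ := inv_pos.2 hq0
    have hi1 : q⁻¹ ≤ 1 := inv_le_one_of_one_le₀ hq1
    have h5 : 3 * M * q⁻¹ ≤ 1 := by
      rw [← div_eq_mul_inv, div_le_one hq0]
      linarith
    have h6 : q⁻¹ ^ 4 ≤ q⁻¹ ^ 2 := pow_le_pow_of_le_one hi0.le hi1 (by norm_num)
    rw [he]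
    unfold δc
    have e2 := (Real.exp_pos (-(ε₂ * Y))).le
    have e3 := (Real.exp_pos (-(|t| - T0c T' Y q ε₂))).le
    calc 3 * M * plt T' t ≤ 3 * M * (q⁻¹ ^ 5 * Real.exp (-(ε₂ * Y)) *
          Real.exp (-(|t| - T0c T' Y q ε₂))) := by gcongr
      _ = (3 * M * q⁻¹) * q⁻¹ ^ 4 * (Real.exp (-(ε₂ * Y)) *
          Real.exp (-(|t| - T0c T' Y q ε₂))) := by ring
      _ ≤ 1 * q⁻¹ ^ 2 * (Real.exp (-(ε₂ * Y)) * Real.exp (-(|t| - T0c T' Y q ε₂))) := by gcongr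
      _ = _ := by ring
  rw [← he]
  have b1 : 3 * |s * P t| ≤ e := by
    have e1 : |3 * s * P t + (0 : ℝ)| = 3 * |s * P t| := by
      rw [add_zero, mul_assoc, abs_mul, abs_of_pos (by norm_num : (0 : ℝ) < 3)]
    rwa [e1] at a1
  have b2 : 3 * (M * bmaj Finset.univ h (5 / 2) t) ≤ e := by
    have := (le_abs_self _).trans a2
    linarith
  have b3 := hμ t
  have b4 := abs_add_le (s * P t) (μ t)
  linarith

/-- regularity with tails -/
theorem Inst.regTU (SU : SeaBd) [Sea] [SeaU SU] {X : Dat} {p n : ℕ} {k A κ : ℝ} {m r : ℕ}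
    {h : Fin r → ℝ} {T' b : ℝ} {η η1 : Bool → ℝ → ℝ} (hI : Inst X p n k A κ m h T' b η η1) (hA : 1 ≤ A) (hm : 1 ≤ m)
    (hL : 200 + 3 * (tCU SU * k) + 6 * A ≤ Real.log m) (hk : 0 ≤ k) {Y : ℝ}
    (hT : 3 / 8 * Real.log m ≤ T') (hT' : T' ≤ Real.log m) (hY : 0 ≤ Y) (hh : ∀ i, |h i| ≤ T' + Y) :
    RegT X (T0c T' Y (qc A r m) (1 / 100)) (δc Y (qc A r m) (1 / 100)) := by
  have htk : 0 ≤ tCU SU * k := mul_nonneg (by linarith [tCU_ge SU]) hk
  have hq := qc_ge (r := r) (m := m) hA hL (by linarith)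
  have hr : (0 : ℝ) ≤ r := Nat.cast_nonneg r
  have hm1 : (1 : ℝ) ≤ m := by exact_mod_cast hm
  have hq0 : 0 < qc A r m := by linarith
  have hqL : T' ≤ qc A r m := by
    unfold qc
    nlinarith
  obtain ⟨Cκ, hG⟩ := hI.geo
  exact
    { hI.reg with
      tail := fun a t ht => by
        unfold rm Dat.ρ
        exact rm_tail3U SU (h := h) (M := A) (k := k) (m := m) (L := Real.log m) (by linarith) hk
          (hI.μM a) hm1 rfl hG.s0 hI.sk hT hh hY (by norm_num) (by linarith) (by linarith)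
          (by linarith) (by linarith) ht
      φd := hI.φd
      φc' := hI.φc'
      δφ := fun a t => by
        have h1 := hI.φq a t
        have h2 := (δc_pos (Y := Y) (ε₂ := 1 / 100) hq0).le
        have h3 : δc Y (qc A r m) (1 / 100) ≤ (qc A r m)⁻¹ ^ 2 := by
          unfold δc
          have : Real.exp (-(1 / 100 * Y)) ≤ 1 := Real.exp_le_one_iff.2 (by linarith)
          have h4 : 0 ≤ (qc A r m)⁻¹ ^ 2 := by positivity
          nlinarith
        calc δc Y (qc A r m) (1 / 100) * |X.φ a t| ≤ (qc A r m)⁻¹ ^ 2 * qc A r m ^ 2 := by gcongr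
          _ = 1 := by
            rw [← mul_pow, inv_mul_cancel₀ hq0.ne', one_pow]
      δ0 := (δc_pos hq0).le
      δ1 := delta_log hY (by linarith) (by norm_num) (by norm_num) (by linarith) hqL (by linarith)
      T0 := by
        have := T0c_ge (T' := T') (ε₂ := 1 / 100) hY (by linarith : 1 ≤ qc A r m) (by norm_num)
        linarith }

/-- kernels and numbers -/
theorem exists_numsU (SU : SeaBd) : ∀ {k A κ x : ℝ}, 0 ≤ k → 0 ≤ A → 0 < κ → 0 < x → ∀ {N c : ℝ},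
    1 ≤ N → ∀ j : ℕ, ∃ m0 : ℕ, 3 ≤ m0 ∧ ∀ m ≥ m0, ∀ [Sea] [SeaU SU], ∀ {X : Dat} {p n r : ℕ} {h : Fin r → ℝ}
      {T' b : ℝ} {η η1 : Bool → ℝ → ℝ}, Inst X p n k A κ m h T' b η η1 → ∀ {R1 : ℝ}, 0 ≤ b →
      Real.log m + b ≤ R1 → R1 ≤ c * Real.log m ^ j →
      ∃ ε c' m2 : ℝ, Nums X p n h A x (R1 + N) ε c' m2 ∧
        (∀ bb : ℝ → ℝ, (∀ t, |t| ≤ R1 → bb t = 1) → (∀ t, 0 ≤ bb t) → (∀ t, bb t ≤ 1) →
          ∀ a d t t', |X.κ a d t t' - bb t * bb t' * X.κ a d t t'| ≤ ε) ∧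
        (∃ Λ1, 0 ≤ Λ1 ∧ 4 * Λ1 ≤ c' ∧ ∀ a d, KC (R1 + N) Λ1
          (fun t t' => ((X.κ a d t t' : ℝ) : ℂ))) := by
  obtain ⟨K, hK, HK⟩ := kernU SU
  intro k A κ x hk hA hκ hx N c hN j
  have hKc := (Kc_pos (by norm_num : (0 : ℝ) < 5 / 2)).le
  obtain ⟨A', hA'⟩ : ∃ A' : ℝ, A' = 2 * (A ^ 2 * Kc (5 / 2)) + 8 * A ^ 2 := ⟨_, rfl⟩
  obtain ⟨m0, hm0, HM⟩ := kern_numj (K := K) (k := k) (κ0 := κ) (A := A') (x := x)
    (by linarith) hκ (by rw [hA']; positivity) hx (N := N) (c := c) (by linarith) j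
  refine ⟨m0, hm0, ?_⟩
  intro m hm _ _ X p n r h T' b η η1 hI R1 hb hR hRj
  have hm3 : (3 : ℝ) ≤ m := by exact_mod_cast hm0.trans hm
  have hmp : (0 : ℝ) < m := by linarith
  have hL0 : 0 ≤ Real.log m := Real.log_nonneg (by linarith)
  have hR0 : 0 ≤ R1 := by linarith
  obtain ⟨g1, g2, g3, g4, g5⟩ := HM m hm hR hRj hR0
  obtain ⟨lam, hlam⟩ : ∃ lam : ℝ, lam = (m : ℝ) ^ (-κ) := ⟨_, rfl⟩
  rw [← hlam] at g1 g2 g3 g4 g5
  have hlam0 : 0 < lam := by rw [hlam]; exact Real.rpow_pos_of_pos hmp _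
  have hC : ∀ a, NU42.Crv lam b (η a) (η1 a) := fun a => by
    obtain ⟨ε, M, e, hc, hε⟩ := hI.cur a
    exact hc.crv (hI.hd a) (hε.trans hlam.symm.le)
  have hD : ∀ a, NUKer.Disp (R1 + N) lam (iD (η a)) (iD (η1 a)) := fun a => by
    obtain ⟨ε, M, e, hc, hε⟩ := hI.cur a
    have h1 : Cur X.s lam M b e (η a) := ⟨hc.oc, fun t => (hc.le t).trans (hε.trans hlam.symm.le),
      hc.mass, hc.supp⟩
    exact h1.disp (hI.hd a) _
  obtain ⟨H1, H2⟩ := HK hI.dD hI.dD1 hC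
  have hRN1 : 1 ≤ R1 + N := by linarith
  have hKl : K * lam ≤ 1 := by
    refine le_trans ?_ g1
    have : 1 ≤ (R1 + N) ^ 7 := one_le_pow₀ hRN1
    have : K * 1 * lam ≤ K * (R1 + N) ^ 7 * lam := by gcongr
    linarith
  have hs0 : 0 ≤ X.s := by
    obtain ⟨Cκ, hG⟩ := hI.geo
    exact hG.s0
  have hw0 : 0 ≤ win Finset.univ h := win_nonneg _ _
  obtain ⟨S, hS⟩ : ∃ S : ℝ, S = √(2 * (R1 + N) * (A ^ 2 * Kc (5 / 2) * win Finset.univ h)) := ⟨_, rfl⟩
  have hS0 : 0 ≤ S := by rw [hS]; exact Real.sqrt_nonneg _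
  have hsq : S ^ 2 = 2 * (R1 + N) * (A ^ 2 * Kc (5 / 2) * win Finset.univ h) := by
    rw [hS]
    exact Real.sq_sqrt (by positivity)
  have hm2 : (S + 2 * A * (R1 + N)) ^ 2 ≤ 4 * (R1 + N) * (A ^ 2 * Kc (5 / 2) * win Finset.univ h) +
      8 * A ^ 2 * (R1 + N) ^ 2 := by
    have h1 : (S + 2 * A * (R1 + N)) ^ 2 ≤ 2 * S ^ 2 + 2 * (2 * A * (R1 + N)) ^ 2 := by
      nlinarith [sq_nonneg (S - 2 * A * (R1 + N))]
    rw [hsq] at h1
    linarith
  refine ⟨K * lam * Real.exp (-2 * (R1 - b)), 4 * K * (R1 + N) ^ 7 * lam,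
    S + 2 * A * (R1 + N), ?_, ?_, ?_⟩
  · refine ⟨by positivity, by positivity, ?_, ?_, hm2, g2, fun a => ?_⟩
    · exact g4 p n X.s (Nat.cast_nonneg _) (Nat.cast_nonneg _) hs0 hI.pk hI.nk hI.sk
    · have h3 := g3 _ hw0
      have h4 : 0 ≤ 176 * (4 * K * (R1 + N) ^ 7 * lam) * (R1 + N) := by positivity
      have h5 : (S + 2 * A * (R1 + N)) ^ 2 ≤ 2 * (R1 + N) * (A' * win Finset.univ h) +
          A' * (R1 + N) ^ 2 := by
        refine hm2.trans ?_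
        have a1 : 4 * (R1 + N) * (A ^ 2 * Kc (5 / 2) * win Finset.univ h) ≤
            2 * (R1 + N) * (A' * win Finset.univ h) := by
          have : 0 ≤ (R1 + N) * (A ^ 2 * win Finset.univ h) := by positivity
          rw [hA']
          nlinarith
        have a2 : 8 * A ^ 2 * (R1 + N) ^ 2 ≤ A' * (R1 + N) ^ 2 := by
          have : 0 ≤ A ^ 2 * Kc (5 / 2) := by positivity
          rw [hA']
          gcongr
          linarith
        linarith
      calc 176 * (4 * K * (R1 + N) ^ 7 * lam) * (R1 + N) * (S + 2 * A * (R1 + N)) ^ 2 ≤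
          176 * (4 * K * (R1 + N) ^ 7 * lam) * (R1 + N) * (2 * (R1 + N) * (A' * win Finset.univ h) +
          A' * (R1 + N) ^ 2) := by gcongr
        _ ≤ x * (win Finset.univ h + 1) := by
          rw [mul_add]
          linarith
    · rw [hS]
      exact m2_le3 hA (by linarith) (hI.reg.μi a) (hI.μM a)
  · intro bb h1 h2 h3 a d t t'
    exact H1 hKl R1 bb (by linarith) h1 h2 h3 a d t t'
  · refine ⟨K * (R1 + N) ^ 7 * lam, by positivity, by linarith, ?_⟩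
    exact H2 (R1 + N) hRN1 hD g1

/-- **the crude bound of the gas of a configuration** -/
theorem crudeU (SU : SeaBd) {k A κ ε' : ℝ} (hk : 0 ≤ k) (hA : 1 ≤ A) (hκ : 0 < κ) (hε' : 0 < ε')
    (hε'1 : ε' ≤ 1 / 200) : ∃ C : ℝ, 0 ≤ C ∧ ∀ {x : ℝ}, 0 < x → ∃ m0 : ℕ, ∀ m ≥ m0,
    ∀ [Sea] [SeaU SU], ∀ {X : Dat} {p n r : ℕ} {h : Fin r → ℝ} {T' b : ℝ} {η η1 : Bool → ℝ → ℝ},
    Inst X p n k A κ m h T' b η η1 → 0 ≤ b → b ≤ Real.log m →
    ∀ {aX aY cf B : ℝ → ℝ} {D q : ℝ}, Shl X aX aY cf B D q → 7 / 3 + 2 * ε' < q →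
    ∀ {Y : ℝ}, 3 / 8 * Real.log m ≤ T' → T' ≤ Real.log m → 0 ≤ Y → (∀ i, |h i| ≤ T' + Y) →
    ∀ {N0 e1 : ℝ}, C * e1 ≤ ε' → (∀ T, T0i T' Y A r m ≤ T → NT X T ≤ N0 + e1 * T) →
    ∫⁻ y, ENNReal.ofReal (W0 X p n aX aY cf y) ≤ ENNReal.ofReal ((p.factorial : ℝ) * n.factorial *
      Real.exp (MFs X.s p n + X.En + ((7 / 3 + 2 * ε') * T' + 12 / 5 * Y + 6 * r + C * (1 + N0) +
        x * (win Finset.univ h + 1 + Real.log m) + 1)) *
        (1 + shF D q (7 / 3 + 2 * ε') (T0i T' Y A r m))) := by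
  obtain ⟨C, hC0, hC⟩ := H0U SU hε' k
  have htk : 0 ≤ tCU SU * k := mul_nonneg (by linarith [tCU_ge SU]) hk
  obtain ⟨N, hN1, hN⟩ := exists_cut1
  refine ⟨C, hC0, ?_⟩
  intro x hx
  obtain ⟨m1, hm1, HM⟩ := exists_numsU SU (k := k) (A := A) (κ := κ) (x := x) hk (by linarith) hκ hx
    (N := N) (c := 2) hN1 1
  obtain ⟨m2, HT⟩ := T0i_cost (x := x) (ε' := 2 * ε') hx A hA (by linarith)
  obtain ⟨m3, hm3⟩ := (Real.tendsto_log_atTop.comp tendsto_natCast_atTop_atTop).eventually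
    (eventually_ge_atTop (200 + 3 * (tCU SU * k) + 6 * A)) |>.exists_forall_of_atTop
  refine ⟨max m1 (max m2 m3), ?_⟩
  intro m hm _ _ X p n r h T' b η η1 hI hb0 hb aX aY cf B D q hS hq Y hT1 hT2 hY hh N0 e1 he1 hNT
  have hmm1 : m1 ≤ m := (le_max_left _ _).trans hm
  have hmm2 : m2 ≤ m := ((le_max_left _ _).trans (le_max_right _ _)).trans hm
  have hmm3 : m3 ≤ m := ((le_max_right _ _).trans (le_max_right _ _)).trans hm
  have hm3' : 3 ≤ m := hm1.trans hmm1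
  have hmr : (3 : ℝ) ≤ m := by exact_mod_cast hm3'
  have hL := hm3 m hmm3
  simp only [Function.comp] at hL
  have hLp : 0 < Real.log m := by linarith
  obtain ⟨ε, c', mm, hn, hker, hkc⟩ := HM m hmm1 hI (R1 := 2 * Real.log m) hb0 (by linarith)
    (by rw [pow_one])
  obtain ⟨hcut, hb0', hb1', hb2'⟩ := hN (2 * Real.log m) (by linarith)
  have hreg := hI.regTU SU hA (by omega) hL hk hT1 hT2 hY hh
  have hT0 : T' + Y ≤ T0i T' Y A r m := T0i_ge hA hLp.le hY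
  have hT0p : 0 < T0i T' Y A r m := by linarith
  have hH : Hyp0 X p n k m (T0i T' Y A r m) (2 * Real.log m + N) ε c' mm (cN N (2 * Real.log m))
      (cN1 N (2 * Real.log m)) :=
    { m1 := by linarith
      pk := hI.pk
      nk := hI.nk
      sk := hI.sk
      mT := by linarith
      T0p := hT0p
      geo := hI.geo
      fld := hI.fld
      reg := ⟨_, hreg⟩
      cut := hcut
      ker := hker _ hb2' hb0' hb1'
      kc := hkc
      c0 := hn.c0
      cq := hn.cq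
      m2 := hn.mm }
  have hE := (hC hH hS (E0 := MFs X.s p n + X.En + (7 / 3 + 2 * ε') * T0i T' Y A r m +
      (C * (1 + N0) + x * (win Finset.univ h + 1) + 1)) (g := 7 / 3 + 2 * ε') (by linarith) hq (fun T hT => by
        have h1 := Ex_le (X := X) (p := p) (n := n) (ε' := ε') (C := C) (c' := c')
          (R := 2 * Real.log m + N) (m2 := mm) (ε := ε) (T0 := T0i T' Y A r m) (T := T)
          (N0 := N0 + e1 * T0i T' Y A r m) (e1 := e1) hC0 (hT0p.le.trans hT) he1 hT (by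
            have := hNT T hT
            linarith)
        have h2 := hn.e1
        have h3 := hn.cm
        have h4 : C * (e1 * T0i T' Y A r m) ≤ ε' * T0i T' Y A r m := by
          rw [← mul_assoc]
          gcongr
        linarith)).1 grid0 ∅ 0
  simp only [Finset.sum_empty, mul_zero, Real.exp_zero, ENNReal.ofReal_one, mul_one] at hE
  refine hE.trans (ENNReal.ofReal_le_ofReal ?_)
  have h5 := HT m hmm2 r (T' := T') hY
  have hsh := shF_nonneg (T0 := T0i T' Y A r m) hS.D0 hq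
  have h6 : MFs X.s p n + X.En + (7 / 3 + 2 * ε') * T0i T' Y A r m +
      (C * (1 + N0) + x * (win Finset.univ h + 1) + 1) ≤
      MFs X.s p n + X.En + ((7 / 3 + 2 * ε') * T' + 12 / 5 * Y + 6 * r + C * (1 + N0) +
        x * (win Finset.univ h + 1 + Real.log m) + 1) := by linarith
  gcongr

/-- **the hypotheses of the sharp bound** -/
theorem hyp1U (SU : SeaBd) {k A κ : ℝ} (hk : 0 ≤ k) (hA : 1 ≤ A) (hκ : 0 < κ) {x N c : ℝ} (hx : 0 < x) (hN : 1 ≤ N)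
    (j : ℕ) : ∃ m0 : ℕ, ∀ m ≥ m0,
    ∀ [Sea] [SeaU SU], ∀ {X : Dat} {p n r : ℕ} {h : Fin r → ℝ} {T' b : ℝ} {η η1 : Bool → ℝ → ℝ},
    Inst X p n k A κ m h T' b η η1 → 0 ≤ b → ∀ {R1 : ℝ}, Real.log m + b ≤ R1 → R1 ≤ c * Real.log m ^ j →
    ∀ {Y : ℝ}, 3 / 8 * Real.log m ≤ T' → T' ≤ Real.log m → 0 ≤ Y → (∀ i, |h i| ≤ T' + Y) →
    T0i T' Y A r m ≤ R1 → ∃ ε c' m2 : ℝ, Nums X p n h A x (R1 + N) ε c' m2 ∧
      Hyp1 X p n k m (T0i T' Y A r m) R1 N ε c' m2 := by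
  obtain ⟨N', hN1, hN'⟩ := exists_cut1
  have htk : 0 ≤ tCU SU * k := mul_nonneg (by linarith [tCU_ge SU]) hk
  obtain ⟨m1, hm1, HM⟩ := exists_numsU SU (k := k) (A := A) (κ := κ) (x := x) hk (by linarith) hκ hx
    (N := N) (c := c) hN j
  obtain ⟨m3, hm3⟩ := (Real.tendsto_log_atTop.comp tendsto_natCast_atTop_atTop).eventually
    (eventually_ge_atTop (200 + 3 * (tCU SU * k) + 6 * A)) |>.exists_forall_of_atTop
  refine ⟨max m1 m3, ?_⟩
  intro m hm _ _ X p n r h T' b η η1 hI hb0 R1 hR1 hR2 Y hT1 hT2 hY hh hT0R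
  have hmm1 : m1 ≤ m := (le_max_left _ _).trans hm
  have hmm3 : m3 ≤ m := (le_max_right _ _).trans hm
  have hm3' : 3 ≤ m := hm1.trans hmm1
  have hmr : (3 : ℝ) ≤ m := by exact_mod_cast hm3'
  have hL := hm3 m hmm3
  simp only [Function.comp] at hL
  have hLp : 0 < Real.log m := by linarith
  obtain ⟨ε, c', mm, hn, hker, hkc⟩ := HM m hmm1 hI (R1 := R1) hb0 hR1 hR2
  have hreg := hI.regTU SU hA (by omega) hL hk hT1 hT2 hY hh
  have hT0 : T' + Y ≤ T0i T' Y A r m := T0i_ge hA hLp.le hY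
  have hT0p : 0 < T0i T' Y A r m := by linarith
  refine ⟨ε, c', mm, hn, ?_⟩
  exact
    { m1 := by linarith
      pk := hI.pk
      nk := hI.nk
      sk := hI.sk
      mT := by linarith
      T0p := hT0p
      T0R := hT0R
      geo := hI.geo
      fld := hI.fld
      reg := ⟨_, hreg⟩
      ε0 := hn.ε0
      ker := fun a d t t' ht => by
        -- a cut equal to `1` on `[-R1, R1]` and `0` at `t` or `t'`
        classical
        let bb : ℝ → ℝ := fun u => if |u| ≤ R1 then 1 else 0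
        have h1 := hker bb (fun u hu => if_pos hu) (fun u => by
          show 0 ≤ (if |u| ≤ R1 then (1 : ℝ) else 0)
          split_ifs <;> norm_num) (fun u => by
          show (if |u| ≤ R1 then (1 : ℝ) else 0) ≤ 1
          split_ifs <;> norm_num) a d t t'
        have h2 : bb t * bb t' = 0 := by
          rcases ht with ht | ht
          · have : bb t = 0 := if_neg (not_le.2 ht)
            rw [this, zero_mul]
          · have : bb t' = 0 := if_neg (not_le.2 ht)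
            rw [this, mul_zero]
        rwa [h2, zero_mul, sub_zero] at h1
      kc := hkc
      c0 := hn.c0
      cq := hn.cq
      m2 := hn.mm }

end

end NUSea.H0
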