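import Pool.Agent.SeaU.Inst
import Pool.Agent.SeaU.DatC
import Pool.Agent.SeaU.DatNC
import Pool.Agent.NUSea.H0.InstC

/-!
# Bounds uniform in the sea: the crude bound of a configuration (`NUSea/H0/{SharpC, InstC}`)
-/

set_option autoImplicit false
set_option linter.unusedSectionVars false

noncomputable section

open MeasureTheory Finset
open scoped ENNReal

namespace NUSea.H0

open NUO NUStabP NUDispW NUEnW
open NUH0 (T0i T0i_ge shF shF_nonneg plt plt_nonneg qc)
open NUSea (Sea SeaBd SeaU)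

/-- constant of the shells (the same number as `shC`) -/
def shV : ℝ := Real.exp (5 / 2) / (1 - Real.exp (-(1 / 20)))

theorem shV_eq [Sea] : shV = shC := rfl

theorem shV_nonneg : 0 ≤ shV := by
  have h : Real.exp (-(1 / 20 : ℝ)) < 1 := by
    rw [Real.exp_lt_one_iff]
    norm_num
  have h2 : 0 < 1 - Real.exp (-(1 / 20 : ℝ)) := by linarith
  unfold shV
  positivity

/-- **the instance of a configuration** -/
theorem instCU (SU : SeaBd) : InstCU SU := by
  intro G ep hep hep1 e1 he he1 k κ CB hκ hCB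
  have hadm : NUC43.Adm (9 / 4) (1 / 4) := ⟨by norm_num, by norm_num, by norm_num, by norm_num⟩
  obtain ⟨Kg, hKg, Hgeo⟩ := exists_geoU SU
  obtain ⟨Kφ, hKφ, Hφ⟩ := exists_phi_leU SU
  obtain ⟨KN, hKN, HN⟩ := exists_NTU SU
  obtain ⟨Mm, hMm, Hm⟩ := NUC43.muC_bd hadm
  obtain ⟨A, hA⟩ : ∃ A : ℝ, A = 1 + 3 * Kφ + CB + Mm := ⟨_, rfl⟩
  have hA1 : 1 ≤ A := by rw [hA]; linarith
  refine ⟨A, hA1, ?_⟩
  intro x hx
  obtain ⟨y, hy⟩ : ∃ y : ℝ, y = x / (16 * KN) := ⟨_, rfl⟩
  have hy0 : 0 < y := by rw [hy]; positivity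
  have hyK : KN * y ≤ x / 16 := by
    rw [hy]
    apply le_of_eq
    field_simp
  -- numbers
  obtain ⟨m1, hm1⟩ := NUS4.log_pow_small 0 hκ Kg
  obtain ⟨m2, hm2⟩ := NUS4.log_pow_small k hκ 1
  obtain ⟨m3, hm3⟩ := NUS4.log_pow_small (2 * k + 1) (show 0 < 2 * κ by positivity) 1
  obtain ⟨m4, hm4⟩ := NUS4.log_pow_small 0 (show 0 < 2 * κ by positivity) (18 / y)
  obtain ⟨m5, hm5⟩ := (Real.tendsto_log_atTop.comp tendsto_natCast_atTop_atTop).eventually
    (Filter.eventually_ge_atTop (1 / y)) |>.exists_forall_of_atTop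
  refine ⟨x / 24, 8 * KN + 6 * CB + x, by positivity, by positivity,
    max (max (max m1 m2) (max m3 m4)) (max m5 3), ?_⟩
  intro m hm _ _ I P r O g p n aX aY cf B1 T1 D q S hD
  have hM1 : m1 ≤ m := (le_max_left _ _).trans ((le_max_left _ _).trans ((le_max_left _ _).trans hm))
  have hM2 : m2 ≤ m := (le_max_right _ _).trans ((le_max_left _ _).trans ((le_max_left _ _).trans hm))
  have hM3 : m3 ≤ m := (le_max_left _ _).trans ((le_max_right _ _).trans ((le_max_left _ _).trans hm))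
  have hM4 : m4 ≤ m := (le_max_right _ _).trans ((le_max_right _ _).trans ((le_max_left _ _).trans hm))
  have hM5 : m5 ≤ m := (le_max_left _ _).trans ((le_max_right _ _).trans hm)
  have hm3' : 3 ≤ m := (le_max_right _ _).trans ((le_max_right _ _).trans hm)
  have hmr : (3:ℝ) ≤ m := by exact_mod_cast hm3'
  have hmp : (0:ℝ) < m := by linarith
  obtain ⟨L, hL⟩ : ∃ L, L = Real.log m := ⟨_, rfl⟩
  have hL0 : 0 ≤ L := by rw [hL]; exact Real.log_nonneg (by linarith)
  obtain ⟨z, hz⟩ : ∃ z, z = (m : ℝ) ^ (-κ) := ⟨_, rfl⟩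
  have hz0 : 0 ≤ z := by rw [hz]; exact (Real.rpow_pos_of_pos hmp _).le
  have hz2 : z ^ 2 = (m : ℝ) ^ (-(2 * κ)) := by
    rw [hz, ← Real.rpow_natCast, ← Real.rpow_mul hmp.le]
    congr 1
    push_cast
    ring
  have n1 : Kg * z ≤ 1 := by
    have := hm1 m hM1
    rw [pow_zero, mul_one, ← hz] at this
    exact this
  have n2 : L ^ k * z ≤ 1 := by
    have := hm2 m hM2
    rw [one_mul, ← hz, ← hL] at this
    exact this
  have n3 : L ^ (2 * k + 1) * z ^ 2 ≤ 1 := by
    have := hm3 m hM3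
    rw [one_mul, ← hz2, ← hL] at this
    exact this
  have n4 : 18 * z ^ 2 ≤ y := by
    have := hm4 m hM4
    rw [pow_zero, mul_one, ← hz2, div_mul_eq_mul_div, div_le_one hy0] at this
    exact this
  have n5 : 1 ≤ y * (1 + L) := by
    have h1 : 1 / y ≤ L := by
      have := hm5 m hM5
      rw [hL]
      exact this
    rw [div_le_iff₀ hy0] at h1
    nlinarith
  obtain ⟨dl, ε, M, e, hok, hε, hM, hdl⟩ := hD.ok
  rw [← hz] at hε hdl
  rw [← hL] at hM
  have hεn := hok.cur.ε0
  have hMn := hok.cur.M0 hok.s0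
  have hMe : M * ε ≤ 1 := by
    calc M * ε ≤ L ^ k * z := by gcongr
      _ ≤ 1 := n2
  have hrr := sum_rr hD.par (by omega) O
  have hrr0 : 0 ≤ ∑ i, rr P O i := Finset.sum_nonneg fun i _ => (hok.rr1 i).1
  rw [← hL] at hrr
  have hr1 : ∑ i, rr P O i ≤ 1 := hrr.trans (by
    rw [div_le_one (by linarith)]
    linarith)
  have hr0 : (0:ℝ) ≤ r := Nat.cast_nonneg r
  have hw0 := win_nonneg (Finset.univ : Finset (Fin r)) (fun i => ht (O i))
  have hw1 := NUS4.win_le_sq (fun i => ht (O i))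
  constructor
  · have hsk : (datO I P O).s ≤ 8 * (m : ℝ) := by
      show I.s ≤ 8 * (m : ℝ)
      linarith [hD.s2]
    refine ⟨hD.pk, hD.nk, hsk, ?_, hD.fld, hok.reg', ?_,
      ?_, ?_, ?_, fun a => datO_D I P O a, fun a => datO_D1 I P O a, fun _ => hok.der,
      fun _ => ⟨ε, M, e, hok.cur, hε.trans_eq hz⟩⟩
    · exact ⟨Kg * ε, Hgeo hok (le_trans (by gcongr) n1)⟩
    · exact fun a t => ((hok.phi_C1 (fun a => hok.Qr_C1 a) a).differentiable (by norm_num) t).hasDerivAt
    · exact fun a => (hok.phi_C1 (fun a => hok.Qr_C1 a) a).continuous_deriv le_rfl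
    · intro a t
      have h1 := Hφ (O := O) hok a t
      have h2 := hD.w0 a t
      have h3 : dl * r ≤ r := by
        have := hok.d2
        nlinarith
      have h4 : M * ε + dl * r + ∑ i, rr P O i ≤ 2 + r := by linarith
      have h5 : |phiO I P O a t| ≤ Kφ * (2 + r) + CB := by
        refine h1.trans (add_le_add ?_ h2)
        gcongr
      have h6 : 1 ≤ (r : ℝ) + 1 + L := by linarith
      show |phiO I P O a t| ≤ qc A (r + G) m ^ 2
      have hG0 : (0 : ℝ) ≤ G := Nat.cast_nonneg G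
      unfold qc
      rw [← hL]
      push_cast
      have h7 : Kφ * (2 + r) + CB ≤ A * (r + 1 + L) := by
        have h8 : Kφ * (2 + r) + CB ≤ (3 * Kφ + CB) * (r + 1 + L) := by
          have h9 : 0 ≤ CB * (r + L) := by positivity
          nlinarith
        have h9 : (3 * Kφ + CB) * (r + 1 + L) ≤ A * (r + 1 + L) :=
          mul_le_mul_of_nonneg_right (by rw [hA]; linarith) (by linarith)
        linarith
      have h10 : A * (r + 1 + L) ≤ A * (r + G + 1 + L) := by gcongr; linarith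
      have h11 : 1 ≤ A * (r + G + 1 + L) := by nlinarith
      nlinarith
    · intro a t
      have h1 := (Hm (Fin r) O a t).1
      have h2 : |I.ν a t| ≤ CB * (bmaj Finset.univ g (5 / 2) t + plt (TW ep e1 m) t) := by
        refine (hD.ν0 a t).trans_eq ?_
        unfold bmaj
        congr 2
      have h3 : |NUC43.muC P.jL P.e O a t| ≤ Mm * bmaj Finset.univ (fun i => ht (O i)) (5 / 2) t := by
        rw [hD.par.jL, hD.par.e]
        refine h1.trans_eq ?_
        unfold bmaj
        congr 1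
        exact Finset.sum_congr rfl fun i _ => by ring_nf
      have hb0 : 0 ≤ bmaj Finset.univ (fun i => ht (O i)) (5 / 2) t := bmaj_nonneg _ _ _ _
      have hp0 := plt_nonneg (TW ep e1 m) t
      show |NUC43.muC P.jL P.e O a t + I.ν a t| ≤ _
      refine (abs_add_le _ _).trans ?_
      have h4 : Mm * bmaj Finset.univ (fun i => ht (O i)) (5 / 2) t ≤
          A * bmaj Finset.univ (fun i => ht (O i)) (5 / 2) t := by
        gcongr
        rw [hA]
        linarith
      have hb1 : 0 ≤ bmaj Finset.univ g (5 / 2) t := bmaj_nonneg _ _ _ _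
      have h5 : CB * (bmaj Finset.univ g (5 / 2) t + plt (TW ep e1 m) t) ≤
          A * (bmaj Finset.univ g (5 / 2) t + plt (TW ep e1 m) t) := by
        gcongr
        rw [hA]
        linarith
      rw [bmaj_hts]
      nlinarith
  · intro T hT
    have hNW : ∀ a, NW I T a ≤ CB + x / 24 * (T + 1) := fun a => hD.w1 a T hT
    have hN : ∀ a, Nl (datO I P O) T a ≤ KN * (2 + y * win Finset.univ (fun i => ht (O i)) +
        y * (T + 1)) + 3 * (CB + x / 24 * (T + 1)) := by
      intro a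
      refine (HN hok T hT a).trans ?_
      have h1 : (M * ε) ^ 2 * ((1 - e1) * Tb (Real.log m)) ≤ 1 := by
        have h2 : (1 - e1) * Tb (Real.log m) ≤ L := by
          rw [← hL]
          unfold Tb
          nlinarith
        have h3 : (M * ε) ^ 2 ≤ (L ^ k * z) ^ 2 := by gcongr
        calc (M * ε) ^ 2 * ((1 - e1) * Tb (Real.log m)) ≤ (L ^ k * z) ^ 2 * L := by
              have : 0 ≤ (1 - e1) * Tb (Real.log m) := hok.b0
              gcongr
          _ = L ^ (2 * k + 1) * z ^ 2 := by ring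
          _ ≤ 1 := n3
      have h2 := dl_win (x := y) hok.dl0 hdl hz0 n4 hw0 hw1
      have h3 : (∑ i, rr P O i) ^ 2 * (T + 1) ≤ y * (T + 1) := by
        gcongr
        have h4 : (∑ i, rr P O i) ^ 2 ≤ ∑ i, rr P O i := by nlinarith
        have h5 : 1 / (1 + L) ≤ y := by
          rw [div_le_iff₀ (by linarith)]
          exact n5
        linarith
      have h4 := hNW a
      have h5 : KN * ((M * ε) ^ 2 * ((1 - e1) * Tb (Real.log m)) +
          dl ^ 2 * win Finset.univ (fun i => ht (O i)) + (∑ i, rr P O i) ^ 2 * (T + 1)) ≤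
          KN * (2 + y * win Finset.univ (fun i => ht (O i)) + y * (T + 1)) :=
        mul_le_mul_of_nonneg_left (by linarith) (by linarith)
      linarith
    have h1 := hN true
    have h2 := hN false
    unfold NT
    have h3 : KN * (2 + y * win Finset.univ (fun i => ht (O i)) + y * (T + 1)) ≤
        2 * KN + x / 16 * win Finset.univ (fun i => ht (O i)) + x / 16 * (T + 1) := by
      have h4 : KN * y * win Finset.univ (fun i => ht (O i)) ≤
          x / 16 * win Finset.univ (fun i => ht (O i)) := by gcongr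
      have h5 : KN * y * (T + 1) ≤ x / 16 * (T + 1) := by gcongr
      nlinarith
    have h6 : 0 ≤ x * win Finset.univ (fun i => ht (O i)) := by positivity
    have h7 : 0 ≤ x * T := by positivity
    nlinarith

/-- **the crude bound** -/
theorem crudeC_ofU (SU : SeaBd) (hI : InstCU SU) : CrudeCU SU := by
  refine ⟨6, 2, by norm_num, by norm_num, ?_⟩
  intro G kap hkap ep hep hep1 e1 he he1 δ hδ k κ CB hκ hCB
  obtain ⟨A, hA, hInst⟩ := hI G ep hep hep1 e1 he he1 k κ CB hκ hCB
  obtain ⟨ε', hε'⟩ : ∃ ε' : ℝ, ε' = min (1 / 200) (δ / 4) := ⟨_, rfl⟩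
  have hε'0 : 0 < ε' := by rw [hε']; exact lt_min (by norm_num) (by positivity)
  have hε'1 : ε' ≤ 1 / 200 := by rw [hε']; exact min_le_left _ _
  have hε'2 : ε' ≤ δ / 4 := by rw [hε']; exact min_le_right _ _
  obtain ⟨C, hC, HC⟩ := crudeU SU (k := 8) (A := A) (κ := κ) (ε' := ε') (by norm_num) hA hκ hε'0 hε'1
  obtain ⟨x, hx⟩ : ∃ x : ℝ, x = min (kap / 8) (δ / 4) := ⟨_, rfl⟩
  have hx0 : 0 < x := by rw [hx]; exact lt_min (by positivity) (by positivity)
  have hx1 : x ≤ kap / 8 := by rw [hx]; exact min_le_left _ _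
  have hx2 : x ≤ δ / 4 := by rw [hx]; exact min_le_right _ _
  obtain ⟨m1, HM⟩ := HC hx0
  obtain ⟨x2, hx2d⟩ : ∃ x2 : ℝ, x2 = min (ε' / (C + 1)) (kap / 4 / (C + 1)) := ⟨_, rfl⟩
  have hC1 : 0 < C + 1 := by linarith
  have hx20 : 0 < x2 := by rw [hx2d]; exact lt_min (by positivity) (by positivity)
  have hx2a : C * x2 ≤ ε' := by
    have h1 : x2 ≤ ε' / (C + 1) := by rw [hx2d]; exact min_le_left _ _
    rw [le_div_iff₀ hC1] at h1
    nlinarith
  have hx2b : C * x2 ≤ kap / 4 := by
    have h1 : x2 ≤ kap / 4 / (C + 1) := by rw [hx2d]; exact min_le_right _ _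
    rw [le_div_iff₀ hC1] at h1
    nlinarith
  obtain ⟨ϑ, N1, hϑ, hN1, m2, hI2⟩ := hInst x2 hx20
  refine ⟨ϑ, Real.exp (C * (1 + N1) + x * (1 + 2 * (G : ℝ) ^ 2) + 6 * G + 1) * (1 + shV), hϑ, by
    have := shV_nonneg
    positivity, max (max m1 m2) 3, ?_⟩
  intro m hm _ _ I P r O g p n aX aY cf B1 T1 D q S hD
  rw [shV_eq]
  obtain ⟨i1, i2⟩ := hI2 m ((le_max_right _ _).trans ((le_max_left _ _).trans hm)) I P r O g p n aX aY
    cf B1 T1 D q S hD
  have hm3 : 3 ≤ m := (le_max_right _ _).trans hm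
  have hmr : (3:ℝ) ≤ m := by exact_mod_cast hm3
  have hmp : (0:ℝ) < m := by linarith
  obtain ⟨L, hL⟩ : ∃ L, L = Real.log m := ⟨_, rfl⟩
  have hL0 : 0 ≤ L := by rw [hL]; exact Real.log_nonneg (by linarith)
  obtain ⟨T', hT'⟩ : ∃ T', T' = TW ep e1 m := ⟨_, rfl⟩
  have hTW : T' = (1 + 2 * e1 + 2 * ep) * Tb L := by rw [hT', hL]; rfl
  have hT1 : 3 / 8 * L ≤ T' := by
    rw [hTW]
    unfold Tb
    nlinarith
  have hT2 : T' ≤ L := by
    rw [hTW]
    unfold Tb
    nlinarith
  have hb0 : 0 ≤ (1 - e1) * Tb (Real.log m) := by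
    rw [← hL]
    unfold Tb
    have : 0 ≤ 1 - e1 := by linarith
    positivity
  have hb1 : (1 - e1) * Tb (Real.log m) ≤ Real.log m := by
    rw [← hL]
    unfold Tb
    nlinarith
  have hT1' : T' + excS T' O ≤ T1 := by
    have := hD.tw
    rwa [← hT'] at this
  obtain ⟨Y, hY⟩ : ∃ Y, Y = T1 - T' := ⟨_, rfl⟩
  have hY0 : 0 ≤ Y := by
    have := excS_nonneg T' O
    linarith
  have hw0 := win_nonneg (Finset.univ : Finset (Fin r)) (fun i => ht (O i))
  have hw1 := win_hts O g
  have hq1 := hD.q1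
  have key := HM m ((le_max_left _ _).trans ((le_max_left _ _).trans hm)) i1 hb0 hb1 hD.shl
    (by linarith) (Y := Y) (by rw [← hT', ← hL]; exact hT1) (by rw [← hT', ← hL]; exact hT2)
    hY0 (fun i => by
      rw [← hT']
      refine Fin.addCases (fun i => ?_) (fun j => ?_) i
      · unfold hts
        rw [Fin.append_left]
        have := excS_ge T' O i
        linarith
      · unfold hts
        rw [Fin.append_right]
        have := hD.gs j
        linarith) (N0 := N1 + x2 * win univ (fun i => ht (O i))) (e1 := x2) hx2a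
    (fun T hT => i2 T (by
      have h1 := T0i_ge (T' := TW ep e1 m) (Y := Y) (r := r + G) (m := m) hA
        (by rw [← hL]; exact hL0) hY0
      rw [← hT'] at h1 hT
      linarith))
  refine key.trans (ENNReal.ofReal_le_ofReal ?_)
  have hT0 : T1 ≤ T0i (TW ep e1 m) Y A (r + G) m := by
    have h1 := T0i_ge (T' := TW ep e1 m) (Y := Y) (r := r + G) (m := m) hA
      (by rw [← hL]; exact hL0) hY0
    rw [← hT'] at h1 ⊢
    linarith
  have hDS := hD.DS
  have hS0 : 0 ≤ S := le_trans (mul_nonneg hD.shl.D0 (Real.exp_pos _).le) hDS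
  have hsh := shF_le (ε' := ε') hε'1 hD.shl.D0 hq1 hDS hT0
  have hsh0 := shF_nonneg (T0 := T0i (TW ep e1 m) Y A (r + G) m) hD.shl.D0
    (show 7 / 3 + 2 * ε' < q by linarith)
  have hshC := shC_nonneg
  have hshf : 1 + shF D q (7 / 3 + 2 * ε') (T0i (TW ep e1 m) Y A (r + G) m) ≤
      (1 + S) * (1 + shC) := by linarith
  have har := arithC (M0 := MFs I.s p n + (datO I P O).En) (N1 := N1) (R := r) (G := G)
    (Y := Y) (S := Y) (W := win univ (fun i => ht (O i))) (W' := win univ (hts O g))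
    hL0 hTW hep hep1 he he1 hε'0.le hε'2 hx0.le hx2 hx1 hx2b hw0 le_rfl hw1
  have hexp : Real.exp (MFs (datO I P O).s p n + (datO I P O).En +
      ((7 / 3 + 2 * ε') * TW ep e1 m + 12 / 5 * Y + 6 * (r + G : ℕ) +
        C * (1 + (N1 + x2 * win univ fun i => ht (O i))) +
        x * (win univ (hts O g) + 1 + Real.log m) + 1)) ≤
      Real.exp (C * (1 + N1) + x * (1 + 2 * (G : ℝ) ^ 2) + 6 * G + 1) * ((m : ℝ) ^ (7 / 8 + 2 * (ep + e1) + δ) *
        Real.exp (confC ep e1 m I P p n 6 kap O T1)) := by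
    rw [Real.rpow_def_of_pos hmp, ← Real.exp_add, ← Real.exp_add]
    refine Real.exp_le_exp.2 ?_
    unfold confC
    rw [← hT', ← hL]
    have h1 : L * (7 / 8 + 2 * (ep + e1) + δ / 2) ≤ L * (7 / 8 + 2 * (ep + e1) + δ) := by gcongr; linarith
    have h2 : MFs (datO I P O).s p n = MFs I.s p n := rfl
    rw [h2, ← hY]
    push_cast
    linarith
  calc (p.factorial : ℝ) * n.factorial * Real.exp (MFs (datO I P O).s p n + (datO I P O).En +
      ((7 / 3 + 2 * ε') * TW ep e1 m + 12 / 5 * Y + 6 * (r + G : ℕ) +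
        C * (1 + (N1 + x2 * win univ fun i => ht (O i))) +
        x * (win univ (hts O g) + 1 + Real.log m) + 1)) *
      (1 + shF D q (7 / 3 + 2 * ε') (T0i (TW ep e1 m) Y A (r + G) m))
      ≤ (p.factorial : ℝ) * n.factorial * (Real.exp (C * (1 + N1) + x * (1 + 2 * (G : ℝ) ^ 2) + 6 * G + 1) *
        ((m : ℝ) ^ (7 / 8 + 2 * (ep + e1) + δ) *
        Real.exp (confC ep e1 m I P p n 6 kap O T1))) * ((1 + S) * (1 + shC)) := by gcongr
    _ = _ := by ring

/-- **the crude bound of the gas of a configuration**, uniform in the sea -/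
theorem crudeCU (SU : SeaBd) : CrudeCU SU := crudeC_ofU SU (instCU SU)

end NUSea.H0
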