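import Pool.Agent.IST.SeaMix
import Pool.Agent.SeaU.Base

/-!
# Uniform bounds for the seas of mixed rows

`exists_SU`: one `SeaBd` for all `seaM s`, `-3 ≤ s ≤ 7`; `exists_SU_one`: for one sea.
-/

set_option autoImplicit false
set_option linter.unusedSectionVars false

open MeasureTheory Set Filter Topology Complex

namespace NUSea

open NUMF (l l_pos)

noncomputable section

/-- **one set of bounds for all mixtures** -/
theorem exists_SU : ∃ SU : SeaBd, ∀ (s : ℝ) (h0 : -3 ≤ s) (h1 : s ≤ 7), @SeaU SU (seaM s h0 h1) := by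
  have hbd : ∀ (n : ℕ) (b : ℝ), ∃ C : ℝ, 0 ≤ C ∧ (0 ≤ b → b < l / 2 → ∀ s : ℝ, -3 ≤ s → s ≤ 7 →
      ∀ z : ℂ, |z.im| ≤ b →
      ‖iteratedDeriv n (cmb s NUMF.Pc Phc) z‖ ≤ C * Real.exp (-(8 / 3) * |z.re|)) := by
    intro n b
    by_cases hb : 0 ≤ b ∧ b < l / 2
    · obtain ⟨C, hC, h⟩ := seaP.bd n b hb.1 hb.2
      obtain ⟨C', hC', h'⟩ := seaH.bd n b hb.1 hb.2
      refine ⟨7 * (C + C'), by positivity, fun _ _ s h0 h1 z hz => ?_⟩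
      rw [iter_cmb s n (hz.trans_lt hb.2), mul_assoc, add_mul]
      exact norm_cmb_le h0 h1 (h z hz) (h' z hz)
    · exact ⟨0, le_rfl, fun hb0 hb1 => absurd ⟨hb0, hb1⟩ hb⟩
  choose Cb hCb0 hCb using hbd
  obtain ⟨c, hc, hlow⟩ := seaP.low
  obtain ⟨K1, hK1, k1⟩ := seaP.fs_gr
  obtain ⟨K1', hK1', k1'⟩ := seaH.fs_gr
  obtain ⟨K2, hK2, k2⟩ := seaP.fx_gr
  obtain ⟨K2', hK2', k2'⟩ := seaH.fx_gr
  refine ⟨⟨Cb, 1 / 20 * c, 7 * (K1 + K1') + 7 * (K2 + K2'), hCb0, by positivity, by positivity⟩,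
    fun s h0 h1 => @SeaU.mk _ (seaM s h0 h1) ?_ ?_ ?_ ?_⟩
  · exact fun n b hb0 hb z hz => hCb n b hb0 hb s h0 h1 z hz
  · intro t
    refine le_trans ?_ (PM_ge h0 h1 t)
    show 1 / 20 * c * Real.exp (-(8 / 3) * |t|) ≤ 1 / 20 * NUMF.P t
    rw [mul_assoc]
    exact mul_le_mul_of_nonneg_left (hlow t) (by norm_num)
  · intro z hz
    have h2 := norm_cmb_le h0 h1 (k1 z hz) (k1' z hz)
    show ‖cmb s NUAct.vs (av NUAct.vs) z‖ ≤ (7 * (K1 + K1') + 7 * (K2 + K2')) * (1 + |z.re|)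
    have h3 : 0 ≤ 7 * (K2 + K2') * (1 + |z.re|) := by positivity
    have h4 : 7 * (K1 * (1 + |z.re|) + K1' * (1 + |z.re|)) = 7 * (K1 + K1') * (1 + |z.re|) := by ring
    rw [add_mul]
    have h5 : ‖cmb s NUAct.vs (av NUAct.vs) z‖ ≤ _ := h2.trans_eq h4
    linarith
  · intro z hz
    have h2 := norm_cmb_le h0 h1 (k2 z hz) (k2' z hz)
    show ‖cmb s NUAct.vx (av NUAct.vx) z‖ ≤ (7 * (K1 + K1') + 7 * (K2 + K2')) * (1 + |z.re|)
    have h3 : 0 ≤ 7 * (K1 + K1') * (1 + |z.re|) := by positivity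
    have h4 : 7 * (K2 * (1 + |z.re|) + K2' * (1 + |z.re|)) = 7 * (K2 + K2') * (1 + |z.re|) := by ring
    rw [add_mul]
    have h5 : ‖cmb s NUAct.vx (av NUAct.vx) z‖ ≤ _ := h2.trans_eq h4
    linarith

/-- the numbers of the mixtures -/
def SM : SeaBd := exists_SU.choose

theorem seaU_M (s : ℝ) (h0 : -3 ≤ s) (h1 : s ≤ 7) : @SeaU SM (seaM s h0 h1) :=
  exists_SU.choose_spec s h0 h1

/-- every sea satisfies some bounds -/
theorem exists_SU_one (S : Sea) : ∃ SU : SeaBd, @SeaU SU S := by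
  have hbd : ∀ (n : ℕ) (b : ℝ), ∃ C : ℝ, 0 ≤ C ∧ (0 ≤ b → b < l / 2 → ∀ z : ℂ, |z.im| ≤ b →
      ‖iteratedDeriv n S.densc z‖ ≤ C * Real.exp (-(8 / 3) * |z.re|)) := by
    intro n b
    by_cases hb : 0 ≤ b ∧ b < l / 2
    · obtain ⟨C, hC, h⟩ := S.bd n b hb.1 hb.2
      exact ⟨C, hC, fun _ _ => h⟩
    · exact ⟨0, le_rfl, fun hb0 hb1 => absurd ⟨hb0, hb1⟩ hb⟩
  choose Cb hCb0 hCb using hbd
  obtain ⟨c, hc, hlow⟩ := S.low
  obtain ⟨K1, hK1, k1⟩ := S.fs_gr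
  obtain ⟨K2, hK2, k2⟩ := S.fx_gr
  refine ⟨⟨Cb, c, K1 + K2, hCb0, hc, by positivity⟩, @SeaU.mk _ S hCb hlow ?_ ?_⟩
  · intro z hz
    refine (k1 z hz).trans (mul_le_mul_of_nonneg_right ?_ (by positivity))
    show K1 ≤ K1 + K2
    linarith
  · intro z hz
    refine (k2 z hz).trans (mul_le_mul_of_nonneg_right ?_ (by positivity))
    show K2 ≤ K1 + K2
    linarith

end

end NUSea
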