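import Pool.Agent.SeaU.CrvI
import Pool.Agent.SeaU.DefH
import Pool.Agent.PB.S4R0
import Pool.Agent.IST.TopRW

/-!
# The gas bound of a family of seas and geometries from the crude bound uniform in the sea (helper79)

* `GOkAt G B0 N0 CH C0 K1 CM ep e1 J m`: what is asked of a geometry at one size `m`, with explicit
  constants (as `PBO.GOk`; the integral of the potential is part of the bulk exponent);
* `GOkF S G P`: the same, uniform in a family `S s`, `G s` with the sizes `P s m`;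
* `PolyF`: polynomially bounded statistics;
* **`s4F_of : CrudeHU SU → GOkF S G P → ... → S4F`**: the power of `m` is `1 / 2 + A0 + δ`.
-/

set_option autoImplicit false
set_option linter.unusedSectionVars false
set_option linter.unusedVariables false

noncomputable section

open MeasureTheory Finset Filter Topology
open scoped ENNReal

namespace PBI

open NUGC PBO PBF PotH
open NUO NUP1 NUStabP NUDispW
open NUSea.H0 (Gd TG cstF)
open NUSea (Sea SeaBd SeaU)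

/-- **what is asked of a geometry at one size** -/
structure GOkAt [NUSea.Sea] (G : Geo) (B0 N0 CH C0 K1 CM ep e1 J : ℝ) (m : ℕ) : Prop where
  pot : ∃ H H' : Bool → ℝ → ℝ,
      (∀ d : ℝ, 0 ≤ d → HOk B0 N0 d ((1 - e1) * Tb (Real.log m)) (Real.log m ^ 3) H H') ∧
      (∀ a t, (G.B m (4 / 3 * (1 - ep))).R a (NUO.pA (etaC e1 J m m) t) ≤
        2 * Real.cos NUP1.l *
          Real.exp ((m : ℝ) * (NUSea.vc (NUAct.zt (NUKer.iD (etaC e1 J m m)) t)).re) *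
          ThN (NUO.pA (etaC e1 J m m) t) * Real.exp (H a t)) ∧
      NUSea.MF (m : ℝ) + ∑ a, ∫ t, (m : ℝ) * NUSea.P t * H a t ≤ (m : ℝ) ^ 2 * G.EM + CH
  cut : ∃ cr Bc Bc' : ℝ → ℝ,
      CutR ep C0 ((1 - e1) * Tb (Real.log m)) m cr Bc Bc' ∧
      ∀ t, ‖(G.B m (4 / 3 * (1 - ep))).φ (NUO.pA (etaC e1 J m m) t)‖ ≤ cr t
  one : ∀ (r : ℕ) (O : Fin r → Xo) (i : Fin r),
      oneEH m (etaC e1 J m m) (TW ep e1 m) O i ≤ G.one m ep e1 J r O i + K1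
  MF : ∀ g : Gd, seaG m g ≤ m * G.MF g.c g.w + CM

/-- **a family of geometries over a family of seas**, the sizes `P s m` -/
structure GOkF {σ : Type*} (S : σ → Sea) (G : σ → Geo) (P : σ → ℕ → Prop) : Prop where
  nn : ∀ s m β, ((G s).B m β).Nn
  ok : ∃ B0 N0 K1 CM : ℝ, 0 ≤ B0 ∧ 0 ≤ N0 ∧ 0 ≤ K1 ∧ 0 ≤ CM ∧
    ∀ ep : ℝ, 0 < ep → ep ≤ 1 / 100 → ∀ e1 : ℝ, 0 < e1 → e1 ≤ 1 / 100 → ∀ J : ℝ, 0 ≤ J →
    ∃ CH C0 : ℝ, 1 ≤ C0 ∧ ∃ m0 : ℕ, ∀ m ≥ m0, ∀ s : σ, P s m →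
      @GOkAt (S s) (G s) B0 N0 CH C0 K1 CM ep e1 J m

/-- polynomially bounded statistics: exponent `A0` -/
def PolyF {σ : Type*} {ι : Type*} (ok : σ → ℕ → ι → Prop) (Φ : σ → ι → ℕ → ℕ → InsE)
    (P : σ → ℕ → Prop) (A0 : ℝ) : Prop :=
  ∃ D : ℝ, 0 ≤ D ∧ ∃ m0 : ℕ, ∀ m ≥ m0, ∀ s : σ, P s m → ∀ i : ι, ok s m i → ∀ N ≤ 2 * m,
    ∀ (r : ℕ) (O : Fin r → Xo) (a b : ℕ) (y : (Fin a → ℝ) × (Fin b → ℝ)),
    r ≤ 2 * N + 6 → a ≤ N + 3 → b ≤ N + 3 →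
    Φ s i m N r O a b y ≤ ENNReal.ofReal (D * (m : ℝ) ^ A0)

theorem polyF_one {σ : Type*} {ι : Type*} (ok : σ → ℕ → ι → Prop) (P : σ → ℕ → Prop) :
    PolyF ok (fun (_ : σ) (_ : ι) _ _ _ _ _ _ _ => (1 : ℝ≥0∞)) P 0 := by
  refine ⟨1, zero_le_one, 0, fun m _ s _ i _ N _ r O a b y _ _ _ => ?_⟩
  rw [Real.rpow_zero, mul_one, ENNReal.ofReal_one]

/-- the linear term for a curve with its current -/
theorem lin_leH [NUSea.Sea] {e1 J Cb T1 : ℝ} {m : ℕ} (hm : 0 < m) (he : 0 < e1) (he1 : e1 ≤ 1 / 100)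
    (hT : 20 ≤ Tb (Real.log m)) (h1 : (1 - e1) * Tb (Real.log m) ≤ T1)
    (hc : CuOk e1 J Cb m (fun t => (m : ℝ) * NUSea.P t * etaC e1 J m m t)
      (NUSea.hd m (etaC e1 J m m) (etaC' e1 J m m))) {n : ℕ} (g : Fin n → Gd) (H : Bool → ℝ → ℝ)
    {EM CH : ℝ} (hMF : NUSea.MF (m : ℝ) + ∑ a, ∫ t, (m : ℝ) * NUSea.P t * H a t ≤
      (m : ℝ) ^ 2 * EM + CH) :
    linH (etaC e1 J m m) (etaC' e1 J m m) m g T1 H ≤
      -((1 - e1) * Tb (Real.log m)) + (Cb + CH + ((m : ℝ) ^ 2 * EM - NUSea.MF (m : ℝ))) -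
        gnF e1 J m g := by
  have h := lin_leG hm he he1 hT h1 hc g H
  linarith

/-- the prefactors, exponentiated, the integral of the potential in the linear term -/
theorem pref_algF [NUSea.Sea] {G : Geo} {m n : ℕ} (hm : 1 ≤ m) {g : Fin n → Gd} {Cst CP CL e1 a a' LI GN CF
    CR : ℝ} (hCst : 0 ≤ Cst)
    (hp : ∑ i, seaG m (g i) ≤ m * ∑ i, G.MF (g i).c (g i).w + CP)
    (hl : LI ≤ -((1 - e1) * Tb (Real.log m)) + (CL + ((m : ℝ) ^ 2 * G.EM - NUSea.MF (m : ℝ))) - GN)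
    (hc : CF ≤ CR) (ha : a + 3 / 8 * e1 ≤ a') :
    prefH m g 0 0 Cst * (m : ℝ) ^ (3 / 8 + a) * Real.exp (CF + LI) ≤
      prefR G m g 0 0 (Cst * Real.exp (CP + CL)) * (m : ℝ) ^ a' * Real.exp (-GN) *
        Real.exp CR := by
  have hmR : (0 : ℝ) < m := by exact_mod_cast hm
  unfold prefH prefR
  rw [Real.rpow_def_of_pos hmR, Real.rpow_def_of_pos hmR]
  obtain ⟨L, hL⟩ : ∃ L, L = Real.log m := ⟨_, rfl⟩
  have hTb : Tb (Real.log m) = 3 / 8 * L := by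
    rw [hL]
    rfl
  rw [hTb] at hl
  rw [← hL]
  have hL0 : 0 ≤ L := by
    rw [hL]
    exact Real.log_nonneg (by exact_mod_cast hm)
  obtain ⟨SG, hSG⟩ : ∃ SG, SG = ∑ i, seaG m (g i) := ⟨_, rfl⟩
  obtain ⟨SM, hSM⟩ : ∃ SM, SM = ∑ i, G.MF (g i).c (g i).w := ⟨_, rfl⟩
  rw [← hSG, ← hSM] at hp
  rw [← hSG, ← hSM]
  have h1 : Cst * Real.exp (NUSea.MF (m : ℝ) + SG) * Real.exp (37 / 20 * 0 + 12 / 5 * 0) *
        Real.exp (L * (3 / 8 + a)) * Real.exp (CF + LI) =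
      Cst * Real.exp (NUSea.MF (m : ℝ) + SG + L * (3 / 8 + a) + (CF + LI)) := by
    rw [Real.exp_add _ (CF + LI), Real.exp_add _ (L * (3 / 8 + a)), mul_zero, mul_zero, add_zero,
      Real.exp_zero]
    ring
  have h2 : Cst * Real.exp (CP + CL) * Real.exp ((m : ℝ) ^ 2 * G.EM) *
        Real.exp (m * SM) * Real.exp (37 / 20 * 0 + 12 / 5 * 0) *
        Real.exp (L * a') * Real.exp (-GN) * Real.exp CR =
      Cst * Real.exp (CP + CL + (m : ℝ) ^ 2 * G.EM + m * SM + L * a' + -GN + CR) := by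
    rw [Real.exp_add _ CR, Real.exp_add _ (-GN), Real.exp_add _ (L * a'),
      Real.exp_add _ (m * SM), Real.exp_add _ ((m : ℝ) ^ 2 * G.EM), mul_zero, mul_zero, add_zero,
      Real.exp_zero]
    ring
  rw [h1, h2]
  refine mul_le_mul_of_nonneg_left (Real.exp_le_exp.2 ?_) hCst
  have h3 : L * (a + 3 / 8 * e1) ≤ L * a' := mul_le_mul_of_nonneg_left ha hL0
  nlinarith

/-- **the gas bound of one size** from the crude bound of one size -/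
theorem s4at_of [NUSea.Sea] {G : Geo} {B0 N0 CH C0 K1 CM ep e1 J : ℝ} {m : ℕ} (hep : 0 < ep)
    (hep1 : ep ≤ 1 / 100) (he : 0 < e1) (he1 : e1 ≤ 1 / 100) (hCM : 0 ≤ CM)
    (hnn : ∀ β, (G.B m β).Nn) (hG : GOkAt G B0 N0 CH C0 K1 CM ep e1 J m) (hm1 : 1 ≤ m)
    (hT : 20 ≤ Tb (Real.log m)) {Cc Cb : ℝ}
    (hc : CrvP e1 Cc m (etaC e1 J m m) (etaC' e1 J m m))
    (hcu : CuOk e1 J Cb m (fun t => (m : ℝ) * NUSea.P t * etaC e1 J m m t)
        (NUSea.hd m (etaC e1 J m m) (etaC' e1 J m m)))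
    {K Ca kap δ d Cst : ℝ} (hd : 0 < d) (hCst : 0 ≤ Cst)
    (h4 : ∀ (n : ℕ) (η η1 cr Bc Bc' : ℝ → ℝ) (H H' : Bool → ℝ → ℝ) (B : OB) (g : Fin n → Gd),
      EnvH ep e1 Cc C0 B0 N0 d m η η1 cr Bc Bc' H H' B g →
      ∀ (aX aY : ℕ) (ν : ℝ) (N : ℕ) (b' : ℝ) (r : ℕ) (O : Fin r → Xo) (E x : ℝ), |b'| ≤ d →
        RgH ep e1 m g aX aY ν N O E x →
        lhsH B m η η1 aX aY ν N b' O (fun _ => 1) ≤
          ENNReal.ofReal (prefH m g E x Cst * (m : ℝ) ^ (7 / 8 + Ca * (ep + e1) + δ) *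
            Real.exp (confEH m η (TW ep e1 m) K kap O - 1 / 10 * excS (TW ep e1 m) O +
              linH η η1 m g (T1H ep e1 m O E) H +
              enH m g O (T1H ep e1 m O E) (N + aX - chgO O true) (N + aY - chgO O false))))
    {ι : Type*} {ok : ι → Prop} {Φ : ι → ℕ → InsE} {D A0 : ℝ} (hD : 0 ≤ D)
    (hΦ : ∀ i : ι, ok i → ∀ N ≤ 2 * m, ∀ (r : ℕ) (O : Fin r → Xo) (a b : ℕ)
      (y : (Fin a → ℝ) × (Fin b → ℝ)), r ≤ 2 * N + 6 → a ≤ N + 3 → b ≤ N + 3 →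
      Φ i N r O a b y ≤ ENNReal.ofReal (D * (m : ℝ) ^ A0)) :
    S4at G ok Φ (K + K1) (Ca + 1) kap ep e1 J (1 / 2 + A0 + δ) d
      (D * (Cst * Real.exp (2 * CM + (Cb + CH)))) m := by
  intro n g aX aY ν N b' r O hb' hR hnear i hok
  obtain ⟨H, H', hH, hdom, hint⟩ := hG.pot
  obtain ⟨cr, Bc, Bc', hcr, hφ⟩ := hG.cut
  have hmp : (0 : ℝ) < m := by exact_mod_cast hm1
  have hη : ∀ t, |etaC e1 J m m t| < NUMF.l / 5 := fun t => (hc.small.1 t).trans_lt PotH.small_l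
  have hE : EnvH ep e1 Cc C0 B0 N0 d m (etaC e1 J m m) (etaC' e1 J m m) cr Bc Bc' H H'
      ((G.B m (4 / 3 * (1 - ep))).mul (spF g)) g :=
    { crv := hc, cut := hcr, hok := hH d hd.le
      nn := fun a u => mul_nonneg (hnn _ a u) (spFR_nonneg g a u)
      dom := domH_of hcr.nn hη g hdom hφ }
  have hb : |b'| ≤ d := by
    rcases hb' with h | h
    · rw [h, abs_of_pos hd]
    · rw [h, abs_neg, abs_of_pos hd]
  have hRH : RgH ep e1 m g aX aY ν N O 0 0 :=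
    { n2 := hR.n2, sp := hR.sp, ax := hR.ax, ay := hR.ay, q := hR.q
      nu := hR.nu.trans (by norm_num), hN := hR.hN.trans (by omega), hr := hR.hr, hc1 := hR.hc1
      hc2 := hR.hc2, E0 := le_rfl, hE := hR.hE, x0 := le_rfl, hx := hR.hx }
  have hN := hR.hN
  have hax := hR.ax
  have hay := hR.ay
  have hr6 : r ≤ 2 * N + 6 := by
    have := hR.hr
    omega
  have ha3 : N + aX - chgO O true ≤ N + 3 := by omega
  have hb3 : N + aY - chgO O false ≤ N + 3 := by omega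
  have key := h4 n (etaC e1 J m m) (etaC' e1 J m m) cr Bc Bc' H H'
    ((G.B m (4 / 3 * (1 - ep))).mul (spF g)) g hE aX aY ν N b' r O 0 0 hb hRH
  -- the statistic
  have hstat : lhsI G ep e1 J m g aX aY ν N b' O (Φ i N) ≤
      ENNReal.ofReal (D * (m : ℝ) ^ A0) *
        lhsH ((G.B m (4 / 3 * (1 - ep))).mul (spF g)) m (etaC e1 J m m) (etaC' e1 J m m) aX aY ν N b' O
          (fun _ => 1) := by
    have e0 : lhsH ((G.B m (4 / 3 * (1 - ep))).mul (spF g)) m (etaC e1 J m m) (etaC' e1 J m m) aX aY ν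
        N b' O (fun _ => 1) = lhsI G ep e1 J m g aX aY ν N b' O (fun _ _ _ _ _ => 1) := rfl
    rw [e0]
    unfold lhsI
    rw [← mul_assoc, mul_comm (ENNReal.ofReal (D * (m : ℝ) ^ A0)), mul_assoc]
    refine mul_le_mul' le_rfl ?_
    rw [← gasI_const _ _ _ _ _ _ _ ENNReal.ofReal_ne_top]
    unfold gasI
    refine mul_le_mul' le_rfl (lintegral_mono fun x => mul_le_mul' le_rfl ?_)
    show Φ i N r O (N + aX - chgO O true) (N + aY - chgO O false) x ≤ ENNReal.ofReal (D * (m : ℝ) ^ A0) * 1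
    rw [mul_one]
    exact hΦ i hok N hN r O _ _ x hr6 ha3 hb3
  refine hstat.trans ((mul_le_mul' le_rfl key).trans ?_)
  rw [← ENNReal.ofReal_mul (by positivity)]
  refine ENNReal.ofReal_le_ofReal ?_
  -- the numbers
  have hT1 : (1 - e1) * Tb (Real.log m) ≤ T1H ep e1 m O 0 :=
    (PBO.TW_geR hep he hT).trans (TW_le ep e1 m O le_rfl).1
  have hlin := lin_leH (EM := G.EM) (by omega) he he1 hT hT1 hcu g H hint
  have hconf := confEH_le (G := G) (K := K) (kap := kap) O fun i => hG.one r O i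
  have hexc := NUO.excS_nonneg (TW ep e1 m) O
  have hen : enH m g O (T1H ep e1 m O 0) (N + aX - chgO O true) (N + aY - chgO O false) =
      enR m g O (T1R ep e1 m O 0) (N + aX - chgO O true) (N + aY - chgO O false) := rfl
  rw [hen]
  obtain ⟨EN, hEN⟩ : ∃ EN, EN = enR m g O (T1R ep e1 m O 0) (N + aX - chgO O true)
    (N + aY - chgO O false) := ⟨_, rfl⟩
  rw [← hEN]
  have hp : ∑ i, seaG m (g i) ≤ m * ∑ i, G.MF (g i).c (g i).w + 2 * CM := by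
    have h1 : ∑ i, seaG m (g i) ≤ ∑ i, (m * G.MF (g i).c (g i).w + CM) :=
      sum_le_sum fun i _ => hG.MF (g i)
    rw [sum_add_distrib, ← mul_sum, sum_const, card_univ, Fintype.card_fin, nsmul_eq_mul] at h1
    have h2 : (n : ℝ) ≤ 2 := by exact_mod_cast hR.n2
    have h3 : (n : ℝ) * CM ≤ 2 * CM := mul_le_mul_of_nonneg_right h2 hCM
    linarith
  obtain ⟨CF, hCF⟩ : ∃ CF, CF = confEH m (etaC e1 J m m) (TW ep e1 m) K kap O -
    1 / 10 * excS (TW ep e1 m) O + EN := ⟨_, rfl⟩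
  obtain ⟨CR, hCR⟩ : ∃ CR, CR = confR G m ep e1 J (K + K1) kap O + EN := ⟨_, rfl⟩
  have hcc : CF ≤ CR := by
    rw [hCF, hCR]
    linarith
  have hpa := pref_algF (G := G) hm1 (g := g) (a := 1 / 2 + Ca * (ep + e1) + δ)
    (a' := 1 / 2 + Ca * (ep + e1) + δ + (ep + e1)) hCst hp hlin hcc (by linarith)
  have e1' : confEH m (etaC e1 J m m) (TW ep e1 m) K kap O - 1 / 10 * excS (TW ep e1 m) O +
      linH (etaC e1 J m m) (etaC' e1 J m m) m g (T1H ep e1 m O 0) H + EN =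
      CF + linH (etaC e1 J m m) (etaC' e1 J m m) m g (T1H ep e1 m O 0) H := by
    rw [hCF]
    ring
  have e2' : (7 : ℝ) / 8 + Ca * (ep + e1) + δ = 3 / 8 + (1 / 2 + Ca * (ep + e1) + δ) := by ring
  rw [e1', e2', ← hCR]
  have hpow : (m : ℝ) ^ ((Ca + 1) * (ep + e1) + (1 / 2 + A0 + δ)) =
      (m : ℝ) ^ A0 * (m : ℝ) ^ (1 / 2 + Ca * (ep + e1) + δ + (ep + e1)) := by
    rw [← Real.rpow_add hmp]
    congr 1
    ring
  rw [hpow]
  have hm0 : 0 ≤ D * (m : ℝ) ^ A0 := by positivity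
  refine (mul_le_mul_of_nonneg_left hpa hm0).trans (le_of_eq ?_)
  unfold prefR
  ring

/-- **the gas bound of a family of seas and geometries**, any polynomially bounded statistic -/
theorem s4F_of {SU : SeaBd} (hC : CrudeHU SU) {σ : Type*} (S : σ → Sea)
    (hS : ∀ s, @SeaU SU (S s)) (G : σ → Geo) (P : σ → ℕ → Prop) (hG : GOkF S G P) :
    ∃ K Ca : ℝ, 0 ≤ K ∧ 0 ≤ Ca ∧ ∀ kap : ℝ, 0 < kap → ∀ ep : ℝ, 0 < ep → ep ≤ 1 / 100 →
      ∀ e1 : ℝ, 0 < e1 → e1 ≤ 1 / 100 → ∀ J : ℝ, 0 ≤ J → ∀ δ : ℝ, 0 < δ →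
      ∀ (ι : Type*) (ok : σ → ℕ → ι → Prop) (Φ : σ → ι → ℕ → ℕ → InsE) (A0 : ℝ),
        PolyF ok Φ P A0 → Pool.Agent.IST.S4F S G P ok Φ K Ca kap ep e1 J (1 / 2 + A0 + δ) := by
  obtain ⟨B0, N0, K1, CM, hB0, hN0, hK1, hCM, hok⟩ := hG.ok
  obtain ⟨K, Ca, hK, hCa, h4⟩ := hC B0 N0 hB0 hN0
  refine ⟨K + K1, Ca + 1, by linarith, by linarith, ?_⟩
  intro kap hkap ep hep hep1 e1 he he1 J hJ δ hδ ι ok Φ A0 hΦ
  obtain ⟨CH, C0, hC0, m1, hok⟩ := hok ep hep hep1 e1 he he1 J hJ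
  obtain ⟨Cc, hCc, Cb, m2, hcrv⟩ := crvP_etaCU SU (J := J) he he1 hJ
  obtain ⟨d, Cst, hd, hCst, m3, h4⟩ := h4 kap hkap ep hep hep1 e1 he he1 Cc C0 hCc hC0 δ hδ
  obtain ⟨D, hD, m4, hΦ⟩ := hΦ
  refine ⟨d, D * (Cst * Real.exp (2 * CM + (Cb + CH))), hd, by positivity,
    max (max m1 m2) (max m3 m4), fun m hm s hs => ?_⟩
  simp only [ge_iff_le, max_le_iff] at hm
  obtain ⟨⟨g1, g2⟩, g3, g4⟩ := hm
  obtain ⟨hm1, hT, hcrv⟩ := hcrv m g2
  obtain ⟨hc, hcu⟩ := @hcrv (S s) (hS s)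
  exact @s4at_of (S s) (G s) B0 N0 CH C0 K1 CM ep e1 J m hep hep1 he he1 hCM (hG.nn s m)
    (hok m g1 s hs) hm1 hT Cc Cb hc hcu K Ca kap δ d Cst hd hCst (@h4 m g3 (S s) (hS s)) ι (ok s m)
    (fun i => Φ s i m) D A0 hD (hΦ m g4 s hs)

end PBI

end
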