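import Pool.Agent.NUSea.Wind
import Pool.Agent.SeaU.Base

/-!
# Bounds uniform in the sea: `NUSea/Wind`

Copies of the existential bounds of `NUSea/Wind` with constants which depend on `SU : SeaBd` only.
-/

set_option autoImplicit false
set_option linter.unusedSectionVars false
set_option linter.unusedVariables false

open MeasureTheory Set Filter Topology Complex

namespace NUSea.O

open NUMF (l l_pos)
open NUO
open NUSea (Sea SeaBd SeaU)

noncomputable section

variable {ε : ℝ} {η η' : ℝ → ℝ}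

/-- Taylor: `Gc (t + i η) - Gc t = i P(t) η + O(P(t) η²)` -/
theorem taylorU (SU : SeaBd) {b : ℝ} (hb0 : 0 ≤ b) (hb : b < l / 2) : ∃ C : ℝ, 0 ≤ C ∧ ∀ [Sea] [SeaU SU], ∀ t y : ℝ, |y| ≤ b →
    ‖Gc (t + y * I) - Gc t - I * ((P t * y : ℝ) : ℂ)‖ ≤ C * (P t * y ^ 2) := by
  obtain ⟨C, hC, hd⟩ := Pc_deriv_PU SU hb0 hb 1
  refine ⟨C, hC, fun t y hy => ?_⟩
  set z : ℂ := (t : ℂ) + y * I with hz
  set S : Set ℂ := {u : ℂ | u.re = t ∧ |u.im| ≤ |y|} with hS
  have hconv : Convex ℝ S := by
    have h1 : S = Complex.reLm ⁻¹' {t} ∩ Complex.imLm ⁻¹' (Icc (-|y|) |y|) := by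
      ext u
      simp [hS, abs_le]
    rw [h1]
    exact ((convex_singleton t).linear_preimage _).inter ((convex_Icc _ _).linear_preimage _)
  have ht : (t : ℂ) ∈ S := by simp [hS]
  have hzS : z ∈ S := by simp [hS, hz]
  have hSl : ∀ u ∈ S, |u.im| < l / 2 := fun u hu => lt_of_le_of_lt (hu.2.trans hy) hb
  have hP := P_pos t
  have hnorm : ∀ u ∈ S, ‖u - t‖ ≤ |y| := by
    intro u hu
    have e : u - t = (u.im : ℂ) * I := by
      apply Complex.ext
      · simp [hu.1]
      · simp
    rw [e, norm_mul, Complex.norm_I, mul_one, Complex.norm_real, Real.norm_eq_abs]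
    exact hu.2
  have h1 : ∀ u ∈ S, ‖Pc u - Pc t‖ ≤ C * P t * |y| := by
    intro u hu
    have h2 := hconv.norm_image_sub_le_of_norm_hasDerivWithin_le (f := Pc) (f' := iteratedDeriv 1 Pc) (C := C * P t)
      (fun v hv => (hasDerivAt_Pc (hSl v hv)).hasDerivWithinAt)
      (fun v hv => by
        have := hd v (hv.2.trans hy)
        rwa [hv.1] at this) ht hu
    exact h2.trans (mul_le_mul_of_nonneg_left (hnorm u hu) (by positivity))
  have h3 := hconv.norm_image_sub_le_of_norm_hasDerivWithin_le (f := fun u => Gc u - Pc t * u)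
    (f' := fun u => Pc u - Pc t) (C := C * P t * |y|)
    (fun v hv => by
      have h4 := (hasDerivAt_Gc (hSl v hv)).sub ((hasDerivAt_id v).const_mul (Pc t))
      rw [mul_one] at h4
      exact h4.hasDerivWithinAt) h1 ht hzS
  have e : Gc z - Pc t * z - (Gc t - Pc t * t) = Gc z - Gc t - I * ((P t * y : ℝ) : ℂ) := by
    rw [Pc_ofReal, hz]
    push_cast
    ring
  rw [e] at h3
  refine h3.trans ?_
  calc C * P t * |y| * ‖z - t‖ ≤ C * P t * |y| * |y| := by
        gcongr
        exact hnorm z hzS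
    _ = C * (P t * y ^ 2) := by
        rw [← sq_abs y]
        ring

/-- **general form** -/
theorem wind_genU (SU : SeaBd) {b : ℝ} (hb0 : 0 ≤ b) (hb : b < l / 2) : ∃ C : ℝ, 0 ≤ C ∧
    ∀ [Sea] [SeaU SU], ∀ (s A A' H τ ε : ℝ) (η η' : ℝ → ℝ) (F Φ Φ' : ℂ → ℂ),
      (∀ z, |z.im| ≤ b → HasDerivAt F (Φ z) z) → (∀ z, |z.im| ≤ b → HasDerivAt Φ (Φ' z) z) →
      (∀ z : ℂ, |z.im| ≤ b → ‖Φ z‖ ≤ A * Real.exp (-2 * |z.re - τ|)) →
      (∀ z : ℂ, |z.im| ≤ b → ‖Φ' z‖ ≤ A' * Real.exp (-2 * |z.re - τ|)) →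
      NUO.Disp ε η η' → ε ≤ b → ε ≤ 1 → (∀ t, |s * P t * η t| ≤ H) →
      ‖-(∫ t, Bd s η η' t * F (zt η t)) - I * ∫ t, ((s * P t * η t : ℝ) : ℂ) * Φ t‖ ≤
        H * ε * (2 * C * A + A + A') := by
  obtain ⟨C, hC, ht⟩ := taylorU SU hb0 hb
  refine ⟨C, hC, fun s A A' H τ ε η η' F Φ Φ' hF hΦ hA hA' D hε hε1 hH => ?_⟩
  have hε0 := D.ε0
  have hεl : ε < l / 2 := lt_of_le_of_lt hε hb
  have hA0 : 0 ≤ A := by
    have h1 := hA (τ : ℂ) (by simpa using hb0)
    rw [Complex.ofReal_re, sub_self, abs_zero, mul_zero, Real.exp_zero, mul_one] at h1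
    exact (norm_nonneg _).trans h1
  have hA'0 : 0 ≤ A' := by
    have h1 := hA' (τ : ℂ) (by simpa using hb0)
    rw [Complex.ofReal_re, sub_self, abs_zero, mul_zero, Real.exp_zero, mul_one] at h1
    exact (norm_nonneg _).trans h1
  have hH0 : 0 ≤ H := (abs_nonneg _).trans (hH 0)
  have him : ∀ t, |(zt η t).im| ≤ b := fun t => (D.im_le t).trans hε
  have hFc : Continuous fun t => F (zt η t) := by
    rw [continuous_iff_continuousAt]
    intro t
    exact (hF _ (him t)).continuousAt.comp (D.zt_cont.continuousAt)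
  have hΦc : Continuous fun t => Φ (zt η t) := by
    rw [continuous_iff_continuousAt]
    intro t
    exact (hΦ _ (him t)).continuousAt.comp (D.zt_cont.continuousAt)
  have hΦr : Continuous fun t : ℝ => Φ t := by
    rw [continuous_iff_continuousAt]
    intro t
    exact (hΦ (t : ℂ) (by simpa using hb0)).continuousAt.comp Complex.continuous_ofReal.continuousAt
  have hηc := D.continuous
  have hη'c := D.cont
  have hPc := P_cont
  have hBdc := Bd_cont D hεl s
  have hBpc := Bp_cont D hεl s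
  -- integrability
  have hcs : ∀ {f : ℝ → ℂ}, Continuous f → (∀ t, t ∉ tsupport η → f t = 0) → Integrable f := by
    intro f hf h0
    refine hf.integrable_of_hasCompactSupport ?_
    exact HasCompactSupport.intro D.supp fun t ht => h0 t ht
  have i1 : Integrable fun t => Bd s η η' t * F (zt η t) := by
    refine hcs (hBdc.mul hFc) fun t ht => ?_
    rw [Bd_zero s (D.d0 ht).1 (D.d0 ht).2, zero_mul]
  have i2 : Integrable fun t => Bp s η t * (Φ (zt η t) * (1 + η' t * I)) := by
    refine hcs (hBpc.mul (hΦc.mul (by fun_prop))) fun t ht => ?_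
    rw [Bp_zero s (D.d0 ht).1, zero_mul]
  have i3 : Integrable fun t => Bp s η t * F (zt η t) := by
    refine hcs (hBpc.mul hFc) fun t ht => ?_
    rw [Bp_zero s (D.d0 ht).1, zero_mul]
  have i4 : Integrable fun t : ℝ => ((s * P t * η t : ℝ) : ℂ) * Φ t := by
    refine hcs (Continuous.mul (by fun_prop) hΦr) fun t ht => ?_
    rw [(D.d0 ht).1]
    simp
  have hparts : ∫ t, Bp s η t * (Φ (zt η t) * (1 + η' t * I)) = -∫ t, Bd s η η' t * F (zt η t) :=
    integral_mul_deriv_eq_deriv_mul_of_integrable (fun t _ => Bp_der D hεl s t)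
      (fun t _ => (hF _ (him t)).comp t (D.zt_der t)) i2 i1 i3
  rw [← hparts, ← integral_const_mul, ← integral_sub i2 (i4.const_mul I)]
  -- pointwise bound
  have hpt : ∀ t, ‖Bp s η t * (Φ (zt η t) * (1 + η' t * I)) - I * (((s * P t * η t : ℝ) : ℂ) * Φ t)‖ ≤
      H * ε * (2 * C * A + A + A') * Real.exp (-2 * |t - τ|) := by
    intro t
    set hh : ℝ := s * P t * η t with hhd
    set X := Real.exp (-2 * |t - τ|) with hX
    have hX0 : 0 < X := Real.exp_pos _
    have e : Bp s η t * (Φ (zt η t) * (1 + η' t * I)) - I * ((hh : ℂ) * Φ t) =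
        (Bp s η t - I * hh) * Φ (zt η t) * (1 + η' t * I) +
          I * hh * ((Φ (zt η t) - Φ t) + Φ (zt η t) * (η' t * I)) := by ring
    rw [e]
    have b1 : ‖Bp s η t - I * hh‖ ≤ C * (H * ε) := by
      have h1 := ht t (η t) ((D.le t).trans hε)
      have e1 : Bp s η t - I * hh = s * (Gc (t + η t * I) - Gc t - I * ((P t * η t : ℝ) : ℂ)) := by
        unfold Bp zt
        rw [hhd]
        push_cast
        ring
      rw [e1, norm_mul, Complex.norm_real, Real.norm_eq_abs]
      calc |s| * ‖Gc (t + η t * I) - Gc t - I * ((P t * η t : ℝ) : ℂ)‖ ≤ |s| * (C * (P t * η t ^ 2)) := by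
            gcongr
        _ = C * (|s * P t * η t| * |η t|) := by
            rw [abs_mul, abs_mul, abs_of_pos (P_pos t), ← sq_abs (η t)]
            ring
        _ ≤ C * (H * ε) := by
            have h2 := hH t
            have h3 := D.le t
            gcongr
    have b2 : ‖Φ (zt η t)‖ ≤ A * X := by
      have := hA _ (him t)
      rwa [zt_re] at this
    have b3 : ‖(1 : ℂ) + η' t * I‖ ≤ 2 := by
      refine (norm_add_le _ _).trans ?_
      rw [norm_one, norm_mul, Complex.norm_I, mul_one, Complex.norm_real, Real.norm_eq_abs]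
      have := D.dle t
      linarith
    have b4 : ‖Φ (zt η t) - Φ t‖ ≤ A' * X * ε := by
      set S : Set ℂ := {u : ℂ | u.re = t ∧ |u.im| ≤ ε} with hS
      have hconv : Convex ℝ S := by
        have h1 : S = Complex.reLm ⁻¹' {t} ∩ Complex.imLm ⁻¹' (Icc (-ε) ε) := by
          ext u
          simp [hS, abs_le]
        rw [h1]
        exact ((convex_singleton t).linear_preimage _).inter ((convex_Icc _ _).linear_preimage _)
      have m1 : (t : ℂ) ∈ S := by simp [hS, hε0]
      have m2 : zt η t ∈ S := ⟨zt_re _ _, D.im_le t⟩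
      have h2 := hconv.norm_image_sub_le_of_norm_hasDerivWithin_le (f := Φ) (f' := Φ') (C := A' * X)
        (fun v hv => (hΦ v (hv.2.trans hε)).hasDerivWithinAt)
        (fun v hv => by
          have := hA' v (hv.2.trans hε)
          rwa [hv.1] at this) m1 m2
      refine h2.trans ?_
      have h3 : ‖zt η t - t‖ ≤ ε := by
        unfold zt
        rw [add_sub_cancel_left, norm_mul, Complex.norm_I, mul_one, Complex.norm_real, Real.norm_eq_abs]
        exact D.le t
      exact mul_le_mul_of_nonneg_left h3 (by positivity)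
    have b5 : ‖Φ (zt η t) * (η' t * I)‖ ≤ A * X * ε := by
      rw [norm_mul, norm_mul, Complex.norm_I, mul_one, Complex.norm_real, Real.norm_eq_abs]
      have := D.dle t
      gcongr
    have b6 : ‖I * (hh : ℂ)‖ ≤ H := by
      rw [norm_mul, Complex.norm_I, one_mul, Complex.norm_real, Real.norm_eq_abs]
      exact hH t
    calc ‖(Bp s η t - I * hh) * Φ (zt η t) * (1 + η' t * I) +
          I * hh * ((Φ (zt η t) - Φ t) + Φ (zt η t) * (η' t * I))‖
        ≤ ‖Bp s η t - I * hh‖ * ‖Φ (zt η t)‖ * ‖(1 : ℂ) + η' t * I‖ +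
          ‖I * (hh : ℂ)‖ * (‖Φ (zt η t) - Φ t‖ + ‖Φ (zt η t) * (η' t * I)‖) := by
          refine (norm_add_le _ _).trans ?_
          rw [norm_mul, norm_mul, norm_mul (I * (hh : ℂ))]
          gcongr
          exact norm_add_le _ _
      _ ≤ C * (H * ε) * (A * X) * 2 + H * (A' * X * ε + A * X * ε) := by gcongr
      _ = _ := by ring
  have hexp : Integrable fun t : ℝ => Real.exp (-2 * |t - τ|) := by
    have := (NUMF.int_exp_abs (b := 2) (by norm_num)).comp_sub_right τ
    exact this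
  have hval : ∫ t : ℝ, Real.exp (-2 * |t - τ|) = 1 := by
    rw [integral_sub_right_eq_self (fun t : ℝ => Real.exp (-2 * |t|)) τ]
    rw [integral_comp_abs (f := fun u => Real.exp (-2 * u))]
    have := integral_exp_mul_Ioi (a := -2) (by norm_num) 0
    rw [this]
    norm_num
  calc ‖∫ t, (Bp s η t * (Φ (zt η t) * (1 + η' t * I)) - I * (((s * P t * η t : ℝ) : ℂ) * Φ t))‖
      ≤ ∫ t, H * ε * (2 * C * A + A + A') * Real.exp (-2 * |t - τ|) :=
        norm_integral_le_of_norm_le (hexp.const_mul _) (Eventually.of_forall hpt)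
    _ = _ := by rw [integral_const_mul, hval, mul_one]

/-- **winding of one constituent**: offset `j` at distance `≥ δ` from the integers, height `τ` -/
theorem wind_oneU (SU : SeaBd) {δ : ℝ} (hδ : 0 < δ) (hδ1 : δ ≤ 1 / 2) : ∃ C : ℝ, 0 ≤ C ∧
    ∀ [Sea] [SeaU SU], ∀ (s H τ ε j : ℝ) (η η' : ℝ → ℝ), Off δ j → NUO.Disp ε η η' → ε ≤ δ * l / 2 →
      (∀ t, |s * P t * η t| ≤ H) →
      |-(∫ t, Bd s η η' t * (fq j (zt η t - τ) + fg j (zt η t - τ))).re +
        ∫ t, (s * P t * η t) * kw j (t - τ)| ≤ C * (H * ε) := by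
  have hl := l_pos
  have hpi := Real.pi_pos
  have hdl : 0 < δ * l := mul_pos hδ hl
  have hb1 : δ * l / 2 < l / 2 := by nlinarith
  obtain ⟨C, hC, hw⟩ := wind_genU SU (b := δ * l / 2) (by positivity) hb1
  have hsin : 0 < Real.sin (δ * l - δ * l / 2) := by
    refine Real.sin_pos_of_pos_of_lt_pi (by linarith) ?_
    have : l < Real.pi := by unfold l; linarith
    nlinarith
  set A := 24 / Real.sin (δ * l - δ * l / 2) with hA
  set A' := 48 / Real.sin (δ * l - δ * l / 2) ^ 2 with hA'
  refine ⟨2 * C * A + A + A', by positivity, fun s H τ ε j η η' hj D hε hH => ?_⟩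
  have hblt : δ * l / 2 < δ * l := by linarith
  have him : ∀ {z : ℂ}, |z.im| ≤ δ * l / 2 → |(z - τ).im| ≤ δ * l / 2 := by
    intro z hz
    simpa using hz
  have hre : ∀ z : ℂ, (z - τ).re = z.re - τ := by intro z; simp
  have hε1 : ε ≤ 1 := by
    have : l < 1 := by
      unfold l
      linarith [Real.pi_lt_four]
    nlinarith
  have h1 := hw s A A' H τ ε η η' (fun z => fq j (z - τ) + fg j (z - τ)) (fun z => NUO.Ph j (z - τ))
    (fun z => NUO.Ph' j (z - τ))
    (fun z hz => by
      have h2 := hasDerivAt_fsum hj (z := z - τ) (lt_of_le_of_lt (him hz) hblt)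
      have h3 : HasDerivAt (fun z : ℂ => z - τ) 1 z := (hasDerivAt_id z).sub_const _
      have h4 := h2.comp z h3
      rw [mul_one] at h4
      exact h4)
    (fun z hz => by
      have h2 := hasDerivAt_Ph hj (z := z - τ) (lt_of_le_of_lt (him hz) hblt)
      have h3 : HasDerivAt (fun z : ℂ => z - τ) 1 z := (hasDerivAt_id z).sub_const _
      have h4 := h2.comp z h3
      rw [mul_one] at h4
      exact h4)
    (fun z hz => by
      have h2 := Ph_bound hj hblt (him hz)
      rwa [hre] at h2)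
    (fun z hz => by
      have h2 := Ph'_bound hj hblt (him hz)
      rwa [hre] at h2) D hε hε1 hH
  have h2 := (Complex.abs_re_le_norm _).trans h1
  rw [Complex.sub_re, Complex.neg_re] at h2
  have hΦc : Continuous fun t : ℝ => NUO.Ph j (t - τ) := by
    rw [continuous_iff_continuousAt]
    intro t
    have h3 : ContinuousAt (NUO.Ph j) ((t : ℂ) - τ) :=
      (hasDerivAt_Ph hj (z := (t : ℂ) - τ) (by simpa using hdl)).continuousAt
    exact h3.comp (f := fun t : ℝ => (t : ℂ) - τ) (by fun_prop)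
  have hcont := D.continuous
  have hPc := P_cont
  have hi : Integrable fun t : ℝ => ((s * P t * η t : ℝ) : ℂ) * NUO.Ph j (t - τ) := by
    refine Continuous.integrable_of_hasCompactSupport (Continuous.mul (by fun_prop) hΦc) ?_
    refine HasCompactSupport.intro D.supp fun t ht => ?_
    rw [(D.d0 ht).1]
    simp
  rw [re_I_int hi] at h2
  have e : ∀ t : ℝ, (NUO.Ph j ((t : ℂ) - τ)).im = kw j (t - τ) := by
    intro t
    unfold kw
    push_cast
    rfl
  simp_rw [e] at h2
  rw [sub_neg_eq_add] at h2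
  refine h2.trans (le_of_eq ?_)
  ring

/-- **winding of an object** (any finite family of constituents) -/
theorem wind_objU (SU : SeaBd) {δ : ℝ} (hδ : 0 < δ) (hδ1 : δ ≤ 1 / 2) : ∃ C : ℝ, 0 ≤ C ∧
    ∀ [Sea] [SeaU SU], ∀ (s H K ε t0 R : ℝ) (η η' : ℝ → ℝ) (ι : Type) [Fintype ι] (j τ : ι → ℝ), (∀ c, Off δ (j c)) →
      NUO.Disp ε η η' → ε ≤ δ * l / 2 → (∀ t, |s * P t * η t| ≤ H) → 0 ≤ K →
      (∀ t t', |s * P t * η t - s * P t' * η t'| ≤ K * |t - t'|) → (∀ c, |τ c - t0| ≤ R) →
      |-(∫ t, Bd s η η' t * ∑ c, (fq (j c) (zt η t - τ c) + fg (j c) (zt η t - τ c))).re +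
        2 * Real.pi * (∑ c, wnu (j c)) * (s * P t0 * η t0)| ≤
          C * (∑ c : ι, (1 + |wnu (j c)|)) * (H * ε + K * (1 + R)) := by
  have hl := l_pos
  have hpi := Real.pi_pos
  obtain ⟨C, hC, hw⟩ := wind_oneU SU hδ hδ1
  have hsin : 0 < Real.sin (δ * l) := by
    refine Real.sin_pos_of_pos_of_lt_pi (mul_pos hδ hl) ?_
    have : l < Real.pi := by unfold l; linarith
    nlinarith
  refine ⟨C + 12 / Real.sin (δ * l) + 2 * Real.pi, by positivity,
    fun s H K ε t0 R η η' ι _ j τ hj D hε hH hK0 hK hR => ?_⟩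
  have hε0 := D.ε0
  have hH0 : 0 ≤ H := (abs_nonneg _).trans (hH 0)
  have hdl : 0 < δ * l := mul_pos hδ hl
  have hεl : ε < l / 2 := by nlinarith
  have hcs : ∀ {f : ℝ → ℂ}, Continuous f → (∀ t, t ∉ tsupport η → f t = 0) → Integrable f := by
    intro f hf h0
    exact hf.integrable_of_hasCompactSupport (HasCompactSupport.intro D.supp fun t ht => h0 t ht)
  have hi : ∀ c ∈ Finset.univ, Integrable fun t =>
      Bd s η η' t * (fq (j c) (zt η t - τ c) + fg (j c) (zt η t - τ c)) := by
    intro c _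
    refine hcs ((Bd_cont D hεl s).mul ?_) fun t ht => ?_
    · rw [continuous_iff_continuousAt]
      intro t
      have h1 : |(zt η t - τ c).im| < δ * l := by
        have := D.im_le t
        have e : (zt η t - τ c).im = (zt η t).im := by simp
        rw [e]
        linarith
      have h2 := (hasDerivAt_fsum (hj c) h1).continuousAt
      exact h2.comp (f := fun t : ℝ => zt η t - τ c) ((D.zt_cont.sub continuous_const).continuousAt)
    · rw [Bd_zero s (D.d0 ht).1 (D.d0 ht).2, zero_mul]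
  have e1 : (∫ t, Bd s η η' t * ∑ c, (fq (j c) (zt η t - τ c) + fg (j c) (zt η t - τ c))) =
      ∑ c, ∫ t, Bd s η η' t * (fq (j c) (zt η t - τ c) + fg (j c) (zt η t - τ c)) := by
    simp_rw [Finset.mul_sum]
    rw [integral_finsetSum _ hi]
  rw [e1, Complex.re_sum]
  have hone : ∀ c, |-(∫ t, Bd s η η' t * (fq (j c) (zt η t - τ c) + fg (j c) (zt η t - τ c))).re +
      2 * Real.pi * wnu (j c) * (s * P t0 * η t0)| ≤
        (C + 12 / Real.sin (δ * l) + 2 * Real.pi) * (1 + |wnu (j c)|) * (H * ε + K * (1 + R)) := by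
    intro c
    have hR0 : 0 ≤ R := (abs_nonneg _).trans (hR c)
    have a1 := hw s H (τ c) ε (j c) η η' (hj c) D hε hH
    have a2 := wind_smooth (hj c) hδ hδ1 (hh := fun t => s * P t * η t) (K := K)
      (by have := D.continuous; have := P_cont; fun_prop) hH (τ c) (fun t => hK t (τ c))
    have a3 := hK (τ c) t0
    have a4 := hR c
    have e2 : -(∫ t, Bd s η η' t * (fq (j c) (zt η t - τ c) + fg (j c) (zt η t - τ c))).re +
        2 * Real.pi * wnu (j c) * (s * P t0 * η t0) =
        (-(∫ t, Bd s η η' t * (fq (j c) (zt η t - τ c) + fg (j c) (zt η t - τ c))).re +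
          ∫ t, (s * P t * η t) * kw (j c) (t - τ c)) -
        ((∫ t, (s * P t * η t) * kw (j c) (t - τ c)) - 2 * Real.pi * wnu (j c) * (s * P (τ c) * η (τ c))) -
        2 * Real.pi * wnu (j c) * (s * P (τ c) * η (τ c) - s * P t0 * η t0) := by ring
    rw [e2]
    have a5 : |2 * Real.pi * wnu (j c) * (s * P (τ c) * η (τ c) - s * P t0 * η t0)| ≤
        2 * Real.pi * |wnu (j c)| * (K * R) := by
      rw [abs_mul, abs_mul, abs_of_pos (by positivity : (0:ℝ) < 2 * Real.pi)]
      have := abs_nonneg (wnu (j c))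
      refine mul_le_mul_of_nonneg_left (a3.trans ?_) (by positivity)
      exact mul_le_mul_of_nonneg_left a4 hK0
    have hn := abs_nonneg (wnu (j c))
    set n := |wnu (j c)|
    set Z := 12 / Real.sin (δ * l)
    have hZ : 0 ≤ Z := by positivity
    have b1 : C * (H * ε) ≤ C * (1 + n) * (H * ε + K * (1 + R)) := by
      have : 0 ≤ K * (1 + R) := by positivity
      have : 0 ≤ H * ε := by positivity
      calc C * (H * ε) ≤ C * (H * ε + K * (1 + R)) := by gcongr; linarith
        _ = C * 1 * (H * ε + K * (1 + R)) := by ring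
        _ ≤ _ := by gcongr; linarith
    have b2 : Z * K ≤ Z * (1 + n) * (H * ε + K * (1 + R)) := by
      have : 0 ≤ K * R := by positivity
      have : 0 ≤ H * ε := by positivity
      calc Z * K ≤ Z * (H * ε + K * (1 + R)) := by gcongr; linarith
        _ = Z * 1 * (H * ε + K * (1 + R)) := by ring
        _ ≤ _ := by gcongr; linarith
    have b3 : 2 * Real.pi * n * (K * R) ≤ 2 * Real.pi * (1 + n) * (H * ε + K * (1 + R)) := by
      have : 0 ≤ K * R := by positivity
      have : 0 ≤ H * ε := by positivity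
      gcongr
      · linarith
      · linarith
    refine (abs_three a1 a2 a5).trans ?_
    linarith
  have e3 : -(∑ c, (∫ t, Bd s η η' t * (fq (j c) (zt η t - τ c) + fg (j c) (zt η t - τ c))).re) +
      2 * Real.pi * (∑ c, wnu (j c)) * (s * P t0 * η t0) =
      ∑ c, (-(∫ t, Bd s η η' t * (fq (j c) (zt η t - τ c) + fg (j c) (zt η t - τ c))).re +
        2 * Real.pi * wnu (j c) * (s * P t0 * η t0)) := by
    rw [Finset.sum_add_distrib, Finset.sum_neg_distrib, Finset.mul_sum, Finset.sum_mul]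
  rw [e3]
  refine (Finset.abs_sum_le_sum_abs _ _).trans ?_
  refine (Finset.sum_le_sum fun c _ => hone c).trans (le_of_eq ?_)
  rw [← Finset.sum_mul, ← Finset.mul_sum]

end

end NUSea.O
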