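import Pool.Agent.NUSea.SEval
import Pool.Agent.SeaU.Bfin
import Pool.Agent.SeaU.Wind

/-!
# Bounds uniform in the sea: `NUSea/SEval`

Copies of the existential bounds of `NUSea/SEval` with constants which depend on `SU : SeaBd` only.
-/

set_option autoImplicit false
set_option linter.unusedSectionVars false
set_option linter.unusedVariables false

open MeasureTheory Set Filter Topology Complex

namespace NUSea.Ev

open NUMF (l l_pos V w g lq lqg)
open NUKer NUAct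
open NUSea (Sea SeaBd SeaU)

noncomputable section

variable {s ε M b δ : ℝ} {e η η1 : ℝ → ℝ} {Fe : Bool → ℂ → ℂ}

/-- **the double integral** -/
theorem exists_dblU (SU : SeaBd) : ∃ C : ℝ, 1 ≤ C ∧ ∀ [Sea] [SeaU SU], ∀ {s ε M b : ℝ} {e η η1 : ℝ → ℝ} {Fe : Bool → ℂ → ℂ},
    0 ≤ s → Cur s ε M b e η → (∀ t, HasDerivAt η (η1 t) t) → 0 ≤ b → C * (b + 1) ^ 7 * ε ≤ 1 →
    (gs s η η1 Fe).Ok →
    |-(∫ t, Bf s (iD η) (iD η1) t * Q s η η1 Fe t).re -
      NUCR.bil (hd s η η1) (hd s η η1)| ≤ C * (b + 1) ^ 9 * M ^ 2 * ε := by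
  obtain ⟨C0, hC0, H0⟩ := exists_BBU SU
  obtain ⟨K1, hK1, H1⟩ := exists_own
  obtain ⟨K2, hK2, H2⟩ := exists_cross
  have hk0 := NUCR.kap0_pos
  refine ⟨20 + K1 + K2 + 2 * (C0 * (NUCR.kap0 * C0 + 2 * (K1 + K2) * C0) + NUCR.kap0 * C0 ^ 2 +
    C0 * (NUCR.kap0 * C0 + 2 * (K1 + K2) * C0)), ?_, ?_⟩
  · have : 0 ≤ 2 * (C0 * (NUCR.kap0 * C0 + 2 * (K1 + K2) * C0) + NUCR.kap0 * C0 ^ 2 +
      C0 * (NUCR.kap0 * C0 + 2 * (K1 + K2) * C0)) := by positivity
    linarith
  intro _ _ s ε M b e η η1 Fe hs h h1 hb hsm hok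
  have hC0' : 0 < C0 := by linarith
  have hK1' : 0 < K1 := by linarith
  have hK2' : 0 < K2 := by linarith
  set Z : ℝ := 2 * (C0 * (NUCR.kap0 * C0 + 2 * (K1 + K2) * C0) + NUCR.kap0 * C0 ^ 2 +
    C0 * (NUCR.kap0 * C0 + 2 * (K1 + K2) * C0)) with hZ
  have hZ0 : 0 ≤ Z := by positivity
  have hε0 := h.ε0
  have hM0 := h.M0 hs
  set R : ℝ := b + 1 with hR
  have hR1 : 1 ≤ R := by linarith
  have hR7 : 1 ≤ R ^ 7 := one_le_pow₀ hR1
  have hX : 0 ≤ R ^ 7 * ε := by positivity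
  have hεX : ε ≤ R ^ 7 * ε := le_mul_of_one_le_left hε0 hR7
  have hsm' : (20 + K1 + K2 + Z) * (R ^ 7 * ε) ≤ 1 := by
    refine le_trans (le_of_eq ?_) hsm
    ring
  have hε20 : ε ≤ 1 / 20 := by nlinarith [mul_nonneg hK1'.le hX, mul_nonneg hK2'.le hX, mul_nonneg hZ0 hX]
  have s1 : K1 * R ^ 7 * ε ≤ 1 := by
    nlinarith [mul_nonneg hK1'.le hX, mul_nonneg hK2'.le hX, mul_nonneg hZ0 hX]
  have hR67 : R ^ 6 * ε ≤ R ^ 7 * ε := by
    have : R ^ 6 ≤ R ^ 7 := pow_le_pow_right₀ hR1 (by norm_num)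
    gcongr
  have s2 : K2 * R ^ 6 * ε ≤ 1 := by
    have h3 : K2 * (R ^ 6 * ε) ≤ K2 * (R ^ 7 * ε) := by gcongr
    nlinarith [mul_nonneg hK1'.le hX, mul_nonneg hK2'.le hX, mul_nonneg hZ0 hX]
  have hB := H0 hs hε20 h h1
  have hD := h.disp h1 R
  obtain ⟨-, kw, ew⟩ := H1 R hR1 ε _ _ hD s1
  obtain ⟨-, kg, eg⟩ := H2 R hR1 ε _ _ _ _ hD hD s2
  set B : ℝ → ℂ := Bf s (iD η) (iD η1) with hBdef
  set g1 : ℝ → ℝ := hd s η η1 with hg1
  set Br' : ℝ → ℂ := Br s (iD η) (iD η1) with hBr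
  have eB : ∀ t, B t = (g1 t : ℂ) * I + Br' t := fun t => B_eq s η η1 t
  -- `Q` is `V * B` up to a small error
  have iVB : ∀ t, Integrable fun t' : ℝ => (V (t - t') : ℂ) * B t' := fun t =>
    ((NUCR.V_int_sub t).ofReal).mul_bdd (c := C0 * M) hB.cont.aestronglyMeasurable
      (Eventually.of_forall hB.le)
  have iVBr : ∀ t, Integrable fun t' : ℝ => (V (t - t') : ℂ) * Br' t' := fun t =>
    ((NUCR.V_int_sub t).ofReal).mul_bdd (c := C0 * (M * ε)) hB.rc.aestronglyMeasurable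
      (Eventually.of_forall hB.rle)
  have iVg : ∀ t, Integrable fun t' : ℝ => V (t - t') * g1 t' := fun t =>
    (NUCR.V_int_sub t).mul_bdd (c := C0 * M) hB.hc.aestronglyMeasurable
      (Eventually.of_forall hB.hle)
  have hicc : ∀ {t : ℝ}, t ∉ Icc (-b) b → b < |t| := by
    intro t ht
    rwa [mem_Icc, ← abs_le, not_le] at ht
  have iI : ∀ c : ℝ, Integrable ((Icc (-b) b).indicator fun _ : ℝ => c) := by
    intro c
    rw [integrable_indicator_iff measurableSet_Icc]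
    exact integrableOn_const (by simp)
  have vI : ∀ c : ℝ, ∫ t, (Icc (-b) b).indicator (fun _ : ℝ => c) t = 2 * b * c := by
    intro c
    rw [integral_indicator measurableSet_Icc, setIntegral_const,
      Real.volume_real_Icc_of_le (by linarith), smul_eq_mul]
    ring
  have hQ1 : ∀ t, |t| ≤ b → ‖Q s η η1 Fe t - ∫ t', (V (t - t') : ℂ) * B t'‖ ≤
      2 * b * ((K1 * R ^ 7 * ε + K2 * R ^ 6 * ε) * (C0 * M)) := by
    intro t ht
    have htR : |t| ≤ R := by linarith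
    have e1 : Q s η η1 Fe t - ∫ t', (V (t - t') : ℂ) * B t' =
        ∫ t', (((gs s η η1 Fe).K true true t t' * B t' + (gs s η η1 Fe).K true false t t' * B t') -
          (V (t - t') : ℂ) * B t') := by
      have j1 : Integrable fun t' => (gs s η η1 Fe).K true true t t' * B t' := hok.iB true true t
      have j2 : Integrable fun t' => (gs s η η1 Fe).K true false t t' * B t' := hok.iB true false t
      have j3 : Integrable fun t' => (gs s η η1 Fe).K true true t t' * B t' +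
          (gs s η η1 Fe).K true false t t' * B t' := j1.add j2
      rw [integral_sub j3 (iVB t), integral_add j1 j2]
      rfl
    rw [e1]
    refine (norm_integral_le_of_norm_le (iI ((K1 * R ^ 7 * ε + K2 * R ^ 6 * ε) * (C0 * M))) ?_).trans
      (le_of_eq (vI _))
    have hae : ∀ᵐ t' : ℝ, t' ≠ t := by
      rw [ae_iff]
      simp
    filter_upwards [hae] with t' hne
    by_cases ht' : t' ∈ Icc (-b) b
    · rw [indicator_of_mem ht']
      rw [mem_Icc, ← abs_le] at ht'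
      have ht'R : |t'| ≤ R := by linarith
      have q1 := ew t t' htR ht'R hne.symm
      have q2 := eg t t' htR ht'R
      have e2 : (gs s η η1 Fe).K true true t t' = Up Us (zt (iD η)) t t' := by
        rw [two_K, if_pos rfl]
      have e3 : (gs s η η1 Fe).K true false t t' = Ux (zt (iD η) t - zt (iD η) t') := by
        rw [two_K, if_neg (by decide)]
      have e4 : (V (t - t') : ℂ) = ((-Real.log (w (t - t')) : ℝ) : ℂ) +
          ((-Real.log (g (t - t')) : ℝ) : ℂ) := by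
        rw [V_eq (sub_ne_zero.2 hne.symm)]
        push_cast
        ring
      rw [e2, e3, q1, q2, e4]
      have e5 : (((-Real.log (w (t - t')) : ℝ) : ℂ) - NUAct.Lw (iD η) (iD η1) t t') * B t' +
          (((-Real.log (g (t - t')) : ℝ) : ℂ) - NUAct.Lg (iD η) (iD η) t t') * B t' -
          (((-Real.log (w (t - t')) : ℝ) : ℂ) + ((-Real.log (g (t - t')) : ℝ) : ℂ)) * B t' =
          -((NUAct.Lw (iD η) (iD η1) t t' + NUAct.Lg (iD η) (iD η) t t') * B t') := by ring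
      rw [e5, norm_neg, norm_mul]
      have b1 := kw.bound htR ht'R
      have b2 := kg.bound htR ht'R
      have b3 := hB.le t'
      exact mul_le_mul ((norm_add_le _ _).trans (add_le_add b1 b2)) b3 (norm_nonneg _) (by positivity)
    · rw [indicator_of_notMem ht']
      have e2 : B t' = 0 := hB.supp t' (hicc ht')
      rw [e2]
      simp
  have hVB : ∀ t, ∫ t', (V (t - t') : ℂ) * B t' = (NUCR.cv g1 t : ℂ) * I +
      ∫ t', (V (t - t') : ℂ) * Br' t' := by
    intro t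
    have e1 : ∀ t', (V (t - t') : ℂ) * B t' = ((V (t - t') * g1 t' : ℝ) : ℂ) * I +
        (V (t - t') : ℂ) * Br' t' := by
      intro t'
      rw [eB]
      push_cast
      ring
    simp_rw [e1]
    have j1 : Integrable fun t' : ℝ => ((V (t - t') * g1 t' : ℝ) : ℂ) * I :=
      (iVg t).ofReal.mul_const I
    have j2 : ∫ t', ((V (t - t') * g1 t' : ℝ) : ℂ) = (NUCR.cv g1 t : ℂ) := integral_ofReal
    rw [integral_add j1 (iVBr t), integral_mul_const, j2]
  have hVr : ∀ t, ‖∫ t', (V (t - t') : ℂ) * Br' t'‖ ≤ NUCR.kap0 * (C0 * (M * ε)) := by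
    intro t
    refine (norm_integral_le_of_norm_le ((NUCR.V_int_sub t).mul_const (C0 * (M * ε)))
      (Eventually.of_forall fun t' => ?_)).trans (le_of_eq ?_)
    · rw [norm_mul, Complex.norm_real, Real.norm_eq_abs, abs_of_nonneg (NUCR.V_nonneg _)]
      exact mul_le_mul_of_nonneg_left (hB.rle t') (NUCR.V_nonneg _)
    · rw [integral_mul_const, NUCR.V_mass_sub]
  -- the remainder of `Q`
  set E0 : ℝ := NUCR.kap0 * (C0 * (M * ε)) +
    2 * b * ((K1 * R ^ 7 * ε + K2 * R ^ 6 * ε) * (C0 * M)) with hE0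
  have hE00 : 0 ≤ E0 := by positivity
  have hQ2 : ∀ t, |t| ≤ b → ‖Q s η η1 Fe t - (NUCR.cv g1 t : ℂ) * I‖ ≤ E0 := by
    intro t ht
    have a1 := hQ1 t ht
    rw [hVB t] at a1
    have a2 := hVr t
    have e1 : Q s η η1 Fe t - (NUCR.cv g1 t : ℂ) * I =
        (Q s η η1 Fe t - ((NUCR.cv g1 t : ℂ) * I + ∫ t', (V (t - t') : ℂ) * Br' t')) +
          ∫ t', (V (t - t') : ℂ) * Br' t' := by ring
    rw [e1]
    refine (norm_add_le _ _).trans ?_
    rw [hE0]
    linarith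
  -- integrability
  have iBQ := int_BQ hok
  have ig1 : Integrable g1 := by
    refine hB.hc.integrable_of_hasCompactSupport ?_
    refine HasCompactSupport.intro (K := Icc (-b) b) isCompact_Icc fun t ht => hB.hsupp t (hicc ht)
  have ibil : Integrable fun t => g1 t * NUCR.cv g1 t := by
    have h2 := (NUCR.int2 ig1 hB.hc.aestronglyMeasurable hB.hle).integral_prod_left
    refine h2.congr (Eventually.of_forall fun t => ?_)
    simp only
    rw [integral_const_mul]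
    rfl
  have e1 : -(∫ t, B t * Q s η η1 Fe t).re - NUCR.bil g1 g1 =
      ∫ t, (-(B t * Q s η η1 Fe t).re - g1 t * NUCR.cv g1 t) := by
    have e2 := integral_re iBQ
    simp only [RCLike.re_to_complex] at e2
    have e3 : Integrable fun t => -(B t * Q s η η1 Fe t).re := by
      have := iBQ.re.neg
      exact this
    rw [integral_sub e3 ibil, integral_neg, e2]
    rfl
  rw [e1, ← Real.norm_eq_abs]
  refine (norm_integral_le_of_norm_le (iI (C0 * M * E0 + C0 * (M * ε) * (NUCR.kap0 * (C0 * M)) +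
    C0 * (M * ε) * E0)) (Eventually.of_forall fun t => ?_)).trans ?_
  · by_cases ht : t ∈ Icc (-b) b
    · rw [indicator_of_mem ht]
      rw [mem_Icc, ← abs_le] at ht
      set E : ℂ := Q s η η1 Fe t - (NUCR.cv g1 t : ℂ) * I with hE
      have hEle : ‖E‖ ≤ E0 := hQ2 t ht
      have e2 : Q s η η1 Fe t = (NUCR.cv g1 t : ℂ) * I + E := by rw [hE]; ring
      have e3 : B t * Q s η η1 Fe t = -((g1 t * NUCR.cv g1 t : ℝ) : ℂ) + ((g1 t : ℂ) * I * E +
          Br' t * ((NUCR.cv g1 t : ℂ) * I) + Br' t * E) := by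
        rw [e2, eB]
        have := Complex.I_mul_I
        push_cast
        linear_combination ((g1 t : ℂ) * (NUCR.cv g1 t : ℂ)) * this
      have e4 : -(B t * Q s η η1 Fe t).re - g1 t * NUCR.cv g1 t =
          -((g1 t : ℂ) * I * E + Br' t * ((NUCR.cv g1 t : ℂ) * I) + Br' t * E).re := by
        rw [e3, Complex.add_re, Complex.neg_re, Complex.ofReal_re]
        ring
      rw [e4, Real.norm_eq_abs, abs_neg]
      refine (Complex.abs_re_le_norm _).trans ?_
      have c1 := hB.hle t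
      have c2 := hB.rle t
      have c3 := NUCR.cv_abs hB.hle t
      have n1 : ‖(g1 t : ℂ) * I * E‖ ≤ C0 * M * E0 := by
        rw [norm_mul, norm_mul, Complex.norm_I, mul_one, Complex.norm_real, Real.norm_eq_abs]
        exact mul_le_mul c1 hEle (norm_nonneg _) (by positivity)
      have n2 : ‖Br' t * ((NUCR.cv g1 t : ℂ) * I)‖ ≤ C0 * (M * ε) * (NUCR.kap0 * (C0 * M)) := by
        rw [norm_mul, norm_mul, Complex.norm_I, mul_one, Complex.norm_real, Real.norm_eq_abs]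
        exact mul_le_mul c2 c3 (abs_nonneg _) (by positivity)
      have n3 : ‖Br' t * E‖ ≤ C0 * (M * ε) * E0 := by
        rw [norm_mul]
        exact mul_le_mul c2 hEle (norm_nonneg _) (by positivity)
      exact (norm_add₃_le).trans (add_le_add (add_le_add n1 n2) n3)
    · rw [indicator_of_notMem ht]
      have e2 : B t = 0 := hB.supp t (hicc ht)
      have e3 : g1 t = 0 := hB.hsupp t (hicc ht)
      rw [e2, e3]
      simp
  · rw [vI]
    exact arith_dbl hC0' hK1' hK2' hk0 hb hR hM0 hε0 hε20 hE0 hZ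

/-- **the constant of the action** -/
theorem mainU (SU : SeaBd) (hδ : 0 < δ) (hδ1 : δ ≤ 2 / 7) : ∃ C : ℝ, 1 ≤ C ∧
    ∀ [Sea] [SeaU SU], ∀ (s ε M b K R : ℝ) (e η η1 : ℝ → ℝ) (Fe : Bool → ℂ → ℂ) (Ψ : ℂ → ℂ) (ι : Type) [Fintype ι]
      (j τ t0 : ι → ℝ), 0 ≤ s → Cur s ε M b e η → (∀ t, HasDerivAt η (η1 t) t) → 0 ≤ b →
      C * (b + 1) ^ 7 * ε ≤ 1 → 0 ≤ K → (∀ t t', |s * P t * η t - s * P t' * η t'| ≤ K * |t - t'|) →
      (∀ a, Ext (δ * l / 2) (Fe a)) → (∀ c, NUO.Off δ (j c)) → (∀ c, |τ c - t0 c| ≤ R) →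
      (∀ z : ℂ, |z.im| ≤ δ * l / 2 → Fe true z + Fe false z =
        ∑ c, (NUO.fq (j c) (z - τ c) + NUO.fg (j c) (z - τ c)) + Ψ z) →
      |(gs s η η1 Fe).S - (s * (∑ c, O.clo (j c) (τ c)) + (∫ t : ℝ, s * P t * (Ψ t).re) -
        2 * Real.pi * (∑ c, NUO.wnu (j c) * (s * P (t0 c) * η (t0 c))) +
        NUCR.bil (hd s η η1) (hd s η η1) -
        (∫ t, Bf s (iD η) (iD η1) t * Ψ (zt (iD η) t)).re)| ≤
        C * (∑ c, (1 + |NUO.wnu (j c)|)) * (M * ε + K * (1 + R)) + C * (b + 1) ^ 9 * M ^ 2 * ε := by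
  have hl := l_pos
  obtain ⟨C1, hC1, H1⟩ := exists_dblU SU
  obtain ⟨C2, hC2, H2⟩ := O.wind_objU SU hδ (by linarith)
  have hdl : 0 < δ * l / 2 := by positivity
  refine ⟨20 + C1 + C2 + 1 / (δ * l / 2), by
    have : 0 < 1 / (δ * l / 2) := by positivity
    linarith, ?_⟩
  intro _ _ s ε M b K R e η η1 Fe Ψ ι _ j τ t0 hs h h1 hb hsm hK hKL hF hj hR hsum
  have hε0 := h.ε0
  have hM0 := h.M0 hs
  have hR7 : 1 ≤ (b + 1) ^ 7 := one_le_pow₀ (by linarith)
  obtain ⟨X, hX⟩ : ∃ X : ℝ, X = (b + 1) ^ 7 * ε := ⟨_, rfl⟩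
  have hX0 : 0 ≤ X := by rw [hX]; positivity
  have hεX : ε ≤ X := by rw [hX]; exact le_mul_of_one_le_left hε0 hR7
  have hi : 0 < 1 / (δ * l / 2) := by positivity
  have hsm' : (20 + C1 + C2 + 1 / (δ * l / 2)) * X ≤ 1 := by
    rw [hX]
    refine le_trans (le_of_eq ?_) hsm
    ring
  have q1 : 0 ≤ C1 * X := by positivity
  have q2 : 0 ≤ C2 * X := by positivity
  have q3 : 0 ≤ 1 / (δ * l / 2) * X := by positivity
  have hε20 : ε ≤ 1 / 20 := by linarith
  have hεδ : ε ≤ δ * l / 2 := by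
    have : 1 / (δ * l / 2) * X ≤ 1 := by linarith
    rw [one_div, inv_mul_le_iff₀ hdl, mul_one] at this
    linarith
  have s1 : C1 * (b + 1) ^ 7 * ε ≤ 1 := by
    have e1 : C1 * (b + 1) ^ 7 * ε = C1 * X := by rw [hX]; ring
    rw [e1]
    linarith
  have hok := gs_ok hδ1 h hs h1 hε20 hεδ hF
  have D := odisp h h1
  have hd1 := H1 hs h h1 hb s1 hok
  have a1 := (part_line hδ hj hok hsum).2
  have a2 := part_path hδ hδ1 hj hok D hεδ hsum
  have hone : ∀ c, |-(∫ t, O.Bd s η η1 t *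
      (NUO.fq (j c) (NUO.zt η t - τ c) + NUO.fg (j c) (NUO.zt η t - τ c))).re +
      2 * Real.pi * (NUO.wnu (j c) * (s * P (t0 c) * η (t0 c)))| ≤
      C2 * (1 + |NUO.wnu (j c)|) * (M * ε + K * (1 + R)) := by
    intro c
    have h3 := H2 s M K ε (t0 c) R η η1 Unit (fun _ => j c) (fun _ => τ c) (fun _ => hj c) D hεδ
      (cur_le h hs) hK hKL (fun _ => hR c)
    simp only [Finset.univ_unique, Finset.sum_singleton] at h3
    rwa [mul_assoc (2 * Real.pi)] at h3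
  have hsumc : |∑ c, (-(∫ t, O.Bd s η η1 t *
      (NUO.fq (j c) (NUO.zt η t - τ c) + NUO.fg (j c) (NUO.zt η t - τ c))).re +
      2 * Real.pi * (NUO.wnu (j c) * (s * P (t0 c) * η (t0 c))))| ≤
      C2 * (∑ c, (1 + |NUO.wnu (j c)|)) * (M * ε + K * (1 + R)) := by
    refine (Finset.abs_sum_le_sum_abs _ _).trans
      ((Finset.sum_le_sum fun c _ => hone c).trans (le_of_eq ?_))
    rw [← Finset.sum_mul, ← Finset.mul_sum]
  rw [Finset.sum_add_distrib, Finset.sum_neg_distrib, ← Finset.mul_sum] at hsumc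
  have eS := S_eq hok
  rw [a1, a2] at eS
  rw [eS]
  obtain ⟨N, hN⟩ : ∃ N : ℝ, N = ∑ c, (1 + |NUO.wnu (j c)|) := ⟨_, rfl⟩
  rw [← hN] at hsumc ⊢
  have hN0 : 0 ≤ N := by rw [hN]; exact Finset.sum_nonneg fun c _ => by positivity
  have hG : 0 ≤ N * (M * ε + K * (1 + R)) := by
    rcases isEmpty_or_nonempty ι with hE | ⟨⟨c⟩⟩
    · have : N = 0 := by rw [hN, Finset.univ_eq_empty, Finset.sum_empty]
      rw [this, zero_mul]
    · have hR0 : 0 ≤ R := (abs_nonneg _).trans (hR c)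
      positivity
  have g1 : C2 * N * (M * ε + K * (1 + R)) ≤
      (20 + C1 + C2 + 1 / (δ * l / 2)) * N * (M * ε + K * (1 + R)) := by
    rw [mul_assoc, mul_assoc]
    exact mul_le_mul_of_nonneg_right (by linarith) hG
  have g2 : C1 * (b + 1) ^ 9 * M ^ 2 * ε ≤
      (20 + C1 + C2 + 1 / (δ * l / 2)) * (b + 1) ^ 9 * M ^ 2 * ε := by
    have h9 : 0 ≤ (b + 1) ^ 9 * M ^ 2 * ε := by positivity
    calc C1 * (b + 1) ^ 9 * M ^ 2 * ε = C1 * ((b + 1) ^ 9 * M ^ 2 * ε) := by ring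
      _ ≤ (20 + C1 + C2 + 1 / (δ * l / 2)) * ((b + 1) ^ 9 * M ^ 2 * ε) :=
          mul_le_mul_of_nonneg_right (by linarith) h9
      _ = _ := by ring
  rw [abs_le] at hsumc hd1 ⊢
  constructor <;> linarith [hsumc.1, hsumc.2, hd1.1, hd1.2]

end

end NUSea.Ev
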