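import Pool.Agent.SeaU.DefC
import Pool.Agent.NUSea.H0.ShH0

/-!
# Bounds uniform in the sea: the positive gas on a window (`NUSea/H0/ShH0`)
-/

set_option autoImplicit false
set_option linter.unusedSectionVars false

open MeasureTheory Set Filter Topology
open scoped Real ENNReal

namespace NUSea.H0

open NUH0
open NUMF NUWC NUC37 NUKer NUDi NUMFC NUR2
open NUSea (Sea SeaBd SeaU)

noncomputable section

lemma sP_tailU (SU : SeaBd) [Sea] [SeaU SU] {s T x : ℝ} (hx : T ≤ |x|) : |s * P x| ≤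
    tCU SU / 2 * |s| * Real.exp (-(8 / 3) * T) * Real.exp (-(|x| - T)) := by
  have h1 := P_tCU SU x
  have h2 := tCU_ge SU
  rw [abs_mul, abs_of_pos (P_pos x)]
  have h3 : Real.exp (-(8 / 3) * |x|) ≤ Real.exp (-(8 / 3) * T) * Real.exp (-(|x| - T)) := by
    rw [← Real.exp_add]
    exact Real.exp_le_exp.2 (by linarith)
  calc |s| * P x ≤ |s| * (tCU SU / 2 * Real.exp (-(8 / 3) * |x|)) := by gcongr
    _ ≤ |s| * (tCU SU / 2 * (Real.exp (-(8 / 3) * T) * Real.exp (-(|x| - T)))) := by gcongr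
    _ = _ := by ring

/-- the tail of the sea -/
theorem sea_tailU (SU : SeaBd) [Sea] [SeaU SU] {X : Dat} {m k T : ℝ} (hm : 1 ≤ m) (hs0 : 0 ≤ X.s) (hs : X.s ≤ k * m)
    (hT : 3 / 8 * Real.log m ≤ T) : ∫ t in {t | T ≤ |t|}, |X.ρ t| ≤ tCU SU * k := by
  have hm0 : 0 < m := by linarith
  have htC := tCU_ge SU
  have h1 := NUH0.tail2 (T := T) (c := tCU SU / 2 * |X.s| * Real.exp (-(8 / 3) * T)) (by positivity) (ρ_int X)
    (fun x hx => by
      have := sP_tailU SU (s := X.s) hx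
      exact this)
  refine h1.trans ?_
  rw [abs_of_nonneg hs0]
  have h2 : Real.exp (-(8 / 3) * T) ≤ 1 / m := by
    rw [one_div, ← Real.exp_log (inv_pos.2 hm0), Real.log_inv]
    exact Real.exp_le_exp.2 (by linarith)
  have h3 : 0 ≤ k * m := hs0.trans hs
  calc 2 * (tCU SU / 2 * X.s * Real.exp (-(8 / 3) * T)) ≤ 2 * (tCU SU / 2 * (k * m) * (1 / m)) := by
        have h4 := (Real.exp_pos (-(8 / 3) * T)).le
        have h5 : X.s * Real.exp (-(8 / 3) * T) ≤ (k * m) * (1 / m) := mul_le_mul hs h2 h4 h3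
        have h6 : tCU SU * (X.s * Real.exp (-(8 / 3) * T)) ≤ tCU SU * ((k * m) * (1 / m)) := by gcongr
        linarith
    _ = tCU SU * k := by field_simp

/-- **H0 on a window**, all constants -/
theorem sh_H0U (SU : SeaBd) {ε' : ℝ} (hε' : 0 < ε') (k : ℝ) : ∃ C : ℝ, 0 ≤ C ∧ ∀ [Sea] [SeaU SU], ∀ {X : Dat} {Cκ : ℝ} {p n : ℕ}
    {R T T0 δ Λ1 c' ε m2 a0 K h m : ℝ} {bb bb' ch : ℝ → ℝ}, 1 ≤ m → (p : ℝ) ≤ k * m → (n : ℝ) ≤ k * m →
    X.s ≤ k * m → 3 / 8 * Real.log m ≤ T0 → T0 ≤ T → 0 < T →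
    Geo X Cκ → Fld X p n → RegT X T0 δ → Grid ch K h → ∀ (La : Finset ℤ), Cut1 R bb bb' →
    (∀ a d t t', |X.κ a d t t' - bb t * bb t' * X.κ a d t t'| ≤ ε) →
    (∀ a d, KC R Λ1 (fun t t' => ((X.κ a d t t' : ℝ) : ℂ))) → 0 < c' → 4 * Λ1 ≤ c' → 0 ≤ Λ1 →
    8 * c' * (22 * R) ≤ 1 → (∀ a, ∫ t in {t | |t| ≤ R}, |X.μ a t| ≤ m2) →
    ∀ {aX aY : ℝ → ℝ}, (∀ t, 0 ≤ aX t) → (∀ t, 0 ≤ aY t) →
    (∀ t, |t| ≤ T → aX t ≤ Real.exp (X.pot true t)) → (∀ t, |t| ≤ T → aY t ≤ Real.exp (X.pot false t)) →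
    (∫⁻ ω in NU42.Bw p n T, ENNReal.ofReal (Wt0 X p n ch h La a0 aX aY ω) ≤
      ENNReal.ofReal ((p.factorial : ℝ) * n.factorial * Real.exp (Ex X p n ε' C T c' R m2 ε))) ∧
    SqC (Wt0 X p n ch h La a0 aX aY) T bb X.ρ
      ((p.factorial : ℝ) * n.factorial * Real.exp (Ex X p n ε' C T c' R m2 ε)) c' := by
  obtain ⟨C, hC0, hC⟩ := bk (ε := ε' / 2) (by positivity) k
  have hcV := cV_pos
  refine ⟨2 * C + (46 * cV + 5 + (tCU SU * k) ^ 2) + 33, by positivity, ?_⟩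
  intro _ _ X Cκ p n R T T0 δ Λ1 c' ε m2 a0 K h m bb bb' ch hm hp hn hs hT0m hT hT0 hG hF hR hg La hb he hKC hc0
    hc1 hΛ1 hq hm2 aX aY haX haY hX hY
  have hTm : 3 / 8 * Real.log m ≤ T := hT0m.trans hT
  have hδ2 := sea_tailU SU (T := T) hm hG.s0 hs hTm
  have k1 := hC m T p hm hT0.le hTm hp
  have k2 := hC m T n hm hT0.le hTm hn
  have hN1 := Nl_nonneg X hT0.le true
  have hN2 := Nl_nonneg X hT0.le false
  have hNe : NT X T = Nl X T true + Nl X T false := rfl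
  have hN : 0 ≤ NT X T := by linarith
  have hcl := const_le (ε := ε) (m2 := m2) (δ2 := tCU SU * k) hG hF hR hT0 hT hb.one hc0 hq
  have hfin : ENNReal.ofReal ((p.factorial : ℝ) * n.factorial * Real.exp (MFs X.s p n + X.En +
      ((7 / 12 * Lw T + NUC62.err (Gw T) (Lw T) p) + (7 / 12 * Lw T + NUC62.err (Gw T) (Lw T) n)) +
      (46 * cV + 5 + (tCU SU * k) ^ 2 + 33 * NT X T + 176 * c' * R * m2 ^ 2 +
        ε / 2 * ((p : ℝ) + n + 2 * X.s) ^ 2) - Mt X T true p - Mt X T false n)) ≤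
      ENNReal.ofReal ((p.factorial : ℝ) * n.factorial * Real.exp (Ex X p n ε'
        (2 * C + (46 * cV + 5 + (tCU SU * k) ^ 2) + 33) T c' R m2 ε)) := by
    refine ENNReal.ofReal_le_ofReal (mul_le_mul_of_nonneg_left (Real.exp_le_exp.2 ?_) (by positivity))
    unfold Ex
    have h1 : 0 ≤ (2 * C + (46 * cV + 5 + (tCU SU * k) ^ 2)) * NT X T := by positivity
    nlinarith
  have hcl2 := hcl.trans hfin
  refine ⟨(sh_int hG hF hR hg La hb he hKC hc0 (by linarith) hq hT0 hT haX haY hX hY hm2 hδ2).trans hcl2,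
    sh_int_sq hG hF hR hg La hb he hKC hc0 hc1 hq hT0 hT haX haY hX hY hm2 hδ2 hcl2⟩

end

end NUSea.H0
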