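import Pool.Agent.NUS4C.Sharp
import Pool.Agent.SeaU.H1g

/-!
# `NUS4C/Sharp`, uniform in the sea
-/

set_option autoImplicit false
set_option linter.unusedSectionVars false

open MeasureTheory Set Filter Topology

namespace NUS4C

open NUS4 (gN gM gp R1f Xf mG Wt Fi off mG_eq H1 gLa ccτ fin Wt_meas)
open NUE NUOC NUKer NUR2 NUTr NUDi
open scoped ENNReal

noncomputable section

variable {δ K : ℝ} {c : ℝ → ℝ}

/-- **(H1) for the data `GD`** -/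
theorem h1_gdU (SU : NUSea.SeaBd) (hP : Prof δ K c) {h : ℝ} (hh : 0 < h) (hK : K * h < Real.pi) (k : ℕ) {κ e η w : ℝ}
    (hκ : 0 < κ) (he : 0 < e) (he1 : e ≤ 1 / 4) (hη : 0 < η) (hw : 0 < w) (hw1 : w ≤ 1 / 10)
    {C₄ : ℝ} (hC4 : 0 ≤ C₄) : ∃ (m0 : ℕ) (e' : ℝ), 3 ≤ m0 ∧ 0 ≤ e' ∧
    ∀ m : ℕ, m0 ≤ m → ∀ [NUSea.Sea] [NUSea.SeaU SU], ∀ {p n : ℕ} (R s b : ℝ) (ηX ηX1 ηY ηY1 aX aY : ℝ → ℝ),
    GD m k κ e w s R b ηX ηX1 ηY ηY1 aX aY →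
    IsFiniteMeasure (mWin R (Wt (p := p) (n := n) ηX ηX1 ηY ηY1 aX aY)) →
    RigB (mWin R (Wt (p := p) (n := n) ηX ηX1 ηY ηY1 aX aY)) R (fun t => s * NUSea.P t)
      (C₄ * Real.log m ^ 8) →
    ∀ cc : Fin (gN h (Xf e m)) → ℝ, ∃ l : (Fin (gN h (Xf e m)) → ℝ) → ℝ, (∀ g, l (-g) = - l g) ∧
      H1 c h η (Xf e m) R e' l cc (Wt (p := p) (n := n) ηX ηX1 ηY ηY1 aX aY) := by
  obtain ⟨m1, e', hm1, he', HF⟩ := h1_fullU SU hP hh hK (k + 9) hκ he he1 hη hw hw1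
  obtain ⟨m2, hm2⟩ := (Real.tendsto_log_atTop.comp tendsto_natCast_atTop_atTop).eventually
    (eventually_ge_atTop (2 + C₄)) |>.exists_forall_of_atTop
  refine ⟨max 3 (max m1 m2), e', le_max_left _ _, he', ?_⟩
  intro m hm _ _ p n R s b ηX ηX1 ηY ηY1 aX aY D hfin hrig cc
  have hmm2 := hm2 m (le_trans (le_trans (le_max_right _ _) (le_max_right _ _)) hm)
  simp only [Function.comp] at hmm2
  obtain ⟨L, hL⟩ : ∃ L, L = Real.log m := ⟨_, rfl⟩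
  rw [← hL] at hmm2
  have hL1 : 1 ≤ L := by linarith
  have hLk : L ^ k ≤ L ^ (k + 9) := pow_le_pow_right₀ hL1 (by omega)
  have hL3 : 2 * L ^ 2 ≤ L ^ (k + 9) := by
    calc 2 * L ^ 2 ≤ L * L ^ 2 := by gcongr; linarith
      _ = L ^ 3 := by ring
      _ ≤ L ^ (k + 9) := pow_le_pow_right₀ hL1 (by omega)
  have hL9 : C₄ * L ^ 8 ≤ L ^ (k + 9) := by
    calc C₄ * L ^ 8 ≤ L * L ^ 8 := by gcongr; linarith
      _ = L ^ 9 := by ring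
      _ ≤ L ^ (k + 9) := pow_le_pow_right₀ hL1 (by omega)
  obtain ⟨s1, s2, R1, R2, b1, b2, ⟨εX, MX, eX, cX, cX1, cX2⟩, ⟨εY, MY, eY, cY, cY1, cY2⟩, dX, dY, aX0,
    aY0, aXm, aYm, ⟨AX, ArX, FX, ErX, hAX0, hAX, hArX, hFX, hEX, haX⟩,
    ⟨AY, ArY, FY, ErY, hAY0, hAY, hArY, hFY, hEY, haY⟩⟩ := D
  rw [← hL] at cX2 cY2 hAX hArX hAY hArY R2
  have cX' := cur_mono cX (le_max_left εX εY) (le_max_left MX MY)
  have cY' := cur_mono cY (le_max_right εX εY) (le_max_right MX MY)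
  have hL' : Real.log m = L := hL.symm
  refine HF m (le_trans (le_trans (le_max_left _ _) (le_max_right _ _)) hm) (p := p) (n := n) R s
    (max εX εY) (max MX MY) b (max AX AY) (max ArX ArY) (C₄ * Real.log m ^ 8) eX eY ηX ηX1 ηY ηY1
    ErX ErY aX aY FX FY s1 s2 R1 ?_ b1 b2 cX' cY' dX dY (max_le cX1 cY1) ?_ (le_max_of_le_left hAX0) ?_
    ?_ (fun z h1 h2 => ⟨(hFX z h1 h2).1, (hFX z h1 h2).2.trans (le_max_left _ _)⟩)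
    (fun z h1 h2 => ⟨(hFY z h1 h2).1, (hFY z h1 h2).2.trans (le_max_right _ _)⟩)
    (hEX.mono (le_max_left _ _)) (hEY.mono (le_max_right _ _)) aX0 aY0 aXm aYm haX haY ?_ ?_ ?_ ?_ cc
  · rw [hL']
    exact R2.trans hL3
  · rw [hL']
    exact (max_le cX2 cY2).trans hLk
  · rw [hL']
    exact (max_le hAX hAY).trans hLk
  · rw [hL']
    exact (max_le hArX hArY).trans hLk
  · positivity
  · rw [hL']
    exact hL9
  · rw [mG_eq]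
    exact hfin
  · rw [mG_eq]
    exact hrig


/-- **the sharp bound of the positive gas** -/
theorem sharpU (SU : NUSea.SeaBd) {ε : ℝ} (hε : 0 < ε) (hε1 : ε ≤ 1) : ∃ (δ K : ℝ) (c : ℝ → ℝ), 0 < δ ∧ δ < K ∧
    ContDiff ℝ ((⊤ : ℕ∞) : WithTop ℕ∞) c ∧ (∀ k, 0 ≤ c k) ∧ (∀ k, c (-k) = c k) ∧ (∀ k, |k| ≤ δ → c k = 0) ∧
    (∀ k, K ≤ |k| → c k = 0) ∧ (∀ k, k ≠ 0 → c k ^ 2 ≤ NUMF.Lh k) ∧
    ∀ h : ℝ, 0 < h → K * h < Real.pi → ∀ {C₁ C₂ C₃ : ℝ}, 0 < C₁ → 0 ≤ C₂ → 0 ≤ C₃ →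
      ∀ (k : ℕ) {κ e w : ℝ}, 0 < κ → 0 < e → e ≤ 1 / 4 → 0 < w → w ≤ 1 / 10 →
      ∃ (C : ℝ) (m0 : ℕ), 1 ≤ C ∧ 3 ≤ m0 ∧ ∀ m : ℕ, m0 ≤ m →
      ∀ [NUSea.Sea] [NUSea.SeaU SU], ∀ {p n : ℕ} (R s b A a M : ℝ) (τ ηX ηX1 ηY ηY1 aX aY : ℝ → ℝ),
        GD m k κ e w s R b ηX ηX1 ηY ηY1 aX aY → 0 ≤ M → M ≤ C₂ * Real.log m ^ 6 → 0 ≤ A → 1 / 2 ≤ a →
        ∫⁻ x, Wt (p := p) (n := n) ηX ηX1 ηY ηY1 aX aY x * ENNReal.ofReal (Real.exp (1 / 2 *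
          ∑ i ∈ gLa h (Xf e m), NU42.Fst c h (-(h * gM h (Xf e m))) τ i x.1 x.2 ^ 2)) ≤
          ENNReal.ofReal (A * (m : ℝ) ^ a) →
        ∫⁻ x in (Bx R)ᶜ, Wt (p := p) (n := n) ηX ηX1 ηY ηY1 aX aY x ≤ ENNReal.ofReal A →
        SqW (Wt (p := p) (n := n) ηX ηX1 ηY ηY1 aX aY) R (fun t => s * NUSea.P t)
          (ENNReal.ofReal (A * (m : ℝ) ^ a * Real.exp C₃)) (1 / (8 * (C₁ * (R + 1)))) (1 + M) →
        ∫⁻ x, Wt (p := p) (n := n) ηX ηX1 ηY ηY1 aX aY x ≤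
          ENNReal.ofReal (C * A * (m : ℝ) ^ (a - 1 / 2 + (ε + e))) := by
  obtain ⟨δ, K, η, c, hδ, hK, hη, hc1, hc2, hc3, hc4, hc5, hc6, hc7, hc8, hc9⟩ := fin hε hε1
  refine ⟨δ, K, c, hδ, hK, hc1, hc2, hc3, hc4, hc5, hc6, ?_⟩
  intro h hh hKh C₁ C₂ C₃ h1 h2 h3 k κ e w hκ he he1 hw hw1
  obtain ⟨C₀, C₄, hC0, hC4, hC⟩ := hc9 h hh hKh h1 h2 h3
  have hP : Prof δ K c := ⟨hδ, hc1, hc3, hc4, hc5⟩
  obtain ⟨m0, e', hm0, he', HD⟩ := h1_gdU SU hP hh hKh k hκ he he1 hη hw hw1 (C₄ := C₄) (by linarith)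
  have he'1 : 1 ≤ Real.exp e' := Real.one_le_exp he'
  refine ⟨C₀ * Real.exp e' + 1, m0, by nlinarith [Real.exp_pos e'], hm0, ?_⟩
  intro m hm _ _ p n R s b A a M τ ηX ηX1 ηY ηY1 aX aY D hM hM2 hA ha hup htail hsq
  have hWm : Measurable (Wt (p := p) (n := n) ηX ηX1 ηY ηY1 aX aY) := by
    obtain ⟨εX, MX, eX, cX, -⟩ := D.cX
    obtain ⟨εY, MY, eY, cY, -⟩ := D.cY
    have mη : ∀ {u : ℝ → ℝ} {u1 : ℝ → ℝ} {lam : ℝ}, O 4 lam u → (∀ t, HasDerivAt u (u1 t) t) →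
        Measurable u1 := by
      intro u u1 lam h1 h2
      obtain ⟨-, u2, h3, h4⟩ := h1
      have e1 : u2 = u1 := funext fun t => (h3 t).unique (h2 t)
      rw [← e1]
      exact h4.cont.measurable
    exact Wt_meas cX.O4.cont.measurable (mη cX.O4 D.dX) cY.O4.cont.measurable (mη cY.O4 D.dY) D.aXm D.aYm
  have hR0 : 0 ≤ R := by
    have h1 : (1:ℝ) ≤ m := by exact_mod_cast (by omega : 1 ≤ m)
    exact (Real.log_nonneg h1).trans D.R1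
  have hρ : Continuous fun t => s * NUSea.P t := continuous_const.mul NUSea.P_cont
  by_cases hr : IsFiniteMeasure (mWin R (Wt (p := p) (n := n) ηX ηX1 ηY ηY1 aX aY)) ∧
      RigB (mWin R (Wt (p := p) (n := n) ηX ηX1 ηY ηY1 aX aY)) R (fun t => s * NUSea.P t)
        (C₄ * Real.log m ^ 8)
  · obtain ⟨l, hl, hl2⟩ := HD m hm (p := p) (n := n) R s b ηX ηX1 ηY ηY1 aX aY D hr.1 hr.2
      (ccτ c h (Xf e m) τ)
    exact hC e he.le (by linarith) m (hm0.trans hm) _ R (Xf e m) A a e' M (fun t => s * NUSea.P t) τ l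
      rfl hWm hR0 D.R2 hρ hM hM2 hl hA he' ha hup htail hsq fun _ _ => hl2
  · exact hC e he.le (by linarith) m (hm0.trans hm) _ R (Xf e m) A a e' M (fun t => s * NUSea.P t) τ
      (fun _ => 0) rfl hWm hR0 D.R2 hρ hM hM2 (fun g => by simp) hA he' ha hup htail hsq
      fun q1 q2 => absurd ⟨q1, q2⟩ hr


end

end NUS4C
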