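import Pool.Agent.SeaU.Sharp
import Pool.Agent.SeaU.H0fin
import Pool.Agent.NUS4C.SharpD

/-!
# Bounds uniform in the sea: the sharp bound for the data of `H0` (`NUS4C/SharpD`)
-/

set_option autoImplicit false
set_option linter.unusedSectionVars false

open MeasureTheory Set Filter Topology

namespace NUS4C

open NUS4 (gN gM gp R1f Xf mG Wt Fi off gLa)
open NUSea.H0 (Hyp1 Shl Ex1 W0 tCU H0finU Ex1_le)
open NUH0 (Grid shF shF_nonneg)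
open NUE NUOC NUKer NUR2 NUTr NUDi
open scoped ENNReal

noncomputable section

/-- **the sharp bound for the data of `H0`** -/
theorem sharpDU (SU : NUSea.SeaBd) {ε ε' : ℝ} (hε : 0 < ε) (hε1 : ε ≤ 1) (hε' : 0 < ε') (k : ℝ) :
    ∃ C N : ℝ, 0 ≤ C ∧ 1 ≤ N ∧ ∀ {C₂ : ℝ}, 0 ≤ C₂ →
    ∀ (kk : ℕ) {κ e w : ℝ}, 0 < κ → 0 < e → e ≤ 1 / 4 → 0 < w → w ≤ 1 / 10 →
    ∃ (C' : ℝ) (m0 : ℕ), 1 ≤ C' ∧ 3 ≤ m0 ∧ ∀ m : ℕ, m0 ≤ m →
    ∀ [NUSea.Sea] [NUSea.SeaU SU], ∀ {X : NUSea.H0.Dat} {p n : ℕ} {T0 Rw ε1 c1 m2 : ℝ}, Hyp1 X p n k m T0 Rw N ε1 c1 m2 →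
    ∀ {aX aY cf B ηX ηX1 ηY ηY1 : ℝ → ℝ} {D q b : ℝ}, Shl X aX aY cf B D q →
    Crv X ηX ηX1 ηY ηY1 →
    GD m kk κ e w X.s Rw b ηX ηX1 ηY ηY1 (fun t => aX t * cf t) (fun t => aY t * cf t) →
    m2 ^ 2 + (tCU SU * k) ^ 2 ≤ C₂ * Real.log m ^ 6 →
    ∀ {E1 g : ℝ}, 0 ≤ g → g < q → (∀ T, T0 ≤ T → Ex1 X p n ε' C T ε1 ≤ E1 + g * (T - T0)) →
    Real.log m / 2 ≤ (q - g) * (Rw - T0) →
    ∫⁻ x, ENNReal.ofReal (W0 X p n aX aY cf x) ≤ ENNReal.ofReal (C' * ((p.factorial : ℝ) * n.factorial *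
      Real.exp (E1 + 176 * c1 * (Rw + N) * m2 ^ 2) * (1 + shF D q g T0)) *
      (m : ℝ) ^ (-(1 / 2 : ℝ) + (ε + e))) := by
  obtain ⟨C, N, C₁, hC, hN, hC₁, H0⟩ := H0finU SU hε' k
  obtain ⟨δ, K, ch, hδ, hK, hc1, hc2, hc3, hc4, hc5, hc6, HS⟩ := sharpU SU hε hε1
  have hKp : 0 < K := hδ.trans hK
  obtain ⟨h, hh⟩ : ∃ h : ℝ, h = 3 / K := ⟨_, rfl⟩
  have hh0 : 0 < h := by rw [hh]; positivity
  have hKh : K * h < Real.pi := by
    rw [hh, mul_div_cancel₀ _ hKp.ne']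
    exact Real.pi_gt_three
  refine ⟨C, N, hC, hN, ?_⟩
  intro C₂ hC₂ kk κ e w hκ he he1 hw hw1
  obtain ⟨C', m0, hC', hm0, HM⟩ := HS h hh0 hKh hC₁ hC₂ le_rfl kk hκ he he1 hw hw1
  refine ⟨C', m0, hC', hm0, ?_⟩
  intro m hm _ _ X p n T0 Rw ε1 c1 m2 hH aX aY cf B ηX ηX1 ηY ηY1 D q b hS hcr hG hm2 E1 g hg0 hg hEx htail
  obtain ⟨i1, i2, i3⟩ := H0 hH hS hg0 hg hEx
  have hmp : (0:ℝ) < m := by
    have : 0 < m := by omega
    exact_mod_cast this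
  have hgr : Grid ch K h :=
    ⟨hc1.continuous, hc3, hh0, hKh, fun k hk => hc5 k hk.le, fun k hk => hc6 k hk.ne'⟩
  obtain ⟨Y, hY⟩ : ∃ Y, Y = (p.factorial : ℝ) * n.factorial *
      Real.exp (E1 + 176 * c1 * (Rw + N) * m2 ^ 2) * (1 + shF D q g T0) := ⟨_, rfl⟩
  have hsh := shF_nonneg (T0 := T0) hS.D0 hg
  have hY0 : 0 ≤ Y := by rw [hY]; positivity
  have hc10 := hH.c0
  have hRN : 0 ≤ Rw + N := by
    have := hH.T0p
    have := hH.T0R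
    linarith
  have hmm : (m : ℝ) ^ (-(1 / 2 : ℝ)) * (m : ℝ) ^ (1 / 2 : ℝ) = 1 := by
    rw [← Real.rpow_add hmp]
    norm_num
  have hWt : ∀ x : Cfg p n, Wt ηX ηX1 ηY ηY1 (fun t => aX t * cf t) (fun t => aY t * cf t) x =
      ENNReal.ofReal (W0 X p n aX aY cf x) := by
    intro x
    unfold W0
    rw [hcr.dX, hcr.dX1, hcr.dY, hcr.dY1]
  have key := HM m hm (p := p) (n := n) Rw X.s b (Y * (m : ℝ) ^ (-(1 / 2 : ℝ))) (1 / 2)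
    (m2 ^ 2 + (tCU SU * k) ^ 2) X.τ ηX ηX1 ηY ηY1 (fun t => aX t * cf t) (fun t => aY t * cf t) hG (by positivity)
    hm2 (by positivity) le_rfl ?_ ?_ ?_
  · simp only [hWt] at key
    refine key.trans (ENNReal.ofReal_le_ofReal (le_of_eq ?_))
    rw [← hY]
    have e1 : (m : ℝ) ^ (1 / 2 - 1 / 2 + (ε + e)) = (m : ℝ) ^ (ε + e) := by norm_num
    have e2 : (m : ℝ) ^ (-(1 / 2 : ℝ) + (ε + e)) = (m : ℝ) ^ (-(1 / 2 : ℝ)) * (m : ℝ) ^ (ε + e) :=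
      Real.rpow_add hmp _ _
    rw [e1, e2]
    ring
  · simp only [hWt]
    refine (i1 hgr (gLa h (Xf e m)) (-(h * gM h (Xf e m)))).trans (ENNReal.ofReal_le_ofReal ?_)
    rw [← hY, mul_assoc, hmm, mul_one]
  · simp only [hWt]
    refine i2.trans (ENNReal.ofReal_le_ofReal ?_)
    have h1 : Real.exp (-(q - g) * (Rw - T0)) ≤ (m : ℝ) ^ (-(1 / 2 : ℝ)) := by
      rw [Real.rpow_def_of_pos hmp]
      refine Real.exp_le_exp.2 ?_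
      nlinarith
    rw [hY]
    calc (p.factorial : ℝ) * n.factorial * Real.exp (E1 + 176 * c1 * (Rw + N) * m2 ^ 2) *
          (Real.exp (-(q - g) * (Rw - T0)) * shF D q g T0)
        ≤ (p.factorial : ℝ) * n.factorial * Real.exp (E1 + 176 * c1 * (Rw + N) * m2 ^ 2) *
          ((m : ℝ) ^ (-(1 / 2 : ℝ)) * (1 + shF D q g T0)) := by
          gcongr
          linarith
      _ = _ := by ring
  · have h3 : SqW (p := p) (n := n) (fun x => ENNReal.ofReal (W0 X p n aX aY cf x)) Rw X.ρ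
        (ENNReal.ofReal ((p.factorial : ℝ) * n.factorial * Real.exp E1 * (1 + shF D q g T0)))
        (1 / (8 * (C₁ * (Rw + 1)))) (m2 ^ 2 + (tCU SU * k) ^ 2) := i3
    have h4 := h3.mono (g' := Wt (p := p) (n := n) ηX ηX1 ηY ηY1 (fun t => aX t * cf t)
      (fun t => aY t * cf t)) (fun x _ => le_of_eq (hWt x))
      (B' := ENNReal.ofReal (Y * (m : ℝ) ^ (-(1 / 2 : ℝ)) * (m : ℝ) ^ (1 / 2 : ℝ) * Real.exp 0))
      (ENNReal.ofReal_le_ofReal (by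
        rw [mul_assoc Y, hmm, mul_one, Real.exp_zero, mul_one, hY]
        have h5 : Real.exp E1 ≤ Real.exp (E1 + 176 * c1 * (Rw + N) * m2 ^ 2) := by
          refine Real.exp_le_exp.2 ?_
          have : 0 ≤ 176 * c1 * (Rw + N) * m2 ^ 2 := by positivity
          linarith
        gcongr))
    exact h4.monoC le_rfl (by linarith)


end

end NUS4C
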