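import Pool.Agent.NUSea.H0.ShlC
import Pool.Agent.SeaU.DefC

/-!
# Bounds uniform in the sea: `NUSea/H0/ShlC` (helper35)

Copies of the existential bounds of `NUSea/H0/ShlC` with constants which depend on `SU : SeaBd` only.
-/

set_option autoImplicit false
set_option linter.unusedSectionVars false
set_option linter.unusedVariables false

open MeasureTheory Set Filter Topology
open scoped Real ENNReal

namespace NUSea.H0

open NUH0 NU42 NU42.PhiB
open NUMF NUWC NUKer NUDi NUMFC NUR2
open NUSea (Sea SeaBd SeaU)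

noncomputable section


/-- **the far factor**: a bump `b` at the end of the window such that the cutoff times the far factor
has the majorant `e^{B + b}` and decays -/
theorem exists_farU (SU : SeaBd) {Cc : ℝ} (hCc : 1 ≤ Cc) : ∃ C : ℝ, 1 ≤ C ∧ ∀ [Sea] [SeaU SU], ∀ T1 : ℝ, 1 ≤ T1 →
    ∃ b b' : ℝ → ℝ, ContDiff ℝ 4 b ∧ (∀ t, HasDerivAt b (b' t) t) ∧ (∀ t, 0 ≤ b t) ∧ (∀ t, b t ≤ C) ∧
      (∀ t, |b' t| ≤ C) ∧ (∀ t, |t| < T1 - 1 → b t = 0) ∧
      Integrable (fun t => b t ^ 2 + b' t ^ 2) ∧ (∫ t, b t ^ 2 + b' t ^ 2) ≤ C ∧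
      (∀ M : ℝ, 0 ≤ M → M * Real.exp (-(8 / 3) * T1) ≤ 1 →
        Integrable (fun t => M * P t * b t) ∧ (∫ t, M * P t * b t) ≤ C) ∧
      ∀ {cf B : ℝ → ℝ} {a D x : ℝ}, 13 / 5 ≤ a → 0 ≤ x → (∀ t, 0 ≤ cf t) → (∀ t, 0 ≤ B t) →
        (∀ t, cf t ≤ Real.exp (B t)) → (∀ t, cf t ≤ 2) → (∀ t, cf t ≤ D * Real.exp (-a * |t|)) →
        D * Real.exp (-a * T1) ≤ 1 → ∀ t,
        cf t * hfar Cc T1 x t ≤ Real.exp (B t + b t) ∧
        cf t * hfar Cc T1 x t ≤ (2 + Cc) * Real.exp (37 / 20 * x) * Real.exp (49 / 20 * T1) *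
          Real.exp (-(49 / 20) * |t|) := by
  obtain ⟨Cs, hCs0, hCs⟩ := exists_sig
  obtain ⟨q, hq0, hPle⟩ := P_leU SU
  obtain ⟨K, hK⟩ : ∃ K : ℝ, K = Real.log Cc := ⟨_, rfl⟩
  have hK0 : 0 ≤ K := by rw [hK]; exact Real.log_nonneg hCc
  have hKe : Real.exp K = Cc := by rw [hK]; exact Real.exp_log (by linarith)
  obtain ⟨W, hW⟩ : ∃ W : ℝ, W = 2 * K := ⟨_, rfl⟩
  have hW0 : 0 ≤ W := by rw [hW]; positivity
  obtain ⟨Q, hQ⟩ : ∃ Q : ℝ, Q = (2 * K) ^ 2 + (K * (4 * Cs)) ^ 2 := ⟨_, rfl⟩
  have hQ0 : 0 ≤ Q := by rw [hQ]; positivity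
  obtain ⟨Z, hZ⟩ : ∃ Z : ℝ, Z = q * Real.exp (8 / 3) * (2 * K) := ⟨_, rfl⟩
  have hZ0 : 0 ≤ Z := by rw [hZ]; positivity
  have a1 : 0 ≤ Q * (2 * (W + 2)) := by positivity
  have a2 : 0 ≤ Z * (2 * (W + 2)) := by positivity
  have a3 : 0 ≤ K * (4 * Cs) := by positivity
  refine ⟨1 + 2 * K + K * (4 * Cs) + Q * (2 * (W + 2)) + Z * (2 * (W + 2)), by linarith, ?_⟩
  intro _ _ T1 hT1
  have hb2 : ∀ t, bf K W T1 t ≤ 2 * K := fun t => by
    unfold bf
    have h1 := bp_le W (t - T1)
    have h2 := bp_le W (-t - T1)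
    nlinarith
  have hb0 : ∀ t, 0 ≤ bf K W T1 t := fun t => by
    unfold bf
    have h1 := bp_nonneg W (t - T1)
    have h2 := bp_nonneg W (-t - T1)
    positivity
  have hp1 : ∀ y, |bp1 W y| ≤ 2 * Cs := by
    intro y
    unfold bp1
    refine (abs_add_le _ _).trans ?_
    rw [abs_mul, abs_mul, abs_neg]
    have h1 := hCs (y + 1)
    have h2 := hCs (W + 1 - y)
    have h3 := Real.smoothTransition.le_one (y + 1)
    have h4 := Real.smoothTransition.le_one (W + 1 - y)
    have h5 := Real.smoothTransition.nonneg (y + 1)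
    have h6 := Real.smoothTransition.nonneg (W + 1 - y)
    rw [abs_of_nonneg h5, abs_of_nonneg h6]
    have h7 : |deriv Real.smoothTransition (y + 1)| * Real.smoothTransition (W + 1 - y) ≤ Cs * 1 := by
      gcongr
    have h8 : Real.smoothTransition (y + 1) * |deriv Real.smoothTransition (W + 1 - y)| ≤ 1 * Cs := by
      gcongr
    linarith
  have hb1 : ∀ t, |bf1 K W T1 t| ≤ K * (4 * Cs) := fun t => by
    unfold bf1
    rw [abs_mul, abs_of_nonneg hK0]
    refine mul_le_mul_of_nonneg_left ?_ hK0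
    have h1 := hp1 (t - T1)
    have h2 := hp1 (-t - T1)
    have h3 := abs_sub (bp1 W (t - T1)) (bp1 W (-t - T1))
    linarith
  have hcd : ContDiff ℝ 4 (bf K W T1) := by
    have h1 : ContDiff ℝ 4 fun t : ℝ => bp W (t - T1) := (bp_contDiff W).comp (by fun_prop)
    have h2 : ContDiff ℝ 4 fun t : ℝ => bp W (-t - T1) := (bp_contDiff W).comp (by fun_prop)
    exact contDiff_const.mul (h1.add h2)
  have hcb : Continuous (bf K W T1) := hcd.continuous
  have hcb1 : Continuous (bf1 K W T1) := by
    have h1 := bp1_cont W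
    unfold bf1
    fun_prop
  refine ⟨bf K W T1, bf1 K W T1, hcd, bf_hd K W T1, hb0, ?_, ?_, ?_, ?_, ?_, ?_, ?_⟩
  · intro t
    have := hb2 t
    linarith
  · intro t
    have := hb1 t
    linarith
  · intro t ht
    refine (bf_out fun h => ?_).1
    have := bS_abs h
    linarith
  · refine (bS_int (W := W) (T1 := T1) hW0 hQ0
      (f := fun t => bf K W T1 t ^ 2 + bf1 K W T1 t ^ 2) ((hcb.pow 2).add (hcb1.pow 2)) (fun t ht => ?_)
      fun t _ => ?_).1
    · obtain ⟨h1, h2⟩ := bf_out (K := K) ht
      rw [h1, h2]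
      ring
    · rw [abs_of_nonneg (by positivity), hQ]
      have h1 := hb2 t
      have h2 := hb1 t
      have h3 := hb0 t
      have h4 : bf1 K W T1 t ^ 2 ≤ (K * (4 * Cs)) ^ 2 := sq_le_sq' (by linarith [(abs_le.1 h2).1])
        (abs_le.1 h2).2
      have h5 : bf K W T1 t ^ 2 ≤ (2 * K) ^ 2 := pow_le_pow_left₀ h3 h1 2
      linarith
  · refine le_trans (bS_int (W := W) (T1 := T1) hW0 hQ0
      (f := fun t => bf K W T1 t ^ 2 + bf1 K W T1 t ^ 2) ((hcb.pow 2).add (hcb1.pow 2)) (fun t ht => ?_)
      fun t _ => ?_).2 (by linarith)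
    · obtain ⟨h1, h2⟩ := bf_out (K := K) ht
      rw [h1, h2]
      ring
    · rw [abs_of_nonneg (by positivity), hQ]
      have h1 := hb2 t
      have h2 := hb1 t
      have h3 := hb0 t
      have h4 : bf1 K W T1 t ^ 2 ≤ (K * (4 * Cs)) ^ 2 := sq_le_sq' (by linarith [(abs_le.1 h2).1])
        (abs_le.1 h2).2
      have h5 : bf K W T1 t ^ 2 ≤ (2 * K) ^ 2 := pow_le_pow_left₀ h3 h1 2
      linarith
  · intro M hM hMT
    obtain ⟨g1, g2⟩ := bS_int (W := W) (T1 := T1) hW0 hZ0
      (f := fun t => M * P t * bf K W T1 t) ((continuous_const.mul P_cont).mul hcb) (fun t ht => by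
        rw [(bf_out (K := K) ht).1, mul_zero]) (fun t ht => by
        have h1 := hPle t
        have h2 := bS_abs ht
        have h3 := hb0 t
        have h4 := hb2 t
        have h5 := (P_pos t).le
        rw [abs_of_nonneg (by positivity)]
        have h6 : M * P t ≤ q * Real.exp (8 / 3) := by
          have h7 : Real.exp (-(8 / 3) * |t|) ≤ Real.exp (-(8 / 3) * T1) * Real.exp (8 / 3) := by
            rw [← Real.exp_add]
            exact Real.exp_le_exp.2 (by linarith)
          calc M * P t ≤ M * (q * (Real.exp (-(8 / 3) * T1) * Real.exp (8 / 3))) := by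
                refine mul_le_mul_of_nonneg_left (h1.trans ?_) hM
                gcongr
            _ = q * Real.exp (8 / 3) * (M * Real.exp (-(8 / 3) * T1)) := by ring
            _ ≤ q * Real.exp (8 / 3) * 1 := by gcongr
            _ = _ := mul_one _
        rw [hZ]
        exact mul_le_mul h6 h4 h3 (by positivity))
    exact ⟨g1, by linarith⟩
  · intro cf B a D x ha hx hcf0 hB0 hcB hc2 hcD hD t
    rcases le_or_gt |t| T1 with ht | ht
    · rw [hfar_in ht, mul_one]
      constructor
      · refine (hcB t).trans (Real.exp_le_exp.2 ?_)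
        linarith [hb0 t]
      · refine (hc2 t).trans ?_
        have h1 : 1 ≤ Real.exp (37 / 20 * x) := Real.one_le_exp (by positivity)
        have h2 : 1 ≤ Real.exp (49 / 20 * T1) * Real.exp (-(49 / 20) * |t|) := by
          rw [← Real.exp_add]
          exact Real.one_le_exp (by linarith)
        calc (2 : ℝ) ≤ (2 + Cc) * 1 * 1 := by linarith
          _ ≤ (2 + Cc) * Real.exp (37 / 20 * x) * (Real.exp (49 / 20 * T1) *
              Real.exp (-(49 / 20) * |t|)) := by gcongr
          _ = _ := by ring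
    · rw [hfar_out ht]
      obtain ⟨y, hy⟩ : ∃ y : ℝ, y = |t| - T1 := ⟨_, rfl⟩
      have hy0 : 0 < y := by rw [hy]; linarith
      rw [← hy]
      have hcy : cf t ≤ Real.exp (-a * y) := by
        calc cf t ≤ D * Real.exp (-a * |t|) := hcD t
          _ = D * Real.exp (-a * T1) * Real.exp (-a * y) := by
              rw [mul_assoc, ← Real.exp_add, hy]
              congr 2
              ring
          _ ≤ 1 * Real.exp (-a * y) := by gcongr
          _ = _ := one_mul _
      have hm1 : min y x ≤ y := min_le_left _ _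
      have hm2 : min y x ≤ x := min_le_right _ _
      have hCc0 : 0 ≤ Cc := by linarith
      have hkey : cf t * (Cc * Real.exp (2 * min y x)) ≤ Cc * Real.exp (2 * min y x - a * y) := by
        calc cf t * (Cc * Real.exp (2 * min y x)) ≤ Real.exp (-a * y) * (Cc * Real.exp (2 * min y x)) := by
              gcongr
          _ = Cc * Real.exp (2 * min y x - a * y) := by
              rw [show 2 * min y x - a * y = -a * y + 2 * min y x by ring, Real.exp_add]
              ring
      constructor
      · refine hkey.trans ?_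
        rw [← hKe, ← Real.exp_add]
        refine Real.exp_le_exp.2 ?_
        have h1 := hB0 t
        have h2 := hb0 t
        have h3 : 2 * min y x - a * y ≤ -(3 / 5) * y := by nlinarith
        rcases le_or_gt y W with hyW | hyW
        · have h4 : K ≤ bf K W T1 t := by
            unfold bf
            have p1 := bp_nonneg W (t - T1)
            have p2 := bp_nonneg W (-t - T1)
            rcases le_or_gt 0 t with h5 | h5
            · rw [abs_of_nonneg h5] at hy
              rw [← hy, bp_one hy0.le hyW]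
              nlinarith
            · rw [abs_of_neg h5] at hy
              rw [← hy, bp_one hy0.le hyW]
              nlinarith
          linarith
        · rw [hW] at hyW
          linarith
      · refine hkey.trans ?_
        have h3 : 2 * min y x - a * y ≤ 37 / 20 * x - 49 / 20 * y := by
          rcases le_total y x with h | h
          · rw [min_eq_left h]
            nlinarith
          · rw [min_eq_right h]
            nlinarith
        calc Cc * Real.exp (2 * min y x - a * y) ≤ (2 + Cc) * Real.exp (37 / 20 * x - 49 / 20 * y) := by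
              gcongr
              linarith
          _ = _ := by
              rw [mul_assoc, mul_assoc, ← Real.exp_add, ← Real.exp_add, hy]
              congr 2
              ring

end

end NUSea.H0
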