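import Pool.Agent.PotH.ShlH
import Pool.Agent.SeaU.DefH
import Pool.Agent.SeaU.ShlC

/-!
# Bounds uniform in the sea: `PotH/ShlH` (helper35)

Copies of the existential bounds of `PotH/ShlH` with constants which depend on `SU : SeaBd` only.
-/

set_option autoImplicit false
set_option linter.unusedSectionVars false
set_option linter.unusedVariables false

open MeasureTheory Set Filter Topology

namespace PotH

open NUMF
open NUO (Xo ht Par Tb TW excS chgO)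
open NUSea.H0 (Inp Gd TG BF cfP hfar aR datO DatC cstF Geo Shl)
open NUSp (DD kfar)
open NUGC (pE qE CcF CcF_one SC chG gP muS tauS FamOk pE_re pE_im qE_re qE_im dom_fam)
open NUSea (Sea SeaBd SeaU)

noncomputable section

variable {G : ℕ}

/-- **the cutoff of the rows with the far factor** -/
theorem exists_cfAU (SU : SeaBd) {Cc : ℝ} (hCc : 1 ≤ Cc) : ∃ W : ℝ, 1 ≤ W ∧ ∀ ep : ℝ, 0 < ep → ep ≤ 1 / 100 →
    ∀ C0 : ℝ, 1 ≤ C0 → ∃ C : ℝ, 1 ≤ C ∧ ∃ m0 : ℕ, 1 ≤ m0 ∧ ∀ [Sea] [SeaU SU], ∀ (m : ℕ) (T1 : ℝ), m0 ≤ m →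
    (1 + 2 * ep) * (3 / 8 * Real.log m) ≤ T1 → ∀ (b : ℝ) (cr Bc Bc' : ℝ → ℝ),
    CutR ep C0 b m cr Bc Bc' →
    ∃ B B' : ℝ → ℝ, ContDiff ℝ 1 B ∧ (∀ t, HasDerivAt B (B' t) t) ∧ Continuous B' ∧ (∀ t, 0 ≤ B t) ∧
      (∀ t, B t ≤ W) ∧
      Integrable (fun t => (m : ℝ) * NUSea.P t * B t) ∧ (∫ t, (m : ℝ) * NUSea.P t * B t) ≤ C ∧
      Integrable (fun t => B t ^ 2 + B' t ^ 2) ∧ (∫ t, B t ^ 2 + B' t ^ 2) ≤ C ∧
      ∀ x : ℝ, 0 ≤ x → ∀ t,
        0 ≤ cr t * hfar Cc T1 x t ∧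
        cr t * hfar Cc T1 x t ≤ Real.exp (B t) ∧
        cr t * hfar Cc T1 x t ≤
          (2 + Cc) * Real.exp (37 / 20 * x) * Real.exp (49 / 20 * T1) *
            Real.exp (-(49 / 20) * |t|) := by
  obtain ⟨C2, hC2, hF⟩ := NUSea.H0.exists_farU SU hCc
  refine ⟨1 + C2, by linarith, fun ep h0 h1 C0 hC0 => ?_⟩
  obtain ⟨m0, hm0, hnum⟩ := @NUSea.H0.far_num NUSea.seaP ep C0 h0 h1
  refine ⟨2 * C0 + 2 * C2 + 1, by linarith, max ⌈max m0 (Real.exp 3)⌉₊ 1, le_max_right _ _, ?_⟩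
  intro _ _ m T1 hm hT1 bw cr B B' hcut
  have hmr : max m0 (Real.exp 3) ≤ m :=
    (Nat.le_ceil _).trans (by exact_mod_cast (le_max_left _ _).trans hm)
  have hmm : m0 ≤ (m : ℝ) := (le_max_left _ _).trans hmr
  have hL : 3 ≤ Real.log m := by
    have h2 := (le_max_right m0 (Real.exp 3)).trans hmr
    rw [Real.le_log_iff_exp_le (by linarith [Real.exp_pos 3])]
    exact h2
  have hT : 1 ≤ T1 := by nlinarith
  obtain ⟨n1, n2⟩ := hnum m m T1 hmm (Nat.cast_nonneg _) le_rfl hT1 (by linarith)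
  obtain ⟨b, b', k1, k2, k3, k4, k5, k6, k7, k8, k9, k10⟩ := hF T1 hT
  obtain ⟨k91, k92⟩ := k9 m (Nat.cast_nonneg _) n2
  have hb' : b' = deriv b := funext fun t => (k2 t).deriv.symm
  have hbc' : Continuous b' := by
    rw [hb']
    exact k1.continuous_deriv (by norm_num)
  have hBc : Continuous B := continuous_iff_continuousAt.2 fun t => (hcut.Bd t).continuousAt
  have hBC : ContDiff ℝ 1 B := by
    rw [contDiff_one_iff_deriv]
    refine ⟨fun t => (hcut.Bd t).differentiableAt, ?_⟩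
    have : deriv B = B' := funext fun t => (hcut.Bd t).deriv
    rw [this]
    exact hcut.Bcc
  have hsq : ∀ t, (B t + b t) ^ 2 + (B' t + b' t) ^ 2 ≤
      2 * (B t ^ 2 + B' t ^ 2) + 2 * (b t ^ 2 + b' t ^ 2) := fun t => by
    nlinarith [sq_nonneg (B t - b t), sq_nonneg (B' t - b' t)]
  have hI : Integrable fun t => 2 * (B t ^ 2 + B' t ^ 2) + 2 * (b t ^ 2 + b' t ^ 2) :=
    (hcut.EI.const_mul 2).add (k7.const_mul 2)
  have hcont : Continuous fun t => (B t + b t) ^ 2 + (B' t + b' t) ^ 2 :=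
    ((hBc.add k1.continuous).pow 2).add ((hcut.Bcc.add hbc').pow 2)
  have hI2 : Integrable fun t => (B t + b t) ^ 2 + (B' t + b' t) ^ 2 := by
    refine hI.mono' hcont.aestronglyMeasurable (ae_of_all _ fun t => ?_)
    rw [Real.norm_eq_abs, abs_of_nonneg (by positivity)]
    exact hsq t
  have hMP : (fun t => (m : ℝ) * NUSea.P t * (B t + b t)) =
      fun t => (m : ℝ) * NUSea.P t * B t + m * NUSea.P t * b t := funext fun t => by ring
  refine ⟨fun t => B t + b t, fun t => B' t + b' t, hBC.add (k1.of_le (by norm_num)),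
    fun t => (hcut.Bd t).add (k2 t),
    hcut.Bcc.add hbc', fun t => add_nonneg (hcut.B0 t) (k3 t), ?_, ?_, ?_, hI2, ?_, ?_⟩
  · intro t
    have e1 := hcut.B1 t
    have e2 := k4 t
    show B t + b t ≤ _
    linarith
  · rw [hMP]
    exact hcut.PI.add k91
  · rw [hMP, integral_add hcut.PI k91]
    have := hcut.PC
    linarith
  · calc ∫ t, (B t + b t) ^ 2 + (B' t + b' t) ^ 2 ≤
          ∫ t, (2 * (B t ^ 2 + B' t ^ 2) + 2 * (b t ^ 2 + b' t ^ 2)) := integral_mono hI2 hI hsq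
      _ = 2 * (∫ t, B t ^ 2 + B' t ^ 2) + 2 * ∫ t, b t ^ 2 + b' t ^ 2 := by
          rw [integral_add (hcut.EI.const_mul 2) (k7.const_mul 2), integral_const_mul,
            integral_const_mul]
      _ ≤ _ := by
          have := hcut.EC
          linarith
  · intro x hx t
    obtain ⟨e1, e2⟩ := k10 (cf := cr) (B := B) (a := 8 / 3 * (1 - ep))
      (D := C0 * m) (x := x) (by linarith) hx hcut.nn hcut.B0 hcut.le hcut.le2 hcut.dec n1 t
    exact ⟨mul_nonneg (hcut.nn t) (NUSea.H0.hfar_nonneg (by linarith) t), e1, e2⟩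

/-- **the field `shl` of `DatGH`** -/
theorem exists_shlHU (SU : SeaBd) (G : ℕ) : ∃ W : ℝ, 1 ≤ W ∧ ∀ ep : ℝ, 0 < ep → ep ≤ 1 / 100 →
    ∀ e1 : ℝ, 0 < e1 → e1 ≤ 1 / 100 → ∀ C0 : ℝ, 1 ≤ C0 →
    ∃ C : ℝ, 1 ≤ C ∧ ∃ m0 : ℕ, 1 ≤ m0 ∧ ∀ m : ℕ, m0 ≤ m →
    ∀ [Sea] [SeaU SU], 0 ≤ TW ep e1 m ∧
    ∀ T1 : ℝ, TW ep e1 m ≤ T1 → ∀ (bw : ℝ) (cr Bc Bc' : ℝ → ℝ), CutR ep C0 bw m cr Bc Bc' →
    ∃ B B' : ℝ → ℝ, ContDiff ℝ 1 B ∧ (∀ t, HasDerivAt B (B' t) t) ∧ Continuous B' ∧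
      (∀ t, 0 ≤ B t) ∧ (∀ t, B t ≤ W) ∧
      Integrable (fun t => (m : ℝ) * NUSea.P t * B t) ∧ (∫ t, (m : ℝ) * NUSea.P t * B t) ≤ C ∧
      Integrable (fun t => B t ^ 2 + B' t ^ 2) ∧ (∫ t, B t ^ 2 + B' t ^ 2) ≤ C ∧
      ∀ (η η1 : ℝ → ℝ), (∀ t, HasDerivAt η (η1 t) t) → (∀ t, |η t| ≤ 1 / 40) →
        ∀ (x : ℝ) (g : Fin G → Gd), FamOk T1 x g → ∀ (b' : ℝ) (H H' : Bool → ℝ → ℝ),
        (∀ a t, HasDerivAt (H a) (H' a t) t) → ∀ (P : Par) (r : ℕ) (O : Fin r → Xo)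
        (Cκ : ℝ), Geo (datO (inH η η1 m T1 b' g B H) P O) Cκ →
        Shl (datO (inH η η1 m T1 b' g B H) P O)
          (aR (datO (inH η η1 m T1 b' g B H) P O) (raH η T1 b' g H) true)
          (aR (datO (inH η η1 m T1 b' g B H) P O) (raH η T1 b' g H) false)
          (cfH cr G T1 x) B (DH ep e1 m G x) (49 / 20) := by
  obtain ⟨W, hW, HW⟩ := exists_cfAU SU (CcF_one G)
  refine ⟨W, hW, fun ep h0 h1 e1 he he1 C0 hC0 => ?_⟩
  obtain ⟨C, hC, m0, hm0, HH⟩ := HW ep h0 h1 C0 hC0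
  refine ⟨C, hC, m0, hm0, fun m hm _ _ => ?_⟩
  have hm1 : (1 : ℝ) ≤ m := by exact_mod_cast hm0.trans hm
  have hlog : 0 ≤ Real.log m := Real.log_nonneg hm1
  have hTW0 : (1 + 2 * ep) * (3 / 8 * Real.log m) ≤ TW ep e1 m := by
    unfold TW Tb
    nlinarith
  have hTWn : 0 ≤ TW ep e1 m := by
    refine le_trans ?_ hTW0
    positivity
  have hl40 : (1 : ℝ) / 40 < NUMF.l / 5 := by
    unfold NUMF.l
    linarith [Real.pi_gt_d2]
  refine ⟨hTWn, fun T1 hT1 bw cr Bc Bc' hcut => ?_⟩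
  obtain ⟨B, B', g1, g2, g3, g4, g5, g8, g9, g10, g11, g12⟩ :=
    HH m T1 hm (hTW0.trans hT1) bw cr Bc Bc' hcut
  obtain ⟨_, _, _, _, _, _, _, _, _, _, _, g13⟩ := HH m (TW ep e1 m) hm hTW0 bw cr Bc Bc' hcut
  refine ⟨B, B', g1, g2, g3, g4, g5, g8, g9, g10, g11,
    fun η η1 hd hηε x g hF b' H H' hH P r O Cκ hG => ?_⟩
  have hmeas : Measurable (cfH cr G T1 x) := hcut.meas.mul (NUSea.H0.hfar_meas _ _ _)
  refine NUSea.H0.shl_gen hG (DH_nonneg _ _ _ _ _) (by norm_num) hmeas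
    g1.continuous.measurable (fun t => (g12 x hF.x0 t).1) g4 (fun t => (g12 x hF.x0 t).2.1)
    (fun t => ?_) (fun a => ?_) fun a t => ?_
  · exact (mul_le_mul_of_nonneg_left (hfar_anti' (CcF_one G) hF.x0 hT1 t) (hcut.nn t)).trans
      (g13 x hF.x0 t).2.2
  · have hdd : Continuous (BF T1 g η a) :=
      continuous_iff_continuousAt.2 fun t => (NUSea.H0.hasDerivAt_BF g T1 a
        ((hηε t).trans_lt hl40) (hd t)).continuousAt
    have hHc : Continuous (H a) := continuous_iff_continuousAt.2 fun t => (hH a t).continuousAt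
    exact ((hdd.add hHc).sub continuous_const).measurable
  · have h2 : (datO (inH η η1 m T1 b' g B H) P O).E a t =
        NUH0.slO O a t + (B t + BF T1 g η a t + H a t - b' / 2) := rfl
    have h3 : raH η T1 b' g H a t = BF T1 g η a t + H a t - b' / 2 := rfl
    rw [h2, h3]
    linarith [NUO.slO_nonneg O a t]

end

end PotH
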